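import Pool.Agent.Helper40.CB.HypShell

set_option autoImplicit false

namespace Pool.Agent.Helper40.CB

open Finset Matrix Module

theorem pigeon_pos {α : Type} [DecidableEq α] (C : Finset α) (u : ℕ) (hu : 1 ≤ u)
    (hC : 2 * u ≤ C.card + 1) (f : α → ℚ)
    (h : ∀ U ⊆ C, U.card = u → ∃ g : α → ℚ, (∀ i ∈ U, 0 < g i) ∧ ∑ i ∈ U, g i * f i = 0)
    (i : α) (hi : i ∈ C) : ¬ 0 < f i := by
  intro hf
  by_cases hP : u ≤ (C.filter (fun j => 0 ≤ f j)).card
  · obtain ⟨U, hU1, hU2, hU3⟩ := Finset.exists_subsuperset_card_eq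
      (s := {i}) (t := C.filter (fun j => 0 ≤ f j)) (n := u)
      (by simpa using ⟨hi, hf.le⟩) (by simpa using hu) hP
    obtain ⟨g, hg, hs⟩ := h U (hU2.trans (Finset.filter_subset _ _)) hU3
    have hpos : 0 < ∑ i ∈ U, g i * f i := by
      apply Finset.sum_pos'
      · intro j hj
        exact mul_nonneg (hg j hj).le (Finset.mem_filter.1 (hU2 hj)).2
      · have hiU : i ∈ U := hU1 (by simp)
        exact ⟨i, hiU, mul_pos (hg i hiU) hf⟩
    linarith
  · have hN : u ≤ (C.filter (fun j => ¬ 0 ≤ f j)).card := by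
      have := Finset.card_filter_add_card_filter_not (s := C) (fun j => 0 ≤ f j)
      omega
    obtain ⟨U, hU1, hU2⟩ := Finset.exists_subset_card_eq hN
    obtain ⟨g, hg, hs⟩ := h U (hU1.trans (Finset.filter_subset _ _)) hU2
    have hneg : ∑ i ∈ U, g i * f i < 0 := by
      apply Finset.sum_neg
      · intro j hj
        have h1 := (Finset.mem_filter.1 (hU1 hj)).2
        exact mul_neg_of_pos_of_neg (hg j hj) (not_le.1 h1)
      · rw [← Finset.card_pos, hU2]; omega
    linarith

theorem pigeon {α : Type} [DecidableEq α] (C : Finset α) (u : ℕ) (hu : 1 ≤ u)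
    (hC : 2 * u ≤ C.card + 1) (f : α → ℚ)
    (h : ∀ U ⊆ C, U.card = u → ∃ g : α → ℚ, (∀ i ∈ U, 0 < g i) ∧ ∑ i ∈ U, g i * f i = 0)
    (i : α) (hi : i ∈ C) : f i = 0 := by
  apply le_antisymm
  · exact not_lt.1 (pigeon_pos C u hu hC f h i hi)
  · have h2 := pigeon_pos C u hu hC (fun j => - f j) (fun U hU hc => by
      obtain ⟨g, hg, hs⟩ := h U hU hc
      refine ⟨g, hg, ?_⟩
      simp only [mul_neg, Finset.sum_neg_distrib, hs, neg_zero]) i hi
    linarith [not_lt.1 h2]

/-- normal vectors of the facets and the vertices of a realization of the hypersimplex -/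
structure Cfg (n k d : ℕ) where
  w : Fin n × Bool → (Fin d → ℚ)
  b : Fin n × Bool → ℚ
  p : Finset (Fin n) → (Fin d → ℚ)
  hn : n = d + 1
  hk : 2 ≤ k
  hkn : 2 * k ≤ n
  le : ∀ A : Finset (Fin n), A.card = k → ∀ ρ, w ρ ⬝ᵥ p A ≤ b ρ
  eq_iff : ∀ A : Finset (Fin n), A.card = k → ∀ ρ, w ρ ⬝ᵥ p A = b ρ ↔ ρ ∈ sgn A

namespace Cfg

variable {n k d : ℕ} (C : Cfg n k d)

/-- slack -/
def s (ρ : Fin n × Bool) (A : Finset (Fin n)) : ℚ := C.b ρ - C.w ρ ⬝ᵥ C.p A

theorem s_pos {ρ : Fin n × Bool} {A : Finset (Fin n)} (hA : A.card = k) (h : ρ ∉ sgn A) :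
    0 < C.s ρ A := by
  have h1 := C.le A hA ρ
  have h2 : C.w ρ ⬝ᵥ C.p A ≠ C.b ρ := fun h3 => h ((C.eq_iff A hA ρ).1 h3)
  exact sub_pos.2 (lt_of_le_of_ne h1 h2)

theorem s_zero {ρ : Fin n × Bool} {A : Finset (Fin n)} (hA : A.card = k) (h : ρ ∈ sgn A) :
    C.s ρ A = 0 := sub_eq_zero.2 ((C.eq_iff A hA ρ).2 h).symm

theorem dot_sum {x : Fin n × Bool → ℚ} (hx : ∑ ρ, x ρ • C.w ρ = 0) (A : Finset (Fin n)) :
    ∑ ρ, x ρ * (C.w ρ ⬝ᵥ C.p A) = 0 := by
  have : (∑ ρ, x ρ • C.w ρ) ⬝ᵥ C.p A = 0 := by rw [hx, zero_dotProduct]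
  rw [sum_dotProduct] at this
  simpa [smul_dotProduct] using this

theorem s_sum {x : Fin n × Bool → ℚ} (hx : ∑ ρ, x ρ • C.w ρ = 0) (hb : ∑ ρ, x ρ * C.b ρ = 0)
    (A : Finset (Fin n)) : ∑ ρ, x ρ * C.s ρ A = 0 := by
  simp only [s, mul_sub, Finset.sum_sub_distrib, hb, C.dot_sum hx A, sub_zero]

theorem b_sum {x : Fin n × Bool → ℚ} {A : Finset (Fin n)} (hA : A.card = k)
    (hsup : ∀ ρ, ρ ∉ sgn A → x ρ = 0) (hx : ∑ ρ, x ρ • C.w ρ = 0) : ∑ ρ, x ρ * C.b ρ = 0 := by
  have h1 : ∑ ρ, x ρ * C.s ρ A = 0 := by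
    refine Finset.sum_eq_zero fun ρ _ => ?_
    by_cases h : ρ ∈ sgn A
    · rw [C.s_zero hA h, mul_zero]
    · rw [hsup ρ h, zero_mul]
  simp only [s, mul_sub, Finset.sum_sub_distrib, C.dot_sum hx A, sub_zero] at h1
  exact h1

theorem card_swap {A : Finset (Fin n)} {a c : Fin n} (ha : a ∈ A) (hc : c ∉ A) :
    (insert c (A.erase a)).card = A.card := by
  have h1 : c ∉ A.erase a := fun h => hc (Finset.mem_of_mem_erase h)
  rw [Finset.card_insert_of_notMem h1, Finset.card_erase_of_mem ha]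
  have : 0 < A.card := Finset.card_pos.2 ⟨a, ha⟩
  omega

/-- the relation along an edge -/
theorem pair_rel {x : Fin n × Bool → ℚ} {A : Finset (Fin n)} (hA : A.card = k)
    (hsup : ∀ ρ, ρ ∉ sgn A → x ρ = 0) (hx : ∑ ρ, x ρ • C.w ρ = 0) {a c : Fin n}
    (ha : a ∈ A) (hc : c ∉ A) :
    ∃ α β : ℚ, 0 < α ∧ 0 < β ∧ x (a, true) * α + x (c, false) * β = 0 := by
  have hA' : (insert c (A.erase a)).card = k := by rw [card_swap ha hc, hA]
  have hac : a ≠ c := by rintro rfl; exact hc ha
  have h1 : a ∉ insert c (A.erase a) := by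
    rw [Finset.mem_insert]
    rintro (h | h)
    · exact hac h
    · exact absurd h (Finset.notMem_erase a A)
  have h2 : c ∈ insert c (A.erase a) := Finset.mem_insert_self _ _
  refine ⟨C.s (a, true) (insert c (A.erase a)), C.s (c, false) (insert c (A.erase a)),
    C.s_pos hA' (by rw [mem_sgn_true]; exact h1), C.s_pos hA' (by rw [mem_sgn_false]; exact fun h => h h2), ?_⟩
  have hsum := C.s_sum hx (C.b_sum hA hsup hx) (insert c (A.erase a))
  have hne : ((a, true) : Fin n × Bool) ≠ (c, false) := by simp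
  rw [← Finset.sum_pair (f := fun ρ => x ρ * C.s ρ (insert c (A.erase a))) hne, ← hsum]
  apply Finset.sum_subset (Finset.subset_univ _)
  rintro ⟨i, t⟩ _ hn
  by_cases hi : (i, t) ∈ sgn A
  · have : (i, t) ∈ sgn (insert c (A.erase a)) := by
      rw [mem_sgn] at hi ⊢
      simp only at hi ⊢
      have hi1 : i ∈ insert c (A.erase a) ↔ i ∈ A := by
        rw [Finset.mem_insert, Finset.mem_erase]
        by_cases hic : i = c
        · exfalso
          apply hn
          have : t = false := by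
            cases t
            · rfl
            · exact absurd (hi.2 rfl) (by rw [hic]; exact hc)
          rw [hic, this]; simp
        · by_cases hia : i = a
          · exfalso
            apply hn
            have : t = true := hi.1 (by rw [hia]; exact ha)
            rw [hia, this]; simp
          · constructor
            · rintro (h | h)
              · exact absurd h hic
              · exact h.2
            · intro h; exact Or.inr ⟨hia, h⟩
      rw [hi1]; exact hi
    rw [C.s_zero hA' this, mul_zero]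
  · rw [hsup _ hi, zero_mul]

include C in
theorem exists_mem {A : Finset (Fin n)} (hA : A.card = k) : ∃ a, a ∈ A := by
  have h1 := C.hk
  obtain ⟨a, ha⟩ := Finset.card_pos.1 (show 0 < A.card by omega)
  exact ⟨a, ha⟩

include C in
theorem exists_notMem {A : Finset (Fin n)} (hA : A.card = k) : ∃ c, c ∉ A := by
  by_contra hcon
  push Not at hcon
  have h1 : A = univ := by ext i; simp [hcon i]
  rw [h1, Finset.card_univ, Fintype.card_fin] at hA
  have h2 := C.hk
  have h3 := C.hkn
  omega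

/-- a dependency supported in a vertex set with a zero coefficient vanishes -/
theorem circ_zero {x : Fin n × Bool → ℚ} {A : Finset (Fin n)} (hA : A.card = k)
    (hsup : ∀ ρ, ρ ∉ sgn A → x ρ = 0) (hx : ∑ ρ, x ρ • C.w ρ = 0)
    {ρ₀ : Fin n × Bool} (h₀ : ρ₀ ∈ sgn A) (h0 : x ρ₀ = 0) : x = 0 := by
  -- first all minus coordinates vanish, or all plus coordinates vanish
  have hstepT : ∀ a ∈ A, x (a, true) = 0 → ∀ c, c ∉ A → x (c, false) = 0 := by
    intro a ha h c hc
    obtain ⟨α, β, hα, hβ, hr⟩ := C.pair_rel hA hsup hx ha hc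
    rw [h, zero_mul, zero_add] at hr
    exact (mul_eq_zero.1 hr).resolve_right (ne_of_gt hβ)
  have hstepF : ∀ c, c ∉ A → x (c, false) = 0 → ∀ a ∈ A, x (a, true) = 0 := by
    intro c hc h a ha
    obtain ⟨α, β, hα, hβ, hr⟩ := C.pair_rel hA hsup hx ha hc
    rw [h, zero_mul, add_zero] at hr
    exact (mul_eq_zero.1 hr).resolve_right (ne_of_gt hα)
  obtain ⟨a₀, ha₀⟩ := C.exists_mem hA
  obtain ⟨c₀, hc₀⟩ := C.exists_notMem hA
  have hF : ∀ c, c ∉ A → x (c, false) = 0 := by
    obtain ⟨i, t⟩ := ρ₀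
    cases t
    · have hi := mem_sgn_false.1 h₀
      exact hstepT a₀ ha₀ (hstepF i hi h0 a₀ ha₀)
    · exact hstepT i (mem_sgn_true.1 h₀) h0
  have hT : ∀ a ∈ A, x (a, true) = 0 := hstepF c₀ hc₀ (hF c₀ hc₀)
  funext ⟨i, t⟩
  by_cases hi : (i, t) ∈ sgn A
  · cases t
    · exact hF i (mem_sgn_false.1 hi)
    · exact hT i (mem_sgn_true.1 hi)
  · exact hsup _ hi

/-- the lifted vectors of a small set are independent -/
theorem small_indep {x : Fin n × Bool → ℚ} {B : Finset (Fin n)} (hB : B.card < k)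
    (hsup : ∀ ρ, ρ ∉ sgn B → x ρ = 0) (hx : ∑ ρ, x ρ • C.w ρ = 0)
    (hb : ∑ ρ, x ρ * C.b ρ = 0) : x = 0 := by
  classical
  have hk := C.hk
  have hkn := C.hkn
  have hF : ∀ i ∈ (univ \ B : Finset (Fin n)), x (i, false) = 0 := by
    apply pigeon (univ \ B) (k - B.card) (by omega) (by
      rw [Finset.card_sdiff_of_subset (Finset.subset_univ _), Finset.card_univ, Fintype.card_fin]
      omega) (fun i => x (i, false))
    intro U hU hUc
    have hdisj : Disjoint B U := by
      rw [Finset.disjoint_right]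
      intro i hi
      exact (Finset.mem_sdiff.1 (hU hi)).2
    have hA : (B ∪ U).card = k := by
      rw [Finset.card_union_of_disjoint hdisj]; omega
    refine ⟨fun i => C.s (i, false) (B ∪ U), ?_, ?_⟩
    · intro i hi
      apply C.s_pos hA
      rw [mem_sgn_false]
      exact fun h => h (Finset.mem_union_right _ hi)
    · have hs := C.s_sum hx hb (B ∪ U)
      rw [← Finset.sum_subset (Finset.subset_univ (U.image (fun i => (i, false))))] at hs
      · rw [Finset.sum_image (by intro i _ j _ h; exact (Prod.mk.inj h).1)] at hs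
        rw [← hs]
        exact Finset.sum_congr rfl fun i _ => mul_comm _ _
      · rintro ⟨i, t⟩ _ hn
        by_cases hi : (i, t) ∈ sgn B
        · have : (i, t) ∈ sgn (B ∪ U) := by
            cases t
            · rw [mem_sgn_false] at hi ⊢
              rw [Finset.mem_union]
              rintro (h | h)
              · exact hi h
              · exact hn (Finset.mem_image.2 ⟨i, h, rfl⟩)
            · rw [mem_sgn_true] at hi ⊢
              exact Finset.mem_union_left _ hi
          rw [C.s_zero hA this, mul_zero]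
        · rw [hsup _ hi, zero_mul]
  -- now the remaining ones are part of a circuit
  obtain ⟨A, hBA, -, hA⟩ := Finset.exists_subsuperset_card_eq (s := B) (t := univ) (n := k)
    (Finset.subset_univ _) hB.le (by rw [Finset.card_univ, Fintype.card_fin]; omega)
  obtain ⟨c, hc⟩ := C.exists_notMem hA
  apply C.circ_zero hA (x := x) ?_ hx (ρ₀ := (c, false)) (mem_sgn_false.2 hc)
    (hF c (by simp; exact fun h => hc (hBA h)))
  rintro ⟨i, t⟩ hi
  cases t
  · rw [mem_sgn_false, not_not] at hi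
    by_cases hiB : i ∈ B
    · exact hsup _ (by rw [mem_sgn_false, not_not]; exact hiB)
    · exact hF i (by simp [hiB])
  · rw [mem_sgn_true] at hi
    exact hsup _ (by rw [mem_sgn_true]; exact fun h => hi (hBA h))

/-- the circuit of a vertex -/
theorem exists_circ {A : Finset (Fin n)} (hA : A.card = k) :
    ∃ x : Fin n × Bool → ℚ, (∀ ρ, ρ ∉ sgn A → x ρ = 0) ∧ ∑ ρ, x ρ • C.w ρ = 0 ∧
      ∀ ρ ∈ sgn A, x ρ ≠ 0 := by
  classical
  let L : (sgn A → ℚ) →ₗ[ℚ] (Fin d → ℚ) := Fintype.linearCombination ℚ (fun ρ : sgn A => C.w ρ)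
  have hlt : finrank ℚ (Fin d → ℚ) < finrank ℚ (sgn A → ℚ) := by
    rw [finrank_fintype_fun_eq_card, finrank_fintype_fun_eq_card, Fintype.card_coe, card_sgn,
      Fintype.card_fin]
    have := C.hn
    omega
  have hker : LinearMap.ker L ≠ ⊥ := LinearMap.ker_ne_bot_of_finrank_lt hlt
  obtain ⟨y, hy, hy0⟩ := (Submodule.ne_bot_iff _).1 hker
  have hsum : ∑ ρ, (if h : ρ ∈ sgn A then y ⟨ρ, h⟩ else 0) • C.w ρ = 0 := by
    rw [← LinearMap.mem_ker.1 hy]
    simp only [L]
    rw [Fintype.linearCombination_apply]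
    rw [← Finset.sum_subset (Finset.subset_univ (sgn A))]
    · rw [← Finset.sum_coe_sort (sgn A)]
      refine Finset.sum_congr rfl fun ρ _ => ?_
      rw [dif_pos ρ.2]
    · intro ρ _ h
      rw [dif_neg h, zero_smul]
  refine ⟨fun ρ => if h : ρ ∈ sgn A then y ⟨ρ, h⟩ else 0, fun ρ h => dif_neg h, hsum, ?_⟩
  intro ρ hρ h0
  have := C.circ_zero hA (fun ρ h => dif_neg h) hsum hρ h0
  apply hy0
  funext σ
  have h2 := congrFun this σ.1
  simpa [σ.2] using h2

/-- chosen circuit -/
noncomputable def κ (A : Finset (Fin n)) : Fin n × Bool → ℚ :=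
  if hA : A.card = k then (C.exists_circ hA).choose else 0

theorem κ_off {A : Finset (Fin n)} (hA : A.card = k) {ρ : Fin n × Bool} (h : ρ ∉ sgn A) :
    C.κ A ρ = 0 := by
  rw [κ, dif_pos hA]; exact (C.exists_circ hA).choose_spec.1 ρ h

theorem κ_sum {A : Finset (Fin n)} (hA : A.card = k) : ∑ ρ, C.κ A ρ • C.w ρ = 0 := by
  rw [κ, dif_pos hA]; exact (C.exists_circ hA).choose_spec.2.1

theorem κ_ne {A : Finset (Fin n)} (hA : A.card = k) {ρ : Fin n × Bool} (h : ρ ∈ sgn A) :
    C.κ A ρ ≠ 0 := by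
  rw [κ, dif_pos hA]; exact (C.exists_circ hA).choose_spec.2.2 ρ h

theorem κ_ne_iff {A : Finset (Fin n)} (hA : A.card = k) (ρ : Fin n × Bool) :
    C.κ A ρ ≠ 0 ↔ ρ ∈ sgn A := ⟨fun h => by by_contra h2; exact h (C.κ_off hA h2), C.κ_ne hA⟩

theorem κ_unique {A : Finset (Fin n)} (hA : A.card = k) {x : Fin n × Bool → ℚ}
    (hsup : ∀ ρ, ρ ∉ sgn A → x ρ = 0) (hx : ∑ ρ, x ρ • C.w ρ = 0) : ∃ t : ℚ, x = t • C.κ A := by
  obtain ⟨a, ha⟩ := C.exists_mem hA
  have hm : (a, true) ∈ sgn A := mem_sgn_true.2 ha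
  refine ⟨x (a, true) / C.κ A (a, true), ?_⟩
  have := C.circ_zero hA (x := x - (x (a, true) / C.κ A (a, true)) • C.κ A)
    (fun ρ h => by simp [hsup ρ h, C.κ_off hA h])
    (by
      simp only [Pi.sub_apply, Pi.smul_apply, smul_eq_mul, sub_smul, Finset.sum_sub_distrib, hx,
        mul_smul, ← Finset.smul_sum, C.κ_sum hA, smul_zero, sub_zero]) hm
    (by simp only [Pi.sub_apply, Pi.smul_apply, smul_eq_mul]
        rw [div_mul_cancel₀ _ (C.κ_ne hA hm), sub_self])
  exact sub_eq_zero.1 this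

/-- the shelled complex -/
noncomputable def sh : Sh (Pt n k) (Fin n × Bool) d where
  Φ := PhiOf
  Rr := ROf
  ht := htOf
  w := C.w
  card_Φ := fun q => by have h1 := card_PhiOf q; have h2 := C.hn; omega
  indep := fun q x hx hs => by
    apply C.circ_zero q.2.1 (x := x) ?_ hs (mem_sgn_true.2 q.2.2)
    · exact hx _ (by rw [PhiOf]; simp)
    · intro ρ hρ
      exact hx ρ (fun h => hρ (Finset.mem_of_mem_erase h))
  sub := ROf_sub
  mono := ht_mono
  bot := bot_exists

theorem swapT_sub {q l : Pt n k} {b : Fin n} (hb : b ∈ q.1.1) (hba : b ≠ q.1.2) :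
    (PhiOf q).erase (b, true) ⊆ PhiOf l ↔ (l = q ∨ l = swapT q b hb) := by
  constructor
  · intro h
    have hA : l.1.1 = q.1.1 := by
      apply Finset.eq_of_subset_of_card_le
      · intro i hi
        by_contra hiq
        have : (i, false) ∈ (PhiOf q).erase (b, true) := by
          rw [Finset.mem_erase, mem_PhiOf_false]; exact ⟨by simp, hiq⟩
        exact (mem_PhiOf_false.1 (h this)) hi
      · rw [l.2.1, q.2.1]
    by_cases h1 : l.1.2 = q.1.2
    · left; exact Subtype.ext (Prod.ext hA h1)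
    · right
      refine Subtype.ext (Prod.ext (show l.1.1 = q.1.1 from hA) ?_)
      show l.1.2 = b
      by_contra hne
      have hmem : l.1.2 ∈ q.1.1 := by rw [← hA]; exact l.2.2
      have : (l.1.2, true) ∈ (PhiOf q).erase (b, true) := by
        rw [Finset.mem_erase, mem_PhiOf_true]
        exact ⟨fun h2 => hne (Prod.mk.inj h2).1, hmem, h1⟩
      exact (mem_PhiOf_true.1 (h this)).2 rfl
  · rintro (rfl | rfl)
    · exact Finset.erase_subset _ _
    · exact PhiOf_swapT q b hb

theorem swapF_sub {q l : Pt n k} {b : Fin n} (hb : b ∉ q.1.1) :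
    (PhiOf q).erase (b, false) ⊆ PhiOf l ↔ (l = q ∨ l = swapF q b hb) := by
  constructor
  · intro h
    have h1 : q.1.1.erase q.1.2 ⊆ l.1.1 := by
      intro i hi
      rw [Finset.mem_erase] at hi
      have : (i, true) ∈ (PhiOf q).erase (b, false) := by
        rw [Finset.mem_erase, mem_PhiOf_true]; exact ⟨by simp, hi.2, hi.1⟩
      exact (mem_PhiOf_true.1 (h this)).1
    have h2 : l.1.1 ⊆ insert b q.1.1 := by
      intro i hi
      rw [Finset.mem_insert]
      by_contra hcon
      push Not at hcon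
      have : (i, false) ∈ (PhiOf q).erase (b, false) := by
        rw [Finset.mem_erase, mem_PhiOf_false]
        exact ⟨fun h2 => hcon.1 (Prod.mk.inj h2).1, hcon.2⟩
      exact (mem_PhiOf_false.1 (h this)) hi
    have h3 : ∀ i, i ∈ q.1.1.erase q.1.2 → i ≠ l.1.2 := by
      intro i hi
      rw [Finset.mem_erase] at hi
      have : (i, true) ∈ (PhiOf q).erase (b, false) := by
        rw [Finset.mem_erase, mem_PhiOf_true]; exact ⟨by simp, hi.2, hi.1⟩
      exact (mem_PhiOf_true.1 (h this)).2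
    have hab : q.1.2 ≠ b := by rintro rfl; exact hb q.2.2
    have hl2 : l.1.2 = q.1.2 ∨ l.1.2 = b := by
      rcases Finset.mem_insert.1 (h2 l.2.2) with h4 | h4
      · exact Or.inr h4
      · left
        by_contra hne
        exact h3 l.1.2 (Finset.mem_erase.2 ⟨hne, h4⟩) rfl
    have hcard : (q.1.1.erase q.1.2).card + 1 = k := by
      rw [Finset.card_erase_of_mem q.2.2, q.2.1]
      have : 0 < q.1.1.card := Finset.card_pos.2 ⟨_, q.2.2⟩
      have := q.2.1
      omega
    have hnot : l.1.2 ∉ q.1.1.erase q.1.2 := fun h4 => h3 _ h4 rfl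
    have hA : l.1.1 = insert l.1.2 (q.1.1.erase q.1.2) := by
      symm
      apply Finset.eq_of_subset_of_card_le
      · intro i hi
        rcases Finset.mem_insert.1 hi with h4 | h4
        · rw [h4]; exact l.2.2
        · exact h1 h4
      · rw [Finset.card_insert_of_notMem hnot, l.2.1]; omega
    rcases hl2 with h4 | h4
    · left
      apply Subtype.ext (Prod.ext _ h4)
      rw [hA, h4, Finset.insert_erase q.2.2]
    · right
      apply Subtype.ext (Prod.ext _ h4)
      rw [hA, h4]; rfl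
  · rintro (rfl | rfl)
    · exact Finset.erase_subset _ _
    · exact PhiOf_swapF q b hb

theorem good : C.sh.Good := by
  constructor
  · intro a b hab
    have hn := C.hn
    have h1 : C.sh.H b = (univ.filter (fun q : Pt n k => ¬ (ROf q).card ≤ a)).card := by
      unfold Sh.H
      apply Finset.card_bij (fun q _ => revPt q)
      · intro q hq
        simp only [mem_filter, mem_univ, true_and] at hq ⊢
        have h2 := card_ROf_rev q
        have h3 : (ROf q).card ≤ b := hq
        omega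
      · intro q _ q' _ h
        rw [← revPt_revPt q, h, revPt_revPt]
      · intro q hq
        simp only [mem_filter, mem_univ, true_and] at hq
        refine ⟨revPt q, ?_, revPt_revPt q⟩
        simp only [mem_filter, mem_univ, true_and]
        have h2 := card_ROf_rev q
        show (ROf (revPt q)).card ≤ b
        omega
    rw [h1]
    unfold Sh.H
    have := Finset.card_filter_add_card_filter_not (s := (univ : Finset (Pt n k)))
      (fun q => (ROf q).card ≤ a)
    rw [Finset.card_univ] at this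
    exact this
  · intro q hq
    obtain ⟨⟨b, t⟩, hb⟩ := Finset.nonempty_iff_ne_empty.2 hq
    have hb : (b, t) ∈ ROf q := hb
    have hsubΦ := ROf_sub q hb
    have hcard : ((PhiOf q).erase (b, t)).card + 1 = d := by
      rw [Finset.card_erase_of_mem hsubΦ]
      have h1 := card_PhiOf q
      have h2 := C.hn
      have h3 : 0 < (PhiOf q).card := Finset.card_pos.2 ⟨_, hsubΦ⟩
      omega
    cases t
    · rw [mem_ROf_false] at hb
      exact ⟨swapF q b hb.1, ht_swapF q b hb.1 hb.2, (PhiOf q).erase (b, false), hcard,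
        fun l => swapF_sub hb.1⟩
    · rw [mem_ROf_true] at hb
      exact ⟨swapT q b hb.1, ht_swapT q b hb.1 hb.2, (PhiOf q).erase (b, true), hcard,
        fun l => swapT_sub hb.1 (ne_of_gt hb.2)⟩

end Cfg

end Pool.Agent.Helper40.CB
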