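import Pool.Agent.Helper40.CB.Rank

set_option autoImplicit false

namespace Pool.Agent.Helper40.CB

open Finset Matrix Module

namespace Cfg

variable {n k d : ℕ} (C : Cfg n k d)

/-- the minus part of the complement of `A` -/
def mc (A : Finset (Fin n)) : Multiset (Fin n × Bool) := (univ \ A).val.map (fun i => (i, false))

/-- the new faces: they contain the minus signs outside a `k`-set -/
def nw (n k : ℕ) (G : Finset (Fin n × Bool)) : Prop :=
  ∃ A : Finset (Fin n), A.card = k ∧ ∀ i, i ∉ A → (i, false) ∈ G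

theorem nw_mono (G G' : Finset (Fin n × Bool)) (h : G ⊆ G') (hG : nw n k G) : nw n k G' := by
  obtain ⟨A, hA, h1⟩ := hG
  exact ⟨A, hA, fun i hi => h (h1 i hi)⟩

theorem fiber_eq {A : Finset (Fin n)} (hA : A.card = k) {q : Pt n k}
    (h : ∀ i, i ∉ A → i ∉ q.1.1) : q.1.1 = A := by
  apply Finset.eq_of_subset_of_card_le
  · intro i hi
    by_contra h2
    exact h i h2 hi
  · rw [hA, q.2.1]

theorem mon_mc_ne {A : Finset (Fin n)} (hA : A.card = k) {q : Pt n k} :
    C.sh.mon (mc A) q ≠ 0 ↔ q.1.1 = A := by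
  rw [C.sh.mon_ne_iff]
  constructor
  · intro h
    apply fiber_eq hA
    intro i hi
    have hi' : i ∈ univ \ A := by simp [hi]
    have h1 := h (i, false) (Multiset.mem_map.2 ⟨i, hi', rfl⟩)
    exact mem_PhiOf_false.1 h1
  · rintro h ρ hρ
    obtain ⟨i, hi, rfl⟩ := Multiset.mem_map.1 hρ
    have h2 : i ∉ A := by
      have : i ∈ univ \ A := hi
      exact (Finset.mem_sdiff.1 this).2
    show (i, false) ∈ PhiOf q
    rw [mem_PhiOf_false, h]
    exact h2

/-- the parameter along the line of a vertex -/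
noncomputable def τ (q₀ : Pt n k) (q : Pt n k) : ℚ :=
  (C.sh.x q (q₀.1.2, true) - C.sh.x q₀ (q₀.1.2, true)) / C.κ q₀.1.1 (q₀.1.2, true)

theorem line (q₀ q : Pt n k) (h : q.1.1 = q₀.1.1) :
    ∀ ρ, C.sh.x q ρ = C.sh.x q₀ ρ + C.τ q₀ q * C.κ q₀.1.1 ρ := by
  have hx1 : ∑ ρ, C.sh.x q ρ • C.w ρ = C.sh.p₀ := C.sh.x_sum q
  have hx2 : ∑ ρ, C.sh.x q₀ ρ • C.w ρ = C.sh.p₀ := C.sh.x_sum q₀
  obtain ⟨t, ht⟩ := C.κ_unique q₀.2.1 (x := C.sh.x q - C.sh.x q₀)
    (by
      intro ρ hρ
      have h1 : C.sh.x q ρ = 0 := C.sh.x_off q (by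
        intro h2
        apply hρ
        rw [← h]
        exact Finset.mem_of_mem_erase h2)
      have h2 : C.sh.x q₀ ρ = 0 := C.sh.x_off q₀ (by
        intro h2
        exact hρ (Finset.mem_of_mem_erase h2))
      rw [Pi.sub_apply, h1, h2, sub_zero])
    (by simp only [Pi.sub_apply, sub_smul, Finset.sum_sub_distrib, hx1, hx2, sub_self])
  have hκ : C.κ q₀.1.1 (q₀.1.2, true) ≠ 0 := C.κ_ne q₀.2.1 (mem_sgn_true.2 q₀.2.2)
  have htτ : t = C.τ q₀ q := by
    have h1 := congrFun ht (q₀.1.2, true)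
    rw [Pi.sub_apply, Pi.smul_apply, smul_eq_mul] at h1
    rw [τ, h1, mul_div_assoc, div_self hκ, mul_one]
  intro ρ
  have h1 := congrFun ht ρ
  rw [Pi.sub_apply, Pi.smul_apply, smul_eq_mul, htτ] at h1
  linarith

/-- polynomial along the line -/
noncomputable def pol (q₀ : Pt n k) (m : Multiset (Fin n × Bool)) : Polynomial ℚ :=
  (m.map (fun ρ => Polynomial.C (C.sh.x q₀ ρ) + Polynomial.X * Polynomial.C (C.κ q₀.1.1 ρ))).prod

theorem pol_cons (q₀ : Pt n k) (ρ : Fin n × Bool) (m : Multiset (Fin n × Bool)) :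
    C.pol q₀ (ρ ::ₘ m) = (Polynomial.C (C.sh.x q₀ ρ) + Polynomial.X * Polynomial.C (C.κ q₀.1.1 ρ)) * C.pol q₀ m := by
  simp [pol]

theorem pol_eval (q₀ q : Pt n k) (h : q.1.1 = q₀.1.1) (m : Multiset (Fin n × Bool)) :
    (C.pol q₀ m).eval (C.τ q₀ q) = C.sh.mon m q := by
  induction m using Multiset.induction_on with
  | empty => simp [pol, Sh.mon]
  | cons ρ m ih =>
    rw [C.pol_cons, Polynomial.eval_mul, ih, C.sh.mon_cons]
    congr 1
    simp only [Polynomial.eval_add, Polynomial.eval_C, Polynomial.eval_mul, Polynomial.eval_X]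
    exact (C.line q₀ q h ρ).symm

theorem pol_deg (q₀ : Pt n k) (m : Multiset (Fin n × Bool)) :
    (C.pol q₀ m).natDegree ≤ m.card ∧
      (C.pol q₀ m).coeff m.card = (m.map (C.κ q₀.1.1)).prod := by
  induction m using Multiset.induction_on with
  | empty => simp [pol]
  | cons ρ m ih =>
    rw [C.pol_cons, Multiset.card_cons]
    have h1 : (Polynomial.C (C.sh.x q₀ ρ) + Polynomial.X * Polynomial.C (C.κ q₀.1.1 ρ)).natDegree ≤ 1 := by
      refine (Polynomial.natDegree_add_le _ _).trans ?_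
      rw [Polynomial.natDegree_C]
      refine max_le (by omega) ?_
      refine (Polynomial.natDegree_mul_le).trans ?_
      rw [Polynomial.natDegree_C, Polynomial.natDegree_X]
    constructor
    · refine (Polynomial.natDegree_mul_le).trans ?_
      have := ih.1
      omega
    · rw [add_comm m.card 1]
      rw [Polynomial.coeff_mul_add_eq_of_natDegree_le h1 ih.1, ih.2, Multiset.map_cons, Multiset.prod_cons]
      congr 1
      simp [Polynomial.coeff_X_mul]

/-- moments -/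
noncomputable def mu (c : Pt n k → ℚ) (q₀ : Pt n k) (m : ℕ) : ℚ :=
  ∑ q, c q * (C.sh.mon (mc q₀.1.1) q * C.τ q₀ q ^ m)

theorem τ_mem (q₀ : Pt n k) : (fun q => C.τ q₀ q) ∈ C.sh.F 1 := by
  have h1 : (fun q => C.τ q₀ q) = (C.κ q₀.1.1 (q₀.1.2, true))⁻¹ • C.sh.mon {(q₀.1.2, true)} -
      ((C.κ q₀.1.1 (q₀.1.2, true))⁻¹ * C.sh.x q₀ (q₀.1.2, true)) • C.sh.mon 0 := by
    funext q
    simp only [τ, Sh.mon, Pi.sub_apply, Pi.smul_apply, smul_eq_mul, Multiset.map_singleton,
      Multiset.prod_singleton, Multiset.map_zero, Multiset.prod_zero, mul_one]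
    rw [div_eq_mul_inv]
    ring
  rw [h1]
  exact Submodule.sub_mem _ (Submodule.smul_mem _ _ (C.sh.mon_mem_F (by simp)))
    (Submodule.smul_mem _ _ (C.sh.mon_mem_F (by simp)))

theorem τ_pow_mem (q₀ : Pt n k) (m : ℕ) : (fun q => C.τ q₀ q ^ m) ∈ C.sh.F m := by
  induction m with
  | zero =>
    have : (fun q => C.τ q₀ q ^ 0) = C.sh.mon 0 := by
      funext q; simp [Sh.mon]
    rw [this]; exact C.sh.mon_mem_F (by simp)
  | succ m ih =>
    have : (fun q => C.τ q₀ q ^ (m + 1)) = (fun q => C.τ q₀ q ^ m) * (fun q => C.τ q₀ q) := by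
      funext q; simp [pow_succ]
    rw [this]
    exact C.sh.mul_mem_F ih (C.τ_mem q₀)

theorem card_mc {A : Finset (Fin n)} (hA : A.card = k) : (mc A).card = n - k := by
  rw [mc, Multiset.card_map, Finset.card_val, Finset.card_sdiff_of_subset (Finset.subset_univ _),
    Finset.card_univ, Fintype.card_fin, hA]

theorem mu_zero {c : Pt n k → ℚ} (hI : ∀ f ∈ C.sh.F (d - 1), ∑ i, c i * f i = 0)
    (q₀ : Pt n k) (m : ℕ) (hm : m + 2 ≤ k) : C.mu c q₀ m = 0 := by
  apply hI (fun q => C.sh.mon (mc q₀.1.1) q * C.τ q₀ q ^ m)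
  have h1 := C.sh.mul_mem_F (C.sh.mon_mem_F (b := mc q₀.1.1) (le_refl _)) (C.τ_pow_mem q₀ m)
  refine C.sh.F_mono ?_ h1
  rw [card_mc q₀.2.1]
  have h2 := C.hn
  have h3 := C.hkn
  omega

theorem J_eq {c : Pt n k → ℚ} (hI : ∀ f ∈ C.sh.F (d - 1), ∑ i, c i * f i = 0)
    (q₀ : Pt n k) (p : Polynomial ℚ) (hp : p.natDegree + 1 ≤ k) :
    ∑ q, c q * (C.sh.mon (mc q₀.1.1) q * p.eval (C.τ q₀ q)) = p.coeff (k - 1) * C.mu c q₀ (k - 1) := by
  have hk := C.hk
  have h1 : ∀ q, c q * (C.sh.mon (mc q₀.1.1) q * p.eval (C.τ q₀ q)) =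
      ∑ m ∈ range k, p.coeff m * (c q * (C.sh.mon (mc q₀.1.1) q * C.τ q₀ q ^ m)) := by
    intro q
    rw [Polynomial.eval_eq_sum_range' (by omega : p.natDegree < k), Finset.mul_sum, Finset.mul_sum]
    exact Finset.sum_congr rfl fun m _ => by ring
  simp only [h1]
  rw [Finset.sum_comm]
  have h2 : ∀ m ∈ range k, ∑ q, p.coeff m * (c q * (C.sh.mon (mc q₀.1.1) q * C.τ q₀ q ^ m)) =
      if m = k - 1 then p.coeff (k - 1) * C.mu c q₀ (k - 1) else 0 := by
    intro m hm
    rw [Finset.mem_range] at hm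
    rw [← Finset.mul_sum]
    by_cases h : m = k - 1
    · rw [if_pos h, h]; rfl
    · rw [if_neg h]
      have h3 := C.mu_zero hI q₀ m (by omega)
      unfold mu at h3
      rw [h3, mul_zero]
  rw [Finset.sum_congr rfl h2, Finset.sum_ite_eq' (range k) (k - 1)]
  rw [if_pos (Finset.mem_range.2 (by omega))]

theorem mu_ne {c : Pt n k → ℚ} (hc : ∀ i, c i ≠ 0)
    (hI : ∀ f ∈ C.sh.F (d - 1), ∑ i, c i * f i = 0) (q₀ : Pt n k) : C.mu c q₀ (k - 1) ≠ 0 := by
  classical
  intro h0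
  have hk := C.hk
  -- Lagrange polynomial
  let pt : Fin n → Pt n k := fun a => if h : a ∈ q₀.1.1 then ⟨(q₀.1.1, a), q₀.2.1, h⟩ else q₀
  have hpt : ∀ a, (pt a).1.1 = q₀.1.1 := by
    intro a
    simp only [pt]
    split_ifs <;> rfl
  have hpt2 : ∀ a ∈ q₀.1.1, (pt a).1.2 = a := by
    intro a ha
    simp only [pt]
    rw [dif_pos ha]
  let p : Polynomial ℚ := ∏ a ∈ q₀.1.1.erase q₀.1.2, (Polynomial.X - Polynomial.C (C.τ q₀ (pt a)))
  have hdeg : p.natDegree + 1 ≤ k := by
    have h1 : p.natDegree = (q₀.1.1.erase q₀.1.2).card := by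
      simp only [p]
      rw [Polynomial.natDegree_prod_of_monic _ _ (fun a _ => Polynomial.monic_X_sub_C _)]
      simp
    rw [h1, Finset.card_erase_of_mem q₀.2.2, q₀.2.1]
    omega
  have hJ := C.J_eq hI q₀ p hdeg
  rw [h0, mul_zero, Finset.sum_eq_single q₀] at hJ
  · have h2 : C.sh.mon (mc q₀.1.1) q₀ ≠ 0 := (C.mon_mc_ne q₀.2.1).2 rfl
    have h3 : p.eval (C.τ q₀ q₀) = 0 := by
      rcases mul_eq_zero.1 hJ with h | h
      · exact absurd h (hc q₀)
      · exact (mul_eq_zero.1 h).resolve_left h2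
    simp only [p] at h3
    rw [Polynomial.eval_prod, Finset.prod_eq_zero_iff] at h3
    obtain ⟨a, ha, h4⟩ := h3
    rw [Finset.mem_erase] at ha
    simp only [Polynomial.eval_sub, Polynomial.eval_X, Polynomial.eval_C] at h4
    -- the two points coincide
    have h5 := C.line q₀ (pt a) (hpt a) (a, true)
    have h6 := C.line q₀ q₀ rfl (a, true)
    have h7 : C.sh.x (pt a) (a, true) = C.sh.x q₀ (a, true) := by
      rw [h5]
      conv_rhs => rw [h6]
      rw [sub_eq_zero.1 h4]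
    have h8 : C.sh.x (pt a) (a, true) = 0 := C.sh.x_off _ (by
      intro h9
      have h10 : (a, true) ∈ PhiOf (pt a) := h9
      rw [mem_PhiOf_true, hpt2 a ha.2] at h10
      exact h10.2 rfl)
    have h9 : C.sh.x q₀ (a, true) ≠ 0 := C.sh.x_ne _ (by
      show (a, true) ∈ PhiOf q₀
      rw [mem_PhiOf_true]
      exact ⟨ha.2, ha.1⟩)
    rw [← h7] at h9
    exact h9 h8
  · intro q _ hq
    by_cases hA : q.1.1 = q₀.1.1
    · have hqa : q.1.2 ≠ q₀.1.2 := fun h => hq (Subtype.ext (Prod.ext hA h))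
      have hmem : q.1.2 ∈ q₀.1.1.erase q₀.1.2 := by
        rw [Finset.mem_erase]
        exact ⟨hqa, by rw [← hA]; exact q.2.2⟩
      have hptq : pt q.1.2 = q := by
        simp only [pt]
        rw [dif_pos (Finset.mem_of_mem_erase hmem)]
        exact Subtype.ext (Prod.ext hA.symm rfl)
      have : p.eval (C.τ q₀ q) = 0 := by
        simp only [p]
        rw [Polynomial.eval_prod, Finset.prod_eq_zero_iff]
        exact ⟨q.1.2, hmem, by rw [hptq]; simp⟩
      rw [this, mul_zero, mul_zero]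
    · have : C.sh.mon (mc q₀.1.1) q = 0 := by
        by_contra h
        exact hA ((C.mon_mc_ne q₀.2.1).1 h)
      rw [this, zero_mul, mul_zero]
  · intro h; exact absurd (Finset.mem_univ _) h

/-- the main pairing formula -/
theorem pairing {c : Pt n k → ℚ} (hI : ∀ f ∈ C.sh.F (d - 1), ∑ i, c i * f i = 0)
    (q₀ : Pt n k) (m b : Multiset (Fin n × Bool)) (hmb : m.card + b.card + 1 ≤ k) :
    wform c (C.sh.mon (mc q₀.1.1 + m)) (C.sh.mon b) =
      if m.card + b.card + 1 = k then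
        (m.map (C.κ q₀.1.1)).prod * (b.map (C.κ q₀.1.1)).prod * C.mu c q₀ (k - 1) else 0 := by
  have hdeg := C.pol_deg q₀ (m + b)
  rw [Multiset.card_add] at hdeg
  have h1 : wform c (C.sh.mon (mc q₀.1.1 + m)) (C.sh.mon b) =
      ∑ q, c q * (C.sh.mon (mc q₀.1.1) q * (C.pol q₀ (m + b)).eval (C.τ q₀ q)) := by
    rw [wform_apply]
    refine Finset.sum_congr rfl fun q _ => ?_
    rw [C.sh.mon_add, Pi.mul_apply]
    by_cases hA : q.1.1 = q₀.1.1
    · rw [C.pol_eval q₀ q hA, C.sh.mon_add, Pi.mul_apply]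
      ring
    · have : C.sh.mon (mc q₀.1.1) q = 0 := by
        by_contra h
        exact hA ((C.mon_mc_ne q₀.2.1).1 h)
      rw [this]; ring
  rw [h1, C.J_eq hI q₀ _ (by have := hdeg.1; omega)]
  by_cases h : m.card + b.card + 1 = k
  · rw [if_pos h]
    have : k - 1 = m.card + b.card := by omega
    rw [this, hdeg.2, Multiset.map_add, Multiset.prod_add]
  · rw [if_neg h]
    have : (C.pol q₀ (m + b)).coeff (k - 1) = 0 := by
      apply Polynomial.coeff_eq_zero_of_natDegree_lt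
      have := hdeg.1
      omega
    rw [this, zero_mul]

/-- shape of the new faces -/
theorem new_shape {G : Finset (Fin n × Bool)} (hf : ∃ i, G ⊆ C.sh.Φ i) (hn : nw n k G) :
    ∃ q₀ : Pt n k, ∃ A' : Finset (Fin n), A' ⊆ q₀.1.1 ∧
      G.val = mc q₀.1.1 + A'.val.map (fun i => (i, true)) := by
  classical
  obtain ⟨q, hq⟩ := hf
  obtain ⟨A, hA, hG⟩ := hn
  have hq' : G ⊆ PhiOf q := hq
  have hqA : q.1.1 = A := fiber_eq hA (fun i hi => mem_PhiOf_false.1 (hq' (hG i hi)))
  refine ⟨q, univ.filter (fun i => (i, true) ∈ G), ?_, ?_⟩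
  · intro i hi
    exact (mem_PhiOf_true.1 (hq' (Finset.mem_filter.1 hi).2)).1
  · have h1 : G = ((univ \ q.1.1).image (fun i => (i, false))) ∪
        ((univ.filter (fun i => (i, true) ∈ G)).image (fun i => (i, true))) := by
      ext ⟨i, t⟩
      simp only [Finset.mem_union, Finset.mem_image, Finset.mem_sdiff, Finset.mem_univ, true_and,
        Finset.mem_filter, Prod.mk.injEq]
      cases t
      · constructor
        · intro h
          exact Or.inl ⟨i, mem_PhiOf_false.1 (hq' h), rfl, rfl⟩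
        · rintro (⟨j, hj, rfl, -⟩ | ⟨j, hj, rfl, h⟩)
          · exact hG _ (by rw [← hqA]; exact hj)
          · simp at h
      · constructor
        · intro h
          exact Or.inr ⟨i, h, rfl, rfl⟩
        · rintro (⟨j, hj, rfl, h⟩ | ⟨j, hj, rfl, -⟩)
          · simp at h
          · exact hj
    have hdisj : Disjoint ((univ \ q.1.1).image (fun i => ((i, false) : Fin n × Bool)))
        ((univ.filter (fun i => (i, true) ∈ G)).image (fun i => (i, true))) := by
      rw [Finset.disjoint_left]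
      intro ρ h2 h3
      obtain ⟨i, _, rfl⟩ := Finset.mem_image.1 h2
      obtain ⟨j, _, h4⟩ := Finset.mem_image.1 h3
      simp at h4
    conv_lhs => rw [h1]
    rw [← Finset.disjUnion_eq_union _ _ hdisj, Finset.disjUnion_val]
    congr 1
    · rw [Finset.image_val_of_injOn (by intro i _ j _ h; exact (Prod.mk.inj h).1)]; rfl
    · rw [Finset.image_val_of_injOn (by intro i _ j _ h; exact (Prod.mk.inj h).1)]

end Cfg

end Pool.Agent.Helper40.CB
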