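import Pool.Agent.Helper40.CB.CoreA

set_option autoImplicit false

namespace Pool.Agent.Helper40.CB

open Finset Matrix Module

/-- number of facets with restriction set of size at most `a` -/
def hN (n k a : ℕ) : ℕ := (Finset.univ.filter (fun q : Pt n k => (ROf q).card ≤ a)).card

namespace Cfg

variable {n k d : ℕ} (C : Cfg n k d)

theorem H_eq (a : ℕ) : C.sh.H a = hN n k a := rfl

theorem core_low (j : ℕ) (hj1 : 1 ≤ j) (hj : j + 1 ≤ k) :
    finrank ℚ ((C.sh.Gen (nw n k) (d - j) → ℚ) ⧸ Submodule.span ℚ (C.sh.relSet (nw n k) (d - j))) +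
      (Fintype.card (Pt n k) + n.choose j) = hN n k (d - j) + hN n k j := by
  classical
  have hn := C.hn
  have hk := C.hk
  have hkn := C.hkn
  have : Nonempty (Pt n k) := by
    obtain ⟨A, -, hA⟩ := Finset.exists_subsuperset_card_eq (s := (∅ : Finset (Fin n))) (t := univ) (n := k)
      (Finset.empty_subset _) (by simp) (by rw [Finset.card_univ, Fintype.card_fin]; omega)
    obtain ⟨a, ha⟩ := C.exists_mem hA.2
    exact ⟨⟨(A, a), hA.2, ha⟩⟩
  obtain ⟨c, hc, hI⟩ := C.good.exists_I (by omega)
  set e := d - j with he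
  have hquot := C.sh.finrank_quot (nw n k) (fun G G' h1 h2 => nw_mono G G' h1 h2) e (by omega)
  set W := (C.sh.F (e - 1) ⊔ C.sh.U (nw n k) e : Submodule ℚ (Pt n k → ℚ)) with hW
  set O := (wform c).orthogonal W with hO
  -- chosen data for each vertex
  have hch : ∀ A : KS n k, ∃ q : Pt n k, q.1.1 = A.1 := fun A => by
    obtain ⟨a, ha⟩ := C.exists_mem A.2
    exact ⟨⟨(A.1, a), A.2, ha⟩, rfl⟩
  choose qA hqA using hch
  have hchm : ∀ A : KS n k, ∃ A' : Finset (Fin n), A' ⊆ A.1 ∧ A'.card + j + 1 = k := fun A => by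
    obtain ⟨A', h1, h2⟩ := Finset.exists_subset_card_eq (s := A.1) (n := k - 1 - j) (by rw [A.2]; omega)
    exact ⟨A', h1, by omega⟩
  choose mA hmA hmA2 using hchm
  let mm : KS n k → Multiset (Fin n × Bool) := fun A => (mA A).val.map (fun i => (i, true))
  have hmmc : ∀ A, (mm A).card = (mA A).card := fun A => by simp [mm]
  let K0 : KS n k → ℚ := fun A => ((mm A).map (C.κ A.1)).prod * C.mu c (qA A) (k - 1)
  have hprod : ∀ (A : KS n k) (A' : Finset (Fin n)), A' ⊆ A.1 →
      ((A'.val.map (fun i => (i, true))).map (C.κ A.1)).prod ≠ 0 := by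
    intro A A' h1
    rw [prod_map_ne_zero]
    intro ρ hρ
    obtain ⟨i, hi, rfl⟩ := Multiset.mem_map.1 hρ
    exact C.κ_ne A.2 (mem_sgn_true.2 (h1 hi))
  have hK0 : ∀ A, K0 A ≠ 0 := fun A => mul_ne_zero (hprod A (mA A) (hmA A)) (C.mu_ne hc hI _)
  let Λ : (Pt n k → ℚ) →ₗ[ℚ] (KS n k → ℚ) :=
    { toFun := fun g A => wform c (C.sh.mon (mc A.1 + mm A)) g / K0 A
      map_add' := fun g g' => by funext A; rw [map_add, add_div]; rfl
      map_smul' := fun r g => by
        funext A; rw [map_smul, smul_eq_mul, mul_div_assoc]; rfl }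
  have hΛ : ∀ b : Multiset (Fin n × Bool), b.card ≤ j → Λ (C.sh.mon b) =
      if b.card = j then C.kap b else 0 := by
    intro b hb
    funext A
    show wform c (C.sh.mon (mc A.1 + mm A)) (C.sh.mon b) / K0 A = _
    have h1 := C.pairing hI (qA A) (mm A) b (by rw [hmmc]; have := hmA2 A; omega)
    rw [hqA] at h1
    rw [h1]
    by_cases hbj : b.card = j
    · rw [if_pos hbj, if_pos (by rw [hmmc]; have := hmA2 A; omega)]
      simp only [K0, kap]
      have h2 := hprod A (mA A) (hmA A)
      have h3 := C.mu_ne hc hI (qA A)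
      have h4 : ((mm A).map (C.κ A.1)).prod ≠ 0 := h2
      field_simp
    · rw [if_neg hbj, if_neg (by rw [hmmc]; have := hmA2 A; omega), zero_div]
      rfl
  -- the image of `F j`
  have himage : (C.sh.F j).map Λ = C.PP j := by
    apply le_antisymm
    · rw [Submodule.map_le_iff_le_comap]
      refine Submodule.span_le.2 ?_
      rintro f ⟨b, hb, rfl⟩
      show Λ (C.sh.mon b) ∈ C.PP j
      rw [hΛ b hb]
      by_cases hbj : b.card = j
      · rw [if_pos hbj]; exact Submodule.subset_span ⟨b, hbj, rfl⟩
      · rw [if_neg hbj]; exact Submodule.zero_mem _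
    · refine Submodule.span_le.2 ?_
      rintro f ⟨b, hb, rfl⟩
      refine ⟨C.sh.mon b, C.sh.mon_mem_F hb.le, ?_⟩
      rw [hΛ b hb.le, if_pos hb]
  -- pairing with new faces
  have hpair : ∀ (q₀ : Pt n k) (m : Multiset (Fin n × Bool)), m.card + j + 1 = k → ∀ g ∈ C.sh.F j,
      wform c (C.sh.mon (mc q₀.1.1 + m)) g =
        (m.map (C.κ q₀.1.1)).prod * C.mu c q₀ (k - 1) * Λ g ⟨q₀.1.1, q₀.2.1⟩ := by
    intro q₀ m hm g hg
    induction hg using Submodule.span_induction with
    | mem g hg =>
      obtain ⟨b, hb, rfl⟩ := hg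
      rw [C.pairing hI q₀ m b (by omega), hΛ b hb]
      by_cases hbj : b.card = j
      · rw [if_pos hbj, if_pos (by omega)]
        simp only [kap]
        ring
      · rw [if_neg hbj, if_neg (by omega)]
        simp
    | zero => simp
    | add x y _ _ hx hy => rw [map_add, hx, hy, map_add, Pi.add_apply, mul_add]
    | smul r x _ hx => rw [map_smul, hx, map_smul, Pi.smul_apply, smul_eq_mul, smul_eq_mul]; ring
  have horth := C.good.orth hc hI (a := e - 1) (b := j) (by omega)
  have hOF : O ≤ C.sh.F j := by
    rw [← horth]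
    exact LinearMap.BilinForm.orthogonal_le le_sup_left
  have hker : LinearMap.ker (Λ.comp (C.sh.F j).subtype) = O.comap (C.sh.F j).subtype := by
    ext ⟨g, hg⟩
    rw [LinearMap.mem_ker, Submodule.mem_comap]
    show Λ g = 0 ↔ g ∈ O
    constructor
    · intro h
      rw [hO, LinearMap.BilinForm.mem_orthogonal_iff]
      intro f hf
      show wform c f g = 0
      obtain ⟨f1, hf1, f2, hf2, rfl⟩ := Submodule.mem_sup.1 hf
      have h1 : wform c f1 g = 0 := by
        rw [← horth, LinearMap.BilinForm.mem_orthogonal_iff] at hg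
        exact hg f1 hf1
      have h2 : wform c f2 g = 0 := by
        clear hf
        induction hf2 using Submodule.span_induction with
        | mem f hf =>
          obtain ⟨G, h3, h4, h5, rfl⟩ := hf
          obtain ⟨q₀, A', hA', hG⟩ := C.new_shape h3 h4
          rw [hG, hpair q₀ _ ?_ g hg, h, Pi.zero_apply, mul_zero]
          have h6 : G.card = n - k + A'.card := by
            rw [← Finset.card_val, hG, Multiset.card_add, card_mc q₀.2.1]; simp
          rw [Multiset.card_map, Finset.card_val]
          omega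
        | zero => simp
        | add x y _ _ hx hy => rw [map_add, LinearMap.add_apply, hx, hy, add_zero]
        | smul r x _ hx => rw [map_smul, LinearMap.smul_apply, hx, smul_zero]
      rw [map_add, LinearMap.add_apply, h1, h2, add_zero]
    · intro h
      funext A
      show wform c (C.sh.mon (mc A.1 + mm A)) g / K0 A = 0
      rw [hO, LinearMap.BilinForm.mem_orthogonal_iff] at h
      have hmem : C.sh.mon (mc A.1 + mm A) ∈ W := by
        apply Submodule.mem_sup_right
        -- realise as a face
        have hnd : (mc A.1 + mm A).Nodup := by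
          rw [Multiset.nodup_add]
          refine ⟨?_, ?_, ?_⟩
          · exact Multiset.Nodup.map (fun i j h => (Prod.mk.inj h).1) (univ \ A.1).nodup
          · exact Multiset.Nodup.map (fun i j h => (Prod.mk.inj h).1) (mA A).nodup
          · rw [Multiset.disjoint_left]
            intro ρ h1 h2
            obtain ⟨i, _, rfl⟩ := Multiset.mem_map.1 h1
            obtain ⟨i', _, h3⟩ := Multiset.mem_map.1 h2
            simp at h3
        refine Submodule.subset_span ⟨⟨mc A.1 + mm A, hnd⟩, ?_, ?_, ?_, rfl⟩
        · -- contained in a facet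
          obtain ⟨a, haA, ham⟩ : ∃ a ∈ A.1, a ∉ mA A := by
            by_contra hcon
            push Not at hcon
            have h1 := Finset.card_le_card (show A.1 ⊆ mA A from hcon)
            have h2 := hmA2 A
            have h3 := A.2
            omega
          refine ⟨⟨(A.1, a), A.2, haA⟩, ?_⟩
          intro ρ hρ
          have hρ' : ρ ∈ mc A.1 + mm A := hρ
          rw [Multiset.mem_add] at hρ'
          rcases hρ' with h1 | h1
          · obtain ⟨i, hi, rfl⟩ := Multiset.mem_map.1 h1
            exact mem_PhiOf_false.2 (Finset.mem_sdiff.1 (show i ∈ univ \ A.1 from hi)).2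
          · obtain ⟨i, hi, rfl⟩ := Multiset.mem_map.1 h1
            refine mem_PhiOf_true.2 ⟨hmA A hi, ?_⟩
            rintro rfl
            exact ham hi
        · refine ⟨A.1, A.2, fun i hi => ?_⟩
          show (i, false) ∈ mc A.1 + mm A
          rw [Multiset.mem_add]
          left
          have hi' : i ∈ univ \ A.1 := by simp [hi]
          exact Multiset.mem_map.2 ⟨i, hi', rfl⟩
        · show (mc A.1 + mm A).card = e
          rw [Multiset.card_add, card_mc A.2, hmmc]
          have := hmA2 A
          omega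
      have h1 : wform c (C.sh.mon (mc A.1 + mm A)) g = 0 := h _ hmem
      rw [h1, zero_div]
  have hrn := LinearMap.finrank_range_add_finrank_ker (Λ.comp (C.sh.F j).subtype)
  have hrange : LinearMap.range (Λ.comp (C.sh.F j).subtype) = C.PP j := by
    rw [LinearMap.range_comp, Submodule.range_subtype, himage]
  have hkerdim : finrank ℚ (O.comap (C.sh.F j).subtype) = finrank ℚ O :=
    (Submodule.comapSubtypeEquivOfLe hOF).finrank_eq
  rw [hrange, hker, hkerdim, C.finrank_PP j (by omega), C.sh.finrank_F'] at hrn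
  have hOdim := LinearMap.BilinForm.finrank_orthogonal (wform_nondeg hc) W
  rw [finrank_fintype_fun_eq_card] at hOdim
  have hWle : finrank ℚ W ≤ Fintype.card (Pt n k) := by
    rw [← finrank_fintype_fun_eq_card ℚ]
    exact Submodule.finrank_le _
  rw [← hO] at hOdim
  have h1 : C.sh.H j = hN n k j := rfl
  have h2 : C.sh.H e = hN n k e := rfl
  omega

theorem core_high (e : ℕ) (he : 1 ≤ e) (hek : e < n - k) :
    finrank ℚ ((C.sh.Gen (nw n k) e → ℚ) ⧸ Submodule.span ℚ (C.sh.relSet (nw n k) e)) +
      hN n k (e - 1) = hN n k e := by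
  have hquot := C.sh.finrank_quot (nw n k) (fun G G' h1 h2 => nw_mono G G' h1 h2) e he
  have hU : C.sh.U (nw n k) e = ⊥ := by
    rw [Sh.U, Submodule.span_eq_bot]
    rintro f ⟨G, h1, h2, h3, rfl⟩
    exfalso
    obtain ⟨q₀, A', hA', hG⟩ := C.new_shape h1 h2
    have h6 : G.card = n - k + A'.card := by
      rw [← Finset.card_val, hG, Multiset.card_add, card_mc q₀.2.1]; simp
    omega
  rw [hU, sup_bot_eq, C.sh.finrank_F'] at hquot
  exact hquot

end Cfg

end Pool.Agent.Helper40.CB
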