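import Mathlib

set_option autoImplicit false

namespace Pool.Agent.Helper40.CB

open Matrix

/-- A rational polytope: the convex hull of finitely many points of `ℚ^d`. -/
def IsPolytope {d : ℕ} (P : Set (Fin d → ℚ)) : Prop :=
  ∃ S : Finset (Fin d → ℚ), P = convexHull ℚ (S : Set (Fin d → ℚ))

/-- The faces of `P`: the empty set, and the sets of points of `P` where a linear functional
attains its maximum over `P` (the functional `0` gives `P` itself). -/
def IsFace {d : ℕ} (P F : Set (Fin d → ℚ)) : Prop :=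
  F = ∅ ∨ ∃ u : Fin d → ℚ, F = {x | x ∈ P ∧ ∀ y ∈ P, u ⬝ᵥ y ≤ u ⬝ᵥ x}

/-- The face lattice, ordered by inclusion. -/
abbrev FaceLattice {d : ℕ} (P : Set (Fin d → ℚ)) : Type := {F : Set (Fin d → ℚ) // IsFace P F}

/-- Nonempty faces of dimension `j`. -/
abbrev FaceOfDim {d : ℕ} (P : Set (Fin d → ℚ)) (j : ℕ) : Type :=
  {F : Set (Fin d → ℚ) // IsFace P F ∧ F.Nonempty ∧ Module.finrank ℚ (vectorSpan ℚ F) = j}

/-- The cone of the normal fan which belongs to the face `F`: the functionals which attain their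
maximum over `P` on all of `F`. -/
def normalCone {d : ℕ} (P F : Set (Fin d → ℚ)) : Set (Fin d → ℚ) :=
  {u | ∀ x ∈ F, ∀ y ∈ P, u ⬝ᵥ y ≤ u ⬝ᵥ x}

/-- An integer vector, as a rational vector. -/
def toQ {d : ℕ} (v : Fin d → ℤ) : Fin d → ℚ := fun i => (v i : ℚ)

/-- `v` is a lattice vector in the cone of `F` whose image generates `N_F / N_G`, where `N_F` is
the lattice of integer vectors in the linear span of the cone of `F`. -/
def IsNormalGen {d : ℕ} (P F G : Set (Fin d → ℚ)) (v : Fin d → ℤ) : Prop :=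
  toQ v ∈ normalCone P F ∧
  ∀ z : Fin d → ℤ, toQ z ∈ Submodule.span ℚ (normalCone P F) →
    ∃ t : ℤ, toQ (z - t • v) ∈ Submodule.span ℚ (normalCone P G)

/-- The relations between the classes of the `j`-dimensional faces: one for each face `G` of
dimension `j + 1` and each integer vector `m` orthogonal to the cone of `G`. -/
def relations {d : ℕ} (P : Set (Fin d → ℚ)) (j : ℕ) : Set (FaceOfDim P j →₀ ℚ) :=
  {r | ∃ (G : FaceOfDim P (j + 1)) (m : Fin d → ℤ), (∀ u ∈ normalCone P G.1, u ⬝ᵥ toQ m = 0) ∧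
    ∀ F : FaceOfDim P j,
      (F.1 ⊆ G.1 → ∃ v : Fin d → ℤ, IsNormalGen P F.1 G.1 v ∧ r F = toQ v ⬝ᵥ toQ m) ∧
      (¬ F.1 ⊆ G.1 → r F = 0)}

/-- The `j`-th Chow-Betti number of the normal fan of `P`: the dimension of the rational Chow group
`A_j` of the toric variety, in the presentation by orbit closures. -/
noncomputable def chowBetti {d : ℕ} (P : Set (Fin d → ℚ)) (j : ℕ) : ℕ :=
  Module.finrank ℚ ((FaceOfDim P j →₀ ℚ) ⧸ Submodule.span ℚ (relations P j))

/-- The hypersimplex `Δ(k,n)`. -/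
def hypersimplex (k n : ℕ) : Set (Fin n → ℚ) :=
  convexHull ℚ {x | (∀ i, x i = 0 ∨ x i = 1) ∧ ∑ i, x i = (k : ℚ)}

/-- `P` is a full-dimensional realization of the combinatorial type of `Δ(k,n)`. -/
def RealizesHyp (k n : ℕ) (P : Set (Fin (n - 1) → ℚ)) : Prop :=
  IsPolytope P ∧ affineSpan ℚ P = ⊤ ∧ Nonempty (FaceLattice P ≃o FaceLattice (hypersimplex k n))

/-- `P` is a full-dimensional realization of the combinatorial type of the dual of `Δ(k,n)`. -/
def RealizesDualHyp (k n : ℕ) (P : Set (Fin (n - 1) → ℚ)) : Prop :=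
  IsPolytope P ∧ affineSpan ℚ P = ⊤ ∧
    Nonempty (FaceLattice P ≃o (FaceLattice (hypersimplex k n))ᵒᵈ)

end Pool.Agent.Helper40.CB
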