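import Pool.Agent.Helper40.CB.HypZero

set_option autoImplicit false

namespace Pool.Agent.Helper40.CB

open Finset Matrix Module

variable {d n k : ℕ}

/-- change all the signs -/
def flip (G : Finset (Fin n × Bool)) : Finset (Fin n × Bool) := univ.filter (fun ρ => (ρ.1, !ρ.2) ∈ G)

theorem mem_flip {G : Finset (Fin n × Bool)} {ρ : Fin n × Bool} : ρ ∈ flip G ↔ (ρ.1, !ρ.2) ∈ G := by
  simp [flip]

theorem flip_flip (G : Finset (Fin n × Bool)) : flip (flip G) = G := by
  ext ρ
  rw [mem_flip, mem_flip, Bool.not_not]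

theorem flip_sub {G H : Finset (Fin n × Bool)} : flip G ⊆ H ↔ G ⊆ flip H := by
  constructor
  · intro h ρ hρ
    rw [mem_flip]
    apply h
    rw [mem_flip, Bool.not_not]
    exact hρ
  · intro h ρ hρ
    have := h (mem_flip.1 hρ)
    rw [mem_flip, Bool.not_not] at this
    exact this

theorem flip_sgn (A : Finset (Fin n)) : flip (sgn A) = sgn (univ \ A) := by
  ext ⟨i, s⟩
  rw [mem_flip]
  cases s with
  | true => rw [Bool.not_true, mem_sgn_false, mem_sgn_true]; simp
  | false => rw [Bool.not_false, mem_sgn_true, mem_sgn_false]; simp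

theorem compl_compl' (A : Finset (Fin n)) : univ \ (univ \ A) = A := by
  ext i; simp

theorem card_compl' {A : Finset (Fin n)} (hA : A.card = k) : (univ \ A).card = n - k := by
  rw [Finset.card_sdiff_of_subset (Finset.subset_univ _), Finset.card_univ, Fintype.card_fin, hA]

theorem ok_flip (hkn : k ≤ n) {G : Finset (Fin n × Bool)}
    (h : ∃ A : Finset (Fin n), A.card = n - k ∧ G ⊆ sgn A) :
    ∃ A : Finset (Fin n), A.card = k ∧ flip G ⊆ sgn A := by
  obtain ⟨A, hA, hG⟩ := h
  refine ⟨univ \ A, by rw [card_compl' hA]; omega, ?_⟩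
  rw [flip_sub, flip_sgn, compl_compl']
  exact hG

/-- the symmetry of the hypersimplices -/
noncomputable def HypModel.flip {P : Set (Fin d → ℚ)} (M : HypModel n k P) (hkn : k ≤ n) :
    HypModel n (n - k) P where
  hP := M.hP
  p := fun A => M.p (univ \ A)
  isV := fun A hA => M.isV _ (by rw [card_compl' hA]; omega)
  allV := fun x hx => by
    obtain ⟨A, hA, rfl⟩ := M.allV x hx
    exact ⟨univ \ A, card_compl' hA, by rw [compl_compl']⟩
  inj := fun A B hA hB h => by
    have := M.inj _ _ (by rw [card_compl' hA]; omega) (by rw [card_compl' hB]; omega) h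
    rw [← compl_compl' A, ← compl_compl' B, this]
  face_of := fun F hF hne => by
    obtain ⟨G, ⟨A, hA, hGA⟩, hG⟩ := M.face_of F hF hne
    refine ⟨CB.flip G, ⟨univ \ A, card_compl' hA, ?_⟩, fun B hB => ?_⟩
    · rw [flip_sub, flip_sgn, compl_compl']
      exact hGA
    · rw [hG (univ \ B) (by rw [card_compl' hB]; omega), flip_sub, flip_sgn]
  of_face := fun G hG => by
    obtain ⟨F, hF, h⟩ := M.of_face (CB.flip G) (ok_flip hkn hG)
    refine ⟨F, hF, fun B hB => ?_⟩
    rw [h (univ \ B) (by rw [card_compl' hB]; omega), flip_sub, flip_sgn, compl_compl']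

theorem chow_hyp_aux {P P' : Set (Fin d → ℚ)} (M : HypModel n k P) (M' : HypModel n k P')
    (hn : n = d + 1) (hk : 2 ≤ k) (hkn : 2 * k ≤ n) (hP : affineSpan ℚ P = ⊤)
    (hP' : affineSpan ℚ P' = ⊤) (j : ℕ) : chowBetti P j = chowBetti P' j := by
  have hne : ∀ {P : Set (Fin d → ℚ)} (_ : HypModel n k P), P.Nonempty := by
    intro P M
    obtain ⟨A, -, hA⟩ := Finset.exists_subset_card_eq (s := (univ : Finset (Fin n))) (n := k)
      (by rw [Finset.card_univ, Fintype.card_fin]; omega)
    exact ⟨_, HypModel.p_mem_P (M := M) hA⟩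
  rcases Nat.eq_zero_or_pos j with rfl | hj1
  · rw [M.chow_zero hn (by omega), M'.chow_zero hn (by omega)]
  · rcases Nat.lt_or_ge j d with hj | hj
    · have e1 := M.chow_eq_core hn hk hkn hj1 hj
      have e2 := M'.chow_eq_core hn hk hkn hj1 hj
      rcases Nat.lt_or_ge j k with hjk | hjk
      · have c1 := (M.cfg hn hk hkn).core_low j hj1 hjk
        have c2 := (M'.cfg hn hk hkn).core_low j hj1 hjk
        omega
      · have c1 := (M.cfg hn hk hkn).core_high (d - j) (by omega) (by omega)
        have c2 := (M'.cfg hn hk hkn).core_high (d - j) (by omega) (by omega)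
        omega
    · rcases Nat.eq_or_lt_of_le hj with rfl | hj
      · rw [chow_top hP (hne M), chow_top hP' (hne M')]
      · rw [chow_big hj, chow_big hj]

/-- **Part A.** -/
theorem chow_hyp {P P' : Set (Fin d → ℚ)} (M : HypModel n k P) (M' : HypModel n k P')
    (hn : n = d + 1) (hk : 2 ≤ k) (hkn : k + 2 ≤ n) (hP : affineSpan ℚ P = ⊤)
    (hP' : affineSpan ℚ P' = ⊤) (j : ℕ) : chowBetti P j = chowBetti P' j := by
  rcases Nat.lt_or_ge n (2 * k) with h | h
  · exact chow_hyp_aux (M.flip (by omega)) (M'.flip (by omega)) hn (by omega) (by omega) hP hP' j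
  · exact chow_hyp_aux M M' hn hk h hP hP' j

end Pool.Agent.Helper40.CB
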