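import Pool.Agent.Helper40.CB.DualMid
import Pool.Agent.Helper40.CB.FinalA

set_option autoImplicit false

namespace Pool.Agent.Helper40.CB

open Finset Matrix Module

variable {d n k : ℕ}

/-- ridges -/
abbrev Rg (n k : ℕ) : Type := {G : Finset (Fin n × Bool) // Gd n k G ∧ G.card + 2 = n}

noncomputable instance : Fintype (Rg n k) := Fintype.ofFinite _

/-- the `k`-sets -/
abbrev Vk (n k : ℕ) : Type := {A : Finset (Fin n) // A.card = k}

namespace DualModel

variable {P : Set (Fin d → ℚ)} (M : DualModel n k P)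

theorem finrank_P (hdim : affineSpan ℚ P = ⊤) : finrank ℚ (vs P) = d := by
  have hvs : vs P = ⊤ := AffineSubspace.vectorSpan_eq_top_of_affineSpan_eq_top ℚ _ _ hdim
  rw [hvs, finrank_top, Module.finrank_fin_fun]

/-- ridges as faces -/
noncomputable def epsR (hn : n = d + 1) (hk : 2 ≤ k) (hkn : k + 2 ≤ n) (hdim : affineSpan ℚ P = ⊤)
    {j : ℕ} (hj : j + 2 = d) : Rg n k ≃ FaceOfDim P j :=
  Equiv.ofBijective (fun G => ⟨M.face G.1, isFace_face (Or.inl G.2.1),
    face_ne (Or.inl G.2.1) (by rw [← Finset.card_pos]; have := G.2.2; omega), by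
      have h1 := fdim (M := M) hn hk hkn G.2.1 (by rw [← Finset.card_pos]; have := G.2.2; omega)
      have h2 : finrank ℚ (vectorSpan ℚ (M.face G.1)) = finrank ℚ (vs (M.face G.1)) := rfl
      have := G.2.2
      omega⟩) (by
    constructor
    · rintro ⟨G, hG⟩ ⟨G', hG'⟩ h
      exact Subtype.ext (face_inj (M := M) (Or.inl hG.1) (Or.inl hG'.1) (congrArg Subtype.val h))
    · intro F
      have hFd : finrank ℚ (vs F.1) = j := F.2.2.2
      obtain ⟨G, hG, hne, hF⟩ := eq_face (M := M) F.2.1 F.2.2.1 (by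
        intro h
        rw [h, finrank_P hdim] at hFd
        omega)
      rcases hG with hG | ⟨A, hA, rfl⟩
      · have h1 := fdim (M := M) hn hk hkn hG hne
        rw [← hF, hFd] at h1
        exact ⟨⟨G, hG, by omega⟩, Subtype.ext hF.symm⟩
      · exfalso
        have h1 := fdim_facet (M := M) hn hk hkn hA
        rw [← hF, hFd] at h1
        omega)

theorem epsR_val (hn : n = d + 1) (hk : 2 ≤ k) (hkn : k + 2 ≤ n) (hdim : affineSpan ℚ P = ⊤)
    {j : ℕ} (hj : j + 2 = d) (G : Rg n k) : (M.epsR hn hk hkn hdim hj G).1 = M.face G.1 := rfl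

/-- facets as faces -/
noncomputable def epsF (hn : n = d + 1) (hk : 2 ≤ k) (hkn : k + 2 ≤ n) (hdim : affineSpan ℚ P = ⊤)
    {j : ℕ} (hj : j + 1 = d) : Vk n k ≃ FaceOfDim P j :=
  Equiv.ofBijective (fun A => ⟨M.face (sgn A.1), isFace_face (gs_sgn A.2),
    face_ne (gs_sgn A.2) (sgn_ne (by omega) _), by
      have h1 := fdim_facet (M := M) hn hk hkn A.2
      have h2 : finrank ℚ (vectorSpan ℚ (M.face (sgn A.1))) = finrank ℚ (vs (M.face (sgn A.1))) := rfl
      omega⟩) (by
    constructor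
    · rintro ⟨A, hA⟩ ⟨B, hB⟩ h
      have h1 := face_inj (M := M) (gs_sgn hA) (gs_sgn hB) (congrArg Subtype.val h)
      exact Subtype.ext (sgn_sub_iff hA hB h1.subset)
    · intro F
      have hFd : finrank ℚ (vs F.1) = j := F.2.2.2
      obtain ⟨G, hG, hne, hF⟩ := eq_face (M := M) F.2.1 F.2.2.1 (by
        intro h
        rw [h, finrank_P hdim] at hFd
        omega)
      rcases hG with hG | ⟨A, hA, rfl⟩
      · exfalso
        have h1 := fdim (M := M) hn hk hkn hG hne
        rw [← hF, hFd] at h1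
        have h2 : G.card + 2 ≤ n := by
          obtain ⟨A, a, c, hA, ha, hc', h4⟩ := hG
          have hsub : G ⊆ ((sgn A).erase (a, true)).erase (c, false) := by
            intro ρ hρ
            obtain ⟨h1, h2, h3⟩ := h4 ρ hρ
            exact Finset.mem_erase.2 ⟨h3, Finset.mem_erase.2 ⟨h2, h1⟩⟩
          have h6 := Finset.card_le_card hsub
          have h7 : (a, true) ∈ sgn A := mem_sgn_true.2 ha
          have h8 : (c, false) ∈ (sgn A).erase (a, true) := by
            rw [Finset.mem_erase]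
            exact ⟨by simp, mem_sgn_false.2 hc'⟩
          have h9 := Finset.card_erase_add_one h8
          have h10 := Finset.card_erase_add_one h7
          rw [card_sgn] at h10
          omega
        omega
      · exact ⟨⟨A, hA⟩, Subtype.ext hF.symm⟩)

theorem epsF_val (hn : n = d + 1) (hk : 2 ≤ k) (hkn : k + 2 ≤ n) (hdim : affineSpan ℚ P = ⊤)
    {j : ℕ} (hj : j + 1 = d) (A : Vk n k) : (M.epsF hn hk hkn hdim hj A).1 = M.face (sgn A.1) := rfl

theorem exists_data (hn : n = d + 1) (hk : 2 ≤ k) (hkn : k + 2 ≤ n) (hdim : affineSpan ℚ P = ⊤) :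
    ∃ (eA eB : Rg n k → Vk n k) (g : Rg n k → ℚ), ∀ e, eA e ≠ eB e ∧
      (∀ C : Vk n k, e.1 ⊆ sgn C.1 ↔ C = eA e ∨ C = eB e) ∧ 0 < g e ∧
      (∀ m ∈ vs (M.face (sgn (eA e).1)), toQ (nv P (M.face e.1) (M.face (sgn (eA e).1))) ⬝ᵥ m =
        g e * (M.u (eB e).1 ⬝ᵥ m)) ∧
      (∀ m ∈ vs (M.face (sgn (eB e).1)), toQ (nv P (M.face e.1) (M.face (sgn (eB e).1))) ⬝ᵥ m =
        g e * (M.u (eA e).1 ⬝ᵥ m)) := by
  have h : ∀ e : Rg n k, ∃ (A B : Vk n k) (g : ℚ), A ≠ B ∧
      (∀ C : Vk n k, e.1 ⊆ sgn C.1 ↔ C = A ∨ C = B) ∧ 0 < g ∧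
      (∀ m ∈ vs (M.face (sgn A.1)), toQ (nv P (M.face e.1) (M.face (sgn A.1))) ⬝ᵥ m =
        g * (M.u B.1 ⬝ᵥ m)) ∧
      (∀ m ∈ vs (M.face (sgn B.1)), toQ (nv P (M.face e.1) (M.face (sgn B.1))) ⬝ᵥ m =
        g * (M.u A.1 ⬝ᵥ m)) := by
    intro e
    obtain ⟨A, B, hAB, -, hC⟩ := ridge_two e.2.1 e.2.2
    obtain ⟨g, hg, h1, h2⟩ := exists_g_symm (M := M) hn hk hkn hdim e.2.1 e.2.2 A.2 B.2
      (fun h => hAB (Subtype.ext h)) ((hC A).2 (Or.inl rfl)) ((hC B).2 (Or.inr rfl))
    exact ⟨A, B, g, hAB, hC, hg, h1, h2⟩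
  choose eA eB g h using h
  exact ⟨eA, eB, g, h⟩

theorem vs_facet (hn : n = d + 1) (hk : 2 ≤ k) (hkn : k + 2 ≤ n) (hdim : affineSpan ℚ P = ⊤)
    {A : Finset (Fin n)} (hA : A.card = k) (m : Fin d → ℚ) :
    m ∈ vs (M.face (sgn A)) ↔ M.u A ⬝ᵥ m = 0 := by
  refine ⟨fun h => u_zero hn hk hkn hdim hA h, fun h => ?_⟩
  have hc := facet_cov (M := M) hn hk hkn hdim hA
  have hvs : vs P = ⊤ := AffineSubspace.vectorSpan_eq_top_of_affineSpan_eq_top ℚ _ _ hdim
  obtain ⟨x, hx⟩ := hc.ne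
  obtain ⟨y, hy, hyF⟩ := hc.exists_y
  exact hc.mem_of_zero (u := M.u A) (fun m hm => u_zero hn hk hkn hdim hA hm)
    (sub_mem_vs hy (hc.sub hx)) (hc.gen_neg hc.nv_spec hx hy hyF).ne (by rw [hvs]; exact Submodule.mem_top) h

theorem u_ne (hn : n = d + 1) (hk : 2 ≤ k) (hkn : k + 2 ≤ n) (hdim : affineSpan ℚ P = ⊤)
    {A : Finset (Fin n)} (hA : A.card = k) : M.u A ≠ 0 := by
  intro h
  have hc := facet_cov (M := M) hn hk hkn hdim hA
  obtain ⟨x, hx⟩ := hc.ne
  obtain ⟨y, hy, hyF⟩ := hc.exists_y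
  have := hc.gen_neg hc.nv_spec hx hy hyF
  have h2 : toQ (nv P (M.face (sgn A)) P) ⬝ᵥ (y - x) = M.u A ⬝ᵥ (y - x) := rfl
  rw [h2, h, zero_dotProduct] at this
  exact lt_irrefl _ this

include M in
/-- The Chow group of codimension two. -/
theorem dual_mid (hn : n = d + 1) (hk : 2 ≤ k) (hkn : 2 * k ≤ n) (hdim : affineSpan ℚ P = ⊤)
    {j : ℕ} (hj : j + 2 = d) :
    chowBetti P j + Fintype.card (Vk n k) * d =
      Fintype.card (Rg n k) + Fintype.card (Vk n k) + finrank ℚ (Sk d) := by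
  classical
  have hkn' : k + 2 ≤ n := by omega
  obtain ⟨eA, eB, g, hdata⟩ := M.exists_data hn hk hkn' hdim
  have hfin : Finite (FaceOfDim P j) := Finite.of_equiv _ (M.epsR hn hk hkn' hdim hj)
  let u : Vk n k → Fin d → ℚ := fun A => M.u A.1
  let ψ : (FaceOfDim P j →₀ ℚ) ≃ₗ[ℚ] (Rg n k → ℚ) :=
    (Finsupp.linearEquivFunOnFinite ℚ ℚ (FaceOfDim P j)).trans
      ((LinearEquiv.funCongrLeft ℚ ℚ (M.epsR hn hk hkn' hdim hj)).trans
        (LinearEquiv.piCongrRight (fun G : Rg n k =>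
          LinearEquiv.smulOfNeZero ℚ ℚ (g G)⁻¹ (inv_ne_zero (hdata G).2.2.1.ne'))))
  have hψ : ∀ r G, ψ r G = (g G)⁻¹ * r (M.epsR hn hk hkn' hdim hj G) := fun r G => rfl
  -- the relation of a facet
  have hrel : ∀ (A : Vk n k) (m : Fin d → ℚ), m ∈ vs (M.face (sgn A.1)) → ∀ r : FaceOfDim P j →₀ ℚ,
      (∀ F : FaceOfDim P j, F.1 ⊆ M.face (sgn A.1) → r F = toQ (nv P F.1 (M.face (sgn A.1))) ⬝ᵥ m) →
      (∀ F : FaceOfDim P j, ¬ F.1 ⊆ M.face (sgn A.1) → r F = 0) →
      ψ r = Ph u eA eB (Pi.single A m) := by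
    intro A m hm r h1 h2
    funext e
    obtain ⟨hne, hC, hg, hgA, hgB⟩ := hdata e
    rw [hψ]
    show _ = (Pi.single A m : Vk n k → Fin d → ℚ) (eA e) ⬝ᵥ u (eB e) +
      (Pi.single A m : Vk n k → Fin d → ℚ) (eB e) ⬝ᵥ u (eA e)
    by_cases hsub : e.1 ⊆ sgn A.1
    · have hFA : (M.epsR hn hk hkn' hdim hj e).1 ⊆ M.face (sgn A.1) := by
        rw [epsR_val]; exact face_mono (Or.inl e.2.1) (gs_sgn A.2) hsub
      rw [h1 _ hFA, epsR_val]
      rcases (hC A).1 hsub with h | h
      · rw [h] at hm ⊢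
        rw [Pi.single_eq_same, Pi.single_eq_of_ne (Ne.symm hne), zero_dotProduct, add_zero, hgA m hm,
          inv_mul_cancel_left₀ hg.ne', dotProduct_comm]
      · rw [h] at hm ⊢
        rw [Pi.single_eq_same, Pi.single_eq_of_ne hne, zero_dotProduct, zero_add, hgB m hm,
          inv_mul_cancel_left₀ hg.ne', dotProduct_comm]
    · have h3 : A ≠ eA e := fun h => hsub ((hC A).2 (Or.inl h))
      have h4 : A ≠ eB e := fun h => hsub ((hC A).2 (Or.inr h))
      rw [Pi.single_eq_of_ne (Ne.symm h3), Pi.single_eq_of_ne (Ne.symm h4), zero_dotProduct,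
        zero_dotProduct, add_zero, h2, mul_zero]
      rw [epsR_val]
      exact fun h => hsub ((face_sub_iff (Or.inl e.2.1) (gs_sgn A.2)).1 h)
  have hfacet : ∀ G : FaceOfDim P (j + 1), ∃ A : Vk n k, G.1 = M.face (sgn A.1) := by
    intro G
    obtain ⟨A, hA⟩ := (M.epsF hn hk hkn' hdim (by omega : (j + 1) + 1 = d)).surjective G
    exact ⟨A, by rw [← hA]; rfl⟩
  have hmap : (Submodule.span ℚ (relations P j)).map (ψ : (FaceOfDim P j →₀ ℚ) →ₗ[ℚ] (Rg n k → ℚ)) =
      (Kd u).map (Ph u eA eB) := by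
    apply le_antisymm
    · rw [Submodule.map_span, Submodule.span_le]
      rintro f ⟨r, ⟨G, m, hm, hr⟩, rfl⟩
      obtain ⟨A, hGA⟩ := hfacet G
      have hmG : toQ m ∈ vs (M.face (sgn A.1)) := by
        rw [← hGA]; exact mem_vs_of_rel M.hP G.2.1 G.2.2.1 hm
      have h1 := hrel A (toQ m) hmG r
        (fun F hF => by
          have := rel_val M.hP hm hr F (by rw [hGA]; exact hF)
          rw [this, hGA])
        (fun F hF => (hr F).2 (by rw [hGA]; exact hF))
      refine ⟨Pi.single A (toQ m), ?_, h1.symm⟩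
      intro B
      by_cases hB : B = A
      · subst hB
        rw [Pi.single_eq_same, dotProduct_comm]
        exact (M.vs_facet hn hk hkn' hdim B.2 _).1 hmG
      · rw [Pi.single_eq_of_ne hB, zero_dotProduct]
    · rintro f ⟨m, hm, rfl⟩
      have hm' : ∀ A : Vk n k, m A ∈ vs (M.face (sgn A.1)) := by
        intro A
        rw [M.vs_facet hn hk hkn' hdim A.2, dotProduct_comm]
        exact hm A
      have hsum : m = ∑ A, Pi.single A (m A) := by
        funext B
        rw [Finset.sum_apply, Finset.sum_eq_single B]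
        · rw [Pi.single_eq_same]
        · intro A _ hA
          rw [Pi.single_eq_of_ne (Ne.symm hA)]
        · intro h; exact absurd (Finset.mem_univ _) h
      rw [hsum, map_sum]
      apply Submodule.sum_mem
      intro A _
      obtain ⟨D, hD, z, hz⟩ := exists_int_mul (m A)
      have hDq : (D : ℚ) ≠ 0 := by exact_mod_cast hD.ne'
      have hmG : toQ z ∈ vs (M.face (sgn A.1)) := by rw [hz]; exact Submodule.smul_mem _ _ (hm' A)
      obtain ⟨r, hr, hr1, hr2⟩ := exists_rel M.hP (M.epsF hn hk hkn' hdim (by omega : (j + 1) + 1 = d) A) z hmG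
      have h3 := hrel A (toQ z) hmG r hr1 hr2
      have h4 : Ph u eA eB (Pi.single A (m A)) = (D : ℚ)⁻¹ • ψ r := by
        rw [h3, hz, ← map_smul, ← Pi.single_smul, smul_smul, inv_mul_cancel₀ hDq, one_smul]
      rw [h4]
      apply Submodule.smul_mem
      exact Submodule.mem_map_of_mem (Submodule.subset_span hr)
  have hq : chowBetti P j = finrank ℚ ((Rg n k → ℚ) ⧸ (Kd u).map (Ph u eA eB)) :=
    LinearEquiv.finrank_eq (Submodule.Quotient.equiv _ _ ψ hmap)
  rw [hq]
  apply finrank_mid u eA eB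
  · exact fun A => M.u_ne hn hk hkn' hdim A.2
  · exact fun m hm => eq_zero_of_u (M := M) hn hk hkn' hdim (fun A hA => hm ⟨A, hA⟩)
  · intro m hm he A B
    let m' : Finset (Fin n) → Fin d → ℚ := fun A => if h : A.card = k then m ⟨A, h⟩ else 0
    have hm'v : ∀ A : Vk n k, m' A.1 = m A := fun A => dif_pos A.2
    have := Pool.Agent.Helper67.CB.rigid hn hk hkn M.u M.q M.b
      (fun A hA ρ => by
        rw [dotProduct_comm]
        by_cases h : ρ ∈ sgn A
        · exact (u_q hn hk hkn' hdim hA h).le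
        · exact (u_lt hn hk hkn' hdim hA h).le)
      (fun A hA ρ => by
        rw [dotProduct_comm]
        constructor
        · intro h
          by_contra hcon
          exact absurd h (u_lt hn hk hkn' hdim hA hcon).ne
        · exact fun h => u_q hn hk hkn' hdim hA h)
      m' (fun A hA => by
        have := hm ⟨A, hA⟩
        rw [← hm'v] at this
        exact this)
      (fun A B hA hB hAB => by
        obtain ⟨G, hG, hGc, hGA, hGB⟩ := exists_ridge hA hB hAB
        have hAB' : A ≠ B := by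
          rintro rfl
          rw [Finset.inter_self] at hAB
          omega
        have h1 := he ⟨G, hG, hGc⟩
        obtain ⟨hne, hC, -, -, -⟩ := hdata ⟨G, hG, hGc⟩
        rw [show m' A = m ⟨A, hA⟩ from hm'v ⟨A, hA⟩, show m' B = m ⟨B, hB⟩ from hm'v ⟨B, hB⟩]
        rcases (hC ⟨A, hA⟩).1 hGA with hA1 | hA1 <;> rcases (hC ⟨B, hB⟩).1 hGB with hB1 | hB1
        · exact absurd (congrArg Subtype.val (hA1.trans hB1.symm)) hAB'
        · rw [← hA1, ← hB1] at h1
          exact h1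
        · rw [← hA1, ← hB1] at h1
          rw [add_comm]
          exact h1
        · exact absurd (congrArg Subtype.val (hA1.trans hB1.symm)) hAB') A.1 B.1 A.2 B.2
    rw [hm'v, hm'v] at this
    exact this

include M in
/-- The Chow group of codimension one. -/
theorem dual_top (hn : n = d + 1) (hk : 2 ≤ k) (hkn : k + 2 ≤ n) (hdim : affineSpan ℚ P = ⊤)
    {j : ℕ} (hj : j + 1 = d) : chowBetti P j + d = Fintype.card (Vk n k) := by
  classical
  have hfin : Finite (FaceOfDim P j) := Finite.of_equiv _ (M.epsF hn hk hkn hdim hj)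
  have hvs : vs P = ⊤ := AffineSubspace.vectorSpan_eq_top_of_affineSpan_eq_top ℚ _ _ hdim
  let ψ : (FaceOfDim P j →₀ ℚ) ≃ₗ[ℚ] (Vk n k → ℚ) :=
    (Finsupp.linearEquivFunOnFinite ℚ ℚ (FaceOfDim P j)).trans
      (LinearEquiv.funCongrLeft ℚ ℚ (M.epsF hn hk hkn hdim hj))
  have hψ : ∀ r A, ψ r A = r (M.epsF hn hk hkn hdim hj A) := fun r A => rfl
  let L : (Fin d → ℚ) →ₗ[ℚ] (Vk n k → ℚ) :=
    { toFun := fun m A => M.u A.1 ⬝ᵥ m
      map_add' := fun x y => by funext A; simp only [Pi.add_apply, dotProduct_add]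
      map_smul' := fun c x => by
        funext A; simp only [Pi.smul_apply, dotProduct_smul, RingHom.id_apply] }
  have hL : ∀ m A, L m A = M.u A.1 ⬝ᵥ m := fun m A => rfl
  have hPd : finrank ℚ (vs P) = d := finrank_P hdim
  have hG : ∀ G : FaceOfDim P (j + 1), G.1 = P := by
    intro G
    by_contra hcon
    have h1 := fdim_lt G.2.1 (isFace_self P) G.2.2.1 G.2.1.subset hcon
    have h2 : finrank ℚ (vs G.1) = j + 1 := G.2.2.2
    omega
  have hne : P.Nonempty := by
    obtain ⟨A, -, hA⟩ := Finset.exists_subset_card_eq (s := (univ : Finset (Fin n))) (n := k)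
      (by rw [Finset.card_univ, Fintype.card_fin]; omega)
    obtain ⟨x, hx⟩ := (facet_cov (M := M) hn hk hkn hdim hA).ne
    exact ⟨x, (facet_cov (M := M) hn hk hkn hdim hA).sub hx⟩
  have hmap : (Submodule.span ℚ (relations P j)).map (ψ : (FaceOfDim P j →₀ ℚ) →ₗ[ℚ] (Vk n k → ℚ)) =
      LinearMap.range L := by
    apply le_antisymm
    · rw [Submodule.map_span, Submodule.span_le]
      rintro f ⟨r, ⟨G, m, hm, hr⟩, rfl⟩
      refine ⟨toQ m, ?_⟩
      funext A
      show L (toQ m) A = ψ r A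
      rw [hL, hψ, rel_val M.hP hm hr _ (by rw [hG G]; exact (M.epsF hn hk hkn hdim hj A).2.1.subset),
        hG G]
      rfl
    · rintro f ⟨m, rfl⟩
      obtain ⟨D, hD, z, hz⟩ := exists_int_mul m
      have hDq : (D : ℚ) ≠ 0 := by exact_mod_cast hD.ne'
      let GP : FaceOfDim P (j + 1) := ⟨P, isFace_self P, hne, by
        have : finrank ℚ (vectorSpan ℚ P) = finrank ℚ (vs P) := rfl
        omega⟩
      obtain ⟨r, hr, hr1, hr2⟩ := exists_rel M.hP GP z (by
        show toQ z ∈ vs P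
        rw [hvs]; exact Submodule.mem_top)
      have h4 : L m = (D : ℚ)⁻¹ • ψ r := by
        funext A
        rw [Pi.smul_apply, hψ, hr1 _ ((M.epsF hn hk hkn hdim hj A).2.1.subset), hz, hL]
        show M.u A.1 ⬝ᵥ m = (D : ℚ)⁻¹ • (M.u A.1 ⬝ᵥ ((D : ℚ) • m))
        rw [dotProduct_smul, smul_eq_mul, smul_eq_mul, inv_mul_cancel_left₀ hDq]
      rw [h4]
      apply Submodule.smul_mem
      exact Submodule.mem_map_of_mem (Submodule.subset_span hr)
  have hq : chowBetti P j = finrank ℚ ((Vk n k → ℚ) ⧸ LinearMap.range L) :=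
    LinearEquiv.finrank_eq (Submodule.Quotient.equiv _ _ ψ hmap)
  have h1 := Submodule.finrank_quotient_add_finrank (LinearMap.range L)
  have h2 : finrank ℚ (LinearMap.range L) = d := by
    rw [LinearMap.finrank_range_of_inj, Module.finrank_fin_fun]
    rw [injective_iff_map_eq_zero]
    intro m hm
    exact eq_zero_of_u (M := M) hn hk hkn hdim (fun A hA => congrFun hm ⟨A, hA⟩)
  rw [Module.finrank_fintype_fun_eq_card, h2, ← hq] at h1
  exact h1

end DualModel

/-- the symmetry of the dual types -/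
noncomputable def DualModel.flip {P : Set (Fin d → ℚ)} (M : DualModel n k P) (hkn : k ≤ n) :
    DualModel n (n - k) P where
  hP := M.hP
  q := fun ρ => M.q (ρ.1, !ρ.2)
  isV := fun ρ => M.isV _
  allV := fun x hx => by
    obtain ⟨ρ, rfl⟩ := M.allV x hx
    exact ⟨(ρ.1, !ρ.2), by simp⟩
  inj := fun ρ σ h => by
    have := M.inj h
    obtain ⟨i, s⟩ := ρ
    obtain ⟨j, t⟩ := σ
    simp only [Prod.mk.injEq] at this ⊢
    exact ⟨this.1, by simpa using this.2⟩
  face_of := fun F hF hne hFP => by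
    obtain ⟨G, hG, h⟩ := M.face_of F hF hne hFP
    refine ⟨CB.flip G, ?_, fun ρ => ?_⟩
    · rcases hG with hG | ⟨A, hA, rfl⟩
      · left
        rw [valid_iff_gd] at hG ⊢
        obtain ⟨A, a, c, hA, ha, hc, h4⟩ := hG
        refine ⟨univ \ A, c, a, card_compl' hA, by simpa using hc, by simpa using ha, fun ρ hρ => ?_⟩
        obtain ⟨h1, h2, h3⟩ := h4 _ (mem_flip.1 hρ)
        refine ⟨?_, ?_, ?_⟩
        · rw [← flip_sgn, mem_flip]; exact h1
        · rintro rfl; exact h3 rfl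
        · rintro rfl; exact h2 rfl
      · right
        exact ⟨univ \ A, card_compl' hA, flip_sgn A⟩
    · rw [h, mem_flip]
  of_face := fun G hG => by
    have hG' : Pool.Agent.Helper93.CB.Valid n k (CB.flip G) ∨
        ∃ A : Finset (Fin n), A.card = k ∧ CB.flip G = sgn A := by
      rcases hG with hG | ⟨A, hA, rfl⟩
      · left
        rw [valid_iff_gd] at hG ⊢
        obtain ⟨A, a, c, hA, ha, hc, h4⟩ := hG
        refine ⟨univ \ A, c, a, by rw [card_compl' hA]; omega, by simpa using hc, by simpa using ha,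
          fun ρ hρ => ?_⟩
        obtain ⟨h1, h2, h3⟩ := h4 _ (mem_flip.1 hρ)
        refine ⟨?_, ?_, ?_⟩
        · rw [← flip_sgn, mem_flip]; exact h1
        · rintro rfl; exact h3 rfl
        · rintro rfl; exact h2 rfl
      · right
        exact ⟨univ \ A, by rw [card_compl' hA]; omega, flip_sgn A⟩
    obtain ⟨F, hF, h⟩ := M.of_face _ hG'
    refine ⟨F, hF, fun ρ => ?_⟩
    rw [h, mem_flip, Bool.not_not]

end Pool.Agent.Helper40.CB
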