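import Pool.Agent.Helper40.CB.HypZero

set_option autoImplicit false

namespace Pool.Agent.Helper40.CB

open Finset Matrix Module

variable {d n k : ℕ}

theorem valid_iff_gd {G : Finset (Fin n × Bool)} :
    Pool.Agent.Helper93.CB.Valid n k G ↔ Gd n k G := by
  classical
  constructor
  · rintro ⟨h1, h2, h3⟩
    set I1 := (G.filter (fun ρ => ρ.2 = true)).image Prod.fst with hI1
    set I0 := (G.filter (fun ρ => ρ.2 = false)).image Prod.fst with hI0
    have m1 : ∀ i, i ∈ I1 ↔ (i, true) ∈ G := by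
      intro i
      simp [hI1]
    have m0 : ∀ i, i ∈ I0 ↔ (i, false) ∈ G := by
      intro i
      simp [hI0]
    have c1 : I1.card + 1 ≤ k := by
      have h5 : I1.card ≤ (G.filter (fun ρ => ρ.2 = true)).card := Finset.card_image_le
      omega
    have c0 : I0.card + k + 1 ≤ n := by
      have h5 : I0.card ≤ (G.filter (fun ρ => ρ.2 = false)).card := Finset.card_image_le
      omega
    have cu : (univ \ I0).card = n - I0.card := by
      rw [Finset.card_sdiff_of_subset (Finset.subset_univ _), Finset.card_univ, Fintype.card_fin]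
    obtain ⟨A, hA1, hA0, hA⟩ := Finset.exists_subsuperset_card_eq (s := I1) (t := univ \ I0) (n := k)
      (fun i hi => Finset.mem_sdiff.2 ⟨Finset.mem_univ _, fun h => h1 i ⟨(m1 i).1 hi, (m0 i).1 h⟩⟩)
      (by omega) (by omega)
    obtain ⟨a, ha, haI⟩ := Finset.exists_mem_notMem_of_card_lt_card (s := I1) (t := A) (by omega)
    obtain ⟨c, hc, hcA⟩ := Finset.exists_mem_notMem_of_card_lt_card (s := A) (t := univ \ I0) (by omega)
    have hcI : c ∉ I0 := (Finset.mem_sdiff.1 hc).2
    refine ⟨A, a, c, hA, ha, hcA, ?_⟩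
    rintro ⟨x, s⟩ hx
    cases s with
    | true =>
      refine ⟨mem_sgn_true.2 (hA1 ((m1 x).2 hx)), ?_, by simp⟩
      intro h
      exact haI ((m1 a).2 (h ▸ hx))
    | false =>
      refine ⟨mem_sgn_false.2 (fun h => (Finset.mem_sdiff.1 (hA0 h)).2 ((m0 x).2 hx)), by simp, ?_⟩
      intro h
      exact hcI ((m0 c).2 (h ▸ hx))
  · rintro ⟨A, a, c, hA, ha, hc, h4⟩
    refine ⟨?_, ?_, ?_⟩
    · rintro i ⟨h1, h2⟩
      exact mem_sgn_false.1 (h4 _ h2).1 (mem_sgn_true.1 (h4 _ h1).1)
    · have hsub : G.filter (fun ρ => ρ.2 = true) ⊆ (A.erase a).image (fun i => (i, true)) := by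
        rintro ⟨x, s⟩ hx
        obtain ⟨h1, h2⟩ := Finset.mem_filter.1 hx
        obtain rfl : s = true := h2
        obtain ⟨h5, h6, -⟩ := h4 _ h1
        exact Finset.mem_image.2 ⟨x, Finset.mem_erase.2 ⟨fun h => h6 (by rw [h]), mem_sgn_true.1 h5⟩, rfl⟩
      have h5 := Finset.card_le_card hsub
      have h6 := Finset.card_image_le (s := A.erase a) (f := fun i => (i, true))
      have h7 := Finset.card_erase_add_one ha
      omega
    · have hsub : G.filter (fun ρ => ρ.2 = false) ⊆ ((univ \ A).erase c).image (fun i => (i, false)) := by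
        rintro ⟨x, s⟩ hx
        obtain ⟨h1, h2⟩ := Finset.mem_filter.1 hx
        obtain rfl : s = false := h2
        obtain ⟨h5, -, h6⟩ := h4 _ h1
        exact Finset.mem_image.2 ⟨x, Finset.mem_erase.2 ⟨fun h => h6 (by rw [h]),
          Finset.mem_sdiff.2 ⟨Finset.mem_univ _, mem_sgn_false.1 h5⟩⟩, rfl⟩
      have h5 := Finset.card_le_card hsub
      have h6 := Finset.card_image_le (s := (univ \ A).erase c) (f := fun i => (i, false))
      have h7 := Finset.card_erase_add_one (Finset.mem_sdiff.2 ⟨Finset.mem_univ c, hc⟩ : c ∈ univ \ A)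
      have h8 : (univ \ A).card = n - k := by
        rw [Finset.card_sdiff_of_subset (Finset.subset_univ _), Finset.card_univ, Fintype.card_fin, hA]
      have h9 : k ≤ n := by rw [← hA]; simpa using Finset.card_le_univ A
      omega

/-- faces of the dual type -/
def Gs (n k : ℕ) (G : Finset (Fin n × Bool)) : Prop :=
  Gd n k G ∨ ∃ A : Finset (Fin n), A.card = k ∧ G = sgn A

namespace DualModel

variable {P : Set (Fin d → ℚ)} (M : DualModel n k P)

/-- the face of a signed set -/
noncomputable def face (G : Finset (Fin n × Bool)) : Set (Fin d → ℚ) :=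
  open Classical in if h : (Pool.Agent.Helper93.CB.Valid n k G ∨
      ∃ A : Finset (Fin n), A.card = k ∧ G = sgn A) then (M.of_face G h).choose else ∅

variable {M}

theorem isFace_face {G : Finset (Fin n × Bool)} (h : Gs n k G) : IsFace P (M.face G) := by
  have h' := h.imp_left valid_iff_gd.2
  rw [face, dif_pos h']
  exact (M.of_face G h').choose_spec.1

theorem q_mem_face {G : Finset (Fin n × Bool)} (h : Gs n k G) {ρ : Fin n × Bool} :
    M.q ρ ∈ M.face G ↔ ρ ∈ G := by
  have h' := h.imp_left valid_iff_gd.2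
  rw [face, dif_pos h']
  exact (M.of_face G h').choose_spec.2 ρ

theorem face_sub {F F' : Set (Fin d → ℚ)} (hF : IsFace P F) (hF' : IsFace P F')
    (h : ∀ ρ, M.q ρ ∈ F → M.q ρ ∈ F') : F ⊆ F' := by
  apply face_subset M.hP hF hF'
  intro x hx hxv
  obtain ⟨ρ, rfl⟩ := M.allV x hxv
  exact h ρ hx

theorem face_mono {G G' : Finset (Fin n × Bool)} (hG : Gs n k G) (hG' : Gs n k G') (h : G ⊆ G') :
    M.face G ⊆ M.face G' :=
  face_sub (isFace_face hG) (isFace_face hG') fun _ hρ => (q_mem_face hG').2 (h ((q_mem_face hG).1 hρ))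

theorem face_sub_iff {G G' : Finset (Fin n × Bool)} (hG : Gs n k G) (hG' : Gs n k G') :
    M.face G ⊆ M.face G' ↔ G ⊆ G' :=
  ⟨fun h ρ hρ => (q_mem_face hG').1 (h ((q_mem_face (M := M) hG).2 hρ)), face_mono hG hG'⟩

theorem face_inj {G G' : Finset (Fin n × Bool)} (hG : Gs n k G) (hG' : Gs n k G')
    (h : M.face G = M.face G') : G = G' :=
  Finset.Subset.antisymm ((face_sub_iff hG hG').1 h.le) ((face_sub_iff hG' hG).1 h.ge)

theorem face_ne {G : Finset (Fin n × Bool)} (hG : Gs n k G) (hne : G.Nonempty) : (M.face G).Nonempty := by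
  obtain ⟨ρ, hρ⟩ := hne
  exact ⟨_, (q_mem_face hG).2 hρ⟩

theorem eq_face {F : Set (Fin d → ℚ)} (hF : IsFace P F) (hne : F.Nonempty) (hP : F ≠ P) :
    ∃ G : Finset (Fin n × Bool), Gs n k G ∧ G.Nonempty ∧ F = M.face G := by
  obtain ⟨G, hG, h⟩ := M.face_of F hF hne hP
  have hG' : Gs n k G := hG.imp_left valid_iff_gd.1
  refine ⟨G, hG', ?_, Set.Subset.antisymm ?_ ?_⟩
  · obtain ⟨x, hx, hxv, -⟩ := exists_vertex M.hP hF hne 0
    obtain ⟨ρ, rfl⟩ := M.allV x hxv
    exact ⟨ρ, (h ρ).1 hx⟩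
  · exact face_sub hF (isFace_face hG') fun ρ hp => (q_mem_face hG').2 ((h ρ).1 hp)
  · exact face_sub (isFace_face hG') hF fun ρ hp => (h ρ).2 ((q_mem_face hG').1 hp)

theorem q_mem_P (ρ : Fin n × Bool) : M.q ρ ∈ P := (M.isV ρ).subset (Set.mem_singleton _)

theorem face_ne_P (hkn : k + 1 ≤ n) {G : Finset (Fin n × Bool)} (hG : Gs n k G) : M.face G ≠ P := by
  intro h
  have h1 : ∀ ρ, ρ ∈ G := fun ρ => (q_mem_face hG).1 (by rw [h]; exact q_mem_P ρ)
  have h0 : 0 < n := by omega
  have h2 : ∃ A : Finset (Fin n), G ⊆ sgn A := by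
    rcases hG with hG | ⟨A, -, rfl⟩
    · obtain ⟨A, -, h⟩ := hG.ok
      exact ⟨A, h⟩
    · exact ⟨A, Finset.Subset.refl _⟩
  obtain ⟨A, hA⟩ := h2
  exact mem_sgn_false.1 (hA (h1 (⟨0, h0⟩, false))) (mem_sgn_true.1 (hA (h1 (⟨0, h0⟩, true))))

theorem fdim_step {G G' : Finset (Fin n × Bool)} (hG : Gs n k G) (hG' : Gs n k G') (hne : G.Nonempty)
    (h : G ⊂ G') : finrank ℚ (vs (M.face G)) < finrank ℚ (vs (M.face G')) := by
  apply fdim_lt (isFace_face hG) (isFace_face hG') (face_ne hG hne) (face_mono hG hG' h.subset)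
  intro heq
  exact h.ne (face_inj hG hG' heq)

theorem fdim_facet_lt (hkn : k + 1 ≤ n) {G : Finset (Fin n × Bool)} (hG : Gs n k G) (hne : G.Nonempty) :
    finrank ℚ (vs (M.face G)) + 1 ≤ d := by
  have h1 := fdim_lt (isFace_face (M := M) hG) (isFace_self P) (face_ne hG hne) (isFace_face hG).subset
    (face_ne_P hkn hG)
  have h2 := Submodule.finrank_le (vs P)
  rw [Module.finrank_fin_fun] at h2
  omega

theorem fdim_low {G : Finset (Fin n × Bool)} (hG : Gd n k G) :
    G.card ≤ finrank ℚ (vs (M.face G)) + 1 := by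
  classical
  induction G using Finset.induction_on with
  | empty => simp
  | insert ρ G hρ ih =>
    have hG' := Gd.down (Finset.subset_insert ρ G) hG
    have h1 := ih hG'
    rw [Finset.card_insert_of_notMem hρ]
    rcases G.eq_empty_or_nonempty with rfl | hne
    · simp
    · have h2 := fdim_step (M := M) (Or.inl hG') (Or.inl hG) hne (Finset.ssubset_insert hρ)
      omega

theorem fdim_up (hn : n = d + 1) (hkn : k + 2 ≤ n) {G : Finset (Fin n × Bool)}
    (hG : Gd n k G) (hne : G.Nonempty) : finrank ℚ (vs (M.face G)) + 1 ≤ G.card := by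
  classical
  obtain ⟨A, a, c, hA, ha, hc, h4⟩ := hG
  set M0 := ((sgn A).erase (a, true)).erase (c, false) with hM0
  have hcard : M0.card + 2 = n := by
    have h1 : (a, true) ∈ sgn A := mem_sgn_true.2 ha
    have h2 : (c, false) ∈ (sgn A).erase (a, true) := by
      rw [Finset.mem_erase]
      exact ⟨by simp, mem_sgn_false.2 hc⟩
    have h3 := Finset.card_erase_add_one h2
    have h5 := Finset.card_erase_add_one h1
    rw [card_sgn] at h5
    rw [hM0]
    omega
  have hgd : ∀ H ⊆ M0, Gd n k H := by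
    intro H hH
    refine ⟨A, a, c, hA, ha, hc, fun ρ hρ => ?_⟩
    have := hH hρ
    rw [hM0, Finset.mem_erase, Finset.mem_erase] at this
    exact ⟨this.2.2, this.2.1, this.1⟩
  have key : ∀ N : ℕ, ∀ H ⊆ M0, H.Nonempty → (M0 \ H).card = N →
      finrank ℚ (vs (M.face H)) + 1 ≤ H.card := by
    intro N
    induction N with
    | zero =>
      intro H hH hHne hN
      have hEq : H = M0 := Finset.Subset.antisymm hH (Finset.sdiff_eq_empty_iff_subset.1 (Finset.card_eq_zero.1 hN))
      have h1 := fdim_facet_lt (M := M) (by omega) (Or.inr ⟨A, hA, rfl⟩ : Gs n k (sgn A))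
        (by rw [← Finset.card_pos, card_sgn]; omega)
      have hss : H ⊂ sgn A := by
        refine Finset.ssubset_iff_subset_ne.2 ⟨hH.trans ((Finset.erase_subset _ _).trans (Finset.erase_subset _ _)), ?_⟩
        intro h
        have := card_sgn A
        rw [← h, hEq] at this
        omega
      have h2 := fdim_step (M := M) (Or.inl (hgd H hH)) (Or.inr ⟨A, hA, rfl⟩ : Gs n k (sgn A)) hHne hss
      rw [hEq] at h2 ⊢
      omega
    | succ N ih =>
      intro H hH hHne hN
      obtain ⟨ρ, hρ⟩ : (M0 \ H).Nonempty := by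
        rw [← Finset.card_pos]; omega
      obtain ⟨h1, h2⟩ := Finset.mem_sdiff.1 hρ
      have hsub : insert ρ H ⊆ M0 := Finset.insert_subset h1 hH
      have h3 := ih (insert ρ H) hsub ⟨ρ, Finset.mem_insert_self _ _⟩ (by
        rw [Finset.sdiff_insert, Finset.card_erase_of_mem hρ, hN]; rfl)
      have h4 := fdim_step (M := M) (Or.inl (hgd _ hH)) (Or.inl (hgd _ hsub)) hHne (Finset.ssubset_insert h2)
      rw [Finset.card_insert_of_notMem h2] at h3
      omega
  exact key _ G (fun ρ hρ => by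
    obtain ⟨h1, h2, h3⟩ := h4 ρ hρ
    rw [hM0, Finset.mem_erase, Finset.mem_erase]
    exact ⟨h3, h2, h1⟩) hne rfl

theorem fdim (hn : n = d + 1) (hk : 2 ≤ k) (hkn : k + 2 ≤ n) {G : Finset (Fin n × Bool)}
    (hG : Gd n k G) (hne : G.Nonempty) : finrank ℚ (vs (M.face G)) + 1 = G.card :=
  le_antisymm (fdim_up hn hkn hG hne) (fdim_low hG)

theorem fdim_facet (hn : n = d + 1) (hk : 2 ≤ k) (hkn : k + 2 ≤ n) {A : Finset (Fin n)}
    (hA : A.card = k) : finrank ℚ (vs (M.face (sgn A))) + 1 = d := by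
  classical
  apply le_antisymm
  · exact fdim_facet_lt (by omega) (Or.inr ⟨A, hA, rfl⟩) (by rw [← Finset.card_pos, card_sgn]; omega)
  · obtain ⟨a, ha⟩ : A.Nonempty := by rw [← Finset.card_pos]; omega
    obtain ⟨c, hc⟩ : ∃ c, c ∉ A := by
      by_contra hcon
      push Not at hcon
      have : A = univ := Finset.eq_univ_iff_forall.2 hcon
      rw [this, Finset.card_univ, Fintype.card_fin] at hA
      omega
    set M0 := ((sgn A).erase (a, true)).erase (c, false) with hM0
    have hcard : M0.card + 2 = n := by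
      have h1 : (a, true) ∈ sgn A := mem_sgn_true.2 ha
      have h2 : (c, false) ∈ (sgn A).erase (a, true) := by
        rw [Finset.mem_erase]
        exact ⟨by simp, mem_sgn_false.2 hc⟩
      have h3 := Finset.card_erase_add_one h2
      have h5 := Finset.card_erase_add_one h1
      rw [card_sgn] at h5
      rw [hM0]
      omega
    have hgd : Gd n k M0 := by
      refine ⟨A, a, c, hA, ha, hc, fun ρ hρ => ?_⟩
      rw [hM0, Finset.mem_erase, Finset.mem_erase] at hρ
      exact ⟨hρ.2.2, hρ.2.1, hρ.1⟩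
    have hne : M0.Nonempty := by rw [← Finset.card_pos]; omega
    have hss : M0 ⊂ sgn A := by
      refine Finset.ssubset_iff_subset_ne.2 ⟨(Finset.erase_subset _ _).trans (Finset.erase_subset _ _), ?_⟩
      intro h
      have := card_sgn A
      rw [← h] at this
      omega
    have h1 := fdim_low (M := M) hgd
    have h2 := fdim_step (M := M) (Or.inl hgd) (Or.inr ⟨A, hA, rfl⟩ : Gs n k (sgn A)) hne hss
    omega

end DualModel

/-- if a functional vanishes on a facet `F` of `G` and not on `G`, its kernel in `G` is `F` -/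
theorem Cov.mem_of_zero {P F G : Set (Fin d → ℚ)} (h : Cov P F G) {u : Fin d → ℚ}
    (hu : ∀ m ∈ vs F, u ⬝ᵥ m = 0) {m₀ : Fin d → ℚ} (hm₀ : m₀ ∈ vs G) (hu₀ : u ⬝ᵥ m₀ ≠ 0)
    {m : Fin d → ℚ} (hm : m ∈ vs G) (hum : u ⬝ᵥ m = 0) : m ∈ vs F := by
  obtain ⟨f, hf, c, hc⟩ := h.decomp hm₀ (fun h' => hu₀ (hu _ h')) hm
  rw [hc, dotProduct_add, hu f hf, zero_add, dotProduct_smul, smul_eq_mul] at hum
  rw [hc, (mul_eq_zero.1 hum).resolve_right hu₀, zero_smul, add_zero]
  exact hf

end Pool.Agent.Helper40.CB
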