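import Pool.Agent.Helper40.CB.DualTop

set_option autoImplicit false

namespace Pool.Agent.Helper40.CB

open Finset Matrix Module

/-- skew-symmetric endomorphisms -/
def Sk (d : ℕ) : Submodule ℚ ((Fin d → ℚ) →ₗ[ℚ] (Fin d → ℚ)) where
  carrier := {S | ∀ x y, S x ⬝ᵥ y + S y ⬝ᵥ x = 0}
  add_mem' := by
    intro S T hS hT x y
    rw [LinearMap.add_apply, LinearMap.add_apply, add_dotProduct, add_dotProduct]
    have h1 := hS x y
    have h2 := hT x y
    linarith
  zero_mem' := by
    intro x y
    simp
  smul_mem' := by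
    intro c S hS x y
    rw [LinearMap.smul_apply, LinearMap.smul_apply, smul_dotProduct, smul_dotProduct, ← smul_add, hS x y,
      smul_zero]

section Algebra

variable {d : ℕ} {V E : Type} [Fintype V] [DecidableEq V] [Fintype E]
  (u : V → Fin d → ℚ) (eA eB : E → V)

/-- families of vectors orthogonal to the normals -/
def Kd : Submodule ℚ (V → Fin d → ℚ) where
  carrier := {m | ∀ A, m A ⬝ᵥ u A = 0}
  add_mem' := by
    intro m m' hm hm' A
    rw [Pi.add_apply, add_dotProduct, hm A, hm' A, add_zero]
  zero_mem' := by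
    intro A; simp
  smul_mem' := by
    intro c m hm A
    rw [Pi.smul_apply, smul_dotProduct, hm A, smul_zero]

def Ph : (V → Fin d → ℚ) →ₗ[ℚ] (E → ℚ) where
  toFun m := fun e => m (eA e) ⬝ᵥ u (eB e) + m (eB e) ⬝ᵥ u (eA e)
  map_add' := by
    intro m m'
    funext e
    simp only [Pi.add_apply, add_dotProduct]
    ring
  map_smul' := by
    intro c m
    funext e
    simp only [Pi.smul_apply, smul_dotProduct, RingHom.id_apply, smul_eq_mul]
    ring

def dl : (V → Fin d → ℚ) →ₗ[ℚ] (V → ℚ) where
  toFun m := fun A => m A ⬝ᵥ u A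
  map_add' := by
    intro m m'
    funext e
    simp only [Pi.add_apply, add_dotProduct]
  map_smul' := by
    intro c m
    funext e
    simp only [Pi.smul_apply, smul_dotProduct, RingHom.id_apply]

omit [DecidableEq V] in
theorem finrank_Kd (hu : ∀ A, u A ≠ 0) : finrank ℚ (Kd u) + Fintype.card V = Fintype.card V * d := by
  have h1 := LinearMap.finrank_range_add_finrank_ker (dl u)
  have h2 : LinearMap.ker (dl u) = Kd u := by
    ext m
    rw [LinearMap.mem_ker]
    constructor
    · intro h A
      exact congrFun h A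
    · intro h
      funext A
      exact h A
  have h3 : LinearMap.range (dl u) = ⊤ := by
    rw [LinearMap.range_eq_top]
    intro c
    refine ⟨fun A => (c A / (u A ⬝ᵥ u A)) • u A, ?_⟩
    funext A
    have h4 : u A ⬝ᵥ u A ≠ 0 := fun h => hu A (dotProduct_self_eq_zero.1 h)
    show ((c A / (u A ⬝ᵥ u A)) • u A) ⬝ᵥ u A = c A
    rw [smul_dotProduct, smul_eq_mul, div_mul_cancel₀ _ h4]
  rw [h2, h3, finrank_top, Module.finrank_fintype_fun_eq_card, Module.finrank_pi_fintype] at h1
  simp only [Module.finrank_fin_fun, Finset.sum_const, Finset.card_univ, smul_eq_mul] at h1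
  omega

omit [DecidableEq V] in
/-- the kernel is the space of skew maps -/
theorem finrank_kernel (hspan : ∀ m : Fin d → ℚ, (∀ A, u A ⬝ᵥ m = 0) → m = 0)
    (hrigid : ∀ m : V → Fin d → ℚ, (∀ A, m A ⬝ᵥ u A = 0) →
      (∀ e, m (eA e) ⬝ᵥ u (eB e) + m (eB e) ⬝ᵥ u (eA e) = 0) → ∀ A B, m A ⬝ᵥ u B + m B ⬝ᵥ u A = 0) :
    finrank ℚ ↥(LinearMap.ker ((Ph u eA eB).domRestrict (Kd u))) = finrank ℚ (Sk d) := by
  classical
  symm
  -- span of the normals
  have htop : Submodule.span ℚ (Set.range u) = ⊤ := by
    rw [eq_top_iff]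
    intro m _
    apply mem_of_perp
    intro w hw
    have : w = 0 := hspan w (fun A => by
      rw [dotProduct_comm]; exact hw _ (Submodule.subset_span ⟨A, rfl⟩))
    rw [this, zero_dotProduct]
  have hmem : ∀ S : Sk d, ∀ A, S.1 (u A) ⬝ᵥ u A = 0 := by
    intro S A
    have := S.2 (u A) (u A)
    linarith
  let f : Sk d →ₗ[ℚ] LinearMap.ker ((Ph u eA eB).domRestrict (Kd u)) :=
    { toFun := fun S => ⟨⟨fun A => S.1 (u A), hmem S⟩, by
        rw [LinearMap.mem_ker]
        funext e
        exact S.2 (u (eA e)) (u (eB e))⟩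
      map_add' := fun S T => rfl
      map_smul' := fun c S => rfl }
  refine LinearEquiv.finrank_eq (LinearEquiv.ofBijective f ⟨?_, ?_⟩)
  · rw [injective_iff_map_eq_zero]
    intro S hS
    have h1 : ∀ A, S.1 (u A) = 0 := fun A => congrFun (congrArg (fun z => z.1.1) hS) A
    apply Subtype.ext
    apply LinearMap.ext
    intro x
    have hx : x ∈ Submodule.span ℚ (Set.range u) := by rw [htop]; exact Submodule.mem_top
    induction hx using Submodule.span_induction with
    | mem x hx =>
      obtain ⟨A, rfl⟩ := hx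
      exact h1 A
    | zero => rw [map_zero, map_zero]
    | add a b _ _ ha hb => rw [map_add, ha, hb, map_add]
    | smul c a _ ha => rw [map_smul, ha, map_smul]
  · rintro ⟨⟨m, hm⟩, hker⟩
    have hm' : ∀ A, m A ⬝ᵥ u A = 0 := hm
    have hker' : ∀ e, m (eA e) ⬝ᵥ u (eB e) + m (eB e) ⬝ᵥ u (eA e) = 0 := fun e => congrFun hker e
    have hall := hrigid m hm' hker'
    -- linear extension
    let T : (V → ℚ) →ₗ[ℚ] (Fin d → ℚ) := Fintype.linearCombination ℚ u
    let N : (V → ℚ) →ₗ[ℚ] (Fin d → ℚ) := Fintype.linearCombination ℚ m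
    have hTv : ∀ c, T c = ∑ A, c A • u A := fun c => rfl
    have hNv : ∀ c, N c = ∑ A, c A • m A := fun c => rfl
    have hTsurj : LinearMap.range T = ⊤ := by
      rw [eq_top_iff, ← htop, Submodule.span_le]
      rintro x ⟨A, rfl⟩
      refine ⟨Pi.single A 1, ?_⟩
      rw [hTv, Finset.sum_eq_single A]
      · rw [Pi.single_eq_same, one_smul]
      · intro B _ hB
        rw [Pi.single_eq_of_ne hB, zero_smul]
      · intro h; exact absurd (Finset.mem_univ _) h
    obtain ⟨s, hs⟩ := LinearMap.exists_rightInverse_of_surjective T hTsurj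
    have hNT : ∀ c, T c = 0 → N c = 0 := by
      intro c hc
      apply hspan
      intro B
      have h1 : ∑ A, c A * (m B ⬝ᵥ u A) = 0 := by
        have : m B ⬝ᵥ T c = 0 := by rw [hc, dotProduct_zero]
        rw [hTv, dotProduct_sum] at this
        rw [← this]
        exact Finset.sum_congr rfl fun A _ => by rw [dotProduct_smul, smul_eq_mul]
      rw [hNv, dotProduct_sum]
      calc ∑ A, u B ⬝ᵥ c A • m A = ∑ A, c A * (m A ⬝ᵥ u B) :=
            Finset.sum_congr rfl fun A _ => by rw [dotProduct_smul, smul_eq_mul, dotProduct_comm]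
        _ = ∑ A, - (c A * (m B ⬝ᵥ u A)) := Finset.sum_congr rfl fun A _ => by
            have := hall A B
            rw [show m A ⬝ᵥ u B = - (m B ⬝ᵥ u A) by linarith]
            ring
        _ = 0 := by rw [Finset.sum_neg_distrib, h1, neg_zero]
    have hSu : ∀ A, (N ∘ₗ s) (u A) = m A := by
      intro A
      have h1 : T (Pi.single A 1) = u A := by
        rw [hTv, Finset.sum_eq_single A]
        · rw [Pi.single_eq_same, one_smul]
        · intro B _ hB
          rw [Pi.single_eq_of_ne hB, zero_smul]
        · intro h; exact absurd (Finset.mem_univ _) h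
      have h2 : N (Pi.single A 1) = m A := by
        rw [hNv, Finset.sum_eq_single A]
        · rw [Pi.single_eq_same, one_smul]
        · intro B _ hB
          rw [Pi.single_eq_of_ne hB, zero_smul]
        · intro h; exact absurd (Finset.mem_univ _) h
      have h3 : T (s (u A) - Pi.single A 1) = 0 := by
        rw [map_sub, h1, ← LinearMap.comp_apply, hs, LinearMap.id_apply, sub_self]
      have h4 := hNT _ h3
      rw [map_sub, h2, sub_eq_zero] at h4
      exact h4
    have hskew : (N ∘ₗ s) ∈ Sk d := by
      intro x y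
      have hx : x ∈ Submodule.span ℚ (Set.range u) := by rw [htop]; exact Submodule.mem_top
      have hy : y ∈ Submodule.span ℚ (Set.range u) := by rw [htop]; exact Submodule.mem_top
      induction hx using Submodule.span_induction with
      | mem x hx =>
        obtain ⟨A, rfl⟩ := hx
        induction hy using Submodule.span_induction with
        | mem y hy =>
          obtain ⟨B, rfl⟩ := hy
          rw [hSu, hSu]
          exact hall A B
        | zero => rw [map_zero, dotProduct_zero, zero_dotProduct, add_zero]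
        | add a b _ _ ha hb =>
          rw [map_add, dotProduct_add, add_dotProduct]
          linarith
        | smul c a _ ha =>
          rw [map_smul, dotProduct_smul, smul_dotProduct, ← smul_add, ha, smul_zero]
      | zero => rw [map_zero, dotProduct_zero, zero_dotProduct, add_zero]
      | add a b _ _ ha hb =>
        rw [map_add, dotProduct_add, add_dotProduct]
        linarith
      | smul c a _ ha =>
        rw [map_smul, dotProduct_smul, smul_dotProduct, ← smul_add, ha, smul_zero]
    refine ⟨⟨N ∘ₗ s, hskew⟩, ?_⟩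
    apply Subtype.ext
    apply Subtype.ext
    funext A
    exact hSu A

/-- the dimension count -/
theorem finrank_mid (hu : ∀ A, u A ≠ 0) (hspan : ∀ m : Fin d → ℚ, (∀ A, u A ⬝ᵥ m = 0) → m = 0)
    (hrigid : ∀ m : V → Fin d → ℚ, (∀ A, m A ⬝ᵥ u A = 0) →
      (∀ e, m (eA e) ⬝ᵥ u (eB e) + m (eB e) ⬝ᵥ u (eA e) = 0) → ∀ A B, m A ⬝ᵥ u B + m B ⬝ᵥ u A = 0) :
    finrank ℚ ((E → ℚ) ⧸ (Kd u).map (Ph u eA eB)) + Fintype.card V * d =
      Fintype.card E + Fintype.card V + finrank ℚ (Sk d) := by
  have h1 := Submodule.finrank_quotient_add_finrank ((Kd u).map (Ph u eA eB))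
  rw [Module.finrank_fintype_fun_eq_card] at h1
  have h2 := LinearMap.finrank_range_add_finrank_ker ((Ph u eA eB).domRestrict (Kd u))
  rw [finrank_kernel u eA eB hspan hrigid, LinearMap.range_domRestrict] at h2
  have h3 := finrank_Kd u hu
  omega

end Algebra

end Pool.Agent.Helper40.CB
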