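import Pool.Agent.Helper40.CB.DualGeo
import Pool.Agent.Helper67.CB.Rigid

set_option autoImplicit false

namespace Pool.Agent.Helper40.CB

open Finset Matrix Module

variable {d n k : ℕ}

theorem sgn_ne (hn : 0 < n) (A : Finset (Fin n)) : (sgn A).Nonempty := by
  rw [← Finset.card_pos, card_sgn]; exact hn

theorem gs_sgn {A : Finset (Fin n)} (hA : A.card = k) : Gs n k (sgn A) := Or.inr ⟨A, hA, rfl⟩

namespace DualModel

variable {P : Set (Fin d → ℚ)} (M : DualModel n k P)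

/-- the outer normal of a facet -/
noncomputable def u (A : Finset (Fin n)) : Fin d → ℚ := toQ (nv P (M.face (sgn A)) P)

noncomputable def b (A : Finset (Fin n)) : ℚ :=
  open Classical in if h : (M.face (sgn A)).Nonempty then M.u A ⬝ᵥ h.choose else 0

variable {M}

theorem facet_cov (hn : n = d + 1) (hk : 2 ≤ k) (hkn : k + 2 ≤ n) (hdim : affineSpan ℚ P = ⊤)
    {A : Finset (Fin n)} (hA : A.card = k) : Cov P (M.face (sgn A)) P where
  hP := M.hP
  hF := isFace_face (gs_sgn hA)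
  hG := isFace_self P
  ne := face_ne (gs_sgn hA) (sgn_ne (by omega) A)
  sub := (isFace_face (gs_sgn hA)).subset
  dim := by
    have hvs : vs P = ⊤ := AffineSubspace.vectorSpan_eq_top_of_affineSpan_eq_top ℚ _ _ hdim
    have hPd : finrank ℚ (vs P) = d := by rw [hvs, finrank_top, Module.finrank_fin_fun]
    have := fdim_facet (M := M) hn hk hkn hA
    omega

theorem u_zero (hn : n = d + 1) (hk : 2 ≤ k) (hkn : k + 2 ≤ n) (hdim : affineSpan ℚ P = ⊤)
    {A : Finset (Fin n)} (hA : A.card = k) {m : Fin d → ℚ} (hm : m ∈ vs (M.face (sgn A))) :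
    M.u A ⬝ᵥ m = 0 := by
  have hc := facet_cov (M := M) hn hk hkn hdim hA
  exact normalCone_perp hc.hF ((hc.gen_iff _).1 hc.nv_spec).1 hm

theorem u_eq (hn : n = d + 1) (hk : 2 ≤ k) (hkn : k + 2 ≤ n) (hdim : affineSpan ℚ P = ⊤)
    {A : Finset (Fin n)} (hA : A.card = k) {x : Fin d → ℚ} (hx : x ∈ M.face (sgn A)) :
    M.u A ⬝ᵥ x = M.b A := by
  have hne := face_ne (M := M) (gs_sgn hA) (sgn_ne (by omega) A)
  rw [b, dif_pos hne]
  have := u_zero (M := M) hn hk hkn hdim hA (sub_mem_vs hx hne.choose_spec)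
  rw [dotProduct_sub] at this
  linarith

theorem u_lt (hn : n = d + 1) (hk : 2 ≤ k) (hkn : k + 2 ≤ n) (hdim : affineSpan ℚ P = ⊤)
    {A : Finset (Fin n)} (hA : A.card = k) {ρ : Fin n × Bool} (hρ : ρ ∉ sgn A) :
    M.u A ⬝ᵥ M.q ρ < M.b A := by
  have hc := facet_cov (M := M) hn hk hkn hdim hA
  obtain ⟨x, hx⟩ := hc.ne
  rw [← u_eq hn hk hkn hdim hA hx]
  have := hc.gen_neg hc.nv_spec hx (q_mem_P (M := M) ρ) (fun h => hρ ((q_mem_face (gs_sgn hA)).1 h))
  rw [dotProduct_sub] at this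
  exact sub_neg.1 this

theorem u_q (hn : n = d + 1) (hk : 2 ≤ k) (hkn : k + 2 ≤ n) (hdim : affineSpan ℚ P = ⊤)
    {A : Finset (Fin n)} (hA : A.card = k) {ρ : Fin n × Bool} (hρ : ρ ∈ sgn A) :
    M.u A ⬝ᵥ M.q ρ = M.b A := u_eq hn hk hkn hdim hA ((q_mem_face (gs_sgn hA)).2 hρ)

/-- a functional of a facet containing `G`, on a bigger face -/
theorem u_face (hn : n = d + 1) (hk : 2 ≤ k) (hkn : k + 2 ≤ n) (hdim : affineSpan ℚ P = ⊤)
    {B : Finset (Fin n)} (hB : B.card = k) {G : Finset (Fin n × Bool)} (hG : Gs n k G)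
    (h : G ⊆ sgn B) {m : Fin d → ℚ} (hm : m ∈ vs (M.face G)) : M.u B ⬝ᵥ m = 0 :=
  u_zero hn hk hkn hdim hB (vs_mono (face_mono hG (gs_sgn hB) h) hm)

/-- direction leaving the facet `B` -/
theorem exists_dir {n k : ℕ} {M : DualModel n k P} (hn : n = d + 1) (hk : 2 ≤ k) (hkn : k + 2 ≤ n) (hdim : affineSpan ℚ P = ⊤)
    {B : Finset (Fin n)} (hB : B.card = k) {G : Finset (Fin n × Bool)} (hG : Gs n k G)
    {ρ σ : Fin n × Bool} (hρ : ρ ∈ G) (hρB : ρ ∉ sgn B) (hσ : σ ∈ G) (hσB : σ ∈ sgn B) :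
    M.q ρ - M.q σ ∈ vs (M.face G) ∧ M.u B ⬝ᵥ (M.q ρ - M.q σ) < 0 := by
  refine ⟨sub_mem_vs ((q_mem_face hG).2 hρ) ((q_mem_face hG).2 hσ), ?_⟩
  rw [dotProduct_sub, u_q hn hk hkn hdim hB hσB]
  exact sub_neg.2 (u_lt hn hk hkn hdim hB hρB)

theorem cov_gd (hn : n = d + 1) (hk : 2 ≤ k) (hkn : k + 2 ≤ n) {G : Finset (Fin n × Bool)}
    {ρ : Fin n × Bool} (hρ : ρ ∉ G) (hne : G.Nonempty) (hG : Gd n k (insert ρ G)) :
    Cov P (M.face G) (M.face (insert ρ G)) where
  hP := M.hP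
  hF := isFace_face (Or.inl (Gd.down (Finset.subset_insert ρ G) hG))
  hG := isFace_face (Or.inl hG)
  ne := face_ne (Or.inl (Gd.down (Finset.subset_insert ρ G) hG)) hne
  sub := face_mono (Or.inl (Gd.down (Finset.subset_insert ρ G) hG)) (Or.inl hG) (Finset.subset_insert _ _)
  dim := by
    have h1 := fdim (M := M) hn hk hkn (Gd.down (Finset.subset_insert ρ G) hG) hne
    have h2 := fdim (M := M) hn hk hkn hG ⟨ρ, Finset.mem_insert_self _ _⟩
    rw [Finset.card_insert_of_notMem hρ] at h2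
    omega

theorem cov_ridge (hn : n = d + 1) (hk : 2 ≤ k) (hkn : k + 2 ≤ n) {G : Finset (Fin n × Bool)}
    (hG : Gd n k G) (hc : G.card + 2 = n) {A : Finset (Fin n)} (hA : A.card = k) (hGA : G ⊆ sgn A) :
    Cov P (M.face G) (M.face (sgn A)) where
  hP := M.hP
  hF := isFace_face (Or.inl hG)
  hG := isFace_face (gs_sgn hA)
  ne := face_ne (Or.inl hG) (by rw [← Finset.card_pos]; omega)
  sub := face_mono (Or.inl hG) (gs_sgn hA) hGA
  dim := by
    have h1 := fdim (M := M) hn hk hkn hG (by rw [← Finset.card_pos]; omega)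
    have h2 := fdim_facet (M := M) hn hk hkn hA
    omega

/-- the two facets of a ridge -/
theorem ridge_two {G : Finset (Fin n × Bool)} (hG : Gd n k G) (hc : G.card + 2 = n) :
    ∃ A B : {A : Finset (Fin n) // A.card = k}, A ≠ B ∧ (A.1 ∩ B.1).card + 1 = k ∧
      ∀ C : {A : Finset (Fin n) // A.card = k}, G ⊆ sgn C.1 ↔ C = A ∨ C = B := by
  classical
  obtain ⟨A, a, c, hA, ha, hc', h4⟩ := hG
  have hBc : (insert c (A.erase a)).card = k := by rw [card_exch ha hc', hA]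
  set B := insert c (A.erase a) with hB
  have hAB : (⟨A, hA⟩ : {A : Finset (Fin n) // A.card = k}) ≠ ⟨B, hBc⟩ := by
    intro h
    have h5 : A = B := congrArg Subtype.val h
    rw [h5] at hc'
    exact hc' (Finset.mem_insert_self _ _)
  have hint : (A ∩ B).card + 1 = k := by
    have : A ∩ B = A.erase a := by
      ext i
      simp only [hB, Finset.mem_inter, Finset.mem_insert, Finset.mem_erase]
      constructor
      · rintro ⟨h1, rfl | h2⟩
        · exact absurd h1 hc'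
        · exact h2
      · rintro ⟨h1, h2⟩
        exact ⟨h2, Or.inr ⟨h1, h2⟩⟩
    rw [this, Finset.card_erase_add_one ha, hA]
  have hT : EdgeK n k {⟨A, hA⟩, ⟨B, hBc⟩} := by
    refine ⟨Finset.card_le_two, fun X hX Y hY hne => ?_⟩
    rw [Finset.mem_insert, Finset.mem_singleton] at hX hY
    rcases hX with rfl | rfl <;> rcases hY with rfl | rfl
    · exact absurd rfl hne
    · exact hint
    · rw [Finset.inter_comm]; exact hint
    · exact absurd rfl hne
  have hGB : G ⊆ sgn B := by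
    rintro ⟨y, t⟩ hy
    obtain ⟨h1, h2, h3⟩ := h4 _ hy
    cases t with
    | true =>
      rw [mem_sgn_true] at h1 ⊢
      refine Finset.mem_insert_of_mem (Finset.mem_erase.2 ⟨?_, h1⟩)
      rintro rfl; exact h2 rfl
    | false =>
      rw [mem_sgn_false] at h1 ⊢
      intro h
      rcases Finset.mem_insert.1 h with rfl | h
      · exact h3 rfl
      · exact h1 (Finset.mem_of_mem_erase h)
  have hGT : GT {(⟨A, hA⟩ : {A : Finset (Fin n) // A.card = k}), ⟨B, hBc⟩} = G := by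
    symm
    apply Finset.eq_of_subset_of_card_le
    · intro ρ hρ
      rw [mem_GT]
      intro X hX
      rw [Finset.mem_insert, Finset.mem_singleton] at hX
      rcases hX with rfl | rfl
      · exact (h4 ρ hρ).1
      · exact hGB hρ
    · have hsub : GT {(⟨A, hA⟩ : {A : Finset (Fin n) // A.card = k}), ⟨B, hBc⟩} ⊆
          ((sgn A).erase (a, true)).erase (c, false) := by
        intro ρ hρ
        have hρA := mem_GT.1 hρ ⟨A, hA⟩ (by simp)
        have hρB := mem_GT.1 hρ ⟨B, hBc⟩ (by simp)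
        rw [Finset.mem_erase, Finset.mem_erase]
        refine ⟨?_, ?_, hρA⟩
        · rintro rfl
          exact mem_sgn_false.1 hρB (Finset.mem_insert_self _ _)
        · rintro rfl
          rcases Finset.mem_insert.1 (mem_sgn_true.1 hρB) with h | h
          · exact hc' (h ▸ ha)
          · exact absurd h (Finset.notMem_erase _ _)
      have h6 := Finset.card_le_card hsub
      have h7 : (a, true) ∈ sgn A := mem_sgn_true.2 ha
      have h8 : (c, false) ∈ (sgn A).erase (a, true) := by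
        rw [Finset.mem_erase]
        exact ⟨by simp, mem_sgn_false.2 hc'⟩
      have h9 := Finset.card_erase_add_one h8
      have h10 := Finset.card_erase_add_one h7
      rw [card_sgn] at h10
      omega
  refine ⟨⟨A, hA⟩, ⟨B, hBc⟩, hAB, hint, fun C => ⟨fun h => ?_, ?_⟩⟩
  · have := sub_GT hT (Finset.insert_nonempty _ _) C.2 (by rw [hGT]; exact h)
    simpa using this
  · rintro (rfl | rfl)
    · exact fun ρ hρ => (h4 ρ hρ).1
    · exact hGB

/-- the ridge of two adjacent facets -/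
theorem exists_ridge {A B : Finset (Fin n)} (hA : A.card = k) (hB : B.card = k)
    (h : (A ∩ B).card + 1 = k) : ∃ G, Gd n k G ∧ G.card + 2 = n ∧ G ⊆ sgn A ∧ G ⊆ sgn B := by
  classical
  have hAB : A ≠ B := by
    rintro rfl
    rw [Finset.inter_self] at h
    omega
  refine ⟨sgn A ∩ sgn B, Gd.of_two hA hB hAB Finset.inter_subset_left Finset.inter_subset_right, ?_,
    Finset.inter_subset_left, Finset.inter_subset_right⟩
  have h1 : (A \ B).card = 1 := by
    have := Finset.card_sdiff_add_card_inter A B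
    omega
  have h2 : (B \ A).card = 1 := by
    have := Finset.card_sdiff_add_card_inter B A
    rw [Finset.inter_comm] at this
    omega
  obtain ⟨a, ha⟩ := Finset.card_eq_one.1 h1
  obtain ⟨c, hc⟩ := Finset.card_eq_one.1 h2
  have ha' : a ∈ A ∧ a ∉ B := by
    rw [← Finset.mem_sdiff, ha]; exact Finset.mem_singleton_self _
  have hc' : c ∈ B ∧ c ∉ A := by
    rw [← Finset.mem_sdiff, hc]; exact Finset.mem_singleton_self _
  have h3 : sgn A ∩ sgn B = ((sgn A).erase (a, true)).erase (c, false) := by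
    ext ⟨i, s⟩
    rw [Finset.mem_inter, Finset.mem_erase, Finset.mem_erase]
    constructor
    · rintro ⟨h1, h2⟩
      refine ⟨?_, ?_, h1⟩
      · intro h
        rw [h] at h2
        exact mem_sgn_false.1 h2 hc'.1
      · intro h
        rw [h] at h2
        exact ha'.2 (mem_sgn_true.1 h2)
    · rintro ⟨h1, h2, h3⟩
      refine ⟨h3, ?_⟩
      cases s with
      | true =>
        rw [mem_sgn_true] at h3 ⊢
        by_contra hcon
        have : i ∈ A \ B := Finset.mem_sdiff.2 ⟨h3, hcon⟩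
        rw [ha, Finset.mem_singleton] at this
        exact h2 (by rw [this])
      | false =>
        rw [mem_sgn_false] at h3 ⊢
        intro hcon
        have : i ∈ B \ A := Finset.mem_sdiff.2 ⟨hcon, h3⟩
        rw [hc, Finset.mem_singleton] at this
        exact h1 (by rw [this])
  have h7 : (a, true) ∈ sgn A := mem_sgn_true.2 ha'.1
  have h8 : (c, false) ∈ (sgn A).erase (a, true) := by
    rw [Finset.mem_erase]
    exact ⟨by simp, mem_sgn_false.2 hc'.2⟩
  have h9 := Finset.card_erase_add_one h8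
  have h10 := Finset.card_erase_add_one h7
  rw [card_sgn] at h10
  rw [h3]
  omega

theorem sgn_sub_sgn {A B : Finset (Fin n)} (hA : A.card = k) (hB : B.card = k) (hAB : A ≠ B) :
    ∃ ρ ∈ sgn A, ρ ∉ sgn B := by
  by_contra hcon
  push Not at hcon
  exact hAB (sgn_sub_iff hA hB hcon)

/-- The normals of the facets span. -/
theorem eq_zero_of_u (hn : n = d + 1) (hk : 2 ≤ k) (hkn : k + 2 ≤ n) (hdim : affineSpan ℚ P = ⊤)
    {m : Fin d → ℚ} (hm : ∀ A : Finset (Fin n), A.card = k → M.u A ⬝ᵥ m = 0) : m = 0 := by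
  classical
  have hfac : ∀ A : Finset (Fin n), A.card = k → m ∈ vs (M.face (sgn A)) := by
    intro A hA
    have hc := facet_cov (M := M) hn hk hkn hdim hA
    have hvs : vs P = ⊤ := AffineSubspace.vectorSpan_eq_top_of_affineSpan_eq_top ℚ _ _ hdim
    obtain ⟨x, hx⟩ := hc.ne
    obtain ⟨y, hy, hyF⟩ := hc.exists_y
    exact hc.mem_of_zero (u := M.u A) (fun m hm => u_zero hn hk hkn hdim hA hm)
      (sub_mem_vs hy (hc.sub hx)) (hc.gen_neg hc.nv_spec hx hy hyF).ne (by rw [hvs]; exact Submodule.mem_top)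
      (hm A hA)
  have key : ∀ N : ℕ, ∀ G : Finset (Fin n × Bool), Gd n k G → G.Nonempty → G.card + 2 + N = n →
      m ∈ vs (M.face G) := by
    intro N
    induction N with
    | zero =>
      intro G hG hne hN
      obtain ⟨A, B, hAB, -, hC⟩ := ridge_two hG (by omega)
      have hGA := (hC A).2 (Or.inl rfl)
      have hGB := (hC B).2 (Or.inr rfl)
      obtain ⟨ρ, hρA, hρB⟩ := sgn_sub_sgn A.2 B.2 (fun h => hAB (Subtype.ext h))
      obtain ⟨σ, hσ⟩ := hne
      have hc := cov_ridge (M := M) hn hk hkn hG (by omega) A.2 hGA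
      obtain ⟨h1, h2⟩ := exists_dir (M := M) hn hk hkn hdim B.2 (gs_sgn A.2) hρA hρB (hGA hσ) (hGB hσ)
      exact hc.mem_of_zero (fun m hm => u_face hn hk hkn hdim B.2 (Or.inl hG) hGB hm) h1 h2.ne
        (hfac A.1 A.2) (hm B.1 B.2)
    | succ N ih =>
      intro G hG hne hN
      -- there is `ρ ∉ G` with `insert ρ G` good
      obtain ⟨ρ, hρ, hρG⟩ : ∃ ρ, ρ ∉ G ∧ Gd n k (insert ρ G) := by
        obtain ⟨A, a, c, hA, ha, hc', h4⟩ := hG
        have h7 : (a, true) ∈ sgn A := mem_sgn_true.2 ha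
        have h8 : (c, false) ∈ (sgn A).erase (a, true) := by
          rw [Finset.mem_erase]
          exact ⟨by simp, mem_sgn_false.2 hc'⟩
        have h9 := Finset.card_erase_add_one h8
        have h10 := Finset.card_erase_add_one h7
        rw [card_sgn] at h10
        obtain ⟨ρ, hρ, hρG⟩ := Finset.exists_mem_notMem_of_card_lt_card (s := G)
          (t := ((sgn A).erase (a, true)).erase (c, false)) (by omega)
        rw [Finset.mem_erase, Finset.mem_erase] at hρ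
        refine ⟨ρ, hρG, A, a, c, hA, ha, hc', fun σ hσ => ?_⟩
        rcases Finset.mem_insert.1 hσ with rfl | hσ
        · exact ⟨hρ.2.2, hρ.2.1, hρ.1⟩
        · exact h4 σ hσ
      have h1 := ih (insert ρ G) hρG ⟨ρ, Finset.mem_insert_self _ _⟩
        (by rw [Finset.card_insert_of_notMem hρ]; omega)
      obtain ⟨B, hB, hGB, hρB⟩ := exists_out hρ hρG
      obtain ⟨σ, hσ⟩ := hne
      have hc := cov_gd (M := M) hn hk hkn hρ ⟨σ, hσ⟩ hρG
      obtain ⟨h2, h3⟩ := exists_dir (M := M) hn hk hkn hdim hB (Or.inl hρG) (Finset.mem_insert_self _ _)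
        hρB (Finset.mem_insert_of_mem hσ) (hGB hσ)
      exact hc.mem_of_zero (fun m hm => u_face hn hk hkn hdim hB (Or.inl hG) hGB hm) h2 h3.ne h1
        (hm B hB)
  have h0 : 0 < n := by omega
  have hgd : Gd n k {((⟨0, h0⟩, true) : Fin n × Bool)} := gd_singleton hk hkn _
  have h1 := key (n - 3) _ hgd (Finset.singleton_nonempty _) (by rw [Finset.card_singleton]; omega)
  have h2 := fdim (M := M) hn hk hkn hgd (Finset.singleton_nonempty _)
  rw [Finset.card_singleton] at h2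
  have h3 : vs (M.face {((⟨0, h0⟩, true) : Fin n × Bool)}) = ⊥ := Submodule.finrank_eq_zero.1 (by omega)
  rw [h3] at h1
  exact (Submodule.mem_bot ℚ).1 h1

/-- the normal vector of a ridge in a facet -/
theorem exists_g (hn : n = d + 1) (hk : 2 ≤ k) (hkn : k + 2 ≤ n) (hdim : affineSpan ℚ P = ⊤)
    {G : Finset (Fin n × Bool)} (hG : Gd n k G) (hc : G.card + 2 = n)
    {A B : Finset (Fin n)} (hA : A.card = k) (hB : B.card = k) (hAB : A ≠ B) (hGA : G ⊆ sgn A)
    (hGB : G ⊆ sgn B) : ∃ g : ℚ, 0 < g ∧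
      ∀ m ∈ vs (M.face (sgn A)), toQ (nv P (M.face G) (M.face (sgn A))) ⬝ᵥ m = g * (M.u B ⬝ᵥ m) := by
  have hcov := cov_ridge (M := M) hn hk hkn hG hc hA hGA
  obtain ⟨ρ, hρA, hρB⟩ := sgn_sub_sgn hA hB hAB
  obtain ⟨σ, hσ⟩ : G.Nonempty := by rw [← Finset.card_pos]; omega
  obtain ⟨h1, h2⟩ := exists_dir (M := M) hn hk hkn hdim hB (gs_sgn hA) hρA hρB (hGA hσ) (hGB hσ)
  have hw : ∀ m ∈ vs (M.face G), M.u B ⬝ᵥ m = 0 :=
    fun m hm => u_face hn hk hkn hdim hB (Or.inl hG) hGB hm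
  have h6 := hcov.gen_neg hcov.nv_spec ((q_mem_face (M := M) (Or.inl hG)).2 hσ)
    ((q_mem_face (M := M) (gs_sgn hA)).2 hρA) (fun h => hρB (hGB ((q_mem_face (Or.inl hG)).1 h)))
  refine ⟨(toQ (nv P (M.face G) (M.face (sgn A))) ⬝ᵥ (M.q ρ - M.q σ)) /
    (M.u B ⬝ᵥ (M.q ρ - M.q σ)), div_pos_of_neg_of_neg h6 h2, fun m hm => ?_⟩
  obtain ⟨f, hf, c, hc'⟩ := hcov.decomp h1 (fun h => (ne_of_lt h2) (hw _ h)) hm
  have h7 := normalCone_perp hcov.hF ((hcov.gen_iff _).1 hcov.nv_spec).1 hf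
  rw [hc', dotProduct_add, dotProduct_add, hw f hf, h7, zero_add, zero_add, dotProduct_smul,
    dotProduct_smul, smul_eq_mul, smul_eq_mul]
  have h8 := ne_of_lt h2
  generalize M.u B ⬝ᵥ (M.q ρ - M.q σ) = X at h8 ⊢
  field_simp

/-- the same positive factor works for both facets of a ridge -/
theorem exists_g_symm (hn : n = d + 1) (hk : 2 ≤ k) (hkn : k + 2 ≤ n) (hdim : affineSpan ℚ P = ⊤)
    {G : Finset (Fin n × Bool)} (hG : Gd n k G) (hc : G.card + 2 = n)
    {A B : Finset (Fin n)} (hA : A.card = k) (hB : B.card = k) (hAB : A ≠ B) (hGA : G ⊆ sgn A)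
    (hGB : G ⊆ sgn B) : ∃ g : ℚ, 0 < g ∧
      (∀ m ∈ vs (M.face (sgn A)), toQ (nv P (M.face G) (M.face (sgn A))) ⬝ᵥ m = g * (M.u B ⬝ᵥ m)) ∧
      (∀ m ∈ vs (M.face (sgn B)), toQ (nv P (M.face G) (M.face (sgn B))) ⬝ᵥ m = g * (M.u A ⬝ᵥ m)) := by
  obtain ⟨g, hg, h1⟩ := exists_g (M := M) hn hk hkn hdim hG hc hA hB hAB hGA hGB
  obtain ⟨g', hg', h2⟩ := exists_g (M := M) hn hk hkn hdim hG hc hB hA hAB.symm hGB hGA
  obtain ⟨ρ, hρA, hρB⟩ := sgn_sub_sgn hA hB hAB
  obtain ⟨ρ', hρB', hρA'⟩ := sgn_sub_sgn hB hA hAB.symm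
  obtain ⟨σ, hσ⟩ : G.Nonempty := by rw [← Finset.card_pos]; omega
  obtain ⟨d1, d2⟩ := exists_dir (M := M) hn hk hkn hdim hB (gs_sgn hA) hρA hρB (hGA hσ) (hGB hσ)
  obtain ⟨d3, d4⟩ := exists_dir (M := M) hn hk hkn hdim hA (gs_sgn hB) hρB' hρA' (hGB hσ) (hGA hσ)
  have cA := facet_cov (M := M) hn hk hkn hdim hA
  have cB := facet_cov (M := M) hn hk hkn hdim hB
  have rA := cov_ridge (M := M) hn hk hkn hG hc hA hGA
  have rB := cov_ridge (M := M) hn hk hkn hG hc hB hGB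
  have hD := diamond rA cA rB cB (vs_mono cA.sub d1) (vs_mono cB.sub d3)
  have e1 := h1 _ d1
  have e2 := h2 _ d3
  have z1 := u_zero (M := M) hn hk hkn hdim hA d1
  have z2 := u_zero (M := M) hn hk hkn hdim hB d3
  have z1' : toQ (nv P (M.face (sgn A)) P) ⬝ᵥ (M.q ρ - M.q σ) = 0 := z1
  have z2' : toQ (nv P (M.face (sgn B)) P) ⬝ᵥ (M.q ρ' - M.q σ) = 0 := z2
  rw [z1', z2', e1, e2, zero_mul, zero_mul, zero_sub, sub_zero, abs_neg] at hD
  have f1 : toQ (nv P (M.face (sgn A)) P) ⬝ᵥ (M.q ρ' - M.q σ) = M.u A ⬝ᵥ (M.q ρ' - M.q σ) := rfl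
  have f2 : toQ (nv P (M.face (sgn B)) P) ⬝ᵥ (M.q ρ - M.q σ) = M.u B ⬝ᵥ (M.q ρ - M.q σ) := rfl
  rw [f1, f2, abs_mul, abs_mul, abs_mul, abs_mul, abs_of_pos hg, abs_of_pos hg'] at hD
  have h5 : 0 < |M.u A ⬝ᵥ (M.q ρ' - M.q σ)| * |M.u B ⬝ᵥ (M.q ρ - M.q σ)| :=
    mul_pos (abs_pos.2 d4.ne) (abs_pos.2 d2.ne)
  have h6 : (g - g') * (|M.u A ⬝ᵥ (M.q ρ' - M.q σ)| * |M.u B ⬝ᵥ (M.q ρ - M.q σ)|) = 0 := by
    linear_combination hD
  have h7 : g = g' := sub_eq_zero.1 ((mul_eq_zero.1 h6).resolve_right h5.ne')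
  exact ⟨g, hg, h1, by rw [h7]; exact h2⟩

end DualModel

end Pool.Agent.Helper40.CB
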