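import Pool.Agent.Helper40.CB.Defs

set_option autoImplicit false

namespace Pool.Agent.Helper40.CB

open Matrix Finset

variable {d : ℕ}

/-- exposed face -/
def Fc (P : Set (Fin d → ℚ)) (u : Fin d → ℚ) : Set (Fin d → ℚ) :=
  {x | x ∈ P ∧ ∀ y ∈ P, u ⬝ᵥ y ≤ u ⬝ᵥ x}

theorem isFace_Fc (P : Set (Fin d → ℚ)) (u : Fin d → ℚ) : IsFace P (Fc P u) := Or.inr ⟨u, rfl⟩

theorem isFace_self (P : Set (Fin d → ℚ)) : IsFace P P := by
  right
  refine ⟨0, ?_⟩
  ext x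
  simp

theorem IsFace.subset {P F : Set (Fin d → ℚ)} (h : IsFace P F) : F ⊆ P := by
  rcases h with rfl | ⟨u, rfl⟩
  · exact Set.empty_subset _
  · exact fun x hx => hx.1

theorem IsFace.exists_Fc {P F : Set (Fin d → ℚ)} (h : IsFace P F) (hne : F.Nonempty) :
    ∃ u, F = Fc P u := by
  rcases h with rfl | ⟨u, hu⟩
  · exact absurd hne Set.not_nonempty_empty
  · exact ⟨u, hu⟩

/-- convex combinations -/
theorem mem_hull {S : Finset (Fin d → ℚ)} {x : Fin d → ℚ}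
    (hx : x ∈ convexHull ℚ (S : Set (Fin d → ℚ))) :
    ∃ w : (Fin d → ℚ) → ℚ, (∀ y ∈ S, 0 ≤ w y) ∧ ∑ y ∈ S, w y = 1 ∧ ∑ y ∈ S, w y • y = x :=
  Finset.mem_convexHull'.1 hx

theorem dot_hull {S : Finset (Fin d → ℚ)} {w : (Fin d → ℚ) → ℚ} {x : Fin d → ℚ}
    (hx : ∑ y ∈ S, w y • y = x) (u : Fin d → ℚ) : u ⬝ᵥ x = ∑ y ∈ S, w y * (u ⬝ᵥ y) := by
  rw [← hx, dotProduct_sum]
  exact Finset.sum_congr rfl fun y _ => by rw [dotProduct_smul, smul_eq_mul]

theorem le_of_hull {S : Finset (Fin d → ℚ)} {u : Fin d → ℚ} {c : ℚ}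
    (h : ∀ s ∈ S, u ⬝ᵥ s ≤ c) {x : Fin d → ℚ} (hx : x ∈ convexHull ℚ (S : Set (Fin d → ℚ))) :
    u ⬝ᵥ x ≤ c := by
  obtain ⟨w, h0, h1, h2⟩ := mem_hull hx
  rw [dot_hull h2]
  calc ∑ y ∈ S, w y * (u ⬝ᵥ y) ≤ ∑ y ∈ S, w y * c :=
        Finset.sum_le_sum fun y hy => mul_le_mul_of_nonneg_left (h y hy) (h0 y hy)
    _ = c := by rw [← Finset.sum_mul, h1, one_mul]

/-- points of a face are combinations of generators in the face -/
theorem weights_face {S : Finset (Fin d → ℚ)} {u : Fin d → ℚ} {x : Fin d → ℚ}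
    (hmax : ∀ s ∈ S, u ⬝ᵥ s ≤ u ⬝ᵥ x) {w : (Fin d → ℚ) → ℚ} (h0 : ∀ y ∈ S, 0 ≤ w y)
    (h1 : ∑ y ∈ S, w y = 1) (h2 : ∑ y ∈ S, w y • y = x) :
    ∀ y ∈ S, w y ≠ 0 → u ⬝ᵥ y = u ⬝ᵥ x := by
  have h3 : ∑ y ∈ S, w y * (u ⬝ᵥ x - u ⬝ᵥ y) = 0 := by
    simp only [mul_sub, Finset.sum_sub_distrib, ← Finset.sum_mul, h1, one_mul]
    rw [← dot_hull h2, sub_self]
  have h4 := (Finset.sum_eq_zero_iff_of_nonneg (fun y hy =>
    mul_nonneg (h0 y hy) (sub_nonneg.2 (hmax y hy)))).1 h3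
  intro y hy hne
  have := (mul_eq_zero.1 (h4 y hy)).resolve_left hne
  linarith

/-- big multiples dominate -/
theorem exists_big (S : Finset (Fin d → ℚ)) (a b : Fin d → ℚ) (x : Fin d → ℚ) :
    ∃ N : ℕ, ∀ s ∈ S, a ⬝ᵥ s < a ⬝ᵥ x → ∀ M : ℚ, (N : ℚ) ≤ M →
      (M • a + b) ⬝ᵥ s < (M • a + b) ⬝ᵥ x := by
  obtain ⟨B, hB⟩ := Finset.exists_le (S.image (fun s => (b ⬝ᵥ s - b ⬝ᵥ x) / (a ⬝ᵥ x - a ⬝ᵥ s)))
  obtain ⟨N, hN⟩ := exists_nat_gt B
  refine ⟨N, fun s hs hlt M hM => ?_⟩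
  have h1 := hB _ (Finset.mem_image_of_mem _ hs)
  have h2 : 0 < a ⬝ᵥ x - a ⬝ᵥ s := sub_pos.2 hlt
  have h3 : (b ⬝ᵥ s - b ⬝ᵥ x) / (a ⬝ᵥ x - a ⬝ᵥ s) < M := lt_of_le_of_lt h1 (lt_of_lt_of_le hN hM)
  rw [div_lt_iff₀ h2] at h3
  rw [add_dotProduct, add_dotProduct, smul_dotProduct, smul_dotProduct, smul_eq_mul, smul_eq_mul]
  linarith

/-- A functional which is largest at one generator exposes a vertex. -/
theorem Fc_singleton {S : Finset (Fin d → ℚ)} {u p : Fin d → ℚ} (hp : p ∈ S)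
    (h : ∀ s ∈ S, s ≠ p → u ⬝ᵥ s < u ⬝ᵥ p) :
    Fc (convexHull ℚ (S : Set (Fin d → ℚ))) u = {p} := by
  have hle : ∀ s ∈ S, u ⬝ᵥ s ≤ u ⬝ᵥ p := by
    intro s hs
    by_cases hsp : s = p
    · rw [hsp]
    · exact (h s hs hsp).le
  have hpP : p ∈ convexHull ℚ (S : Set (Fin d → ℚ)) := subset_convexHull ℚ _ hp
  ext x
  constructor
  · rintro ⟨hx, hmax⟩
    have h1 : u ⬝ᵥ x = u ⬝ᵥ p := le_antisymm (le_of_hull hle hx) (hmax p hpP)
    obtain ⟨w, w0, w1, w2⟩ := mem_hull hx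
    have h3 := weights_face (u := u) (x := x) (fun s hs => by rw [h1]; exact hle s hs) w0 w1 w2
    have h4 : ∀ y ∈ S, y ≠ p → w y = 0 := by
      intro y hy hyp
      by_contra hne
      have := h3 y hy hne
      rw [h1] at this
      exact absurd (h y hy hyp) (by rw [this]; exact lt_irrefl _)
    have h5 : w p = 1 := by
      rw [← w1, Finset.sum_eq_single p (fun y hy hne => h4 y hy hne) (fun hn => absurd hp hn)]
    rw [Set.mem_singleton_iff, ← w2, Finset.sum_eq_single p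
      (fun y hy hne => by rw [h4 y hy hne, zero_smul]) (fun hn => absurd hp hn), h5, one_smul]
  · rintro rfl
    exact ⟨hpP, fun y hy => le_of_hull hle hy⟩

/-- Every functional attains its maximum over a nonempty face at a vertex of that face. -/
theorem exists_vertex {P F : Set (Fin d → ℚ)} (hP : IsPolytope P) (hF : IsFace P F)
    (hne : F.Nonempty) (u : Fin d → ℚ) :
    ∃ p ∈ F, IsFace P {p} ∧ ∀ x ∈ F, u ⬝ᵥ x ≤ u ⬝ᵥ p := by
  classical
  obtain ⟨S, rfl⟩ := hP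
  obtain ⟨u₀, rfl⟩ := hF.exists_Fc hne
  obtain ⟨x₀, hx₀, hx₀max⟩ := hne
  set P := convexHull ℚ (S : Set (Fin d → ℚ)) with hPdef
  have hSP : ∀ s ∈ S, s ∈ P := fun s hs => subset_convexHull ℚ _ hs
  -- generators in the face
  set T := S.filter (fun s => u₀ ⬝ᵥ s = u₀ ⬝ᵥ x₀) with hT
  have hTF : ∀ s, s ∈ T ↔ s ∈ S ∧ u₀ ⬝ᵥ s = u₀ ⬝ᵥ x₀ := fun s => Finset.mem_filter
  have hcomb : ∀ x ∈ Fc P u₀, ∃ w : (Fin d → ℚ) → ℚ, (∀ y ∈ S, 0 ≤ w y) ∧ ∑ y ∈ S, w y = 1 ∧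
      ∑ y ∈ S, w y • y = x ∧ ∀ y ∈ S, w y ≠ 0 → y ∈ T := by
    rintro x ⟨hx, hmax⟩
    obtain ⟨w, w0, w1, w2⟩ := mem_hull hx
    refine ⟨w, w0, w1, w2, fun y hy hne => ?_⟩
    have h1 := weights_face (u := u₀) (x := x) (fun s hs => hmax s (hSP s hs)) w0 w1 w2 y hy hne
    rw [hTF]
    refine ⟨hy, ?_⟩
    rw [h1]
    exact le_antisymm (hx₀max x hx) (hmax x₀ hx₀)
  have hTne : T.Nonempty := by
    obtain ⟨w, w0, w1, w2, w3⟩ := hcomb x₀ ⟨hx₀, hx₀max⟩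
    by_contra hcon
    rw [Finset.not_nonempty_iff_eq_empty] at hcon
    have : ∑ y ∈ S, w y = 0 := Finset.sum_eq_zero fun y hy => by
      by_contra hne
      have := w3 y hy hne
      rw [hcon] at this
      exact absurd this (Finset.notMem_empty _)
    rw [this] at w1
    exact zero_ne_one w1
  obtain ⟨s₁, hs₁, hmax₁⟩ := Finset.exists_max_image T (fun s => u ⬝ᵥ s) hTne
  obtain ⟨p, hp, hpmax⟩ := Finset.exists_max_image (T.filter (fun s => u ⬝ᵥ s = u ⬝ᵥ s₁))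
    (fun s => s ⬝ᵥ s) ⟨s₁, by simp [hs₁]⟩
  rw [Finset.mem_filter] at hp
  obtain ⟨hpT, hpu⟩ := hp
  have hpS : p ∈ S := ((hTF p).1 hpT).1
  have hpu₀ : u₀ ⬝ᵥ p = u₀ ⬝ᵥ x₀ := ((hTF p).1 hpT).2
  have hpF : p ∈ Fc P u₀ := ⟨hSP p hpS, fun y hy => by rw [hpu₀]; exact hx₀max y hy⟩
  refine ⟨p, hpF, ?_, ?_⟩
  · -- exposing functional
    obtain ⟨N₁, hN₁⟩ := exists_big S u p p
    obtain ⟨N₂, hN₂⟩ := exists_big S u₀ ((N₁ : ℚ) • u + p) p
    have : ({p} : Set (Fin d → ℚ)) = Fc P ((N₂ : ℚ) • u₀ + ((N₁ : ℚ) • u + p)) := by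
      rw [hPdef, Fc_singleton hpS]
      intro s hs hsp
      rcases lt_or_eq_of_le (show u₀ ⬝ᵥ s ≤ u₀ ⬝ᵥ p from by rw [hpu₀]; exact hx₀max s (hSP s hs)) with hlt | heq
      · exact hN₂ s hs hlt _ le_rfl
      · have hsT : s ∈ T := (hTF s).2 ⟨hs, by rw [heq, hpu₀]⟩
        have h1 : ((N₁ : ℚ) • u + p) ⬝ᵥ s < ((N₁ : ℚ) • u + p) ⬝ᵥ p := by
          rcases lt_or_eq_of_le (show u ⬝ᵥ s ≤ u ⬝ᵥ p from by rw [hpu]; exact hmax₁ s hsT) with hlt | heq'
          · exact hN₁ s hs hlt _ le_rfl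
          · have h2 := hpmax s (Finset.mem_filter.2 ⟨hsT, by rw [heq', hpu]⟩)
            rw [add_dotProduct, add_dotProduct, smul_dotProduct, smul_dotProduct, heq']
            have h3 : p ⬝ᵥ s < p ⬝ᵥ p := by
              have h4 : 0 < (p - s) ⬝ᵥ (p - s) := by
                apply lt_of_le_of_ne
                · exact Finset.sum_nonneg fun i _ => mul_self_nonneg _
                · intro h5
                  exact hsp (sub_eq_zero.1 (dotProduct_self_eq_zero.1 h5.symm)).symm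
              rw [sub_dotProduct, dotProduct_sub, dotProduct_sub, dotProduct_comm s p] at h4
              linarith
            linarith
        rw [add_dotProduct ((N₂ : ℚ) • u₀), add_dotProduct ((N₂ : ℚ) • u₀), smul_dotProduct (N₂ : ℚ) u₀,
          smul_dotProduct (N₂ : ℚ) u₀, heq]
        linarith
    rw [this]
    exact isFace_Fc _ _
  · intro x hx
    obtain ⟨w, w0, w1, w2, w3⟩ := hcomb x hx
    rw [dot_hull w2]
    calc ∑ y ∈ S, w y * (u ⬝ᵥ y) ≤ ∑ y ∈ S, w y * (u ⬝ᵥ p) := by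
          refine Finset.sum_le_sum fun y hy => ?_
          by_cases h : w y = 0
          · rw [h, zero_mul, zero_mul]
          · exact mul_le_mul_of_nonneg_left (by rw [hpu]; exact hmax₁ y (w3 y hy h)) (w0 y hy)
      _ = u ⬝ᵥ p := by rw [← Finset.sum_mul, w1, one_mul]

/-- Inclusion of faces is detected by vertices. -/
theorem face_subset {P F G : Set (Fin d → ℚ)} (hP : IsPolytope P) (hF : IsFace P F)
    (hG : IsFace P G) (h : ∀ p ∈ F, IsFace P {p} → p ∈ G) : F ⊆ G := by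
  by_cases hne : F.Nonempty
  · intro x hx
    obtain ⟨p₀, hp₀, hv₀, -⟩ := exists_vertex hP hF hne 0
    obtain ⟨u, rfl⟩ := hG.exists_Fc ⟨p₀, h p₀ hp₀ hv₀⟩
    obtain ⟨p, hp, hv, hmax⟩ := exists_vertex hP hF hne (-u)
    have h1 := hmax x hx
    rw [neg_dotProduct, neg_dotProduct] at h1
    have h2 := h p hp hv
    exact ⟨hF.subset hx, fun y hy => (h2.2 y hy).trans (by linarith)⟩
  · rw [Set.not_nonempty_iff_eq_empty.1 hne]; exact Set.empty_subset _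

/-- direction space of a set -/
abbrev vs (F : Set (Fin d → ℚ)) : Submodule ℚ (Fin d → ℚ) := vectorSpan ℚ F

theorem sub_mem_vs {F : Set (Fin d → ℚ)} {x y : Fin d → ℚ} (hx : x ∈ F) (hy : y ∈ F) :
    x - y ∈ vs F := by
  have := vsub_mem_vectorSpan ℚ hx hy
  simpa using this

theorem perp_vs {F : Set (Fin d → ℚ)} {u : Fin d → ℚ} (h : ∀ x ∈ F, ∀ y ∈ F, u ⬝ᵥ x = u ⬝ᵥ y)
    {m : Fin d → ℚ} (hm : m ∈ vs F) : u ⬝ᵥ m = 0 := by
  rw [vs, vectorSpan] at hm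
  induction hm using Submodule.span_induction with
  | mem m hm =>
    obtain ⟨x, hx, y, hy, rfl⟩ := hm
    simp only [vsub_eq_sub]
    rw [dotProduct_sub, h x hx y hy, sub_self]
  | zero => simp
  | add a b _ _ ha hb => rw [dotProduct_add, ha, hb, add_zero]
  | smul c a _ ha => rw [dotProduct_smul, ha, smul_zero]

theorem vs_mono {F G : Set (Fin d → ℚ)} (h : F ⊆ G) : vs F ≤ vs G := vectorSpan_mono ℚ h

theorem vs_singleton (p : Fin d → ℚ) : vs ({p} : Set (Fin d → ℚ)) = ⊥ := vectorSpan_singleton ℚ p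

/-- strictly larger faces have strictly larger dimension -/
theorem fdim_lt {P F G : Set (Fin d → ℚ)} (hF : IsFace P F) (hG : IsFace P G)
    (hne : F.Nonempty) (h : F ⊆ G) (hne' : F ≠ G) :
    Module.finrank ℚ (vs F) < Module.finrank ℚ (vs G) := by
  obtain ⟨u, rfl⟩ := hF.exists_Fc hne
  obtain ⟨y, hy, hyF⟩ : ∃ y ∈ G, y ∉ Fc P u := by
    by_contra hcon
    push Not at hcon
    exact hne' (Set.Subset.antisymm h hcon)
  obtain ⟨x, hx⟩ := hne
  apply Submodule.finrank_lt_finrank_of_lt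
  refine lt_of_le_of_ne (vs_mono h) ?_
  intro heq
  have h1 : y - x ∈ vs (Fc P u) := by
    rw [heq]; exact sub_mem_vs hy (h hx)
  have h2 := perp_vs (u := u) (F := Fc P u) (fun a ha b hb =>
    le_antisymm (hb.2 a ha.1) (ha.2 b hb.1)) h1
  rw [dotProduct_sub] at h2
  apply hyF
  refine ⟨hG.subset hy, fun z hz => ?_⟩
  have := hx.2 z hz
  linarith

/-- `m` lies in a subspace iff it is orthogonal to everything orthogonal to the subspace -/
theorem mem_of_perp (W : Submodule ℚ (Fin d → ℚ)) (m : Fin d → ℚ)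
    (h : ∀ u : Fin d → ℚ, (∀ w ∈ W, u ⬝ᵥ w = 0) → u ⬝ᵥ m = 0) : m ∈ W := by
  by_contra hm
  obtain ⟨f, hf, hfW⟩ := Submodule.exists_le_ker_of_notMem hm
  -- represent f by a vector
  let u : Fin d → ℚ := fun i => f (Pi.single i 1)
  have hu : ∀ x : Fin d → ℚ, u ⬝ᵥ x = f x := by
    intro x
    have : x = ∑ i, x i • Pi.single i (1 : ℚ) := by
      funext j
      simp [Finset.sum_apply, Pi.single_apply]
    conv_rhs => rw [this]
    rw [map_sum]
    simp only [map_smul, smul_eq_mul, dotProduct, u]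
    exact Finset.sum_congr rfl fun i _ => mul_comm _ _
  apply hf
  rw [← hu]
  exact h u (fun w hw => by rw [hu]; exact hfW hw)

/-- the span of the normal cone is the orthogonal complement of the direction space -/
theorem mem_span_normalCone {P G : Set (Fin d → ℚ)} (hP : IsPolytope P) (hG : IsFace P G)
    (hne : G.Nonempty) (v : Fin d → ℚ) :
    v ∈ Submodule.span ℚ (normalCone P G) ↔ ∀ m ∈ vs G, v ⬝ᵥ m = 0 := by
  constructor
  · intro hv m hm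
    induction hv using Submodule.span_induction with
    | mem v hv =>
      exact perp_vs (fun x hx y hy => le_antisymm (hv y hy x (hG.subset hx)) (hv x hx y (hG.subset hy))) hm
    | zero => simp
    | add a b _ _ ha hb => rw [add_dotProduct, ha, hb, add_zero]
    | smul c a _ ha => rw [smul_dotProduct, ha, smul_zero]
  · intro hv
    obtain ⟨S, rfl⟩ := hP
    obtain ⟨u₀, rfl⟩ := hG.exists_Fc hne
    obtain ⟨x₀, hx₀⟩ := hne
    obtain ⟨N, hN⟩ := exists_big S u₀ v x₀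
    set P := convexHull ℚ (S : Set (Fin d → ℚ)) with hPdef
    have hSP : ∀ s ∈ S, s ∈ P := fun s hs => subset_convexHull ℚ _ hs
    have h0 : u₀ ∈ normalCone P (Fc P u₀) := fun x hx y hy => hx.2 y hy
    have h1 : (N : ℚ) • u₀ + v ∈ normalCone P (Fc P u₀) := by
      have hx₀' : ∀ x ∈ Fc P u₀, ((N : ℚ) • u₀ + v) ⬝ᵥ x = ((N : ℚ) • u₀ + v) ⬝ᵥ x₀ := by
        intro x hx
        have h2 : u₀ ⬝ᵥ x = u₀ ⬝ᵥ x₀ := le_antisymm (hx₀.2 x hx.1) (hx.2 x₀ hx₀.1)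
        have h3 := hv (x - x₀) (sub_mem_vs hx hx₀)
        rw [dotProduct_sub] at h3
        rw [add_dotProduct, add_dotProduct, smul_dotProduct, smul_dotProduct, h2]
        linarith
      intro x hx y hy
      rw [hx₀' x hx]
      refine le_of_hull (fun s hs => ?_) hy
      rcases lt_or_eq_of_le (hx₀.2 s (hSP s hs)) with hlt | heq
      · exact (hN s hs hlt _ le_rfl).le
      · exact (hx₀' s ⟨hSP s hs, fun y hy => by rw [heq]; exact hx₀.2 y hy⟩).le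
    have h2 := Submodule.sub_mem _ (Submodule.subset_span h1)
      (Submodule.smul_mem _ (N : ℚ) (Submodule.subset_span h0))
    rwa [add_sub_cancel_left] at h2

end Pool.Agent.Helper40.CB
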