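import Pool.Agent.Helper40.CB.Geo

set_option autoImplicit false

namespace Pool.Agent.Helper40.CB

open Matrix Finset

variable {d : ℕ}

theorem toQ_dot (z m : Fin d → ℤ) : toQ z ⬝ᵥ toQ m = ((z ⬝ᵥ m : ℤ) : ℚ) := by
  simp [toQ, dotProduct]

theorem toQ_add (z m : Fin d → ℤ) : toQ (z + m) = toQ z + toQ m := by
  funext i; simp [toQ]

theorem toQ_sub (z m : Fin d → ℤ) : toQ (z - m) = toQ z - toQ m := by
  funext i; simp [toQ]

theorem toQ_smul (t : ℤ) (m : Fin d → ℤ) : toQ (t • m) = (t : ℚ) • toQ m := by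
  funext i; simp [toQ]

theorem toQ_neg (m : Fin d → ℤ) : toQ (-m) = - toQ m := by
  funext i; simp [toQ]

theorem exists_int_mul (x : Fin d → ℚ) : ∃ D : ℕ, 0 < D ∧ ∃ m : Fin d → ℤ, toQ m = (D : ℚ) • x := by
  classical
  refine ⟨∏ i, (x i).den, Finset.prod_pos fun i _ => (x i).den_pos, ?_⟩
  refine ⟨fun i => (∏ j ∈ univ.erase i, ((x j).den : ℤ)) * (x i).num, ?_⟩
  funext i
  simp only [toQ, Pi.smul_apply, smul_eq_mul]
  rw [← Finset.prod_erase_mul _ _ (Finset.mem_univ i)]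
  push_cast
  rw [mul_assoc]
  congr 1
  rw [mul_comm, Rat.mul_den_eq_num]

section Pair

variable {P F G : Set (Fin d → ℚ)}

/-- data of a pair of faces of consecutive dimensions -/
structure Cov (P F G : Set (Fin d → ℚ)) : Prop where
  hP : IsPolytope P
  hF : IsFace P F
  hG : IsFace P G
  ne : F.Nonempty
  sub : F ⊆ G
  dim : Module.finrank ℚ (vs G) = Module.finrank ℚ (vs F) + 1

theorem Cov.neG (h : Cov P F G) : G.Nonempty := h.ne.mono h.sub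

theorem Cov.exists_y (h : Cov P F G) : ∃ y ∈ G, y ∉ F := by
  by_contra hcon
  push Not at hcon
  have : F = G := Set.Subset.antisymm h.sub hcon
  have h1 := h.dim
  rw [this] at h1
  omega

/-- every direction of `G` is a direction of `F` plus a multiple of `m₀` -/
theorem Cov.decomp (h : Cov P F G) {m₀ : Fin d → ℚ} (hm : m₀ ∈ vs G) (hm' : m₀ ∉ vs F)
    {m : Fin d → ℚ} (hmG : m ∈ vs G) : ∃ f ∈ vs F, ∃ c : ℚ, m = f + c • m₀ := by
  have hle : vs F ⊔ Submodule.span ℚ {m₀} ≤ vs G :=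
    sup_le (vs_mono h.sub) ((Submodule.span_singleton_le_iff_mem _ _).2 hm)
  have hlt : vs F < vs F ⊔ Submodule.span ℚ {m₀} := by
    refine lt_of_le_of_ne le_sup_left ?_
    intro heq
    apply hm'
    rw [heq]
    exact Submodule.mem_sup_right (Submodule.mem_span_singleton_self _)
  have h1 := Submodule.finrank_lt_finrank_of_lt hlt
  have h2 := h.dim
  have heq : vs F ⊔ Submodule.span ℚ {m₀} = vs G :=
    Submodule.eq_of_le_of_finrank_le hle (by omega)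
  rw [← heq] at hmG
  obtain ⟨f, hf, g, hg, rfl⟩ := Submodule.mem_sup.1 hmG
  obtain ⟨c, rfl⟩ := Submodule.mem_span_singleton.1 hg
  exact ⟨f, hf, c, rfl⟩

theorem Cov.gen_iff (h : Cov P F G) (v : Fin d → ℤ) :
    IsNormalGen P F G v ↔ toQ v ∈ normalCone P F ∧
      ∀ z : Fin d → ℤ, (∀ m ∈ vs F, toQ z ⬝ᵥ m = 0) → ∃ t : ℤ, ∀ m ∈ vs G, toQ z ⬝ᵥ m = t * (toQ v ⬝ᵥ m) := by
  unfold IsNormalGen
  refine and_congr_right fun _ => forall_congr' fun z => ?_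
  rw [mem_span_normalCone h.hP h.hF h.ne]
  refine imp_congr_right fun _ => exists_congr fun t => ?_
  rw [mem_span_normalCone h.hP h.hG h.neG]
  refine forall₂_congr fun m _ => ?_
  rw [toQ_sub, toQ_smul, sub_dotProduct, smul_dotProduct, smul_eq_mul, sub_eq_zero]

theorem normalCone_perp {P F : Set (Fin d → ℚ)} (hF : IsFace P F) {v : Fin d → ℚ}
    (hv : v ∈ normalCone P F) {m : Fin d → ℚ} (hm : m ∈ vs F) : v ⬝ᵥ m = 0 :=
  perp_vs (fun x hx y hy => le_antisymm (hv y hy x (hF.subset hx)) (hv x hx y (hF.subset hy))) hm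

/-- an exposing functional of a face -/
def Exposes (P F : Set (Fin d → ℚ)) (u : Fin d → ℚ) : Prop :=
  u ∈ normalCone P F ∧ ∀ x ∈ F, ∀ y ∈ P, y ∉ F → u ⬝ᵥ y < u ⬝ᵥ x

theorem exists_exposes {P F : Set (Fin d → ℚ)} (hF : IsFace P F) (hne : F.Nonempty) :
    ∃ u, Exposes P F u := by
  obtain ⟨u, rfl⟩ := hF.exists_Fc hne
  refine ⟨u, fun x hx y hy => hx.2 y hy, ?_⟩
  intro x hx y hy hyF
  refine lt_of_le_of_ne (hx.2 y hy) ?_
  intro heq
  exact hyF ⟨hy, fun z hz => by rw [heq]; exact hx.2 z hz⟩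

theorem Exposes.smul {P F : Set (Fin d → ℚ)} {u : Fin d → ℚ} (h : Exposes P F u) {c : ℚ}
    (hc : 0 < c) : Exposes P F (c • u) := by
  refine ⟨fun x hx y hy => ?_, fun x hx y hy hyF => ?_⟩
  · rw [smul_dotProduct, smul_dotProduct, smul_eq_mul, smul_eq_mul]
    exact mul_le_mul_of_nonneg_left (h.1 x hx y hy) hc.le
  · rw [smul_dotProduct, smul_dotProduct, smul_eq_mul, smul_eq_mul]
    exact mul_lt_mul_of_pos_left (h.2 x hx y hy hyF) hc

theorem exists_exposes_int {P F : Set (Fin d → ℚ)} (hF : IsFace P F) (hne : F.Nonempty) :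
    ∃ u : Fin d → ℤ, Exposes P F (toQ u) := by
  obtain ⟨u, hu⟩ := exists_exposes hF hne
  obtain ⟨D, hD, m, hm⟩ := exists_int_mul u
  exact ⟨m, by rw [hm]; exact hu.smul (by exact_mod_cast hD)⟩

/-- existence of the lattice normal vector -/
theorem Cov.exists_gen (h : Cov P F G) : ∃ v : Fin d → ℤ, IsNormalGen P F G v := by
  obtain ⟨uF, huF⟩ := exists_exposes_int h.hF h.ne
  obtain ⟨uG, huG⟩ := exists_exposes_int h.hG h.neG
  obtain ⟨x₀, hx₀⟩ := h.ne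
  obtain ⟨y₀, hy₀, hy₀F⟩ := h.exists_y
  have hlt : toQ uF ⬝ᵥ y₀ < toQ uF ⬝ᵥ x₀ := huF.2 x₀ hx₀ y₀ (h.hG.subset hy₀) hy₀F
  have hm₁ : y₀ - x₀ ∈ vs G := sub_mem_vs hy₀ (h.sub hx₀)
  have hm₁F : y₀ - x₀ ∉ vs F := by
    intro hm
    have := normalCone_perp h.hF huF.1 hm
    rw [dotProduct_sub] at this
    linarith
  obtain ⟨D, hD, m₀, hm₀⟩ := exists_int_mul (y₀ - x₀)
  have hDq : (0 : ℚ) < D := by exact_mod_cast hD
  -- the subgroup of values
  let H : AddSubgroup ℤ :=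
    { carrier := {a | ∃ z : Fin d → ℤ, (∀ m ∈ vs F, toQ z ⬝ᵥ m = 0) ∧ z ⬝ᵥ m₀ = a}
      add_mem' := by
        rintro a b ⟨z, hz, rfl⟩ ⟨z', hz', rfl⟩
        exact ⟨z + z', fun m hm => by rw [toQ_add, add_dotProduct, hz m hm, hz' m hm, add_zero],
          add_dotProduct _ _ _⟩
      zero_mem' := ⟨0, fun m _ => by
        have : toQ (0 : Fin d → ℤ) = 0 := by funext i; simp [toQ]
        rw [this, zero_dotProduct], zero_dotProduct _⟩
      neg_mem' := by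
        rintro a ⟨z, hz, rfl⟩
        exact ⟨-z, fun m hm => by rw [toQ_neg, neg_dotProduct, hz m hm, neg_zero], neg_dotProduct _ _⟩ }
  obtain ⟨g, hg⟩ := Int.subgroup_cyclic H
  have hgH : g ∈ H := by rw [hg]; exact AddSubgroup.subset_closure (Set.mem_singleton g)
  have hgen : ∀ a ∈ H, ∃ t : ℤ, a = t * g := by
    intro a ha
    rw [hg, AddSubgroup.mem_closure_singleton] at ha
    obtain ⟨t, ht⟩ := ha
    exact ⟨t, by rw [← ht, smul_eq_mul]⟩
  have huFH : uF ⬝ᵥ m₀ ∈ H := ⟨uF, fun m hm => normalCone_perp h.hF huF.1 hm, rfl⟩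
  have huFneg : uF ⬝ᵥ m₀ < 0 := by
    have h1 : ((uF ⬝ᵥ m₀ : ℤ) : ℚ) < 0 := by
      rw [← toQ_dot, hm₀, dotProduct_smul, dotProduct_sub, smul_eq_mul]
      exact mul_neg_of_pos_of_neg hDq (by linarith)
    exact_mod_cast h1
  have hg0 : g ≠ 0 := by
    rintro rfl
    obtain ⟨t, ht⟩ := hgen _ huFH
    rw [mul_zero] at ht
    omega
  -- a generator with negative value
  obtain ⟨v₀, hv₀F, hv₀neg, hv₀gen⟩ : ∃ v₀ : Fin d → ℤ, (∀ m ∈ vs F, toQ v₀ ⬝ᵥ m = 0) ∧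
      v₀ ⬝ᵥ m₀ < 0 ∧ ∀ a ∈ H, ∃ t : ℤ, a = t * (v₀ ⬝ᵥ m₀) := by
    obtain ⟨z, hz, hzg⟩ := hgH
    rcases lt_or_gt_of_ne hg0 with hlt' | hgt
    · exact ⟨z, hz, by rw [hzg]; exact hlt', fun a ha => by rw [hzg]; exact hgen a ha⟩
    · refine ⟨-z, fun m hm => by rw [toQ_neg, neg_dotProduct, hz m hm, neg_zero], ?_, ?_⟩
      · rw [neg_dotProduct, hzg]; omega
      · intro a ha
        obtain ⟨t, ht⟩ := hgen a ha
        exact ⟨-t, by rw [neg_dotProduct, hzg, ht]; ring⟩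
  -- on `G`, `v₀` is a positive multiple of `uF`
  have hprop : ∀ m ∈ vs G, (toQ uF ⬝ᵥ toQ m₀) * (toQ v₀ ⬝ᵥ m) = (toQ v₀ ⬝ᵥ toQ m₀) * (toQ uF ⬝ᵥ m) := by
    intro m hm
    obtain ⟨f, hf, c, rfl⟩ := h.decomp (m₀ := toQ m₀) (by rw [hm₀]; exact Submodule.smul_mem _ _ hm₁)
      (by
        rw [hm₀]
        intro h1
        have h2 := Submodule.smul_mem _ (D : ℚ)⁻¹ h1
        rw [smul_smul, inv_mul_cancel₀ hDq.ne', one_smul] at h2
        exact hm₁F h2) hm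
    rw [dotProduct_add, dotProduct_add, hv₀F f hf, normalCone_perp h.hF huF.1 hf, dotProduct_smul,
      dotProduct_smul, smul_eq_mul, smul_eq_mul]
    ring
  have hv₀negQ : toQ v₀ ⬝ᵥ toQ m₀ < 0 := by rw [toQ_dot]; exact_mod_cast hv₀neg
  have huFnegQ : toQ uF ⬝ᵥ toQ m₀ < 0 := by rw [toQ_dot]; exact_mod_cast huFneg
  have hP := h.hP
  obtain ⟨S, hS⟩ := h.hP
  obtain ⟨N, hN⟩ := exists_big S (toQ uG) (toQ v₀) x₀
  refine ⟨(N : ℤ) • uG + v₀, (h.gen_iff _).2 ⟨?_, ?_⟩⟩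
  · -- in the cone of F
    have hSP : ∀ s ∈ S, s ∈ P := fun s hs => by rw [hS]; exact subset_convexHull ℚ _ hs
    have hvF : ∀ x ∈ F, toQ ((N : ℤ) • uG + v₀) ⬝ᵥ x = toQ ((N : ℤ) • uG + v₀) ⬝ᵥ x₀ := by
      intro x hx
      have h1 := hv₀F (x - x₀) (sub_mem_vs hx hx₀)
      have h2 := normalCone_perp h.hG huG.1 (sub_mem_vs (h.sub hx) (h.sub hx₀))
      rw [dotProduct_sub] at h1 h2
      rw [toQ_add, toQ_smul, add_dotProduct, add_dotProduct, smul_dotProduct, smul_dotProduct]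
      have h3 : toQ uG ⬝ᵥ x = toQ uG ⬝ᵥ x₀ := by linarith
      have h4 : toQ v₀ ⬝ᵥ x = toQ v₀ ⬝ᵥ x₀ := by linarith
      rw [h3, h4]
    intro x hx y hy
    rw [hvF x hx]
    rw [hS] at hy
    refine le_of_hull (fun s hs => ?_) hy
    rw [toQ_add, toQ_smul]
    by_cases hsG : s ∈ G
    · have h2 := normalCone_perp h.hG huG.1 (sub_mem_vs hsG (h.sub hx₀))
      rw [dotProduct_sub] at h2
      have h3 : toQ v₀ ⬝ᵥ (s - x₀) ≤ 0 := by
        have h4 := hprop (s - x₀) (sub_mem_vs hsG (h.sub hx₀))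
        have h5 : toQ uF ⬝ᵥ (s - x₀) ≤ 0 := by
          rw [dotProduct_sub]
          have := huF.1 x₀ hx₀ s (hSP s hs)
          linarith
        have h6 : 0 ≤ (toQ uF ⬝ᵥ toQ m₀) * (toQ v₀ ⬝ᵥ (s - x₀)) := by
          rw [h4]; exact mul_nonneg_of_nonpos_of_nonpos hv₀negQ.le h5
        by_contra h7
        push Not at h7
        have := mul_neg_of_neg_of_pos huFnegQ h7
        linarith
      rw [dotProduct_sub] at h3
      rw [add_dotProduct, add_dotProduct, smul_dotProduct, smul_dotProduct]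
      have h8 : toQ uG ⬝ᵥ s = toQ uG ⬝ᵥ x₀ := by linarith
      rw [h8]
      linarith
    · have h1 := huG.2 x₀ (h.sub hx₀) s (hSP s hs) hsG
      have h2 := hN s hs h1 (N : ℚ) le_rfl
      push_cast
      exact h2.le
  · intro z hz
    obtain ⟨t, ht⟩ := hv₀gen (z ⬝ᵥ m₀) ⟨z, hz, rfl⟩
    refine ⟨t, fun m hm => ?_⟩
    obtain ⟨f, hf, c, rfl⟩ := h.decomp (m₀ := toQ m₀) (by rw [hm₀]; exact Submodule.smul_mem _ _ hm₁)
      (by
        rw [hm₀]
        intro h1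
        have h2 := Submodule.smul_mem _ (D : ℚ)⁻¹ h1
        rw [smul_smul, inv_mul_cancel₀ hDq.ne', one_smul] at h2
        exact hm₁F h2) hm
    have h1 : toQ uG ⬝ᵥ f = 0 := normalCone_perp h.hG huG.1 (vs_mono h.sub hf)
    have h2 : toQ uG ⬝ᵥ toQ m₀ = 0 := by
      rw [hm₀]
      exact normalCone_perp h.hG huG.1 (Submodule.smul_mem _ _ hm₁)
    have h3 : toQ z ⬝ᵥ toQ m₀ = t * (toQ v₀ ⬝ᵥ toQ m₀) := by
      rw [toQ_dot, toQ_dot, ht]; push_cast; ring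
    rw [dotProduct_add, dotProduct_add, hz f hf, toQ_add, toQ_smul, add_dotProduct, add_dotProduct,
      hv₀F f hf, smul_dotProduct, h1, smul_dotProduct, dotProduct_smul, dotProduct_smul, dotProduct_smul,
      h2, h3]
    simp only [smul_eq_mul]
    ring

/-- the lattice normal vector, up to functionals vanishing on `G` -/
noncomputable def nv (P F G : Set (Fin d → ℚ)) : Fin d → ℤ :=
  open Classical in if h : ∃ v, IsNormalGen P F G v then h.choose else 0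

theorem Cov.nv_spec (h : Cov P F G) : IsNormalGen P F G (nv P F G) := by
  rw [nv, dif_pos h.exists_gen]
  exact h.exists_gen.choose_spec

/-- sign of a generator -/
theorem Cov.gen_neg (h : Cov P F G) {v : Fin d → ℤ} (hv : IsNormalGen P F G v)
    {x y : Fin d → ℚ} (hx : x ∈ F) (hy : y ∈ G) (hyF : y ∉ F) : toQ v ⬝ᵥ (y - x) < 0 := by
  obtain ⟨uF, huF⟩ := exists_exposes_int h.hF h.ne
  have hlt : toQ uF ⬝ᵥ y < toQ uF ⬝ᵥ x := huF.2 x hx y (h.hG.subset hy) hyF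
  have h1 := ((h.gen_iff v).1 hv)
  have hle : toQ v ⬝ᵥ (y - x) ≤ 0 := by
    rw [dotProduct_sub]
    have := h1.1 x hx y (h.hG.subset hy)
    linarith
  refine lt_of_le_of_ne hle ?_
  intro heq
  obtain ⟨t, ht⟩ := h1.2 uF (fun m hm => normalCone_perp h.hF huF.1 hm)
  have h2 := ht (y - x) (sub_mem_vs hy (h.sub hx))
  rw [heq, mul_zero, dotProduct_sub] at h2
  linarith

/-- all generators agree on `G` -/
theorem Cov.gen_unique (h : Cov P F G) {v v' : Fin d → ℤ} (hv : IsNormalGen P F G v)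
    (hv' : IsNormalGen P F G v') {m : Fin d → ℚ} (hm : m ∈ vs G) : toQ v ⬝ᵥ m = toQ v' ⬝ᵥ m := by
  obtain ⟨x, hx⟩ := h.ne
  obtain ⟨y, hy, hyF⟩ := h.exists_y
  have h1 := ((h.gen_iff v).1 hv)
  have h2 := ((h.gen_iff v').1 hv')
  obtain ⟨t, ht⟩ := h1.2 v' (fun m hm => normalCone_perp h.hF h2.1 hm)
  obtain ⟨t', ht'⟩ := h2.2 v (fun m hm => normalCone_perp h.hF h1.1 hm)
  have hmem := sub_mem_vs hy (h.sub hx)
  have n1 := h.gen_neg hv hx hy hyF
  have n2 := h.gen_neg hv' hx hy hyF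
  have e1 := ht _ hmem
  have e2 := ht' _ hmem
  have htt : (t' : ℚ) * t = 1 := by
    have : toQ v ⬝ᵥ (y - x) = (t' * t) * (toQ v ⬝ᵥ (y - x)) := by
      conv_lhs => rw [e2, e1]
      ring
    have h3 : ((t' : ℚ) * t - 1) * (toQ v ⬝ᵥ (y - x)) = 0 := by linarith
    have := (mul_eq_zero.1 h3).resolve_right (ne_of_lt n1)
    linarith
  have htt' : t' * t = 1 := by exact_mod_cast htt
  have ht1 : t = 1 ∨ t = -1 := by
    rcases Int.mul_eq_one_iff_eq_one_or_neg_one.1 htt' with h | h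
    · exact Or.inl h.2
    · exact Or.inr h.2
  have htpos : (0 : ℚ) < t := by
    by_contra hcon
    push Not at hcon
    have : 0 ≤ (t : ℚ) * (toQ v ⬝ᵥ (y - x)) := mul_nonneg_of_nonpos_of_nonpos hcon n1.le
    rw [← e1] at this
    linarith
  have ht1' : t = 1 := by
    rcases ht1 with h | h
    · exact h
    · exfalso
      rw [h] at htpos
      norm_num at htpos
  have := ht m hm
  rw [ht1'] at this
  rw [this]; push_cast; ring

end Pair

/-- the diamond identity -/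
theorem diamond {P E F F' G : Set (Fin d → ℚ)} (h1 : Cov P E F) (h2 : Cov P F G)
    (h1' : Cov P E F') (h2' : Cov P F' G) {m₁ m₂ : Fin d → ℚ} (hm₁ : m₁ ∈ vs G) (hm₂ : m₂ ∈ vs G) :
    |(toQ (nv P F G) ⬝ᵥ m₁) * (toQ (nv P E F) ⬝ᵥ m₂) - (toQ (nv P F G) ⬝ᵥ m₂) * (toQ (nv P E F) ⬝ᵥ m₁)| =
    |(toQ (nv P F' G) ⬝ᵥ m₁) * (toQ (nv P E F') ⬝ᵥ m₂) - (toQ (nv P F' G) ⬝ᵥ m₂) * (toQ (nv P E F') ⬝ᵥ m₁)| := by
  -- every integer vector orthogonal to `E` is an integer combination on `G`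
  have key : ∀ {F : Set (Fin d → ℚ)} (_ : Cov P E F) (_ : Cov P F G) (z : Fin d → ℤ),
      (∀ m ∈ vs E, toQ z ⬝ᵥ m = 0) → ∃ s t : ℤ, ∀ m ∈ vs G,
        toQ z ⬝ᵥ m = s * (toQ (nv P E F) ⬝ᵥ m) + t * (toQ (nv P F G) ⬝ᵥ m) := by
    intro F h1 h2 z hz
    obtain ⟨s, hs⟩ := ((h1.gen_iff _).1 h1.nv_spec).2 z hz
    obtain ⟨t, ht⟩ := ((h2.gen_iff _).1 h2.nv_spec).2 (z - s • nv P E F) (fun m hm => by
      rw [toQ_sub, toQ_smul, sub_dotProduct, smul_dotProduct, smul_eq_mul, hs m hm, sub_self])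
    refine ⟨s, t, fun m hm => ?_⟩
    have := ht m hm
    rw [toQ_sub, toQ_smul, sub_dotProduct, smul_dotProduct, smul_eq_mul] at this
    linarith
  -- determinants are integer multiples of each other
  have mult : ∀ {F F' : Set (Fin d → ℚ)} (_ : Cov P E F) (_ : Cov P F G) (_ : Cov P E F')
      (_ : Cov P F' G), ∃ r : ℤ,
      (toQ (nv P F' G) ⬝ᵥ m₁) * (toQ (nv P E F') ⬝ᵥ m₂) - (toQ (nv P F' G) ⬝ᵥ m₂) * (toQ (nv P E F') ⬝ᵥ m₁) =
      r * ((toQ (nv P F G) ⬝ᵥ m₁) * (toQ (nv P E F) ⬝ᵥ m₂) - (toQ (nv P F G) ⬝ᵥ m₂) * (toQ (nv P E F) ⬝ᵥ m₁)) := by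
    intro F F' h1 h2 h1' h2'
    obtain ⟨s, t, hst⟩ := key h1 h2 (nv P F' G) (fun m hm =>
      normalCone_perp h2'.hF ((h2'.gen_iff _).1 h2'.nv_spec).1 (vs_mono h1'.sub hm))
    obtain ⟨s', t', hst'⟩ := key h1 h2 (nv P E F') (fun m hm =>
      normalCone_perp h1'.hF ((h1'.gen_iff _).1 h1'.nv_spec).1 hm)
    refine ⟨t * s' - s * t', ?_⟩
    rw [hst m₁ hm₁, hst m₂ hm₂, hst' m₁ hm₁, hst' m₂ hm₂]
    push_cast
    ring
  obtain ⟨r, hr⟩ := mult h1 h2 h1' h2'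
  obtain ⟨r', hr'⟩ := mult h1' h2' h1 h2
  set D := (toQ (nv P F G) ⬝ᵥ m₁) * (toQ (nv P E F) ⬝ᵥ m₂) - (toQ (nv P F G) ⬝ᵥ m₂) * (toQ (nv P E F) ⬝ᵥ m₁)
  set D' := (toQ (nv P F' G) ⬝ᵥ m₁) * (toQ (nv P E F') ⬝ᵥ m₂) - (toQ (nv P F' G) ⬝ᵥ m₂) * (toQ (nv P E F') ⬝ᵥ m₁)
  by_cases hD : D = 0
  · rw [hD, mul_zero] at hr
    rw [hD, hr]
  · have h3 : ((r' : ℚ) * r - 1) * D = 0 := by
      have : D = r' * (r * D) := by rw [← hr]; exact hr'
      linarith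
    have h4 : ((r' * r : ℤ) : ℚ) = 1 := by
      have := (mul_eq_zero.1 h3).resolve_right hD
      push_cast
      linarith
    have h5 : r' * r = 1 := by exact_mod_cast h4
    have h6 : |(r : ℚ)| = 1 := by
      rcases Int.mul_eq_one_iff_eq_one_or_neg_one.1 h5 with h | h
      · rw [h.2]; norm_num
      · rw [h.2]; norm_num
    rw [hr, abs_mul, h6, one_mul]

end Pool.Agent.Helper40.CB
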