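import Pool.Agent.Helper40.CB.HypGeo
import Pool.Agent.Helper40.CB.CoreA2

set_option autoImplicit false

namespace Pool.Agent.Helper40.CB

open Finset Matrix Module

variable {d n k : ℕ}

theorem gd_singleton (hk : 2 ≤ k) (hkn : k + 2 ≤ n) (ρ : Fin n × Bool) : Gd n k {ρ} := by
  classical
  obtain ⟨x, s⟩ := ρ
  cases s with
  | true =>
    obtain ⟨A, hxA, -, hA⟩ := Finset.exists_subsuperset_card_eq (s := ({x} : Finset (Fin n)))
      (t := univ) (n := k) (Finset.subset_univ _) (by rw [Finset.card_singleton]; omega)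
      (by rw [Finset.card_univ, Fintype.card_fin]; omega)
    have hx : x ∈ A := hxA (Finset.mem_singleton_self _)
    obtain ⟨a, ha, hax⟩ := Finset.exists_mem_ne (by omega : 1 < A.card) x
    obtain ⟨c, hc⟩ : ∃ c, c ∉ A := by
      by_contra hcon
      push Not at hcon
      have : A = univ := Finset.eq_univ_iff_forall.2 hcon
      rw [this, Finset.card_univ, Fintype.card_fin] at hA
      omega
    refine ⟨A, a, c, hA, ha, hc, fun ρ hρ => ?_⟩
    rw [Finset.mem_singleton] at hρ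
    subst hρ
    exact ⟨mem_sgn_true.2 hx, fun h => hax (Prod.mk.inj h).1.symm, by simp⟩
  | false =>
    obtain ⟨B, hxB, -, hB⟩ := Finset.exists_subsuperset_card_eq (s := ({x} : Finset (Fin n)))
      (t := univ) (n := n - k) (Finset.subset_univ _) (by rw [Finset.card_singleton]; omega)
      (by rw [Finset.card_univ, Fintype.card_fin]; omega)
    have hx : x ∈ B := hxB (Finset.mem_singleton_self _)
    obtain ⟨c, hc, hcx⟩ := Finset.exists_mem_ne (by omega : 1 < B.card) x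
    have hA : (univ \ B).card = k := by
      rw [Finset.card_sdiff_of_subset (Finset.subset_univ _), Finset.card_univ, Fintype.card_fin]; omega
    obtain ⟨a, ha⟩ : (univ \ B).Nonempty := by rw [← Finset.card_pos]; omega
    refine ⟨univ \ B, a, c, hA, ha, by simp [hc], fun ρ hρ => ?_⟩
    rw [Finset.mem_singleton] at hρ
    subst hρ
    exact ⟨mem_sgn_false.2 (by simp [hx]), by simp, fun h => hcx (Prod.mk.inj h).1.symm⟩

namespace HypModel

variable {P : Set (Fin d → ℚ)} (M : HypModel n k P)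

/-- exposing functional of a facet -/
noncomputable def w (ρ : Fin n × Bool) : Fin d → ℚ :=
  open Classical in if h : ∃ u, Exposes P (M.face {ρ}) u then h.choose else 0

noncomputable def b (ρ : Fin n × Bool) : ℚ :=
  open Classical in if h : (M.face {ρ}).Nonempty then M.w ρ ⬝ᵥ h.choose else 0

variable {M}

theorem w_spec (hk : 2 ≤ k) (hkn : k + 2 ≤ n) (ρ : Fin n × Bool) : Exposes P (M.face {ρ}) (M.w ρ) := by
  have h0 := gd_singleton hk hkn ρ
  have h := exists_exposes (isFace_face (M := M) h0.ok) (face_ne h0.ok)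
  rw [w, dif_pos h]
  exact h.choose_spec

theorem p_mem_P {A : Finset (Fin n)} (hA : A.card = k) : M.p A ∈ P :=
  (M.isV A hA).subset (Set.mem_singleton _)

theorem b_spec (hk : 2 ≤ k) (hkn : k + 2 ≤ n) (ρ : Fin n × Bool) :
    ∀ x ∈ M.face {ρ}, M.w ρ ⬝ᵥ x = M.b ρ := by
  have h0 := gd_singleton hk hkn ρ
  have h := face_ne (M := M) h0.ok
  rw [b, dif_pos h]
  have h1 := (w_spec (M := M) hk hkn ρ).1
  have hF := isFace_face (M := M) h0.ok
  intro x hx
  exact le_antisymm (h1 _ h.choose_spec x (hF.subset hx)) (h1 x hx _ (hF.subset h.choose_spec))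

theorem w_le (hk : 2 ≤ k) (hkn : k + 2 ≤ n) (ρ : Fin n × Bool) {x : Fin d → ℚ} (hx : x ∈ P) :
    M.w ρ ⬝ᵥ x ≤ M.b ρ := by
  have h0 := gd_singleton hk hkn ρ
  obtain ⟨y, hy⟩ := face_ne (M := M) h0.ok
  rw [← b_spec (M := M) hk hkn ρ y hy]
  exact (w_spec (M := M) hk hkn ρ).1 y hy x hx

theorem w_lt (hk : 2 ≤ k) (hkn : k + 2 ≤ n) (ρ : Fin n × Bool) {x : Fin d → ℚ} (hx : x ∈ P)
    (hxF : x ∉ M.face {ρ}) : M.w ρ ⬝ᵥ x < M.b ρ := by
  have h0 := gd_singleton hk hkn ρ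
  obtain ⟨y, hy⟩ := face_ne (M := M) h0.ok
  rw [← b_spec (M := M) hk hkn ρ y hy]
  exact (w_spec (M := M) hk hkn ρ).2 y hy x hx hxF

theorem w_eq_iff (hk : 2 ≤ k) (hkn : k + 2 ≤ n) (ρ : Fin n × Bool) {A : Finset (Fin n)}
    (hA : A.card = k) : M.w ρ ⬝ᵥ M.p A = M.b ρ ↔ ρ ∈ sgn A := by
  have h0 := gd_singleton hk hkn ρ
  have h1 := p_mem_face (M := M) h0.ok hA
  rw [Finset.singleton_subset_iff] at h1
  rw [← h1]
  constructor
  · intro h
    by_contra hcon
    exact absurd h (ne_of_lt (w_lt hk hkn ρ (p_mem_P hA) hcon))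
  · exact b_spec hk hkn ρ _

variable (M)

/-- the configuration of a realization -/
noncomputable def cfg (hn : n = d + 1) (hk : 2 ≤ k) (hkn : 2 * k ≤ n) : Cfg n k d where
  w := M.w
  b := M.b
  p := M.p
  hn := hn
  hk := hk
  hkn := hkn
  le := fun A hA ρ => w_le hk (by omega) ρ (p_mem_P hA)
  eq_iff := fun A hA ρ => w_eq_iff hk (by omega) ρ hA

variable {M}

/-- the direction space of a face -/
theorem mem_vs_face (hn : n = d + 1) (hk : 2 ≤ k) (hkn : k + 2 ≤ n) {G : Finset (Fin n × Bool)}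
    (hG : Gd n k G) (m : Fin d → ℚ) : m ∈ vs (M.face G) ↔ ∀ ρ ∈ G, M.w ρ ⬝ᵥ m = 0 := by
  induction G using Finset.induction_on with
  | empty =>
    simp only [Finset.notMem_empty, false_imp_iff, implies_true, iff_true]
    have h1 := fdim (M := M) hn hG
    rw [Finset.card_empty, add_zero] at h1
    have h2 : vs (M.face ∅) = ⊤ := Submodule.eq_top_of_finrank_eq (by rw [h1, Module.finrank_fin_fun])
    rw [h2]
    exact Submodule.mem_top
  | insert ρ G hρ ih =>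
    have hG' := Gd.down (Finset.subset_insert ρ G) hG
    have hc := face_cov (M := M) hn hρ hG
    have hw : ∀ m ∈ vs (M.face (insert ρ G)), M.w ρ ⬝ᵥ m = 0 := by
      intro m hm
      apply normalCone_perp (isFace_face (gd_singleton hk hkn ρ).ok) (w_spec hk hkn ρ).1
      apply vs_mono _ hm
      exact face_anti (by simp) hG.ok
    constructor
    · intro hm σ hσ
      rcases Finset.mem_insert.1 hσ with rfl | hσ
      · exact hw m hm
      · exact (ih hG').1 (vs_mono hc.sub hm) σ hσ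
    · intro hm
      have h1 : m ∈ vs (M.face G) := (ih hG').2 fun σ hσ => hm σ (Finset.mem_insert_of_mem hσ)
      obtain ⟨B, hB, h2, h3⟩ := exists_out hρ hG
      obtain ⟨A, hA, h4⟩ := hG.ok
      have hpB : M.p B ∈ M.face G := (p_mem_face hG'.ok hB).2 h2
      have hpA : M.p A ∈ M.face G := (p_mem_face hG'.ok hA).2 ((Finset.subset_insert _ _).trans h4)
      have h5 : M.w ρ ⬝ᵥ (M.p B - M.p A) ≠ 0 := by
        rw [dotProduct_sub, (w_eq_iff hk hkn ρ hA).2 (h4 (Finset.mem_insert_self _ _))]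
        have h6 := w_le (M := M) hk hkn ρ (p_mem_P (M := M) hB)
        have h7 : M.w ρ ⬝ᵥ M.p B ≠ M.b ρ := fun h => h3 ((w_eq_iff hk hkn ρ hB).1 h)
        exact sub_ne_zero.2 h7
      obtain ⟨f, hf, c, hc'⟩ := hc.decomp (sub_mem_vs hpB hpA) (fun h => h5 (hw _ h)) h1
      have h8 := hm ρ (Finset.mem_insert_self _ _)
      rw [hc', dotProduct_add, hw f hf, zero_add, dotProduct_smul, smul_eq_mul] at h8
      have h9 := (mul_eq_zero.1 h8).resolve_right h5
      rw [hc', h9, zero_smul, add_zero]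
      exact hf

/-- the normal vector of a facet of a face is a positive multiple of `w ρ` -/
theorem exists_h (hn : n = d + 1) (hk : 2 ≤ k) (hkn : k + 2 ≤ n) {G : Finset (Fin n × Bool)}
    {ρ : Fin n × Bool} (hρ : ρ ∉ G) (hG : Gd n k (insert ρ G)) : ∃ h : ℚ, 0 < h ∧
      ∀ m ∈ vs (M.face G), toQ (nv P (M.face (insert ρ G)) (M.face G)) ⬝ᵥ m = h * (M.w ρ ⬝ᵥ m) := by
  have hG' := Gd.down (Finset.subset_insert ρ G) hG
  have hc := face_cov (M := M) hn hρ hG
  obtain ⟨B, hB, h2, h3⟩ := exists_out hρ hG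
  obtain ⟨A, hA, h4⟩ := hG.ok
  have hpB : M.p B ∈ M.face G := (p_mem_face hG'.ok hB).2 h2
  have hpA' : M.p A ∈ M.face (insert ρ G) := (p_mem_face hG.ok hA).2 h4
  have hpA : M.p A ∈ M.face G := hc.sub hpA'
  have hpB' : M.p B ∉ M.face (insert ρ G) := fun h => h3 ((p_mem_face hG.ok hB).1 h (Finset.mem_insert_self _ _))
  have hw : ∀ m ∈ vs (M.face (insert ρ G)), M.w ρ ⬝ᵥ m = 0 := fun m hm =>
    (mem_vs_face hn hk hkn hG m).1 hm ρ (Finset.mem_insert_self _ _)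
  have h5 : M.w ρ ⬝ᵥ (M.p B - M.p A) < 0 := by
    rw [dotProduct_sub, (w_eq_iff hk hkn ρ hA).2 (h4 (Finset.mem_insert_self _ _))]
    have h6 := w_le (M := M) hk hkn ρ (p_mem_P (M := M) hB)
    have h7 : M.w ρ ⬝ᵥ M.p B ≠ M.b ρ := fun h => h3 ((w_eq_iff hk hkn ρ hB).1 h)
    exact sub_neg.2 (lt_of_le_of_ne h6 h7)
  have h6 := hc.gen_neg hc.nv_spec hpA' hpB hpB'
  refine ⟨(toQ (nv P (M.face (insert ρ G)) (M.face G)) ⬝ᵥ (M.p B - M.p A)) /
    (M.w ρ ⬝ᵥ (M.p B - M.p A)), div_pos_of_neg_of_neg h6 h5, fun m hm => ?_⟩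
  obtain ⟨f, hf, c, hc'⟩ := hc.decomp (sub_mem_vs hpB hpA) (fun h => (ne_of_lt h5) (hw _ h)) hm
  have h7 := normalCone_perp hc.hF ((hc.gen_iff _).1 hc.nv_spec).1 hf
  rw [hc', dotProduct_add, dotProduct_add, hw f hf, h7, zero_add, zero_add, dotProduct_smul,
    dotProduct_smul, smul_eq_mul, smul_eq_mul]
  have h8 := ne_of_lt h5
  generalize M.w ρ ⬝ᵥ (M.p B - M.p A) = X at h8 ⊢
  field_simp

variable (M)

noncomputable def hh (G : Finset (Fin n × Bool)) (ρ : Fin n × Bool) : ℚ :=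
  open Classical in if h : ∃ h : ℚ, 0 < h ∧
      ∀ m ∈ vs (M.face G), toQ (nv P (M.face (insert ρ G)) (M.face G)) ⬝ᵥ m = h * (M.w ρ ⬝ᵥ m)
    then h.choose else 1

variable {M}

theorem hh_pos (G : Finset (Fin n × Bool)) (ρ : Fin n × Bool) : 0 < M.hh G ρ := by
  rw [hh]
  split_ifs with h
  · exact h.choose_spec.1
  · exact one_pos

theorem hh_spec (hn : n = d + 1) (hk : 2 ≤ k) (hkn : k + 2 ≤ n) {G : Finset (Fin n × Bool)}
    {ρ : Fin n × Bool} (hρ : ρ ∉ G) (hG : Gd n k (insert ρ G)) {m : Fin d → ℚ}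
    (hm : m ∈ vs (M.face G)) :
    toQ (nv P (M.face (insert ρ G)) (M.face G)) ⬝ᵥ m = M.hh G ρ * (M.w ρ ⬝ᵥ m) := by
  have h := exists_h (M := M) hn hk hkn hρ hG
  rw [hh, dif_pos h]
  exact h.choose_spec.2 m hm

/-- a direction of the face `G` on which `w ρ` does not vanish -/
theorem exists_dir (hk : 2 ≤ k) (hkn : k + 2 ≤ n) {G : Finset (Fin n × Bool)}
    {ρ : Fin n × Bool} (hρ : ρ ∉ G) (hG : Gd n k (insert ρ G)) :
    ∃ m ∈ vs (M.face G), M.w ρ ⬝ᵥ m ≠ 0 := by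
  have hG' := Gd.down (Finset.subset_insert ρ G) hG
  obtain ⟨B, hB, h2, h3⟩ := exists_out hρ hG
  obtain ⟨A, hA, h4⟩ := hG.ok
  have hpB : M.p B ∈ M.face G := (p_mem_face hG'.ok hB).2 h2
  have hpA : M.p A ∈ M.face G := (p_mem_face hG'.ok hA).2 ((Finset.subset_insert _ _).trans h4)
  refine ⟨_, sub_mem_vs hpB hpA, ?_⟩
  rw [dotProduct_sub, (w_eq_iff hk hkn ρ hA).2 (h4 (Finset.mem_insert_self _ _))]
  have h7 : M.w ρ ⬝ᵥ M.p B ≠ M.b ρ := fun h => h3 ((w_eq_iff hk hkn ρ hB).1 h)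
  exact sub_ne_zero.2 h7

theorem hh_diamond (hn : n = d + 1) (hk : 2 ≤ k) (hkn : k + 2 ≤ n) (G : Finset (Fin n × Bool))
    (ρ σ : Fin n × Bool) (hρ : ρ ∉ G) (hσ : σ ∉ G) (hne : ρ ≠ σ)
    (hG : Gd n k (insert ρ (insert σ G))) :
    M.hh G ρ * M.hh (insert ρ G) σ = M.hh G σ * M.hh (insert σ G) ρ := by
  have hcomm : insert ρ (insert σ G) = insert σ (insert ρ G) := Finset.insert_comm _ _ _
  have hG2 : Gd n k (insert σ (insert ρ G)) := by rw [← hcomm]; exact hG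
  have hGρ : Gd n k (insert ρ G) := Gd.down (Finset.subset_insert _ _) hG2
  have hGσ : Gd n k (insert σ G) := Gd.down (Finset.subset_insert _ _) hG
  have hρ' : ρ ∉ insert σ G := by
    rw [Finset.mem_insert]; rintro (h | h)
    · exact hne h
    · exact hρ h
  have hσ' : σ ∉ insert ρ G := by
    rw [Finset.mem_insert]; rintro (h | h)
    · exact hne h.symm
    · exact hσ h
  have c1 := face_cov (M := M) hn hρ' hG     -- insert ρ (insert σ G) in insert σ G
  have c2 := face_cov (M := M) hn hσ hGσ      -- insert σ G in G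
  have c1' := face_cov (M := M) hn hσ' hG2
  have c2' := face_cov (M := M) hn hρ hGρ
  rw [← hcomm] at c1'
  -- `m₁` : in `vs (face (σ G))`, `w ρ ≠ 0` ; `m₂` : in `vs (face (ρ G))`, `w σ ≠ 0`
  obtain ⟨m₁, hm₁, hw₁⟩ := exists_dir (M := M) hk hkn hρ' hG
  obtain ⟨m₂, hm₂, hw₂⟩ := exists_dir (M := M) hk hkn hσ' hG2
  have hD := diamond c1 c2 c1' c2' (vs_mono c2.sub hm₁) (vs_mono c2'.sub hm₂)
  have z1 : M.w σ ⬝ᵥ m₁ = 0 := (mem_vs_face hn hk hkn hGσ m₁).1 hm₁ σ (Finset.mem_insert_self _ _)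
  have z2 : M.w ρ ⬝ᵥ m₂ = 0 := (mem_vs_face hn hk hkn hGρ m₂).1 hm₂ ρ (Finset.mem_insert_self _ _)
  have e1 := hh_spec (M := M) hn hk hkn hσ hGσ (vs_mono c2.sub hm₁)
  have e2 := hh_spec (M := M) hn hk hkn hσ hGσ (vs_mono c2'.sub hm₂)
  have e3 := hh_spec (M := M) hn hk hkn hρ hGρ (vs_mono c2.sub hm₁)
  have e4 := hh_spec (M := M) hn hk hkn hρ hGρ (vs_mono c2'.sub hm₂)
  have e5 := hh_spec (M := M) hn hk hkn hρ' hG hm₁
  have e6 := hh_spec (M := M) hn hk hkn hσ' hG2 hm₂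
  rw [← hcomm] at e6
  rw [z1, mul_zero] at e1
  rw [z2, mul_zero] at e4
  rw [e1, e2, e3, e4, e5, e6, zero_mul, zero_mul, zero_sub, sub_zero, abs_neg] at hD
  have h1 := hh_pos (M := M) G ρ
  have h2 := hh_pos (M := M) G σ
  have h3 := hh_pos (M := M) (insert ρ G) σ
  have h4 := hh_pos (M := M) (insert σ G) ρ
  rw [abs_mul, abs_mul, abs_mul, abs_mul, abs_mul, abs_mul, abs_of_pos h1, abs_of_pos h2,
    abs_of_pos h3, abs_of_pos h4] at hD
  have h5 : 0 < |M.w ρ ⬝ᵥ m₁| * |M.w σ ⬝ᵥ m₂| := mul_pos (abs_pos.2 hw₁) (abs_pos.2 hw₂)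
  have h6 : (M.hh G ρ * M.hh (insert ρ G) σ - M.hh G σ * M.hh (insert σ G) ρ) *
      (|M.w ρ ⬝ᵥ m₁| * |M.w σ ⬝ᵥ m₂|) = 0 := by
    linear_combination (-1) * hD
  exact sub_eq_zero.1 ((mul_eq_zero.1 h6).resolve_right h5.ne')

end HypModel

end Pool.Agent.Helper40.CB
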