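import Pool.Agent.Helper40.CB.Models

set_option autoImplicit false

namespace Pool.Agent.Helper40.CB

open Finset Matrix Module

variable {d n k : ℕ}

/-- signed sets of faces which are not vertices -/
def Gd (n k : ℕ) (G : Finset (Fin n × Bool)) : Prop :=
  ∃ (A : Finset (Fin n)) (a c : Fin n), A.card = k ∧ a ∈ A ∧ c ∉ A ∧
    ∀ ρ ∈ G, ρ ∈ sgn A ∧ ρ ≠ (a, true) ∧ ρ ≠ (c, false)

theorem Gd.down {G G' : Finset (Fin n × Bool)} (h : G ⊆ G') (hG : Gd n k G') : Gd n k G := by
  obtain ⟨A, a, c, h1, h2, h3, h4⟩ := hG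
  exact ⟨A, a, c, h1, h2, h3, fun ρ hρ => h4 ρ (h hρ)⟩

theorem Gd.ok {G : Finset (Fin n × Bool)} (hG : Gd n k G) :
    ∃ A : Finset (Fin n), A.card = k ∧ G ⊆ sgn A := by
  obtain ⟨A, a, c, h1, h2, h3, h4⟩ := hG
  exact ⟨A, h1, fun ρ hρ => (h4 ρ hρ).1⟩

theorem card_exch {A : Finset (Fin n)} {a c : Fin n} (ha : a ∈ A) (hc : c ∉ A) :
    (insert c (A.erase a)).card = A.card := by
  rw [Finset.card_insert_of_notMem (fun h => hc (Finset.mem_of_mem_erase h)),
    Finset.card_erase_add_one ha]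

/-- a vertex of the face `G` outside the facet `ρ` -/
theorem exists_out {G : Finset (Fin n × Bool)} {ρ : Fin n × Bool} (hρ : ρ ∉ G)
    (h : Gd n k (insert ρ G)) : ∃ B : Finset (Fin n), B.card = k ∧ G ⊆ sgn B ∧ ρ ∉ sgn B := by
  classical
  obtain ⟨A, a, c, hA, ha, hc, h4⟩ := h
  obtain ⟨hρA, hρa, hρc⟩ := h4 ρ (Finset.mem_insert_self _ _)
  obtain ⟨x, s⟩ := ρ
  cases s with
  | true =>
    have hx : x ∈ A := mem_sgn_true.1 hρA
    have hxa : x ≠ a := fun h => hρa (by rw [h])
    refine ⟨insert c (A.erase x), by rw [card_exch hx hc, hA], ?_, ?_⟩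
    · rintro ⟨y, t⟩ hy
      obtain ⟨h1, h2, h3⟩ := h4 _ (Finset.mem_insert_of_mem hy)
      cases t with
      | true =>
        rw [mem_sgn_true] at h1 ⊢
        refine Finset.mem_insert_of_mem (Finset.mem_erase.2 ⟨?_, h1⟩)
        rintro rfl; exact hρ hy
      | false =>
        rw [mem_sgn_false] at h1 ⊢
        intro h
        rcases Finset.mem_insert.1 h with rfl | h
        · exact h3 rfl
        · exact h1 (Finset.mem_of_mem_erase h)
    · rw [mem_sgn_true]
      intro h
      rcases Finset.mem_insert.1 h with rfl | h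
      · exact hc hx
      · exact absurd h (Finset.notMem_erase _ _)
  | false =>
    have hx : x ∉ A := mem_sgn_false.1 hρA
    have hxc : x ≠ c := fun h => hρc (by rw [h])
    refine ⟨insert x (A.erase a), by rw [card_exch ha hx, hA], ?_, ?_⟩
    · rintro ⟨y, t⟩ hy
      obtain ⟨h1, h2, h3⟩ := h4 _ (Finset.mem_insert_of_mem hy)
      cases t with
      | true =>
        rw [mem_sgn_true] at h1 ⊢
        refine Finset.mem_insert_of_mem (Finset.mem_erase.2 ⟨?_, h1⟩)
        rintro rfl; exact h2 rfl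
      | false =>
        rw [mem_sgn_false] at h1 ⊢
        intro h
        rcases Finset.mem_insert.1 h with rfl | h
        · exact hρ hy
        · exact h1 (Finset.mem_of_mem_erase h)
    · rw [mem_sgn_false, not_not]
      exact Finset.mem_insert_self _ _

/-- a set of facets contained in two different signed sets -/
theorem Gd.of_two {G : Finset (Fin n × Bool)} {A B : Finset (Fin n)} (hA : A.card = k)
    (hB : B.card = k) (hne : A ≠ B) (h1 : G ⊆ sgn A) (h2 : G ⊆ sgn B) : Gd n k G := by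
  obtain ⟨a, ha, haB⟩ : ∃ a ∈ A, a ∉ B := by
    by_contra hcon
    push Not at hcon
    exact hne (Finset.eq_of_subset_of_card_le hcon (by rw [hA, hB]))
  obtain ⟨c, hc, hcA⟩ : ∃ c ∈ B, c ∉ A := by
    by_contra hcon
    push Not at hcon
    exact hne (Finset.eq_of_subset_of_card_le hcon (by rw [hA, hB])).symm
  refine ⟨A, a, c, hA, ha, hcA, fun ρ hρ => ⟨h1 hρ, ?_, ?_⟩⟩
  · rintro rfl
    exact haB (mem_sgn_true.1 (h2 hρ))
  · rintro rfl
    exact mem_sgn_false.1 (h2 hρ) hc

theorem Gd.two {G : Finset (Fin n × Bool)} (h : Gd n k G) : ∃ A B : Finset (Fin n), A.card = k ∧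
    B.card = k ∧ A ≠ B ∧ G ⊆ sgn A ∧ G ⊆ sgn B := by
  classical
  obtain ⟨A, a, c, hA, ha, hc, h4⟩ := h
  refine ⟨A, insert c (A.erase a), hA, by rw [card_exch ha hc, hA], ?_, fun ρ hρ => (h4 ρ hρ).1, ?_⟩
  · intro h
    rw [h] at hc
    exact hc (Finset.mem_insert_self _ _)
  · rintro ⟨y, t⟩ hy
    obtain ⟨h1, h2, h3⟩ := h4 _ hy
    cases t with
    | true =>
      rw [mem_sgn_true] at h1 ⊢
      refine Finset.mem_insert_of_mem (Finset.mem_erase.2 ⟨?_, h1⟩)
      rintro rfl; exact h2 rfl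
    | false =>
      rw [mem_sgn_false] at h1 ⊢
      intro h
      rcases Finset.mem_insert.1 h with rfl | h
      · exact h3 rfl
      · exact h1 (Finset.mem_of_mem_erase h)

namespace HypModel

variable {P : Set (Fin d → ℚ)} (M : HypModel n k P)

/-- the face of a signed set -/
noncomputable def face (G : Finset (Fin n × Bool)) : Set (Fin d → ℚ) :=
  open Classical in if h : ∃ A : Finset (Fin n), A.card = k ∧ G ⊆ sgn A then
    (M.of_face G h).choose else ∅

variable {M}

theorem isFace_face {G : Finset (Fin n × Bool)} (h : ∃ A : Finset (Fin n), A.card = k ∧ G ⊆ sgn A) :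
    IsFace P (M.face G) := by
  rw [face, dif_pos h]
  exact (M.of_face G h).choose_spec.1

theorem p_mem_face {G : Finset (Fin n × Bool)} (h : ∃ A : Finset (Fin n), A.card = k ∧ G ⊆ sgn A)
    {A : Finset (Fin n)} (hA : A.card = k) : M.p A ∈ M.face G ↔ G ⊆ sgn A := by
  rw [face, dif_pos h]
  exact (M.of_face G h).choose_spec.2 A hA

theorem face_sub {F F' : Set (Fin d → ℚ)} (hF : IsFace P F) (hF' : IsFace P F')
    (h : ∀ A : Finset (Fin n), A.card = k → M.p A ∈ F → M.p A ∈ F') : F ⊆ F' := by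
  apply face_subset M.hP hF hF'
  intro x hx hxv
  obtain ⟨A, hA, rfl⟩ := M.allV x hxv
  exact h A hA hx

theorem face_anti {G G' : Finset (Fin n × Bool)} (h : G ⊆ G')
    (hG' : ∃ A : Finset (Fin n), A.card = k ∧ G' ⊆ sgn A) : M.face G' ⊆ M.face G := by
  have hG : ∃ A : Finset (Fin n), A.card = k ∧ G ⊆ sgn A := by
    obtain ⟨A, h1, h2⟩ := hG'
    exact ⟨A, h1, h.trans h2⟩
  apply face_sub (isFace_face hG') (isFace_face hG)
  intro A hA hpA
  rw [p_mem_face hG hA]
  exact h.trans ((p_mem_face hG' hA).1 hpA)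

theorem face_ne {G : Finset (Fin n × Bool)} (hG : ∃ A : Finset (Fin n), A.card = k ∧ G ⊆ sgn A) :
    (M.face G).Nonempty := by
  obtain ⟨A, hA, h⟩ := hG
  exact ⟨M.p A, (p_mem_face ⟨A, hA, h⟩ hA).2 h⟩

theorem eq_face {F : Set (Fin d → ℚ)} (hF : IsFace P F) (hne : F.Nonempty) :
    ∃ G : Finset (Fin n × Bool), (∃ A : Finset (Fin n), A.card = k ∧ G ⊆ sgn A) ∧ F = M.face G := by
  obtain ⟨G, hG, h⟩ := M.face_of F hF hne
  refine ⟨G, hG, Set.Subset.antisymm ?_ ?_⟩
  · exact face_sub hF (isFace_face hG) fun A hA hp => (p_mem_face hG hA).2 ((h A hA).1 hp)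
  · exact face_sub (isFace_face hG) hF fun A hA hp => (h A hA).2 ((p_mem_face hG hA).1 hp)

theorem face_inj {G G' : Finset (Fin n × Bool)} (hG : Gd n k G) (hG' : Gd n k G')
    (h : M.face G' ⊆ M.face G) : G ⊆ G' := by
  obtain ⟨A, a, c, hA, ha, hc, h4⟩ := hG'
  have hok : ∃ A : Finset (Fin n), A.card = k ∧ G' ⊆ sgn A := ⟨A, hA, fun ρ hρ => (h4 ρ hρ).1⟩
  intro ρ hρ
  by_contra hcon
  -- if `insert ρ G'` is still good use `exists_out`; otherwise `ρ` is one of the two special signs or outside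
  by_cases h5 : ρ ∈ sgn A ∧ ρ ≠ (a, true) ∧ ρ ≠ (c, false)
  · obtain ⟨B, hB, h6, h7⟩ := exists_out hcon (k := k) ⟨A, a, c, hA, ha, hc, by
      intro σ hσ
      rcases Finset.mem_insert.1 hσ with rfl | hσ
      · exact h5
      · exact h4 σ hσ⟩
    have h8 := h ((p_mem_face hok hB).2 h6)
    rw [p_mem_face hG.ok hB] at h8
    exact h7 (h8 hρ)
  · by_cases h6 : ρ ∈ sgn A
    · -- the other vertex of the edge
      obtain ⟨x, s⟩ := ρ
      have h7 : (x, s) = (a, true) ∨ (x, s) = (c, false) := by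
        by_contra h8
        push Not at h8
        exact h5 ⟨h6, h8.1, h8.2⟩
      set B := insert c (A.erase a) with hBdef
      have hB : B.card = k := by rw [hBdef, card_exch ha hc, hA]
      have hB' : G' ⊆ sgn B := by
        rintro ⟨y, t⟩ hy
        obtain ⟨h1, h2, h3⟩ := h4 _ hy
        cases t with
        | true =>
          rw [mem_sgn_true] at h1 ⊢
          refine Finset.mem_insert_of_mem (Finset.mem_erase.2 ⟨?_, h1⟩)
          rintro rfl; exact h2 rfl
        | false =>
          rw [mem_sgn_false] at h1 ⊢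
          intro h
          rcases Finset.mem_insert.1 h with rfl | h
          · exact h3 rfl
          · exact h1 (Finset.mem_of_mem_erase h)
      have h8 := h ((p_mem_face hok hB).2 hB')
      rw [p_mem_face hG.ok hB] at h8
      have h9 := h8 hρ
      rcases h7 with h7 | h7
      · rw [h7, mem_sgn_true] at h9
        rcases Finset.mem_insert.1 h9 with h | h
        · exact hc (h ▸ ha)
        · exact absurd h (Finset.notMem_erase _ _)
      · rw [h7, mem_sgn_false] at h9
        exact h9 (Finset.mem_insert_self _ _)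
    · have h8 := h ((p_mem_face hok hA).2 (fun ρ hρ => (h4 ρ hρ).1))
      rw [p_mem_face hG.ok hA] at h8
      exact h6 (h8 hρ)

theorem fdim_step {G : Finset (Fin n × Bool)} {ρ : Fin n × Bool} (hρ : ρ ∉ G)
    (h : Gd n k (insert ρ G)) : finrank ℚ (vs (M.face (insert ρ G))) < finrank ℚ (vs (M.face G)) := by
  have hG : Gd n k G := Gd.down (Finset.subset_insert _ _) h
  apply fdim_lt (isFace_face h.ok) (isFace_face hG.ok) (face_ne h.ok)
    (face_anti (Finset.subset_insert _ _) h.ok)
  intro heq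
  obtain ⟨B, hB, h1, h2⟩ := exists_out hρ h
  have h3 := (p_mem_face (M := M) hG.ok hB).2 h1
  rw [← heq, p_mem_face h.ok hB] at h3
  exact h2 (h3 (Finset.mem_insert_self _ _))

theorem fdim_up {G : Finset (Fin n × Bool)} (hG : Gd n k G) :
    finrank ℚ (vs (M.face G)) + G.card ≤ d := by
  induction G using Finset.induction_on with
  | empty =>
    have h1 := Submodule.finrank_le (vs (M.face ∅))
    rw [Module.finrank_fin_fun] at h1
    simpa using h1
  | insert ρ G hρ ih =>
    have h1 := ih (Gd.down (Finset.subset_insert _ _) hG)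
    have h2 := fdim_step (M := M) hρ hG
    rw [Finset.card_insert_of_notMem hρ]
    omega

theorem fdim_low (hn : n = d + 1) {G : Finset (Fin n × Bool)} (hG : Gd n k G) :
    d ≤ finrank ℚ (vs (M.face G)) + G.card := by
  classical
  obtain ⟨A, a, c, hA, ha, hc, h4⟩ := hG
  set M0 := ((sgn A).erase (a, true)).erase (c, false) with hM0
  have hcard : M0.card + 1 = d := by
    have h1 : (a, true) ∈ sgn A := mem_sgn_true.2 ha
    have h2 : (c, false) ∈ (sgn A).erase (a, true) := by
      rw [Finset.mem_erase]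
      exact ⟨by simp, mem_sgn_false.2 hc⟩
    have h3 := Finset.card_erase_add_one h2
    have h5 := Finset.card_erase_add_one h1
    rw [card_sgn] at h5
    rw [hM0]
    omega
  have hgd : ∀ H ⊆ M0, Gd n k H := by
    intro H hH
    refine ⟨A, a, c, hA, ha, hc, fun ρ hρ => ?_⟩
    have := hH hρ
    rw [hM0, Finset.mem_erase, Finset.mem_erase] at this
    exact ⟨this.2.2, this.2.1, this.1⟩
  have key : ∀ N : ℕ, ∀ H ⊆ M0, (M0 \ H).card = N → d ≤ finrank ℚ (vs (M.face H)) + H.card := by
    intro N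
    induction N with
    | zero =>
      intro H hH hN
      have hEq : H = M0 := Finset.Subset.antisymm hH (Finset.sdiff_eq_empty_iff_subset.1 (Finset.card_eq_zero.1 hN))
      obtain ⟨A1, B1, hA1, hB1, hne, h1, h2⟩ := (hgd H hH).two
      have h3 : M.p A1 - M.p B1 ∈ vs (M.face H) :=
        sub_mem_vs ((p_mem_face (hgd H hH).ok hA1).2 h1) ((p_mem_face (hgd H hH).ok hB1).2 h2)
      have h4 : 0 < finrank ℚ (vs (M.face H)) := by
        rw [Nat.pos_iff_ne_zero]
        intro h0
        rw [Submodule.finrank_eq_zero] at h0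
        rw [h0, Submodule.mem_bot, sub_eq_zero] at h3
        exact hne (M.inj _ _ hA1 hB1 h3)
      rw [hEq] at h4 ⊢
      omega
    | succ N ih =>
      intro H hH hN
      obtain ⟨ρ, hρ⟩ : (M0 \ H).Nonempty := by
        rw [← Finset.card_pos]; omega
      obtain ⟨h1, h2⟩ := Finset.mem_sdiff.1 hρ
      have hsub : insert ρ H ⊆ M0 := Finset.insert_subset h1 hH
      have h3 := ih (insert ρ H) hsub (by
        rw [Finset.sdiff_insert, Finset.card_erase_of_mem hρ, hN]; rfl)
      have h4 := fdim_step (M := M) h2 (hgd _ hsub)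
      rw [Finset.card_insert_of_notMem h2] at h3
      omega
  exact key _ G (fun ρ hρ => by
    obtain ⟨h1, h2, h3⟩ := h4 ρ hρ
    rw [hM0, Finset.mem_erase, Finset.mem_erase]
    exact ⟨h3, h2, h1⟩) rfl

theorem fdim (hn : n = d + 1) {G : Finset (Fin n × Bool)} (hG : Gd n k G) :
    finrank ℚ (vs (M.face G)) + G.card = d :=
  le_antisymm (fdim_up hG) (fdim_low hn hG)

theorem face_cov (hn : n = d + 1) {G : Finset (Fin n × Bool)} {ρ : Fin n × Bool} (hρ : ρ ∉ G)
    (h : Gd n k (insert ρ G)) : Cov P (M.face (insert ρ G)) (M.face G) where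
  hP := M.hP
  hF := isFace_face h.ok
  hG := isFace_face (Gd.down (Finset.subset_insert _ _) h).ok
  ne := face_ne h.ok
  sub := face_anti (Finset.subset_insert _ _) h.ok
  dim := by
    have h1 := fdim (M := M) hn h
    have h2 := fdim (M := M) hn (Gd.down (Finset.subset_insert _ _) h)
    rw [Finset.card_insert_of_notMem hρ] at h1
    omega

end HypModel

end Pool.Agent.Helper40.CB
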