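import Pool.Agent.Helper40.CB.Shell3

set_option autoImplicit false

namespace Pool.Agent.Helper40.CB

open Finset Matrix Module

section Comb

variable {n : ℕ}

/-- the signed set of `A` -/
def sgn (A : Finset (Fin n)) : Finset (Fin n × Bool) :=
  univ.filter (fun ρ => (ρ.1 ∈ A ↔ ρ.2 = true))

theorem mem_sgn {A : Finset (Fin n)} {ρ : Fin n × Bool} : ρ ∈ sgn A ↔ (ρ.1 ∈ A ↔ ρ.2 = true) := by
  simp [sgn]

theorem mem_sgn_true {A : Finset (Fin n)} {i : Fin n} : (i, true) ∈ sgn A ↔ i ∈ A := by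
  simp [mem_sgn]

theorem mem_sgn_false {A : Finset (Fin n)} {i : Fin n} : (i, false) ∈ sgn A ↔ i ∉ A := by
  simp [mem_sgn]

theorem card_sgn (A : Finset (Fin n)) : (sgn A).card = n := by
  have : sgn A = (univ : Finset (Fin n)).image (fun i => (i, decide (i ∈ A))) := by
    ext ⟨i, s⟩
    rw [mem_sgn]
    simp only [mem_image, mem_univ, true_and, Prod.mk.injEq]
    constructor
    · intro h
      refine ⟨i, rfl, ?_⟩
      cases s
      · simpa using h
      · simpa using h
    · rintro ⟨j, rfl, hs⟩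
      rw [← hs]; simp
  rw [this, Finset.card_image_of_injective, Finset.card_univ, Fintype.card_fin]
  intro i j h
  exact (Prod.mk.inj h).1

/-- index type of the facets -/
abbrev Pt (n k : ℕ) : Type := {q : Finset (Fin n) × Fin n // q.1.card = k ∧ q.2 ∈ q.1}

variable {k : ℕ}

def PhiOf (q : Pt n k) : Finset (Fin n × Bool) := (sgn q.1.1).erase (q.1.2, true)

def ROf (q : Pt n k) : Finset (Fin n × Bool) :=
  univ.filter (fun ρ => (ρ.2 = true ∧ ρ.1 ∈ q.1.1 ∧ q.1.2 < ρ.1) ∨
    (ρ.2 = false ∧ ρ.1 ∉ q.1.1 ∧ ρ.1 < q.1.2))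

theorem mem_PhiOf_true {q : Pt n k} {i : Fin n} : (i, true) ∈ PhiOf q ↔ i ∈ q.1.1 ∧ i ≠ q.1.2 := by
  simp [PhiOf, mem_sgn_true, and_comm]

theorem mem_PhiOf_false {q : Pt n k} {i : Fin n} : (i, false) ∈ PhiOf q ↔ i ∉ q.1.1 := by
  simp [PhiOf, mem_sgn_false]

theorem mem_ROf_true {q : Pt n k} {i : Fin n} : (i, true) ∈ ROf q ↔ i ∈ q.1.1 ∧ q.1.2 < i := by
  simp [ROf]

theorem mem_ROf_false {q : Pt n k} {i : Fin n} : (i, false) ∈ ROf q ↔ i ∉ q.1.1 ∧ i < q.1.2 := by
  simp [ROf]

theorem ROf_sub (q : Pt n k) : ROf q ⊆ PhiOf q := by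
  rintro ⟨i, s⟩ h
  cases s
  · rw [mem_ROf_false] at h; rw [mem_PhiOf_false]; exact h.1
  · rw [mem_ROf_true] at h; rw [mem_PhiOf_true]; exact ⟨h.1, ne_of_gt h.2⟩

theorem card_PhiOf (q : Pt n k) : (PhiOf q).card + 1 = n := by
  have h : (q.1.2, true) ∈ sgn q.1.1 := mem_sgn_true.2 q.2.2
  rw [PhiOf, Finset.card_erase_of_mem h, card_sgn]
  have : 0 < n := q.1.2.pos
  omega

/-- twice the coordinates of the vertex -/
def Xof (q : Pt n k) (b : Fin n) : ℤ := if b ∈ q.1.1 then (if b = q.1.2 then 1 else 2) else 0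

def htOf (q : Pt n k) : ℤ := ∑ b : Fin n, (b.val : ℤ) * Xof q b

theorem sum_Xof (q : Pt n k) : ∑ b : Fin n, Xof q b = 2 * k - 1 := by
  have h1 : ∀ b : Fin n, Xof q b = 2 * (if b ∈ q.1.1 then 1 else 0) - (if b = q.1.2 then 1 else 0) := by
    intro b
    unfold Xof
    by_cases h : b ∈ q.1.1
    · rw [if_pos h, if_pos h]; split_ifs <;> norm_num
    · rw [if_neg h, if_neg h]
      have : b ≠ q.1.2 := by rintro rfl; exact h q.2.2
      rw [if_neg this]; norm_num
  simp only [h1, Finset.sum_sub_distrib, ← Finset.mul_sum]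
  simp [q.2.1]

theorem Xof_ext {q q' : Pt n k} (h : ∀ b, Xof q b = Xof q' b) : q = q' := by
  have hA : q.1.1 = q'.1.1 := by
    ext b
    have := h b
    unfold Xof at this
    constructor
    · intro hb
      by_contra hb'
      rw [if_pos hb, if_neg hb'] at this
      split_ifs at this <;> norm_num at this
    · intro hb'
      by_contra hb
      rw [if_neg hb, if_pos hb'] at this
      split_ifs at this <;> norm_num at this
  have ha : q.1.2 = q'.1.2 := by
    have := h q.1.2
    unfold Xof at this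
    rw [if_pos q.2.2, if_pos rfl, if_pos (by rw [← hA]; exact q.2.2)] at this
    by_contra hne
    rw [if_neg hne] at this
    norm_num at this
  exact Subtype.ext (Prod.ext hA ha)

theorem ht_mono (q q' : Pt n k) (h : ROf q ⊆ PhiOf q') (hne : q ≠ q') : htOf q < htOf q' := by
  have hterm : ∀ b : Fin n, 0 ≤ ((b.val : ℤ) - q.1.2.val) * (Xof q' b - Xof q b) := by
    intro b
    rcases lt_trichotomy b q.1.2 with hb | hb | hb
    · have h1 : (b.val : ℤ) - q.1.2.val < 0 := by
        have : b.val < q.1.2.val := hb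
        omega
      apply mul_nonneg_of_nonpos_of_nonpos h1.le
      by_cases hbA : b ∈ q.1.1
      · have : Xof q b = 2 := by
          unfold Xof; rw [if_pos hbA, if_neg (ne_of_lt hb)]
        rw [this]
        unfold Xof; split_ifs <;> norm_num
      · have h2 : (b, false) ∈ PhiOf q' := h (mem_ROf_false.2 ⟨hbA, hb⟩)
        rw [mem_PhiOf_false] at h2
        have : Xof q' b = 0 := by unfold Xof; rw [if_neg h2]
        rw [this]
        have : Xof q b = 0 := by unfold Xof; rw [if_neg hbA]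
        rw [this]; norm_num
    · rw [hb]; simp
    · have h1 : 0 < (b.val : ℤ) - q.1.2.val := by
        have : q.1.2.val < b.val := hb
        omega
      apply mul_nonneg h1.le
      by_cases hbA : b ∈ q.1.1
      · have h2 : (b, true) ∈ PhiOf q' := h (mem_ROf_true.2 ⟨hbA, hb⟩)
        rw [mem_PhiOf_true] at h2
        have h3 : Xof q' b = 2 := by unfold Xof; rw [if_pos h2.1, if_neg h2.2]
        have h4 : Xof q b = 2 := by unfold Xof; rw [if_pos hbA, if_neg (ne_of_gt hb)]
        rw [h3, h4]; norm_num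
      · have h4 : Xof q b = 0 := by unfold Xof; rw [if_neg hbA]
        rw [h4]
        unfold Xof; split_ifs <;> norm_num
  have hdiff : htOf q' - htOf q = ∑ b : Fin n, ((b.val : ℤ) - q.1.2.val) * (Xof q' b - Xof q b) := by
    have h1 : ∑ b : Fin n, ((b.val : ℤ) - q.1.2.val) * (Xof q' b - Xof q b) =
        (∑ b : Fin n, (b.val : ℤ) * Xof q' b) - (∑ b : Fin n, (b.val : ℤ) * Xof q b)
          - q.1.2.val * ((∑ b : Fin n, Xof q' b) - ∑ b : Fin n, Xof q b) := by
      rw [mul_sub, Finset.mul_sum, Finset.mul_sum, ← Finset.sum_sub_distrib, ← Finset.sum_sub_distrib,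
        ← Finset.sum_sub_distrib]
      exact Finset.sum_congr rfl fun b _ => by ring
    rw [h1, sum_Xof, sum_Xof, sub_self, mul_zero, sub_zero]
    rfl
  have hge : 0 ≤ htOf q' - htOf q := by rw [hdiff]; exact Finset.sum_nonneg fun b _ => hterm b
  rcases hge.lt_or_eq with hlt | heq
  · linarith
  · exfalso
    apply hne
    rw [hdiff] at heq
    have hz := (Finset.sum_eq_zero_iff_of_nonneg (fun b _ => hterm b)).1 heq.symm
    have hoff : ∀ b, b ≠ q.1.2 → Xof q b = Xof q' b := by
      intro b hb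
      have h1 := hz b (Finset.mem_univ _)
      rcases mul_eq_zero.1 h1 with h2 | h2
      · exfalso
        apply hb
        apply Fin.ext
        omega
      · omega
    apply Xof_ext
    intro b
    by_cases hb : b = q.1.2
    · subst hb
      have h1 := sum_Xof q
      have h2 := sum_Xof q'
      rw [← Finset.add_sum_erase _ _ (Finset.mem_univ q.1.2)] at h1 h2
      have h3 : ∑ b ∈ univ.erase q.1.2, Xof q b = ∑ b ∈ univ.erase q.1.2, Xof q' b :=
        Finset.sum_congr rfl fun b hb => hoff b (Finset.ne_of_mem_erase hb)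
      rw [h3] at h1
      linarith
    · exact hoff b hb

/-- swap inside `A` -/
def swapT (q : Pt n k) (b : Fin n) (hb : b ∈ q.1.1) : Pt n k := ⟨(q.1.1, b), q.2.1, hb⟩

/-- exchange `a` against `b` -/
def swapF (q : Pt n k) (b : Fin n) (hb : b ∉ q.1.1) : Pt n k :=
  ⟨(insert b (q.1.1.erase q.1.2), b), by
    have h1 : b ∉ q.1.1.erase q.1.2 := fun h => hb (Finset.mem_of_mem_erase h)
    have h2 := Finset.card_erase_of_mem q.2.2
    have h3 : 0 < q.1.1.card := Finset.card_pos.2 ⟨_, q.2.2⟩
    have h4 := q.2.1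
    refine ⟨?_, Finset.mem_insert_self _ _⟩
    show (insert b (q.1.1.erase q.1.2)).card = k
    rw [Finset.card_insert_of_notMem h1, h2]
    omega⟩

theorem ht_swapT (q : Pt n k) (b : Fin n) (hb : b ∈ q.1.1) (hlt : q.1.2 < b) :
    htOf (swapT q b hb) < htOf q := by
  have h1 : htOf (swapT q b hb) - htOf q = (q.1.2.val : ℤ) - b.val := by
    unfold htOf
    rw [← Finset.sum_sub_distrib]
    have : ∀ c : Fin n, (c.val : ℤ) * Xof (swapT q b hb) c - (c.val : ℤ) * Xof q c =
        (if c = q.1.2 then (c.val : ℤ) else 0) - (if c = b then (c.val : ℤ) else 0) := by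
      intro c
      have e1 : Xof (swapT q b hb) c = if c ∈ q.1.1 then (if c = b then 1 else 2) else 0 := rfl
      rw [e1]
      unfold Xof
      by_cases hc : c ∈ q.1.1
      · rw [if_pos hc, if_pos hc]
        by_cases h1 : c = b
        · have : c ≠ q.1.2 := by rw [h1]; exact ne_of_gt hlt
          rw [if_pos h1, if_neg this, if_neg this]; rw [if_pos h1]; ring
        · rw [if_neg h1]
          by_cases h2 : c = q.1.2
          · rw [if_pos h2, if_pos h2]; rw [if_neg h1]; ring
          · rw [if_neg h2, if_neg h2]; rw [if_neg h1]; ring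
      · rw [if_neg hc, if_neg hc]
        have h1 : c ≠ b := by rintro rfl; exact hc hb
        have h2 : c ≠ q.1.2 := by rintro rfl; exact hc q.2.2
        rw [if_neg h1, if_neg h2]; ring
    simp only [this, Finset.sum_sub_distrib]
    simp
  have : q.1.2.val < b.val := hlt
  have h2 : (q.1.2.val : ℤ) - b.val < 0 := by omega
  linarith

theorem ht_swapF (q : Pt n k) (b : Fin n) (hb : b ∉ q.1.1) (hlt : b < q.1.2) :
    htOf (swapF q b hb) < htOf q := by
  have h1 : htOf (swapF q b hb) - htOf q = (b.val : ℤ) - q.1.2.val := by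
    unfold htOf
    rw [← Finset.sum_sub_distrib]
    have : ∀ c : Fin n, (c.val : ℤ) * Xof (swapF q b hb) c - (c.val : ℤ) * Xof q c =
        (if c = b then (c.val : ℤ) else 0) - (if c = q.1.2 then (c.val : ℤ) else 0) := by
      intro c
      have e1 : Xof (swapF q b hb) c = if c ∈ insert b (q.1.1.erase q.1.2) then (if c = b then 1 else 2) else 0 := rfl
      rw [e1]
      unfold Xof
      by_cases h1 : c = b
      · have h2 : c ≠ q.1.2 := by rw [h1]; exact ne_of_lt hlt
        have h3 : c ∉ q.1.1 := by rw [h1]; exact hb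
        rw [if_pos (by rw [h1]; exact Finset.mem_insert_self _ _), if_pos h1, if_neg h3, if_neg h2]
        rw [if_pos h1]; ring
      · by_cases h2 : c = q.1.2
        · have h3 : c ∈ q.1.1 := by rw [h2]; exact q.2.2
          have h4 : c ∉ insert b (q.1.1.erase q.1.2) := by
            rw [Finset.mem_insert, Finset.mem_erase]
            rintro (h | h)
            · exact h1 h
            · exact h.1 h2
          rw [if_neg h4, if_pos h3, if_pos h2, if_neg h1]; rw [if_pos h2]; ring
        · by_cases hc : c ∈ q.1.1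
          · have h4 : c ∈ insert b (q.1.1.erase q.1.2) :=
              Finset.mem_insert_of_mem (Finset.mem_erase.2 ⟨h2, hc⟩)
            rw [if_pos h4, if_neg h1, if_pos hc, if_neg h2, if_neg h1]; rw [if_neg h2]; ring
          · have h4 : c ∉ insert b (q.1.1.erase q.1.2) := by
              rw [Finset.mem_insert, Finset.mem_erase]
              rintro (h | h)
              · exact h1 h
              · exact hc h.2
            rw [if_neg h4, if_neg hc, if_neg h1, if_neg h2]; ring
    simp only [this, Finset.sum_sub_distrib]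
    simp
  have : b.val < q.1.2.val := hlt
  have h2 : (b.val : ℤ) - q.1.2.val < 0 := by omega
  linarith

theorem PhiOf_swapT (q : Pt n k) (b : Fin n) (hb : b ∈ q.1.1) :
    (PhiOf q).erase (b, true) ⊆ PhiOf (swapT q b hb) := by
  rintro ⟨c, s⟩ h
  rw [Finset.mem_erase] at h
  cases s
  · rw [mem_PhiOf_false] at h ⊢; exact h.2
  · rw [mem_PhiOf_true] at h ⊢
    refine ⟨h.2.1, ?_⟩
    intro h'
    exact h.1 (by rw [h']; rfl)

theorem PhiOf_swapF (q : Pt n k) (b : Fin n) (hb : b ∉ q.1.1) :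
    (PhiOf q).erase (b, false) ⊆ PhiOf (swapF q b hb) := by
  rintro ⟨c, s⟩ h
  rw [Finset.mem_erase] at h
  cases s
  · rw [mem_PhiOf_false] at h ⊢
    show c ∉ insert b (q.1.1.erase q.1.2)
    rw [Finset.mem_insert, Finset.mem_erase]
    rintro (h' | h')
    · exact h.1 (by rw [h'])
    · exact h.2 h'.2
  · rw [mem_PhiOf_true] at h ⊢
    refine ⟨Finset.mem_insert_of_mem (Finset.mem_erase.2 ⟨h.2.2, h.2.1⟩), ?_⟩
    show c ≠ b
    rintro rfl
    exact hb h.2.1

theorem bot_exists (q : Pt n k) (G : Finset (Fin n × Bool)) (hG : G ⊆ PhiOf q) :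
    ∃ j : Pt n k, ROf j ⊆ G ∧ G ⊆ PhiOf j := by
  classical
  obtain ⟨j, hj, hmin⟩ := Finset.exists_min_image (univ.filter (fun j : Pt n k => G ⊆ PhiOf j)) htOf
    ⟨q, by simp [hG]⟩
  simp only [mem_filter, mem_univ, true_and] at hj hmin
  refine ⟨j, ?_, hj⟩
  rintro ⟨b, s⟩ hb
  by_contra hbG
  cases s
  · rw [mem_ROf_false] at hb
    have h1 := hmin (swapF j b hb.1) (fun x hx => PhiOf_swapF j b hb.1
      (Finset.mem_erase.2 ⟨by rintro rfl; exact hbG hx, hj hx⟩))
    exact absurd (ht_swapF j b hb.1 hb.2) (not_lt.2 h1)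
  · rw [mem_ROf_true] at hb
    have h1 := hmin (swapT j b hb.1) (fun x hx => PhiOf_swapT j b hb.1
      (Finset.mem_erase.2 ⟨by rintro rfl; exact hbG hx, hj hx⟩))
    exact absurd (ht_swapT j b hb.1 hb.2) (not_lt.2 h1)

/-- order reversal -/
def revPt (q : Pt n k) : Pt n k :=
  ⟨(q.1.1.map Fin.revPerm.toEmbedding, Fin.rev q.1.2), by
    refine ⟨by simpa using q.2.1, ?_⟩
    show Fin.rev q.1.2 ∈ q.1.1.map Fin.revPerm.toEmbedding
    rw [Finset.mem_map]
    exact ⟨q.1.2, q.2.2, rfl⟩⟩

theorem mem_revPt {q : Pt n k} {b : Fin n} : b ∈ (revPt q).1.1 ↔ Fin.rev b ∈ q.1.1 := by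
  show b ∈ q.1.1.map Fin.revPerm.toEmbedding ↔ _
  rw [Finset.mem_map]
  constructor
  · rintro ⟨c, hc, rfl⟩
    simpa using hc
  · intro h
    exact ⟨Fin.rev b, h, by simp⟩

theorem revPt_snd {q : Pt n k} : (revPt q).1.2 = Fin.rev q.1.2 := rfl

theorem revPt_revPt (q : Pt n k) : revPt (revPt q) = q := by
  apply Subtype.ext
  apply Prod.ext
  · ext b
    rw [mem_revPt, mem_revPt, Fin.rev_rev]
  · show Fin.rev (Fin.rev q.1.2) = q.1.2
    exact Fin.rev_rev _

theorem card_ROf_rev (q : Pt n k) : (ROf (revPt q)).card + (ROf q).card + 1 = n := by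
  classical
  -- the image of `ROf (revPt q)` under reversal is `PhiOf q \ ROf q`
  have h1 : (ROf (revPt q)).card = (PhiOf q \ ROf q).card := by
    apply Finset.card_bij (fun ρ _ => (Fin.rev ρ.1, ρ.2))
    · rintro ⟨i, s⟩ h
      cases s
      · rw [mem_ROf_false, mem_revPt, revPt_snd] at h
        rw [Finset.mem_sdiff, mem_PhiOf_false, mem_ROf_false]
        refine ⟨h.1, fun h' => ?_⟩
        have h2 : Fin.rev i < q.1.2 := h'.2
        have h3 : i < Fin.rev q.1.2 := h.2
        rw [Fin.lt_def] at h2 h3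
        rw [Fin.val_rev] at h2 h3
        omega
      · rw [mem_ROf_true, mem_revPt, revPt_snd] at h
        rw [Finset.mem_sdiff, mem_PhiOf_true, mem_ROf_true]
        have h3 : Fin.rev q.1.2 < i := h.2
        rw [Fin.lt_def, Fin.val_rev] at h3
        refine ⟨⟨h.1, ?_⟩, fun h' => ?_⟩
        · intro h'
          have : (Fin.rev i).val = q.1.2.val := by rw [h']
          rw [Fin.val_rev] at this
          omega
        · have h2 : q.1.2 < Fin.rev i := h'.2
          rw [Fin.lt_def, Fin.val_rev] at h2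
          omega
    · rintro ⟨i, s⟩ _ ⟨j, t⟩ _ h
      have h1 := (Prod.mk.inj h).1
      have h2 := (Prod.mk.inj h).2
      simp only at h1 h2
      rw [Fin.rev_inj] at h1
      rw [h1, h2]
    · rintro ⟨i, s⟩ h
      refine ⟨(Fin.rev i, s), ?_, by simp⟩
      rw [Finset.mem_sdiff] at h
      cases s
      · rw [mem_PhiOf_false, mem_ROf_false] at h
        rw [mem_ROf_false, mem_revPt, revPt_snd, Fin.rev_rev]
        refine ⟨h.1, ?_⟩
        have h2 : ¬ i < q.1.2 := fun h' => h.2 ⟨h.1, h'⟩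
        have h3 : i ≠ q.1.2 := by rintro rfl; exact h.1 q.2.2
        have h4 : q.1.2 < i := lt_of_le_of_ne (not_lt.1 h2) (Ne.symm h3)
        rw [Fin.lt_def] at h4 ⊢
        rw [Fin.val_rev, Fin.val_rev]
        omega
      · rw [mem_PhiOf_true, mem_ROf_true] at h
        rw [mem_ROf_true, mem_revPt, revPt_snd, Fin.rev_rev]
        refine ⟨h.1.1, ?_⟩
        have h2 : ¬ q.1.2 < i := fun h' => h.2 ⟨h.1.1, h'⟩
        have h4 : i < q.1.2 := lt_of_le_of_ne (not_lt.1 h2) h.1.2
        rw [Fin.lt_def] at h4 ⊢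
        rw [Fin.val_rev, Fin.val_rev]
        omega
  have h2 := Finset.card_sdiff_add_card_eq_card (ROf_sub q)
  have h3 := card_PhiOf q
  omega

end Comb

end Pool.Agent.Helper40.CB
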