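import Pool.Agent.Helper40.CB.PartA

set_option autoImplicit false

namespace Pool.Agent.Helper40.CB

open Finset Matrix Module

variable {d n k : ℕ}

/-- adjacency of `k`-sets, and cliques of size at most 2 -/
def EdgeK (n k : ℕ) (T : Finset {A : Finset (Fin n) // A.card = k}) : Prop :=
  T.card ≤ 2 ∧ ∀ A ∈ T, ∀ B ∈ T, A ≠ B → (A.1 ∩ B.1).card + 1 = k

def GT (T : Finset {A : Finset (Fin n) // A.card = k}) : Finset (Fin n × Bool) :=
  univ.filter (fun ρ => ∀ A ∈ T, ρ ∈ sgn A.1)

theorem mem_GT {T : Finset {A : Finset (Fin n) // A.card = k}} {ρ : Fin n × Bool} :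
    ρ ∈ GT T ↔ ∀ A ∈ T, ρ ∈ sgn A.1 := by simp [GT]

theorem GT_sub {T : Finset {A : Finset (Fin n) // A.card = k}}
    {A : {A : Finset (Fin n) // A.card = k}} (hA : A ∈ T) : GT T ⊆ sgn A.1 :=
  fun _ hρ => mem_GT.1 hρ A hA

theorem sgn_sub_iff {A B : Finset (Fin n)} (hA : A.card = k) (hB : B.card = k)
    (h : sgn A ⊆ sgn B) : A = B := by
  apply Finset.eq_of_subset_of_card_le
  · intro i hi
    exact mem_sgn_true.1 (h (mem_sgn_true.2 hi))
  · rw [hA, hB]

/-- vertices of the face `GT T` -/
theorem sub_GT {T : Finset {A : Finset (Fin n) // A.card = k}} (hT : EdgeK n k T) (hne : T.Nonempty)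
    {C : Finset (Fin n)} (hC : C.card = k) (h : GT T ⊆ sgn C) : (⟨C, hC⟩ : {A : Finset (Fin n) // A.card = k}) ∈ T := by
  classical
  obtain ⟨A, hA⟩ := hne
  by_contra hcon
  have hCA : C ≠ A.1 := by
    rintro rfl; exact hcon hA
  obtain ⟨c, hc, hcA⟩ : ∃ c ∈ C, c ∉ A.1 := by
    by_contra hcon
    push Not at hcon
    exact hCA (Finset.eq_of_subset_of_card_le hcon (by rw [A.2, hC]))
  -- `c` is in another member of `T`
  obtain ⟨B, hB, hcB⟩ : ∃ B ∈ T, c ∈ B.1 := by
    by_contra h2
    push Not at h2
    have : (c, false) ∈ GT T := mem_GT.2 fun B hB => mem_sgn_false.2 (h2 B hB)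
    exact mem_sgn_false.1 (h this) hc
  have hAB : A ≠ B := by rintro rfl; exact hcA hcB
  have h3 := hT.2 A hA B hB hAB
  have hTAB : T = {A, B} := by
    symm
    apply Finset.eq_of_subset_of_card_le
    · intro X hX
      rcases Finset.mem_insert.1 hX with rfl | hX
      · exact hA
      · rw [Finset.mem_singleton.1 hX]; exact hB
    · rw [Finset.card_pair hAB]; exact hT.1
  have h4 : A.1 ∩ B.1 ⊆ C := by
    intro i hi
    rw [Finset.mem_inter] at hi
    have : (i, true) ∈ GT T := mem_GT.2 fun X hX => by
      rw [hTAB] at hX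
      rcases Finset.mem_insert.1 hX with rfl | hX
      · exact mem_sgn_true.2 hi.1
      · rw [Finset.mem_singleton.1 hX]; exact mem_sgn_true.2 hi.2
    exact mem_sgn_true.1 (h this)
  have h5 : (insert c (A.1 ∩ B.1)).card = k := by
    rw [Finset.card_insert_of_notMem (fun h => hcA (Finset.mem_inter.1 h).1), h3]
  have h6 : insert c (A.1 ∩ B.1) = C :=
    Finset.eq_of_subset_of_card_le (Finset.insert_subset hc h4) (by rw [h5, hC])
  have h7 : insert c (A.1 ∩ B.1) = B.1 :=
    Finset.eq_of_subset_of_card_le (Finset.insert_subset hcB Finset.inter_subset_right) (by rw [h5, B.2])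
  apply hcon
  have : (⟨C, hC⟩ : {A : Finset (Fin n) // A.card = k}) = B := Subtype.ext (h6.symm.trans h7)
  rw [this]
  exact hB

/-- connectivity of the graph of `k`-sets -/
theorem johnson_conn {val : {A : Finset (Fin n) // A.card = k} → ℚ}
    (h : ∀ A B : {A : Finset (Fin n) // A.card = k}, (A.1 ∩ B.1).card + 1 = k → val A = val B) :
    ∀ A B, val A = val B := by
  classical
  have key : ∀ N : ℕ, ∀ A B : {A : Finset (Fin n) // A.card = k}, (A.1 \ B.1).card = N → val A = val B := by
    intro N
    induction N with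
    | zero =>
      intro A B hN
      have h1 : A.1 ⊆ B.1 := Finset.sdiff_eq_empty_iff_subset.1 (Finset.card_eq_zero.1 hN)
      have : A = B := Subtype.ext (Finset.eq_of_subset_of_card_le h1 (by rw [A.2, B.2]))
      rw [this]
    | succ N ih =>
      intro A B hN
      obtain ⟨a, ha⟩ : (A.1 \ B.1).Nonempty := by rw [← Finset.card_pos]; omega
      obtain ⟨c, hc⟩ : (B.1 \ A.1).Nonempty := by
        rw [← Finset.card_pos]
        have h1 := Finset.card_sdiff_add_card_inter A.1 B.1
        have h2 := Finset.card_sdiff_add_card_inter B.1 A.1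
        rw [Finset.inter_comm] at h2
        have := A.2
        have := B.2
        omega
      rw [Finset.mem_sdiff] at ha hc
      have hcard : (insert c (A.1.erase a)).card = k := by rw [card_exch ha.1 hc.2, A.2]
      let A' : {A : Finset (Fin n) // A.card = k} := ⟨insert c (A.1.erase a), hcard⟩
      have h1 : val A = val A' := by
        apply h
        have : A.1 ∩ A'.1 = A.1.erase a := by
          ext i
          simp only [A', Finset.mem_inter, Finset.mem_insert, Finset.mem_erase]
          constructor
          · rintro ⟨h1, rfl | h2⟩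
            · exact absurd h1 hc.2
            · exact h2
          · rintro ⟨h1, h2⟩
            exact ⟨h2, Or.inr ⟨h1, h2⟩⟩
        rw [this, Finset.card_erase_add_one ha.1, A.2]
      rw [h1]
      apply ih
      have : A'.1 \ B.1 = (A.1 \ B.1).erase a := by
        ext i
        simp only [A', Finset.mem_sdiff, Finset.mem_insert, Finset.mem_erase]
        constructor
        · rintro ⟨rfl | ⟨h1, h2⟩, h3⟩
          · exact absurd hc.1 h3
          · exact ⟨h1, h2, h3⟩
        · rintro ⟨h1, h2, h3⟩
          exact ⟨Or.inr ⟨h1, h2⟩, h3⟩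
      rw [this, Finset.card_erase_of_mem (Finset.mem_sdiff.2 ha), hN]; rfl
  intro A B
  exact key _ A B rfl

namespace HypModel

variable {P : Set (Fin d → ℚ)} (M : HypModel n k P)

theorem mem_face_GT {T : Finset {A : Finset (Fin n) // A.card = k}} (hT : EdgeK n k T)
    (hne : T.Nonempty) (C : {A : Finset (Fin n) // A.card = k}) :
    M.p C.1 ∈ M.face (GT T) ↔ C ∈ T := by
  have hok : ∃ A : Finset (Fin n), A.card = k ∧ GT T ⊆ sgn A := by
    obtain ⟨A, hA⟩ := hne
    exact ⟨A.1, A.2, GT_sub hA⟩
  rw [p_mem_face hok C.2]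
  exact ⟨fun h => sub_GT hT hne C.2 h, fun h => GT_sub h⟩

theorem ok_GT {T : Finset {A : Finset (Fin n) // A.card = k}} (hne : T.Nonempty) :
    ∃ A : Finset (Fin n), A.card = k ∧ GT T ⊆ sgn A := by
  obtain ⟨A, hA⟩ := hne
  exact ⟨A.1, A.2, GT_sub hA⟩

/-- the vertices and edges -/
noncomputable def zeroModel (hn : n = d + 1) (hkn : k + 1 ≤ n) :
    SimpModel P {A : Finset (Fin n) // A.card = k} 0 where
  hP := M.hP
  q := fun A => M.p A.1
  K := EdgeK n k
  down := fun T T' h hT' => ⟨(Finset.card_le_card h).trans hT'.1,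
    fun A hA B hB hne => hT'.2 A (h hA) B (h hB) hne⟩
  face := fun T => M.face (GT T)
  isFace := fun T _ hne => isFace_face (ok_GT hne)
  mem := fun T hT hne x => by
    constructor
    · rintro ⟨hx, hxv⟩
      obtain ⟨A, hA, rfl⟩ := M.allV x hxv
      exact ⟨⟨A, hA⟩, (M.mem_face_GT hT hne ⟨A, hA⟩).1 hx, rfl⟩
    · rintro ⟨A, hA, rfl⟩
      exact ⟨(M.mem_face_GT hT hne A).2 hA, M.isV _ A.2⟩
  inj := fun A B h => Subtype.ext (M.inj _ _ A.2 B.2 h)
  dim := fun T hT hne => by
    classical
    have hF := isFace_face (M := M) (ok_GT hne)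
    rcases (show T.card = 1 ∨ T.card = 2 by have := hT.1; have := Finset.card_pos.2 hne; omega) with h | h
    · obtain ⟨A, rfl⟩ := Finset.card_eq_one.1 h
      have h0 : vs (M.face (GT {A})) = ⊥ := by
        rw [Submodule.eq_bot_iff]
        intro m hm
        have h1 := vs_vertices M.hP hF hm
        have h2 : {z | ∃ a b, a ∈ M.face (GT {A}) ∧ b ∈ M.face (GT {A}) ∧ IsFace P {a} ∧ IsFace P {b} ∧
            z = a - b} ⊆ {0} := by
          rintro z ⟨a, b, ha, hb, hav, hbv, rfl⟩
          obtain ⟨B, hB, rfl⟩ := M.allV a hav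
          obtain ⟨C, hC, rfl⟩ := M.allV b hbv
          have h3 := (M.mem_face_GT hT hne ⟨B, hB⟩).1 ha
          have h4 := (M.mem_face_GT hT hne ⟨C, hC⟩).1 hb
          rw [Finset.mem_singleton] at h3 h4
          have h5 : B = C := congrArg Subtype.val (h3.trans h4.symm)
          rw [h5, sub_self]; rfl
        have h3 := Submodule.span_mono (R := ℚ) h2 h1
        rwa [Submodule.span_zero_singleton] at h3
      rw [h0, finrank_bot, h]
    · obtain ⟨A, B, hAB, rfl⟩ := Finset.card_eq_two.1 h
      have hpA := (M.mem_face_GT hT hne A).2 (by simp)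
      have hpB := (M.mem_face_GT hT hne B).2 (by simp)
      have hne' : M.p A.1 - M.p B.1 ≠ 0 := fun h0 =>
        hAB (Subtype.ext (M.inj _ _ A.2 B.2 (sub_eq_zero.1 h0)))
      have h0 : vs (M.face (GT {A, B})) = Submodule.span ℚ {M.p A.1 - M.p B.1} := by
        apply le_antisymm
        · intro m hm
          have h1 := vs_vertices M.hP hF hm
          refine (Submodule.span_le.2 ?_) h1
          rintro z ⟨a, b, ha, hb, hav, hbv, rfl⟩
          obtain ⟨C, hC, rfl⟩ := M.allV a hav
          obtain ⟨D, hD, rfl⟩ := M.allV b hbv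
          have h3 := (M.mem_face_GT hT hne ⟨C, hC⟩).1 ha
          have h4 := (M.mem_face_GT hT hne ⟨D, hD⟩).1 hb
          have hx : M.p A.1 - M.p B.1 ∈ Submodule.span ℚ {M.p A.1 - M.p B.1} :=
            Submodule.mem_span_singleton_self _
          rw [Finset.mem_insert, Finset.mem_singleton] at h3 h4
          show M.p C - M.p D ∈ Submodule.span ℚ {M.p A.1 - M.p B.1}
          rcases h3 with h3 | h3 <;> rcases h4 with h4 | h4
          · rw [show C = A.1 from congrArg Subtype.val h3, show D = A.1 from congrArg Subtype.val h4,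
              sub_self]
            exact Submodule.zero_mem _
          · rw [show C = A.1 from congrArg Subtype.val h3, show D = B.1 from congrArg Subtype.val h4]
            exact hx
          · rw [show C = B.1 from congrArg Subtype.val h3, show D = A.1 from congrArg Subtype.val h4]
            have := Submodule.neg_mem _ hx
            rwa [neg_sub] at this
          · rw [show C = B.1 from congrArg Subtype.val h3, show D = B.1 from congrArg Subtype.val h4,
              sub_self]
            exact Submodule.zero_mem _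
        · exact (Submodule.span_singleton_le_iff_mem _ _).2 (sub_mem_vs hpA hpB)
      rw [h0, finrank_span_singleton hne', h]
  all_j := fun F => by
    classical
    obtain ⟨G, ⟨A, hA, hGA⟩, hF⟩ := eq_face (M := M) F.2.1 F.2.2.1
    have hT : EdgeK n k {⟨A, hA⟩} := ⟨by simp, fun X hX Y hY hne => by
      rw [Finset.mem_singleton] at hX hY
      exact absurd (hX.trans hY.symm) hne⟩
    refine ⟨{⟨A, hA⟩}, hT, by simp, ?_⟩
    have h0 : vs F.1 = ⊥ := Submodule.finrank_eq_zero.1 F.2.2.2
    have hpA : M.p A ∈ F.1 := by rw [hF]; exact (p_mem_face ⟨A, hA, hGA⟩ hA).2 hGA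
    have huniq : ∀ x ∈ F.1, x = M.p A := by
      intro x hx
      have := sub_mem_vs hx hpA
      rw [h0, Submodule.mem_bot, sub_eq_zero] at this
      exact this
    have hok := ok_GT (k := k) (T := {⟨A, hA⟩}) (Finset.singleton_nonempty _)
    apply Set.Subset.antisymm
    · apply face_sub (M := M) F.2.1 (isFace_face hok)
      intro B hB hpB
      rw [M.mem_face_GT hT (Finset.singleton_nonempty _) ⟨B, hB⟩, Finset.mem_singleton]
      exact Subtype.ext (M.inj _ _ hB hA (huniq _ hpB))
    · apply face_sub (M := M) (isFace_face hok) F.2.1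
      intro B hB hpB
      rw [M.mem_face_GT hT (Finset.singleton_nonempty _) ⟨B, hB⟩, Finset.mem_singleton] at hpB
      rw [show B = A from congrArg Subtype.val hpB]
      exact hpA
  all_j1 := fun F => by
    classical
    obtain ⟨G, hG, hF⟩ := exists_gd (M := M) F.2.1 F.2.2.1 (by
      have h2 : finrank ℚ (vectorSpan ℚ F.1) = finrank ℚ (vs F.1) := rfl
      have := F.2.2.2
      omega)
    have h1 := fdim (M := M) hn hG
    have h2 : finrank ℚ (vs (M.face G)) = 1 := by rw [← hF]; exact F.2.2.2
    have hG' := hG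
    obtain ⟨A, a, c, hA, ha, hc, h4⟩ := hG
    have hBc : (insert c (A.erase a)).card = k := by rw [card_exch ha hc, hA]
    set B := insert c (A.erase a) with hB
    have hAB : (⟨A, hA⟩ : {A : Finset (Fin n) // A.card = k}) ≠ ⟨B, hBc⟩ := by
      intro h
      have h5 : A = B := congrArg Subtype.val h
      rw [h5] at hc
      exact hc (Finset.mem_insert_self _ _)
    have hint : (A ∩ B).card + 1 = k := by
      have : A ∩ B = A.erase a := by
        ext i
        simp only [hB, Finset.mem_inter, Finset.mem_insert, Finset.mem_erase]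
        constructor
        · rintro ⟨h1, rfl | h2⟩
          · exact absurd h1 hc
          · exact h2
        · rintro ⟨h1, h2⟩
          exact ⟨h2, Or.inr ⟨h1, h2⟩⟩
      rw [this, Finset.card_erase_add_one ha, hA]
    have hT : EdgeK n k {⟨A, hA⟩, ⟨B, hBc⟩} := by
      refine ⟨Finset.card_le_two, fun X hX Y hY hne => ?_⟩
      rw [Finset.mem_insert, Finset.mem_singleton] at hX hY
      rcases hX with rfl | rfl <;> rcases hY with rfl | rfl
      · exact absurd rfl hne
      · exact hint
      · rw [Finset.inter_comm]; exact hint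
      · exact absurd rfl hne
    have hGT : GT {(⟨A, hA⟩ : {A : Finset (Fin n) // A.card = k}), ⟨B, hBc⟩} = G := by
      symm
      apply Finset.eq_of_subset_of_card_le
      · rintro ⟨y, t⟩ hy
        obtain ⟨h1, h2, h3⟩ := h4 _ hy
        rw [mem_GT]
        intro X hX
        rw [Finset.mem_insert, Finset.mem_singleton] at hX
        rcases hX with rfl | rfl
        · exact h1
        · show (y, t) ∈ sgn B
          cases t with
          | true =>
            rw [mem_sgn_true] at h1 ⊢
            refine Finset.mem_insert_of_mem (Finset.mem_erase.2 ⟨?_, h1⟩)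
            rintro rfl; exact h2 rfl
          | false =>
            rw [mem_sgn_false] at h1 ⊢
            intro h
            rcases Finset.mem_insert.1 h with rfl | h
            · exact h3 rfl
            · exact h1 (Finset.mem_of_mem_erase h)
      · have hsub : GT {(⟨A, hA⟩ : {A : Finset (Fin n) // A.card = k}), ⟨B, hBc⟩} ⊆
            ((sgn A).erase (a, true)).erase (c, false) := by
          intro ρ hρ
          have hρA := mem_GT.1 hρ ⟨A, hA⟩ (by simp)
          have hρB := mem_GT.1 hρ ⟨B, hBc⟩ (by simp)
          rw [Finset.mem_erase, Finset.mem_erase]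
          refine ⟨?_, ?_, hρA⟩
          · rintro rfl
            exact mem_sgn_false.1 hρB (Finset.mem_insert_self _ _)
          · rintro rfl
            rcases Finset.mem_insert.1 (mem_sgn_true.1 hρB) with h | h
            · exact hc (h ▸ ha)
            · exact absurd h (Finset.notMem_erase _ _)
        have h6 := Finset.card_le_card hsub
        have h7 : (a, true) ∈ sgn A := mem_sgn_true.2 ha
        have h8 : (c, false) ∈ (sgn A).erase (a, true) := by
          rw [Finset.mem_erase]
          exact ⟨by simp, mem_sgn_false.2 hc⟩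
        have h9 := Finset.card_erase_add_one h8
        have h10 := Finset.card_erase_add_one h7
        rw [card_sgn] at h10
        omega
    refine ⟨{⟨A, hA⟩, ⟨B, hBc⟩}, hT, ?_, ?_⟩
    · rw [Finset.card_pair hAB]
    · rw [hGT]; exact hF
  conn := fun val h G G' hG hG' hGc hG'c => by
    obtain ⟨A, rfl⟩ := Finset.card_eq_one.1 hGc
    obtain ⟨B, rfl⟩ := Finset.card_eq_one.1 hG'c
    refine johnson_conn (val := fun A => val {A}) (fun A B hAB => ?_) A B
    have hne : A ≠ B := by
      rintro rfl
      rw [Finset.inter_self, A.2] at hAB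
      omega
    have hT : EdgeK n k {A, B} := by
      refine ⟨Finset.card_le_two, fun X hX Y hY hne => ?_⟩
      rw [Finset.mem_insert, Finset.mem_singleton] at hX hY
      rcases hX with hX | hX <;> rcases hY with hY | hY
      · exact absurd (hX.trans hY.symm) hne
      · rw [hX, hY]; exact hAB
      · rw [hX, hY, Finset.inter_comm]; exact hAB
      · exact absurd (hX.trans hY.symm) hne
    exact h {A, B} hT (Finset.card_pair hne) {A} {B} (by simp) (by simp) (by simp) (by simp)
  ex := by
    obtain ⟨A, -, hA⟩ := Finset.exists_subset_card_eq (s := (univ : Finset (Fin n))) (n := k)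
      (by rw [Finset.card_univ, Fintype.card_fin]; omega)
    refine ⟨{⟨A, hA⟩}, ⟨by simp, fun X hX Y hY hne => ?_⟩, by simp⟩
    rw [Finset.mem_singleton] at hX hY
    exact absurd (hX.trans hY.symm) hne

include M in
theorem chow_zero (hn : n = d + 1) (hkn : k + 1 ≤ n) : chowBetti P 0 = 1 :=
  (M.zeroModel hn hkn).chow_eq_one

end HypModel

end Pool.Agent.Helper40.CB
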