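import Mathlib

set_option autoImplicit false

namespace Pool.Agent.Helper40.CB

open Finset

variable {α : Type} [DecidableEq α]

theorem prod_map_ne_zero {β : Type} (m : Multiset β) (f : β → ℚ) :
    (m.map f).prod ≠ 0 ↔ ∀ ρ ∈ m, f ρ ≠ 0 := by
  simp only [ne_eq, Multiset.prod_eq_zero_iff, Multiset.mem_map, not_exists, not_and]

/-- triangular families of monomials -/
theorem lower_family (U : Finset α) : ∀ (k j : ℕ) (f : α × Bool → Finset α → ℚ),
    (∀ A, A ⊆ U → A.card = k → ∀ i ∈ U, (f (i, true) A ≠ 0 ↔ i ∈ A) ∧ (f (i, false) A ≠ 0 ↔ i ∉ A)) →
    j ≤ k → j + k ≤ U.card →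
    ∃ m : Finset α → Multiset (α × Bool), (∀ S, S.card = j → (m S).card = j) ∧
      ∀ a : Finset α → ℚ, (∀ A, A ⊆ U → A.card = k →
        ∑ S ∈ powersetCard j U, a S * ((m S).map (fun ρ => f ρ A)).prod = 0) →
        ∀ S ∈ powersetCard j U, a S = 0 := by
  induction U using Finset.induction_on with
  | empty =>
    intro k j f _ h1 h2
    rw [Finset.card_empty] at h2
    have hk : k = 0 := by omega
    have hj : j = 0 := by omega
    subst hk; subst hj
    refine ⟨fun _ => 0, fun _ _ => rfl, ?_⟩
    intro a ha S hS
    have := ha ∅ (Finset.Subset.refl _) rfl
    rw [Finset.powersetCard_zero, Finset.sum_singleton] at this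
    rw [Finset.powersetCard_zero, Finset.mem_singleton] at hS
    subst hS
    simpa using this
  | insert x U hx ih =>
    intro k j f hf hjk hjU
    rcases Nat.lt_or_ge j k with hlt | hge
    · rcases Nat.lt_or_ge (j + k) (insert x U).card with hlt2 | hge2
      · rw [Finset.card_insert_of_notMem hx] at hlt2
        rcases Nat.eq_zero_or_pos j with hj0 | hj0
        · subst hj0
          refine ⟨fun _ => 0, fun _ _ => rfl, ?_⟩
          intro a ha S hS
          obtain ⟨A, hA1, hA2⟩ := Finset.exists_subset_card_eq (s := insert x U) (n := k) (by
            rw [Finset.card_insert_of_notMem hx]; omega)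
          have := ha A hA1 hA2
          rw [Finset.powersetCard_zero, Finset.sum_singleton] at this
          rw [Finset.powersetCard_zero, Finset.mem_singleton] at hS
          subst hS
          simpa using this
        · obtain ⟨j', rfl⟩ : ∃ j', j = j' + 1 := ⟨j - 1, by omega⟩
          obtain ⟨k', rfl⟩ : ∃ k', k = k' + 1 := ⟨k - 1, by omega⟩
          obtain ⟨m1, hm1, hm1'⟩ := ih (k' + 1) (j' + 1) f (fun A hA hc i hi =>
            hf A (hA.trans (Finset.subset_insert _ _)) hc i (Finset.mem_insert_of_mem hi))
            (by omega) (by omega)
          obtain ⟨m2, hm2, hm2'⟩ := ih k' j' (fun ρ A => f ρ (insert x A)) (fun A hA hc i hi => by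
            have hxA : x ∉ A := fun h => hx (hA h)
            have h1 := hf (insert x A) (Finset.insert_subset_insert _ hA)
              (by rw [Finset.card_insert_of_notMem hxA, hc]) i (Finset.mem_insert_of_mem hi)
            have hix : i ≠ x := by rintro rfl; exact hx hi
            rw [Finset.mem_insert] at h1
            simpa [hix] using h1) (by omega) (by omega)
          refine ⟨fun S => if x ∈ S then (x, true) ::ₘ m2 (S.erase x) else m1 S, ?_, ?_⟩
          · intro S hS
            by_cases hxS : x ∈ S
            · simp only [hxS, if_true, Multiset.card_cons]
              rw [hm2 _ (by rw [Finset.card_erase_of_mem hxS, hS]; rfl)]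
            · simp only [hxS, if_false]
              exact hm1 S hS
          · intro a ha
            have hsum : ∀ A : Finset α, ∑ S ∈ powersetCard (j' + 1) (insert x U),
                a S * ((if x ∈ S then (x, true) ::ₘ m2 (S.erase x) else m1 S).map (fun ρ => f ρ A)).prod =
                ∑ S ∈ powersetCard (j' + 1) U, a S * ((m1 S).map (fun ρ => f ρ A)).prod +
                f (x, true) A * ∑ S ∈ powersetCard j' U, a (insert x S) *
                  ((m2 S).map (fun ρ => f ρ A)).prod := by
              intro A
              rw [Finset.powersetCard_succ_insert hx, Finset.sum_union, Finset.sum_image]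
              · congr 1
                · refine Finset.sum_congr rfl fun S hS => ?_
                  have hxS : x ∉ S := fun h => hx ((Finset.mem_powersetCard.1 hS).1 h)
                  rw [if_neg hxS]
                · rw [Finset.mul_sum]
                  refine Finset.sum_congr rfl fun S hS => ?_
                  have hxS : x ∉ S := fun h => hx ((Finset.mem_powersetCard.1 hS).1 h)
                  rw [if_pos (Finset.mem_insert_self _ _), Finset.erase_insert hxS,
                    Multiset.map_cons, Multiset.prod_cons]
                  ring
              · intro S hS S' hS' h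
                have hxS : x ∉ S := fun h => hx ((Finset.mem_powersetCard.1 hS).1 h)
                have hxS' : x ∉ S' := fun h => hx ((Finset.mem_powersetCard.1 hS').1 h)
                rw [← Finset.erase_insert hxS, h, Finset.erase_insert hxS']
              · rw [Finset.disjoint_left]
                intro S hS hS'
                have hxS : x ∉ S := fun h => hx ((Finset.mem_powersetCard.1 hS).1 h)
                obtain ⟨S', _, rfl⟩ := Finset.mem_image.1 hS'
                exact hxS (Finset.mem_insert_self _ _)
            have h1 : ∀ S ∈ powersetCard (j' + 1) U, a S = 0 := by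
              apply hm1'
              intro A hA hc
              have h2 := ha A (hA.trans (Finset.subset_insert _ _)) hc
              rw [hsum A] at h2
              have hxA : x ∉ A := fun h => hx (hA h)
              have h3 : f (x, true) A = 0 := by
                by_contra h4
                exact hxA ((hf A (hA.trans (Finset.subset_insert _ _)) hc x
                  (Finset.mem_insert_self _ _)).1.1 h4)
              rw [h3, zero_mul, add_zero] at h2
              exact h2
            have h2 : ∀ S ∈ powersetCard j' U, a (insert x S) = 0 := by
              apply hm2' (fun S => a (insert x S))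
              intro A hA hc
              have hxA : x ∉ A := fun h => hx (hA h)
              have hc' : (insert x A).card = k' + 1 := by rw [Finset.card_insert_of_notMem hxA, hc]
              have h3 := ha (insert x A) (Finset.insert_subset_insert _ hA) hc'
              rw [hsum (insert x A)] at h3
              rw [Finset.sum_eq_zero (fun S hS => by rw [h1 S hS, zero_mul]), zero_add] at h3
              have h4 : f (x, true) (insert x A) ≠ 0 :=
                (hf (insert x A) (Finset.insert_subset_insert _ hA) hc' x
                  (Finset.mem_insert_self _ _)).1.2 (Finset.mem_insert_self _ _)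
              exact (mul_eq_zero.1 h3).resolve_left h4
            intro S hS
            rw [Finset.powersetCard_succ_insert hx, Finset.mem_union] at hS
            rcases hS with hS | hS
            · exact h1 S hS
            · obtain ⟨S', hS', rfl⟩ := Finset.mem_image.1 hS
              exact h2 S' hS'
      · -- j + k = card
        have hjk' : j + k = (insert x U).card := le_antisymm hjU hge2
        refine ⟨fun S => S.val.map (fun i => (i, false)), fun S hS => by simpa using hS, ?_⟩
        intro a ha S hS
        obtain ⟨hS1, hS2⟩ := Finset.mem_powersetCard.1 hS
        set A := (insert x U) \ S with hA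
        have hAc : A.card = k := by
          rw [hA, Finset.card_sdiff_of_subset hS1]; omega
        have hAU : A ⊆ insert x U := Finset.sdiff_subset
        have h1 := ha A hAU hAc
        have hval : ∀ S' ∈ powersetCard j (insert x U),
            ((S'.val.map (fun i => (i, false))).map (fun ρ => f ρ A)).prod ≠ 0 ↔ S' = S := by
          intro S' hS'
          obtain ⟨h3, h4⟩ := Finset.mem_powersetCard.1 hS'
          rw [prod_map_ne_zero]
          constructor
          · intro h
            have h5 : S' ⊆ S := by
              intro i hi
              have h6 := h (i, false) (Multiset.mem_map.2 ⟨i, hi, rfl⟩)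
              rw [(hf A hAU hAc i (h3 hi)).2] at h6
              by_contra h7
              exact h6 (Finset.mem_sdiff.2 ⟨h3 hi, h7⟩)
            exact Finset.eq_of_subset_of_card_le h5 (by rw [hS2, h4])
          · rintro rfl ρ hρ
            obtain ⟨i, hi, rfl⟩ := Multiset.mem_map.1 hρ
            rw [(hf A hAU hAc i (h3 hi)).2]
            exact fun h => (Finset.mem_sdiff.1 h).2 hi
        rw [Finset.sum_eq_single S] at h1
        · exact (mul_eq_zero.1 h1).resolve_right ((hval S hS).2 rfl)
        · intro S' hS' hne
          have : ¬ ((S'.val.map (fun i => (i, false))).map (fun ρ => f ρ A)).prod ≠ 0 := fun h =>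
            hne ((hval S' hS').1 h)
          rw [not_not.1 this, mul_zero]
        · intro h; exact absurd hS h
    · -- j = k
      have hjk' : j = k := le_antisymm hjk hge
      subst hjk'
      refine ⟨fun S => S.val.map (fun i => (i, true)), fun S hS => by simpa using hS, ?_⟩
      intro a ha S hS
      obtain ⟨hS1, hS2⟩ := Finset.mem_powersetCard.1 hS
      have h1 := ha S hS1 hS2
      have hval : ∀ S' ∈ powersetCard j (insert x U),
          ((S'.val.map (fun i => (i, true))).map (fun ρ => f ρ S)).prod ≠ 0 ↔ S' = S := by
        intro S' hS'
        obtain ⟨h3, h4⟩ := Finset.mem_powersetCard.1 hS'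
        rw [prod_map_ne_zero]
        constructor
        · intro h
          have h5 : S' ⊆ S := by
            intro i hi
            have h6 := h (i, true) (Multiset.mem_map.2 ⟨i, hi, rfl⟩)
            rwa [(hf S hS1 hS2 i (h3 hi)).1] at h6
          exact Finset.eq_of_subset_of_card_le h5 (by rw [hS2, h4])
        · rintro rfl ρ hρ
          obtain ⟨i, hi, rfl⟩ := Multiset.mem_map.1 hρ
          rw [(hf S' hS1 hS2 i (h3 hi)).1]
          exact hi
      rw [Finset.sum_eq_single S] at h1
      · exact (mul_eq_zero.1 h1).resolve_right ((hval S hS).2 rfl)
      · intro S' hS' hne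
        have : ¬ ((S'.val.map (fun i => (i, true))).map (fun ρ => f ρ S)).prod ≠ 0 := fun h =>
          hne ((hval S' hS').1 h)
        rw [not_not.1 this, mul_zero]
      · intro h; exact absurd hS h

end Pool.Agent.Helper40.CB
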