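import Pool.Agent.Helper40.CB.Pot

set_option autoImplicit false

namespace Pool.Agent.Helper40.CB

open Matrix Finset Module

variable {d : ℕ}

/-- the value of a relation on a facet of `G` -/
theorem rel_val {P : Set (Fin d → ℚ)} {j : ℕ} {r : FaceOfDim P j →₀ ℚ} {G : FaceOfDim P (j + 1)}
    {m : Fin d → ℤ} (hP : IsPolytope P)
    (hm : ∀ u ∈ normalCone P G.1, u ⬝ᵥ toQ m = 0)
    (hr : ∀ F : FaceOfDim P j,
      (F.1 ⊆ G.1 → ∃ v : Fin d → ℤ, IsNormalGen P F.1 G.1 v ∧ r F = toQ v ⬝ᵥ toQ m) ∧
      (¬ F.1 ⊆ G.1 → r F = 0)) (F : FaceOfDim P j) (hF : F.1 ⊆ G.1) :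
    r F = toQ (nv P F.1 G.1) ⬝ᵥ toQ m := by
  have hc : Cov P F.1 G.1 := ⟨hP, F.2.1, G.2.1, F.2.2.1, hF, by rw [F.2.2.2, G.2.2.2]⟩
  obtain ⟨v, hv, hrv⟩ := (hr F).1 hF
  rw [hrv]
  apply hc.gen_unique hv hc.nv_spec
  apply mem_of_perp
  intro u hu
  have h1 := (mem_span_normalCone hP G.2.1 G.2.2.1 u).2 hu
  induction h1 using Submodule.span_induction with
  | mem v hv => exact hm v hv
  | zero => simp
  | add a b ha' hb' ha hb =>
    rw [add_dotProduct]
    rw [ha (fun w hw => by exact (mem_span_normalCone hP G.2.1 G.2.2.1 a).1 ha' w hw),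
      hb (fun w hw => by exact (mem_span_normalCone hP G.2.1 G.2.2.1 b).1 hb' w hw), add_zero]
  | smul c a ha' ha =>
    rw [smul_dotProduct, ha (fun w hw => by exact (mem_span_normalCone hP G.2.1 G.2.2.1 a).1 ha' w hw),
      smul_zero]

/-- membership of `m` in the direction space -/
theorem mem_vs_of_rel {P : Set (Fin d → ℚ)} {G : Set (Fin d → ℚ)} {m : Fin d → ℚ} (hP : IsPolytope P)
    (hG : IsFace P G) (hne : G.Nonempty) (hm : ∀ u ∈ normalCone P G, u ⬝ᵥ m = 0) : m ∈ vs G := by
  apply mem_of_perp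
  intro u hu
  have h1 := (mem_span_normalCone hP hG hne u).2 hu
  induction h1 using Submodule.span_induction with
  | mem v hv => exact hm v hv
  | zero => simp
  | add a b ha' hb' ha hb =>
    rw [add_dotProduct]
    rw [ha (fun w hw => by exact (mem_span_normalCone hP hG hne a).1 ha' w hw),
      hb (fun w hw => by exact (mem_span_normalCone hP hG hne b).1 hb' w hw), add_zero]
  | smul c a ha' ha =>
    rw [smul_dotProduct, ha (fun w hw => by exact (mem_span_normalCone hP hG hne a).1 ha' w hw),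
      smul_zero]

/-- the relation vector of `G` and `m` -/
theorem exists_rel {P : Set (Fin d → ℚ)} {j : ℕ} (hP : IsPolytope P) [Finite (FaceOfDim P j)]
    (G : FaceOfDim P (j + 1)) (m : Fin d → ℤ) (hm : toQ m ∈ vs G.1) :
    ∃ r : FaceOfDim P j →₀ ℚ, r ∈ relations P j ∧
      (∀ F : FaceOfDim P j, F.1 ⊆ G.1 → r F = toQ (nv P F.1 G.1) ⬝ᵥ toQ m) ∧
      (∀ F : FaceOfDim P j, ¬ F.1 ⊆ G.1 → r F = 0) := by
  classical
  let r : FaceOfDim P j →₀ ℚ := Finsupp.equivFunOnFinite.symm
    (fun F => if F.1 ⊆ G.1 then toQ (nv P F.1 G.1) ⬝ᵥ toQ m else 0)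
  have h1 : ∀ F : FaceOfDim P j, F.1 ⊆ G.1 → r F = toQ (nv P F.1 G.1) ⬝ᵥ toQ m := by
    intro F hF
    show (if F.1 ⊆ G.1 then toQ (nv P F.1 G.1) ⬝ᵥ toQ m else 0) = _
    rw [if_pos hF]
  have h2 : ∀ F : FaceOfDim P j, ¬ F.1 ⊆ G.1 → r F = 0 := by
    intro F hF
    show (if F.1 ⊆ G.1 then toQ (nv P F.1 G.1) ⬝ᵥ toQ m else 0) = _
    rw [if_neg hF]
  refine ⟨r, ⟨G, m, ?_, ?_⟩, h1, h2⟩
  · intro u hu
    exact normalCone_perp G.2.1 hu hm
  · intro F
    refine ⟨fun hF => ⟨nv P F.1 G.1, ?_, h1 F hF⟩, h2 F⟩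
    have hc : Cov P F.1 G.1 := ⟨hP, F.2.1, G.2.1, F.2.2.1, hF, by rw [F.2.2.2, G.2.2.2]⟩
    exact hc.nv_spec

namespace SimpModel

variable {P : Set (Fin d → ℚ)} {V : Type} [Fintype V] [DecidableEq V] {j : ℕ} (M : SimpModel P V j)

theorem face_inj {T T' : Finset V} (hT : M.K T) (hT' : M.K T') (hne : T.Nonempty) (hne' : T'.Nonempty)
    (h : M.face T = M.face T') : T = T' := by
  ext t
  rw [← M.q_mem_iff hT hne, ← M.q_mem_iff hT' hne', h]

theorem face_sub_iff {T T' : Finset V} (hT : M.K T) (hT' : M.K T') (hne : T.Nonempty) (hne' : T'.Nonempty) :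
    M.face T ⊆ M.face T' ↔ T ⊆ T' := by
  constructor
  · intro h t ht
    have h1 := (M.q_mem_iff hT hne).2 ht
    exact (M.q_mem_iff hT' hne').1 ⟨h h1.1, h1.2⟩
  · intro h
    exact M.face_mono hT' hne h

theorem ne_of_card {T : Finset V} {a : ℕ} (h : T.card = a + 1) : T.Nonempty :=
  Finset.card_pos.1 (by omega)

/-- the face as an element of the type of `j`-dimensional faces -/
def mkF (T : Finset V) (hT : M.K T) (hc : T.card = j + 1) : FaceOfDim P j :=
  ⟨M.face T, M.isFace T hT (ne_of_card hc), M.nonempty_face hT (ne_of_card hc), by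
    have := M.dim T hT (ne_of_card hc)
    have h2 : finrank ℚ (vectorSpan ℚ (M.face T)) + 1 = T.card := this
    omega⟩

def mkF1 (T : Finset V) (hT : M.K T) (hc : T.card = j + 2) : FaceOfDim P (j + 1) :=
  ⟨M.face T, M.isFace T hT (ne_of_card hc), M.nonempty_face hT (ne_of_card hc), by
    have := M.dim T hT (ne_of_card hc)
    have h2 : finrank ℚ (vectorSpan ℚ (M.face T)) + 1 = T.card := this
    omega⟩

/-- vertex set of a `j`-face -/
noncomputable def vt (F : FaceOfDim P j) : Finset V := (M.all_j F).choose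

theorem vt_K (F : FaceOfDim P j) : M.K (M.vt F) := (M.all_j F).choose_spec.1
theorem vt_card (F : FaceOfDim P j) : (M.vt F).card = j + 1 := (M.all_j F).choose_spec.2.1
theorem vt_face (F : FaceOfDim P j) : F.1 = M.face (M.vt F) := (M.all_j F).choose_spec.2.2

theorem vt_inj : Function.Injective M.vt := by
  intro F F' h
  apply Subtype.ext
  rw [M.vt_face F, M.vt_face F', h]

theorem vt_mk (T : Finset V) (hT : M.K T) (hc : T.card = j + 1) : M.vt (M.mkF T hT hc) = T := by
  apply M.face_inj (M.vt_K _) hT (ne_of_card (M.vt_card _)) (ne_of_card hc)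
  rw [← M.vt_face]; rfl

include M in
theorem finite_faces : Finite (FaceOfDim P j) := Finite.of_injective M.vt M.vt_inj

include M in
theorem chow_eq_one : chowBetti P j = 1 := by
  classical
  haveI := M.finite_faces
  letI : Fintype (FaceOfDim P j) := Fintype.ofFinite _
  obtain ⟨y, hy0, hy⟩ := exists_potential M.K M.down M.ht M.ht_diamond
  have hyne := potential_ne M.down (fun T t ht hK => (M.ht_pos hK ht).ne') hy0 hy
  -- the functional
  let ℓ : (FaceOfDim P j →₀ ℚ) →ₗ[ℚ] ℚ := Finsupp.linearCombination ℚ (fun F => y (M.vt F))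
  have hℓ : ∀ r, ℓ r = ∑ F, r F * y (M.vt F) := by
    intro r
    simp only [ℓ]
    rw [Finsupp.linearCombination_apply, Finsupp.sum_fintype]
    · rfl
    · intro i; exact zero_smul _ _
  -- the contributions of the facets of a simplex
  have hnv : ∀ T : Finset V, M.K T → T.card = j + 2 → ∀ t ∈ T, ∀ a ∈ T, ∀ b ∈ T, a ≠ b →
      y (T.erase t) * (toQ (nv P (M.face (T.erase t)) (M.face T)) ⬝ᵥ (M.q a - M.q b)) =
        if t = a then - y T else if t = b then y T else 0 := by
    intro T hT hc t ht a ha b hb hab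
    have hKe : M.K (T.erase t) := M.down _ _ (Finset.erase_subset _ _) hT
    have hne : (T.erase t).Nonempty := by
      apply Finset.card_pos.1
      rw [Finset.card_erase_of_mem ht]; omega
    have hins : insert t (T.erase t) = T := Finset.insert_erase ht
    have htn : t ∉ T.erase t := Finset.notMem_erase _ _
    have hKi : M.K (insert t (T.erase t)) := by rw [hins]; exact hT
    have hyT : y T = y (T.erase t) * M.ht (T.erase t) t := by
      conv_lhs => rw [← hins]
      exact hy _ _ htn hKi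
    have hcov := M.cov hKi hne htn
    rw [hins] at hcov
    by_cases h1 : t = a
    · subst h1
      rw [if_pos rfl, hyT]
      have hbe : b ∈ T.erase t := Finset.mem_erase.2 ⟨Ne.symm hab, hb⟩
      have := M.ht_eq hKi htn hbe
      rw [hins] at this
      rw [this]; ring
    · by_cases h2 : t = b
      · subst h2
        rw [if_neg h1, if_pos rfl, hyT]
        have hae : a ∈ T.erase t := Finset.mem_erase.2 ⟨hab, ha⟩
        have := M.ht_eq hKi htn hae
        rw [hins] at this
        rw [this, dotProduct_sub, dotProduct_sub]; ring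
      · rw [if_neg h1, if_neg h2]
        have := normalCone_perp hcov.hF ((hcov.gen_iff _).1 hcov.nv_spec).1
          (sub_mem_vs (M.q_mem hKe (Finset.mem_erase.2 ⟨Ne.symm h1, ha⟩))
            (M.q_mem hKe (Finset.mem_erase.2 ⟨Ne.symm h2, hb⟩)))
        rw [this, mul_zero]
  -- sum over the faces in a simplex
  have hsumfaces : ∀ (T : Finset V) (hT : M.K T) (hc : T.card = j + 2) (f : FaceOfDim P j → ℚ),
      (∀ F : FaceOfDim P j, ¬ F.1 ⊆ M.face T → f F = 0) →
      ∑ F, f F = ∑ t ∈ T.attach, f (M.mkF (T.erase t.1) (M.down _ _ (Finset.erase_subset _ _) hT)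
        (by rw [Finset.card_erase_of_mem t.2, hc]; rfl)) := by
    intro T hT hc f hf
    symm
    have hinj : Set.InjOn (fun t : {x // x ∈ T} => M.mkF (T.erase t.1) (M.down _ _ (Finset.erase_subset _ _) hT)
        (by rw [Finset.card_erase_of_mem t.2, hc]; rfl)) (T.attach : Set {x // x ∈ T}) := by
      intro t _ t' _ h
      have h1 := congrArg M.vt h
      simp only at h1
      rw [M.vt_mk, M.vt_mk] at h1
      by_contra hne
      have h2 : t'.1 ∈ T.erase t.1 := Finset.mem_erase.2 ⟨fun h => hne (Subtype.ext h.symm), t'.2⟩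
      rw [h1] at h2
      exact absurd h2 (Finset.notMem_erase _ _)
    rw [← Finset.sum_image (f := f) hinj]
    apply Finset.sum_subset (Finset.subset_univ _)
    intro F _ hF
    apply hf
    intro hsub
    apply hF
    rw [M.vt_face F, M.face_sub_iff (M.vt_K F) hT (ne_of_card (M.vt_card F)) (ne_of_card hc)] at hsub
    obtain ⟨t, htT, htF⟩ : ∃ t ∈ T, t ∉ M.vt F := by
      by_contra hcon
      push Not at hcon
      have := Finset.card_le_card (show T ⊆ M.vt F from hcon)
      rw [M.vt_card F, hc] at this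
      omega
    rw [Finset.mem_image]
    refine ⟨⟨t, htT⟩, Finset.mem_attach _ _, ?_⟩
    apply M.vt_inj
    rw [M.vt_mk]
    symm
    apply Finset.eq_of_subset_of_card_le
    · intro s hs
      exact Finset.mem_erase.2 ⟨fun h => htF (by have h' : s = t := h; rw [← h']; exact hs), hsub hs⟩
    · simp only
      rw [Finset.card_erase_of_mem htT, hc, M.vt_card F]; rfl
  -- kills relations
  have hkill : Submodule.span ℚ (relations P j) ≤ LinearMap.ker ℓ := by
    rw [Submodule.span_le]
    rintro r ⟨G, m, hm, hr⟩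
    show ℓ r = 0
    rw [hℓ]
    obtain ⟨T, hT, hc, hG⟩ := M.all_j1 G
    have hmG : toQ m ∈ vs G.1 := mem_vs_of_rel M.hP G.2.1 G.2.2.1 hm
    rw [hsumfaces T hT hc _ (fun F hF => by rw [(hr F).2 (by rw [hG]; exact hF), zero_mul])]
    have hval : ∀ t : {x // x ∈ T}, ∀ h1 h2, r (M.mkF (T.erase t.1) h1 h2) =
        toQ (nv P (M.face (T.erase t.1)) (M.face T)) ⬝ᵥ toQ m := by
      intro t h1 h2
      have hsub : (M.mkF (T.erase t.1) h1 h2).1 ⊆ G.1 := by
        rw [hG]
        exact M.face_mono hT (ne_of_card h2) (Finset.erase_subset _ _)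
      rw [rel_val M.hP hm hr _ hsub, hG]; rfl
    simp only [hval, M.vt_mk]
    -- linear in the vector
    have hlin : ∀ z ∈ vs G.1, ∑ t ∈ T.attach,
        (toQ (nv P (M.face (T.erase t.1)) (M.face T)) ⬝ᵥ z) * y (T.erase t.1) = 0 := by
      intro z hz
      have hz' := vs_vertices M.hP G.2.1 hz
      induction hz' using Submodule.span_induction with
      | mem z hz1 =>
        obtain ⟨a', b', ha, hb, hav, hbv, rfl⟩ := hz1
        rw [hG] at ha hb
        obtain ⟨a, haT, rfl⟩ := (M.mem T hT (ne_of_card hc) a').1 ⟨ha, hav⟩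
        obtain ⟨b, hbT, rfl⟩ := (M.mem T hT (ne_of_card hc) b').1 ⟨hb, hbv⟩
        by_cases hab : a = b
        · subst hab; simp
        · have h1 : ∀ t ∈ T.attach, (toQ (nv P (M.face (T.erase t.1)) (M.face T)) ⬝ᵥ (M.q a - M.q b)) *
              y (T.erase t.1) = if t.1 = a then - y T else if t.1 = b then y T else 0 := by
            intro t _
            rw [mul_comm]
            exact hnv T hT hc t.1 t.2 a haT b hbT hab
          rw [Finset.sum_congr rfl h1, Finset.sum_attach T (fun t => if t = a then - y T else if t = b then y T else 0)]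
          rw [← Finset.add_sum_erase _ _ haT, if_pos rfl]
          rw [← Finset.add_sum_erase _ _ (Finset.mem_erase.2 ⟨Ne.symm hab, hbT⟩), if_neg (Ne.symm hab), if_pos rfl]
          rw [Finset.sum_eq_zero]
          · ring
          · intro t ht
            rw [Finset.mem_erase, Finset.mem_erase] at ht
            rw [if_neg ht.2.1, if_neg ht.1]
      | zero => simp
      | add a b ha' hb' ha hb =>
        have hsub : ∀ z, z ∈ Submodule.span ℚ {z | ∃ a b, a ∈ G.1 ∧ b ∈ G.1 ∧ IsFace P {a} ∧ IsFace P {b} ∧ z = a - b} → z ∈ vs G.1 := by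
          intro z hz
          refine Submodule.span_le.2 ?_ hz
          rintro z ⟨a, b, ha, hb, -, -, rfl⟩
          exact sub_mem_vs ha hb
        simp only [dotProduct_add, add_mul, Finset.sum_add_distrib]
        rw [ha (hsub a ha'), hb (hsub b hb'), add_zero]
      | smul c a ha' ha =>
        have hsub : ∀ z, z ∈ Submodule.span ℚ {z | ∃ a b, a ∈ G.1 ∧ b ∈ G.1 ∧ IsFace P {a} ∧ IsFace P {b} ∧ z = a - b} → z ∈ vs G.1 := by
          intro z hz
          refine Submodule.span_le.2 ?_ hz
          rintro z ⟨a, b, ha, hb, -, -, rfl⟩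
          exact sub_mem_vs ha hb
        simp only [dotProduct_smul, smul_eq_mul, mul_assoc, ← Finset.mul_sum]
        rw [ha (hsub a ha'), mul_zero]
    exact hlin _ hmG
  -- classes are proportional
  let mkc : FaceOfDim P j → ((FaceOfDim P j →₀ ℚ) ⧸ Submodule.span ℚ (relations P j)) := fun F =>
    (y (M.vt F))⁻¹ • Submodule.Quotient.mk (Finsupp.single F 1)
  have hstep : ∀ T, M.K T → T.card = j + 2 → ∀ a ∈ T, ∀ b ∈ T, ∀ h1 h2 h3 h4,
      mkc (M.mkF (T.erase a) h1 h2) = mkc (M.mkF (T.erase b) h3 h4) := by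
    intro T hT hc a ha b hb h1 h2 h3 h4
    by_cases hab : a = b
    · subst hab; rfl
    obtain ⟨D, hD, m, hm⟩ := exists_int_mul (M.q a - M.q b)
    have hDq : (0 : ℚ) < D := by exact_mod_cast hD
    have hmem : toQ m ∈ vs (M.mkF1 T hT hc).1 := by
      rw [hm]
      exact Submodule.smul_mem _ _ (sub_mem_vs (M.q_mem hT ha) (M.q_mem hT hb))
    obtain ⟨r, hr, hr1, hr2⟩ := exists_rel M.hP (M.mkF1 T hT hc) m hmem
    have hyT := hyne T hT
    have hya := hyne _ h1
    have hyb := hyne _ h3
    -- the relation vector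
    have hrF : ∀ F : FaceOfDim P j, r F = if F = M.mkF (T.erase a) h1 h2 then - (D * (y T / y (T.erase a)))
        else if F = M.mkF (T.erase b) h3 h4 then D * (y T / y (T.erase b)) else 0 := by
      intro F
      by_cases hF : F.1 ⊆ M.face T
      · rw [hr1 F hF]
        have hsub := hF
        rw [M.vt_face F, M.face_sub_iff (M.vt_K F) hT (ne_of_card (M.vt_card F)) (ne_of_card hc)] at hsub
        obtain ⟨t, htT, htF⟩ : ∃ t ∈ T, t ∉ M.vt F := by
          by_contra hcon
          push Not at hcon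
          have := Finset.card_le_card (show T ⊆ M.vt F from hcon)
          rw [M.vt_card F, hc] at this
          omega
        have hvt : M.vt F = T.erase t := by
          apply Finset.eq_of_subset_of_card_le
          · intro s hs
            exact Finset.mem_erase.2 ⟨fun h => htF (by rw [← h]; exact hs), hsub hs⟩
          · rw [Finset.card_erase_of_mem htT, hc, M.vt_card F]; rfl
        have hFt : F.1 = M.face (T.erase t) := by rw [M.vt_face F, hvt]
        have hyt := hyne (T.erase t) (by rw [← hvt]; exact M.vt_K F)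
        have h5 := hnv T hT hc t htT a ha b hb hab
        have h6 : toQ (nv P (M.face (T.erase t)) (M.face T)) ⬝ᵥ (M.q a - M.q b) =
            (if t = a then - y T else if t = b then y T else 0) / y (T.erase t) := by
          rw [eq_div_iff hyt, mul_comm]; exact h5
        show toQ (nv P F.1 (M.face T)) ⬝ᵥ toQ m = _
        rw [hFt, hm, dotProduct_smul, smul_eq_mul, h6]
        have e1 : F = M.mkF (T.erase a) h1 h2 ↔ t = a := by
          constructor
          · intro h
            have h7 := congrArg M.vt h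
            rw [M.vt_mk, hvt] at h7
            by_contra hne
            have h8 : a ∈ T.erase t := Finset.mem_erase.2 ⟨Ne.symm hne, ha⟩
            rw [h7] at h8
            exact absurd h8 (Finset.notMem_erase _ _)
          · rintro rfl
            apply M.vt_inj; rw [M.vt_mk, hvt]
        have e2 : F = M.mkF (T.erase b) h3 h4 ↔ t = b := by
          constructor
          · intro h
            have h7 := congrArg M.vt h
            rw [M.vt_mk, hvt] at h7
            by_contra hne
            have h8 : b ∈ T.erase t := Finset.mem_erase.2 ⟨Ne.symm hne, hb⟩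
            rw [h7] at h8
            exact absurd h8 (Finset.notMem_erase _ _)
          · rintro rfl
            apply M.vt_inj; rw [M.vt_mk, hvt]
        by_cases h7 : t = a
        · rw [if_pos (e1.2 h7), if_pos h7, h7]; ring
        · rw [if_neg (fun h => h7 (e1.1 h)), if_neg h7]
          by_cases h8 : t = b
          · rw [if_pos (e2.2 h8), if_pos h8, h8]
          · rw [if_neg (fun h => h8 (e2.1 h)), if_neg h8]; ring
      · rw [hr2 F hF]
        rw [if_neg, if_neg]
        · rintro rfl
          exact hF (M.face_mono hT (ne_of_card h4) (Finset.erase_subset _ _))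
        · rintro rfl
          exact hF (M.face_mono hT (ne_of_card h2) (Finset.erase_subset _ _))
    have hFab : M.mkF (T.erase a) h1 h2 ≠ M.mkF (T.erase b) h3 h4 := by
      intro h
      have h7 := congrArg M.vt h
      rw [M.vt_mk, M.vt_mk] at h7
      have h8 : b ∈ T.erase a := Finset.mem_erase.2 ⟨Ne.symm hab, hb⟩
      rw [h7] at h8
      exact absurd h8 (Finset.notMem_erase _ _)
    have hreq : r = (- (D * (y T / y (T.erase a)))) • Finsupp.single (M.mkF (T.erase a) h1 h2) (1 : ℚ) +
        (D * (y T / y (T.erase b))) • Finsupp.single (M.mkF (T.erase b) h3 h4) (1 : ℚ) := by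
      ext F
      rw [hrF F, Finsupp.add_apply, Finsupp.smul_apply, Finsupp.smul_apply, Finsupp.single_apply,
        Finsupp.single_apply]
      by_cases h7 : F = M.mkF (T.erase a) h1 h2
      · subst h7
        rw [if_pos rfl, if_pos rfl, if_neg (Ne.symm hFab)]
        simp
      · rw [if_neg h7, if_neg (Ne.symm h7)]
        by_cases h8 : F = M.mkF (T.erase b) h3 h4
        · rw [if_pos h8, if_pos h8.symm]; simp
        · rw [if_neg h8, if_neg (Ne.symm h8)]; simp
    have h9 : (Submodule.Quotient.mk r : (FaceOfDim P j →₀ ℚ) ⧸ Submodule.span ℚ (relations P j)) = 0 := by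
      rw [Submodule.Quotient.mk_eq_zero]; exact Submodule.subset_span hr
    rw [hreq, Submodule.Quotient.mk_add, Submodule.Quotient.mk_smul, Submodule.Quotient.mk_smul] at h9
    have h10 : (D * y T) • (- mkc (M.mkF (T.erase a) h1 h2) + mkc (M.mkF (T.erase b) h3 h4)) = 0 := by
      rw [← h9]
      simp only [mkc, M.vt_mk, smul_add, smul_neg, smul_smul]
      rw [neg_smul, div_eq_mul_inv, div_eq_mul_inv, ← mul_assoc, ← mul_assoc]
    have h11 := (smul_eq_zero.1 h10).resolve_left (mul_ne_zero hDq.ne' hyT)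
    have h12 := neg_add_eq_zero.1 h11
    exact h12
  obtain ⟨T₀, hT₀, hc₀⟩ := M.ex
  have hall : ∀ F : FaceOfDim P j, mkc F = mkc (M.mkF T₀ hT₀ hc₀) := by
    intro F
    let val : Finset V → ℚ := fun T => if h : ∃ F' : FaceOfDim P j, M.vt F' = T ∧ mkc F' = mkc (M.mkF T₀ hT₀ hc₀) then 1 else 0
    have hconn := M.conn val (by
      intro H hH hHc G G' hG hG' hGc hG'c
      have hKG := M.down _ _ hG hH
      have hKG' := M.down _ _ hG' hH
      have hs : mkc (M.mkF G hKG hGc) = mkc (M.mkF G' hKG' hG'c) := by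
        have hex : ∀ G'' : Finset V, G'' ⊆ H → G''.card = j + 1 → ∃ t ∈ H, G'' = H.erase t := by
          intro G'' hsub hcc
          obtain ⟨t, htT, htF⟩ : ∃ t ∈ H, t ∉ G'' := by
            by_contra hcon
            push Not at hcon
            have := Finset.card_le_card (show H ⊆ G'' from hcon)
            omega
          refine ⟨t, htT, Finset.eq_of_subset_of_card_le ?_ ?_⟩
          · intro s hs
            exact Finset.mem_erase.2 ⟨fun h => htF (by rw [← h]; exact hs), hsub hs⟩
          · rw [Finset.card_erase_of_mem htT, hHc, hcc]; rfl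
        obtain ⟨a, ha, rfl⟩ := hex G hG hGc
        obtain ⟨b, hb, rfl⟩ := hex G' hG' hG'c
        exact hstep H hH hHc a ha b hb _ _ _ _
      simp only [val]
      have hiff : (∃ F' : FaceOfDim P j, M.vt F' = G ∧ mkc F' = mkc (M.mkF T₀ hT₀ hc₀)) ↔
          (∃ F' : FaceOfDim P j, M.vt F' = G' ∧ mkc F' = mkc (M.mkF T₀ hT₀ hc₀)) := by
        constructor
        · rintro ⟨F', h1, h2⟩
          have h3 : F' = M.mkF G hKG hGc := by apply M.vt_inj; rw [M.vt_mk, h1]
          exact ⟨M.mkF G' hKG' hG'c, M.vt_mk _ _ _, by rw [← hs, ← h3, h2]⟩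
        · rintro ⟨F', h1, h2⟩
          have h3 : F' = M.mkF G' hKG' hG'c := by apply M.vt_inj; rw [M.vt_mk, h1]
          exact ⟨M.mkF G hKG hGc, M.vt_mk _ _ _, by rw [hs, ← h3, h2]⟩
      by_cases h : ∃ F' : FaceOfDim P j, M.vt F' = G ∧ mkc F' = mkc (M.mkF T₀ hT₀ hc₀)
      · rw [dif_pos h, dif_pos (hiff.1 h)]
      · rw [dif_neg h, dif_neg (fun h' => h (hiff.2 h'))])
      (M.vt F) T₀ (M.vt_K F) hT₀ (M.vt_card F) hc₀
    simp only [val] at hconn
    have h0 : ∃ F' : FaceOfDim P j, M.vt F' = T₀ ∧ mkc F' = mkc (M.mkF T₀ hT₀ hc₀) :=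
      ⟨M.mkF T₀ hT₀ hc₀, M.vt_mk _ _ _, rfl⟩
    rw [dif_pos h0] at hconn
    by_cases h : ∃ F' : FaceOfDim P j, M.vt F' = M.vt F ∧ mkc F' = mkc (M.mkF T₀ hT₀ hc₀)
    · obtain ⟨F', h1, h2⟩ := h
      rw [← M.vt_inj h1]; exact h2
    · rw [dif_neg h] at hconn
      exact absurd hconn (by norm_num)
  -- dimension one
  unfold chowBetti
  apply finrank_eq_one (mkc (M.mkF T₀ hT₀ hc₀))
  · -- nonzero
    intro h0
    let ℓ' : ((FaceOfDim P j →₀ ℚ) ⧸ Submodule.span ℚ (relations P j)) →ₗ[ℚ] ℚ :=
      (Submodule.span ℚ (relations P j)).liftQ ℓ hkill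
    have h1 : ℓ' (mkc (M.mkF T₀ hT₀ hc₀)) = 1 := by
      simp only [mkc, map_smul, ℓ']
      rw [Submodule.liftQ_apply]
      simp only [ℓ]
      rw [Finsupp.linearCombination_single, one_smul, smul_eq_mul, M.vt_mk]
      exact inv_mul_cancel₀ (hyne T₀ hT₀)
    rw [h0, map_zero] at h1
    exact zero_ne_one h1
  · intro w
    obtain ⟨r, rfl⟩ := Submodule.Quotient.mk_surjective _ w
    induction r using Finsupp.induction_linear with
    | zero => exact ⟨0, by rw [zero_smul]; rfl⟩
    | add f g hf hg =>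
      obtain ⟨c, hc⟩ := hf
      obtain ⟨c', hc'⟩ := hg
      exact ⟨c + c', by rw [add_smul, hc, hc']; rfl⟩
    | single F a =>
      refine ⟨a * y (M.vt F), ?_⟩
      rw [← hall F]
      simp only [mkc]
      rw [smul_smul, mul_assoc, mul_inv_cancel₀ (hyne _ (M.vt_K F)), mul_one,
        ← Submodule.Quotient.mk_smul, Finsupp.smul_single, smul_eq_mul, mul_one]

end SimpModel

end Pool.Agent.Helper40.CB
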