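import Pool.Agent.Helper40.CB.DualFin

set_option autoImplicit false

namespace Pool.Agent.Helper40.CB

open Finset Matrix Module

variable {d n k : ℕ}

theorem exists_gd_card (hk : 1 ≤ k) (hkn : k + 1 ≤ n) {a : ℕ} (ha : a + 2 ≤ n) :
    ∃ G, Gd n k G ∧ G.card = a := by
  classical
  obtain ⟨A, -, hA⟩ := Finset.exists_subset_card_eq (s := (univ : Finset (Fin n))) (n := k)
    (by rw [Finset.card_univ, Fintype.card_fin]; omega)
  obtain ⟨x, hx⟩ : A.Nonempty := by rw [← Finset.card_pos]; omega
  obtain ⟨c, hc⟩ : ∃ c, c ∉ A := by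
    by_contra hcon
    push Not at hcon
    have : A = univ := Finset.eq_univ_iff_forall.2 hcon
    rw [this, Finset.card_univ, Fintype.card_fin] at hA
    omega
  have h7 : (x, true) ∈ sgn A := mem_sgn_true.2 hx
  have h8 : (c, false) ∈ (sgn A).erase (x, true) := by
    rw [Finset.mem_erase]
    exact ⟨by simp, mem_sgn_false.2 hc⟩
  have h9 := Finset.card_erase_add_one h8
  have h10 := Finset.card_erase_add_one h7
  rw [card_sgn] at h10
  obtain ⟨G, hG, hGc⟩ := Finset.exists_subset_card_eq (s := ((sgn A).erase (x, true)).erase (c, false))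
    (n := a) (by omega)
  refine ⟨G, ⟨A, x, c, hA, hx, hc, fun ρ hρ => ?_⟩, hGc⟩
  have := hG hρ
  rw [Finset.mem_erase, Finset.mem_erase] at this
  exact ⟨this.2.2, this.2.1, this.1⟩

namespace DualModel

variable {P : Set (Fin d → ℚ)} (M : DualModel n k P)

theorem exists_gd (hn : n = d + 1) (hk : 2 ≤ k) (hkn : k + 2 ≤ n) (hdim : affineSpan ℚ P = ⊤)
    {j : ℕ} (hj : j + 3 ≤ n) (F : FaceOfDim P j) : ∃ T, Gd n k T ∧ T.card = j + 1 ∧ F.1 = M.face T := by
  have hFd : finrank ℚ (vs F.1) = j := F.2.2.2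
  obtain ⟨G, hG, hne, hF⟩ := eq_face (M := M) F.2.1 F.2.2.1 (by
    intro h
    rw [h, finrank_P hdim] at hFd
    omega)
  rcases hG with hG | ⟨A, hA, rfl⟩
  · have h1 := fdim (M := M) hn hk hkn hG hne
    rw [← hF, hFd] at h1
    exact ⟨G, hG, h1.symm, hF⟩
  · exfalso
    have h1 := fdim_facet (M := M) hn hk hkn hA
    rw [← hF, hFd] at h1
    omega

/-- the faces of small dimension are simplices -/
noncomputable def lowModel (hn : n = d + 1) (hk : 2 ≤ k) (hkn : k + 2 ≤ n)
    (hdim : affineSpan ℚ P = ⊤) {j : ℕ} (hj : j + 4 ≤ n) : SimpModel P (Fin n × Bool) j where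
  hP := M.hP
  q := M.q
  K := Gd n k
  down := fun T T' h hT => Gd.down h hT
  face := M.face
  isFace := fun T hT _ => isFace_face (Or.inl hT)
  mem := fun T hT hne x => by
    constructor
    · rintro ⟨hx, hv⟩
      obtain ⟨ρ, rfl⟩ := M.allV x hv
      exact ⟨ρ, (q_mem_face (Or.inl hT)).1 hx, rfl⟩
    · rintro ⟨ρ, hρ, rfl⟩
      exact ⟨(q_mem_face (Or.inl hT)).2 hρ, M.isV ρ⟩
  inj := M.inj
  dim := fun T hT hne => fdim hn hk hkn hT hne
  all_j := fun F => M.exists_gd hn hk hkn hdim (by omega) F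
  all_j1 := fun F => M.exists_gd hn hk hkn hdim (by omega) F
  conn := fun val h G G' hG hG' hGc hG'c =>
    Pool.Agent.Helper93.CB.conn hk hkn (by omega) (by omega) val
      (fun H hH hHc G G' hG hG' hGc hG'c => h H (valid_iff_gd.1 hH) hHc G G' hG hG' hGc hG'c)
      G G' (valid_iff_gd.2 hG) (valid_iff_gd.2 hG') hGc hG'c
  ex := exists_gd_card (by omega) (by omega) (by omega)

include M in
theorem dual_low (hn : n = d + 1) (hk : 2 ≤ k) (hkn : k + 2 ≤ n)
    (hdim : affineSpan ℚ P = ⊤) {j : ℕ} (hj : j + 4 ≤ n) : chowBetti P j = 1 :=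
  (M.lowModel hn hk hkn hdim hj).chow_eq_one

end DualModel

theorem chow_dual_aux {P P' : Set (Fin d → ℚ)} (M : DualModel n k P) (M' : DualModel n k P')
    (hn : n = d + 1) (hk : 2 ≤ k) (hkn : 2 * k ≤ n) (hP : affineSpan ℚ P = ⊤)
    (hP' : affineSpan ℚ P' = ⊤) (j : ℕ) : chowBetti P j = chowBetti P' j := by
  have hne : ∀ {P : Set (Fin d → ℚ)} (_ : DualModel n k P), P.Nonempty := by
    intro P M
    exact ⟨_, DualModel.q_mem_P (M := M) (⟨0, by omega⟩, true)⟩
  rcases Nat.lt_or_ge (j + 3) n with h | h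
  · rw [M.dual_low hn hk (by omega) hP h, M'.dual_low hn hk (by omega) hP' h]
  · rcases Nat.lt_trichotomy j d with hj | rfl | hj
    · rcases (show j + 2 = d ∨ j + 1 = d by omega) with hj | hj
      · have e1 := M.dual_mid hn hk hkn hP hj
        have e2 := M'.dual_mid hn hk hkn hP' hj
        omega
      · have e1 := M.dual_top hn hk (by omega) hP hj
        have e2 := M'.dual_top hn hk (by omega) hP' hj
        omega
    · rw [chow_top hP (hne M), chow_top hP' (hne M')]
    · rw [chow_big hj, chow_big hj]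

/-- **Part B.** -/
theorem chow_dual {P P' : Set (Fin d → ℚ)} (M : DualModel n k P) (M' : DualModel n k P')
    (hn : n = d + 1) (hk : 2 ≤ k) (hkn : k + 2 ≤ n) (hP : affineSpan ℚ P = ⊤)
    (hP' : affineSpan ℚ P' = ⊤) (j : ℕ) : chowBetti P j = chowBetti P' j := by
  rcases Nat.lt_or_ge n (2 * k) with h | h
  · exact chow_dual_aux (M.flip (by omega)) (M'.flip (by omega)) hn (by omega) (by omega) hP hP' j
  · exact chow_dual_aux M M' hn hk h hP hP' j

namespace BoolModel

variable {P : Set (Fin d → ℚ)} (M : BoolModel n P)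

noncomputable def face (G : Finset (Fin n)) : Set (Fin d → ℚ) := (M.of_face G).choose

variable {M}

theorem isFace_face (G : Finset (Fin n)) : IsFace P (M.face G) := (M.of_face G).choose_spec.1

theorem q_mem_face {G : Finset (Fin n)} {i : Fin n} : M.q i ∈ M.face G ↔ i ∈ G :=
  (M.of_face G).choose_spec.2 i

theorem face_sub {F F' : Set (Fin d → ℚ)} (hF : IsFace P F) (hF' : IsFace P F')
    (h : ∀ i, M.q i ∈ F → M.q i ∈ F') : F ⊆ F' := by
  apply face_subset M.hP hF hF'
  intro x hx hxv
  obtain ⟨ρ, rfl⟩ := M.allV x hxv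
  exact h ρ hx

theorem eq_face {F : Set (Fin d → ℚ)} (hF : IsFace P F) :
    ∃ G : Finset (Fin n), F = M.face G := by
  classical
  refine ⟨univ.filter (fun i => M.q i ∈ F), Set.Subset.antisymm ?_ ?_⟩
  · exact face_sub hF (isFace_face _) fun i hi => q_mem_face.2 (by simp [hi])
  · exact face_sub (isFace_face _) hF fun i hi => by simpa using q_mem_face.1 hi

theorem fdim_step {G : Finset (Fin n)} {i : Fin n} (hne : G.Nonempty) (hi : i ∉ G) :
    finrank ℚ (vs (M.face G)) < finrank ℚ (vs (M.face (insert i G))) := by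
  obtain ⟨x, hx⟩ := hne
  apply fdim_lt (isFace_face _) (isFace_face _) ⟨_, q_mem_face.2 hx⟩
  · exact face_sub (isFace_face _) (isFace_face _) fun j hj =>
      q_mem_face.2 (Finset.mem_insert_of_mem (q_mem_face.1 hj))
  · intro h
    have : M.q i ∈ M.face G := by rw [h]; exact q_mem_face.2 (Finset.mem_insert_self _ _)
    exact hi (q_mem_face.1 this)

theorem fdim_low (G : Finset (Fin n)) : G.card ≤ finrank ℚ (vs (M.face G)) + 1 := by
  classical
  induction G using Finset.induction_on with
  | empty => simp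
  | insert i G hi ih =>
    rw [Finset.card_insert_of_notMem hi]
    rcases G.eq_empty_or_nonempty with rfl | hne
    · simp
    · have h2 := fdim_step (M := M) hne hi
      omega

theorem fdim_up (hn : n = d + 1) (G : Finset (Fin n)) (hne : G.Nonempty) :
    finrank ℚ (vs (M.face G)) + 1 ≤ G.card := by
  classical
  have key : ∀ N : ℕ, ∀ G : Finset (Fin n), G.Nonempty → G.card + N = n →
      finrank ℚ (vs (M.face G)) + 1 ≤ G.card := by
    intro N
    induction N with
    | zero =>
      intro G _ hN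
      have h2 := Submodule.finrank_le (vs (M.face G))
      rw [Module.finrank_fin_fun] at h2
      omega
    | succ N ih =>
      intro G hne hN
      obtain ⟨i, hi⟩ : ∃ i, i ∉ G := by
        by_contra hcon
        push Not at hcon
        rw [Finset.eq_univ_iff_forall.2 hcon, Finset.card_univ, Fintype.card_fin] at hN
        omega
      have h1 := ih (insert i G) ⟨i, Finset.mem_insert_self _ _⟩
        (by rw [Finset.card_insert_of_notMem hi]; omega)
      have h2 := fdim_step (M := M) hne hi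
      rw [Finset.card_insert_of_notMem hi] at h1
      omega
  have hle : G.card ≤ n := by simpa using Finset.card_le_univ G
  exact key (n - G.card) G hne (by omega)

variable (M)

/-- simplices -/
noncomputable def simpModel (hn : n = d + 1) {j : ℕ} (hj : j + 1 ≤ d) : SimpModel P (Fin n) j where
  hP := M.hP
  q := M.q
  K := fun _ => True
  down := fun _ _ _ _ => trivial
  face := M.face
  isFace := fun T _ _ => isFace_face T
  mem := fun T _ _ x => by
    constructor
    · rintro ⟨hx, hv⟩
      obtain ⟨i, rfl⟩ := M.allV x hv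
      exact ⟨i, q_mem_face.1 hx, rfl⟩
    · rintro ⟨i, hi, rfl⟩
      exact ⟨q_mem_face.2 hi, M.isV i⟩
  inj := M.inj
  dim := fun T _ hne => le_antisymm (fdim_up hn T hne) (fdim_low T)
  all_j := fun F => by
    obtain ⟨G, hG⟩ := eq_face (M := M) F.2.1
    have hne : G.Nonempty := by
      obtain ⟨x, hx, hxv, -⟩ := exists_vertex M.hP F.2.1 F.2.2.1 0
      obtain ⟨i, rfl⟩ := M.allV x hxv
      rw [hG] at hx
      exact ⟨i, q_mem_face.1 hx⟩
    have hFd : finrank ℚ (vs F.1) = j := F.2.2.2
    have h1 := fdim_up (M := M) hn G hne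
    have h2 := fdim_low (M := M) G
    rw [← hG] at h1 h2
    exact ⟨G, trivial, by omega, hG⟩
  all_j1 := fun F => by
    obtain ⟨G, hG⟩ := eq_face (M := M) F.2.1
    have hne : G.Nonempty := by
      obtain ⟨x, hx, hxv, -⟩ := exists_vertex M.hP F.2.1 F.2.2.1 0
      obtain ⟨i, rfl⟩ := M.allV x hxv
      rw [hG] at hx
      exact ⟨i, q_mem_face.1 hx⟩
    have hFd : finrank ℚ (vs F.1) = j + 1 := F.2.2.2
    have h1 := fdim_up (M := M) hn G hne
    have h2 := fdim_low (M := M) G
    rw [← hG] at h1 h2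
    exact ⟨G, trivial, by omega, hG⟩
  conn := fun val h G G' _ _ hGc hG'c => by
    have h1 := johnson_conn (n := n) (k := j + 1) (val := fun A => val A.1) (fun A B hAB => by
      apply h (A.1 ∪ B.1) trivial _ _ _ Finset.subset_union_left Finset.subset_union_right A.2 B.2
      have := Finset.card_union_add_card_inter A.1 B.1
      rw [A.2, B.2] at this
      omega)
    exact h1 ⟨G, hGc⟩ ⟨G', hG'c⟩
  ex := by
    obtain ⟨A, -, hA⟩ := Finset.exists_subset_card_eq (s := (univ : Finset (Fin n))) (n := j + 1)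
      (by rw [Finset.card_univ, Fintype.card_fin]; omega)
    exact ⟨A, trivial, hA⟩

end BoolModel

theorem chow_bool {P P' : Set (Fin d → ℚ)} (M : BoolModel n P) (M' : BoolModel n P')
    (hn : n = d + 1) (hP : affineSpan ℚ P = ⊤)
    (hP' : affineSpan ℚ P' = ⊤) (j : ℕ) : chowBetti P j = chowBetti P' j := by
  have hne : ∀ {P : Set (Fin d → ℚ)} (_ : BoolModel n P), P.Nonempty := by
    intro P M
    exact ⟨_, (M.isV (⟨0, by omega⟩ : Fin n)).subset (Set.mem_singleton _)⟩
  rcases Nat.lt_trichotomy j d with hj | rfl | hj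
  · rw [(M.simpModel hn hj).chow_eq_one, (M'.simpModel hn hj).chow_eq_one]
  · rw [chow_top hP (hne M), chow_top hP' (hne M')]
  · rw [chow_big hj, chow_big hj]

end Pool.Agent.Helper40.CB
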