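import Pool.Agent.Helper40.CB.LemmaS
import Pool.Agent.Helper40.CB.HypShell
import Pool.Agent.Helper93.CB.Conn

set_option autoImplicit false

namespace Pool.Agent.Helper40.CB

open Finset Matrix Module

variable {d : ℕ}

/-- Vertices and faces of a polytope of the type of `Δ(k,n)`. -/
structure HypModel (n k : ℕ) (P : Set (Fin d → ℚ)) where
  hP : IsPolytope P
  p : Finset (Fin n) → (Fin d → ℚ)
  isV : ∀ A : Finset (Fin n), A.card = k → IsFace P {p A}
  allV : ∀ x, IsFace P {x} → ∃ A : Finset (Fin n), A.card = k ∧ x = p A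
  inj : ∀ A B : Finset (Fin n), A.card = k → B.card = k → p A = p B → A = B
  face_of : ∀ F, IsFace P F → F.Nonempty →
    ∃ G : Finset (Fin n × Bool), (∃ A : Finset (Fin n), A.card = k ∧ G ⊆ sgn A) ∧
      ∀ A : Finset (Fin n), A.card = k → (p A ∈ F ↔ G ⊆ sgn A)
  of_face : ∀ G : Finset (Fin n × Bool), (∃ A : Finset (Fin n), A.card = k ∧ G ⊆ sgn A) →
    ∃ F, IsFace P F ∧ ∀ A : Finset (Fin n), A.card = k → (p A ∈ F ↔ G ⊆ sgn A)

/-- Vertices and faces of a polytope of the dual type. -/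
structure DualModel (n k : ℕ) (P : Set (Fin d → ℚ)) where
  hP : IsPolytope P
  q : Fin n × Bool → (Fin d → ℚ)
  isV : ∀ ρ, IsFace P {q ρ}
  allV : ∀ x, IsFace P {x} → ∃ ρ, x = q ρ
  inj : Function.Injective q
  face_of : ∀ F, IsFace P F → F.Nonempty → F ≠ P →
    ∃ G : Finset (Fin n × Bool), (Pool.Agent.Helper93.CB.Valid n k G ∨
      ∃ A : Finset (Fin n), A.card = k ∧ G = sgn A) ∧ ∀ ρ, q ρ ∈ F ↔ ρ ∈ G
  of_face : ∀ G : Finset (Fin n × Bool), (Pool.Agent.Helper93.CB.Valid n k G ∨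
      ∃ A : Finset (Fin n), A.card = k ∧ G = sgn A) → ∃ F, IsFace P F ∧ ∀ ρ, q ρ ∈ F ↔ ρ ∈ G

/-- Vertices and faces of a simplex with `n` vertices. -/
structure BoolModel (n : ℕ) (P : Set (Fin d → ℚ)) where
  hP : IsPolytope P
  q : Fin n → (Fin d → ℚ)
  isV : ∀ i, IsFace P {q i}
  allV : ∀ x, IsFace P {x} → ∃ i, x = q i
  inj : Function.Injective q
  of_face : ∀ G : Finset (Fin n), ∃ F, IsFace P F ∧ ∀ i, q i ∈ F ↔ i ∈ G

end Pool.Agent.Helper40.CB
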