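import Pool.Agent.Helper40.CB.HypCfg

set_option autoImplicit false

namespace Pool.Agent.Helper40.CB

open Finset Matrix Module Cfg

variable {d n k : ℕ}

theorem gd_iff {G : Finset (Fin n × Bool)} :
    Gd n k G ↔ ((∃ q : Pt n k, G ⊆ PhiOf q) ∧ ¬ nw n k G) := by
  classical
  constructor
  · rintro ⟨A, a, c, hA, ha, hc, h4⟩
    refine ⟨⟨⟨(A, a), hA, ha⟩, fun ρ hρ => ?_⟩, ?_⟩
    · obtain ⟨h1, h2, -⟩ := h4 ρ hρ
      exact Finset.mem_erase.2 ⟨h2, h1⟩
    · rintro ⟨A', hA', h⟩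
      have hsub : insert c A ⊆ A' := by
        intro i hi
        by_contra hcon
        obtain ⟨h1, h2, h3⟩ := h4 _ (h i hcon)
        rcases Finset.mem_insert.1 hi with rfl | hi
        · exact h3 rfl
        · exact mem_sgn_false.1 h1 hi
      have := Finset.card_le_card hsub
      rw [Finset.card_insert_of_notMem hc, hA, hA'] at this
      omega
  · rintro ⟨⟨q, hq⟩, hnw⟩
    obtain ⟨c, hc, hcG⟩ : ∃ c, c ∉ q.1.1 ∧ (c, false) ∉ G := by
      by_contra hcon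
      push Not at hcon
      exact hnw ⟨q.1.1, q.2.1, hcon⟩
    refine ⟨q.1.1, q.1.2, c, q.2.1, q.2.2, hc, fun ρ hρ => ?_⟩
    have h1 := Finset.mem_erase.1 (hq hρ)
    exact ⟨h1.2, h1.1, fun h => hcG (h ▸ hρ)⟩

namespace HypModel

variable {P : Set (Fin d → ℚ)} {M : HypModel n k P}

/-- faces which are not points come from good signed sets -/
theorem exists_gd {F : Set (Fin d → ℚ)} (hF : IsFace P F) (hne : F.Nonempty)
    (hdim : finrank ℚ (vs F) ≠ 0) : ∃ G, Gd n k G ∧ F = M.face G := by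
  obtain ⟨G, hG, rfl⟩ := eq_face (M := M) hF hne
  refine ⟨G, ?_, rfl⟩
  obtain ⟨A, hA, hGA⟩ := hG
  by_contra hcon
  apply hdim
  rw [Submodule.finrank_eq_zero, Submodule.eq_bot_iff]
  intro m hm
  have h1 := vs_vertices M.hP hF hm
  have h2 : {z | ∃ a b, a ∈ M.face G ∧ b ∈ M.face G ∧ IsFace P {a} ∧ IsFace P {b} ∧ z = a - b} ⊆ {0} := by
    rintro z ⟨a, b, ha, hb, hav, hbv, rfl⟩
    obtain ⟨B, hB, rfl⟩ := M.allV a hav
    obtain ⟨C, hC, rfl⟩ := M.allV b hbv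
    have h3 := (p_mem_face ⟨A, hA, hGA⟩ hB).1 ha
    have h4 := (p_mem_face ⟨A, hA, hGA⟩ hC).1 hb
    have h5 : B = C := by
      by_contra hne'
      exact hcon (Gd.of_two hB hC hne' h3 h4)
    rw [h5, sub_self]; rfl
  have h3 := Submodule.span_mono (R := ℚ) h2 h1
  rwa [Submodule.span_zero_singleton] at h3

variable (hn : n = d + 1) (hk : 2 ≤ k) (hkn : 2 * k ≤ n)

variable (M)

/-- the face of a generator -/
noncomputable def mkFace {j : ℕ} (hj : j ≤ d) (G : Finset (Fin n × Bool)) (hG : Gd n k G)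
    (hc : G.card = d - j) : FaceOfDim P j :=
  ⟨M.face G, isFace_face hG.ok, face_ne hG.ok, by
    have h1 := fdim (M := M) hn hG
    have h2 : finrank ℚ (vectorSpan ℚ (M.face G)) = finrank ℚ (vs (M.face G)) := rfl
    omega⟩

noncomputable def eps {j : ℕ} (hj1 : 1 ≤ j) (hj : j ≤ d) :
    (M.cfg hn hk hkn).sh.Gen (nw n k) (d - j) ≃ FaceOfDim P j :=
  Equiv.ofBijective (fun G => M.mkFace hn hj G.1 (gd_iff.2 ⟨G.2.1, G.2.2.1⟩) G.2.2.2) (by
    constructor
    · rintro ⟨G, h1, h2, h3⟩ ⟨G', h1', h2', h3'⟩ h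
      have h4 : M.face G = M.face G' := congrArg Subtype.val h
      apply Subtype.ext
      exact Finset.Subset.antisymm
        (face_inj (M := M) (gd_iff.2 ⟨h1, h2⟩) (gd_iff.2 ⟨h1', h2'⟩) h4.ge)
        (face_inj (M := M) (gd_iff.2 ⟨h1', h2'⟩) (gd_iff.2 ⟨h1, h2⟩) h4.le)
    · intro F
      obtain ⟨G, hG, hF⟩ := exists_gd (M := M) F.2.1 F.2.2.1 (by
        have h2 : finrank ℚ (vectorSpan ℚ F.1) = finrank ℚ (vs F.1) := rfl
        have := F.2.2.2
        omega)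
      have h1 := fdim (M := M) hn hG
      have h2 : finrank ℚ (vs (M.face G)) = j := by rw [← hF]; exact F.2.2.2
      refine ⟨⟨G, (gd_iff.1 hG).1, (gd_iff.1 hG).2, by omega⟩, ?_⟩
      apply Subtype.ext
      exact hF.symm)

theorem eps_val {j : ℕ} (hj1 : 1 ≤ j) (hj : j ≤ d)
    (G : (M.cfg hn hk hkn).sh.Gen (nw n k) (d - j)) : (M.eps hn hk hkn hj1 hj G).1 = M.face G.1 := rfl

include M hn hk hkn in
theorem finite_faces {j : ℕ} (hj1 : 1 ≤ j) (hj : j ≤ d) : Finite (FaceOfDim P j) :=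
  Finite.of_equiv _ (M.eps hn hk hkn hj1 hj)

include hn hk hkn in
theorem exists_y : ∃ y : Finset (Fin n × Bool) → ℚ, (∀ G, Gd n k G → y G ≠ 0) ∧
    ∀ G ρ, ρ ∉ G → Gd n k (insert ρ G) → y (insert ρ G) = y G * M.hh G ρ := by
  obtain ⟨y, h0, h1⟩ := exists_potential (Gd n k) (fun T T' h hT => Gd.down h hT) M.hh
    (fun G ρ σ hρ hσ hne hG => hh_diamond hn hk (by omega) G ρ σ hρ hσ hne hG)
  exact ⟨y, potential_ne (fun T T' h hT => Gd.down h hT) (fun T t _ _ => (hh_pos T t).ne') h0 h1, h1⟩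

/-- The relation of a face in terms of the configuration. -/
theorem rel_formula {j : ℕ} (hj1 : 1 ≤ j) (hj : j + 1 ≤ d) {y : Finset (Fin n × Bool) → ℚ}
    (hy0 : ∀ G, Gd n k G → y G ≠ 0)
    (hy : ∀ G ρ, ρ ∉ G → Gd n k (insert ρ G) → y (insert ρ G) = y G * M.hh G ρ)
    {τ : Finset (Fin n × Bool)} (hτ : Gd n k τ) (hτc : τ.card + 1 = d - j) {m : Fin d → ℚ}
    (hm : m ∈ vs (M.face τ)) {r : FaceOfDim P j →₀ ℚ}
    (h1 : ∀ F : FaceOfDim P j, F.1 ⊆ M.face τ → r F = toQ (nv P F.1 (M.face τ)) ⬝ᵥ m)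
    (h2 : ∀ F : FaceOfDim P j, ¬ F.1 ⊆ M.face τ → r F = 0)
    (G : (M.cfg hn hk hkn).sh.Gen (nw n k) (d - j)) :
    (y G.1)⁻¹ * r (M.eps hn hk hkn hj1 (by omega) G) =
      (y τ)⁻¹ * (if τ ⊆ G.1 then m ⬝ᵥ (∑ ρ ∈ G.1, (M.cfg hn hk hkn).sh.w ρ) else 0) := by
  classical
  have hG : Gd n k G.1 := gd_iff.2 ⟨G.2.1, G.2.2.1⟩
  by_cases hsub : τ ⊆ G.1
  · obtain ⟨σ, hσ, hGσ⟩ := Sh.exists_insert hτc G.2.2.2 hsub
    rw [if_pos hsub]
    have hF : (M.eps hn hk hkn hj1 (by omega) G).1 = M.face (insert σ τ) := by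
      rw [eps_val, hGσ]
    have hG' : Gd n k (insert σ τ) := hGσ ▸ hG
    rw [h1 _ (by rw [hF]; exact face_anti (Finset.subset_insert _ _) hG'.ok), hF,
      hh_spec hn hk (by omega) hσ hG' hm, hGσ, hy τ σ hσ hG', Finset.sum_insert hσ, dotProduct_add,
      dotProduct_sum]
    have h3 : ∑ ρ ∈ τ, m ⬝ᵥ (M.cfg hn hk hkn).sh.w ρ = 0 := by
      apply Finset.sum_eq_zero
      intro ρ hρ
      rw [dotProduct_comm]
      exact (mem_vs_face hn hk (by omega) hτ m).1 hm ρ hρ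
    rw [h3, add_zero]
    have h4 : M.w σ ⬝ᵥ m = m ⬝ᵥ (M.cfg hn hk hkn).sh.w σ := by rw [dotProduct_comm]; rfl
    rw [h4]
    have h5 := hy0 τ hτ
    have h6 := (hh_pos (M := M) τ σ).ne'
    field_simp
  · rw [if_neg hsub, mul_zero, h2, mul_zero]
    rw [eps_val]
    exact fun h => hsub (face_inj hτ hG h)

include M hn hk hkn in
theorem chow_eq_core {j : ℕ} (hj1 : 1 ≤ j) (hj : j + 1 ≤ d) :
    chowBetti P j = finrank ℚ (((M.cfg hn hk hkn).sh.Gen (nw n k) (d - j) → ℚ) ⧸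
      Submodule.span ℚ ((M.cfg hn hk hkn).sh.relSet (nw n k) (d - j))) := by
  classical
  have hfin := M.finite_faces hn hk hkn hj1 (by omega : j ≤ d)
  obtain ⟨y, hy0, hy⟩ := M.exists_y hn hk hkn
  let C := (M.cfg hn hk hkn).sh
  let ψ : (FaceOfDim P j →₀ ℚ) ≃ₗ[ℚ] (C.Gen (nw n k) (d - j) → ℚ) :=
    (Finsupp.linearEquivFunOnFinite ℚ ℚ (FaceOfDim P j)).trans
      ((LinearEquiv.funCongrLeft ℚ ℚ (M.eps hn hk hkn hj1 (by omega))).trans
        (LinearEquiv.piCongrRight (fun G : C.Gen (nw n k) (d - j) =>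
          LinearEquiv.smulOfNeZero ℚ ℚ (y G.1)⁻¹ (inv_ne_zero (hy0 _ (gd_iff.2 ⟨G.2.1, G.2.2.1⟩))))))
  have hψ : ∀ r G, ψ r G = (y G.1)⁻¹ * r (M.eps hn hk hkn hj1 (by omega) G) := fun r G => rfl
  have hmap : (Submodule.span ℚ (relations P j)).map (ψ : (FaceOfDim P j →₀ ℚ) →ₗ[ℚ] (C.Gen (nw n k) (d - j) → ℚ)) =
      Submodule.span ℚ (C.relSet (nw n k) (d - j)) := by
    apply le_antisymm
    · rw [Submodule.map_span, Submodule.span_le]
      rintro f ⟨r, ⟨G, m, hm, hr⟩, rfl⟩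
      obtain ⟨τ, hτ, hGτ⟩ := exists_gd (M := M) G.2.1 G.2.2.1 (by
        have h2 : finrank ℚ (vectorSpan ℚ G.1) = finrank ℚ (vs G.1) := rfl
        have := G.2.2.2
        omega)
      have hdim := fdim (M := M) hn hτ
      have hdim' : finrank ℚ (vs (M.face τ)) = j + 1 := by rw [← hGτ]; exact G.2.2.2
      have hτc : τ.card + 1 = d - j := by omega
      have hmG : toQ m ∈ vs (M.face τ) := by
        rw [← hGτ]; exact mem_vs_of_rel M.hP G.2.1 G.2.2.1 hm
      have h1 := M.rel_formula hn hk hkn hj1 hj hy0 hy hτ hτc hmG (r := r)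
        (fun F hF => by
          have := rel_val M.hP hm hr F (by rw [hGτ]; exact hF)
          rw [this, hGτ])
        (fun F hF => (hr F).2 (by rw [hGτ]; exact hF))
      have h2 : (ψ : (FaceOfDim P j →₀ ℚ) →ₗ[ℚ] (C.Gen (nw n k) (d - j) → ℚ)) r = (y τ)⁻¹ • (fun G : C.Gen (nw n k) (d - j) =>
          if τ ⊆ G.1 then toQ m ⬝ᵥ (∑ ρ ∈ G.1, C.w ρ) else 0) := by
        funext G
        rw [LinearEquiv.coe_coe, hψ, h1 G]; rfl
      show (ψ : (FaceOfDim P j →₀ ℚ) →ₗ[ℚ] (C.Gen (nw n k) (d - j) → ℚ)) r ∈ _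
      rw [h2]
      apply Submodule.smul_mem
      apply Submodule.subset_span
      refine ⟨τ, (gd_iff.1 hτ).1, (gd_iff.1 hτ).2, hτc, toQ m, ?_, fun G => rfl⟩
      intro ρ hρ
      rw [dotProduct_comm]
      exact (mem_vs_face hn hk (by omega) hτ _).1 hmG ρ hρ
    · rw [Submodule.span_le]
      rintro f ⟨τ, h1, h2, hτc, u, hu, hf⟩
      have hτ : Gd n k τ := gd_iff.2 ⟨h1, h2⟩
      have hmem : u ∈ vs (M.face τ) := by
        rw [mem_vs_face hn hk (by omega) hτ]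
        intro ρ hρ
        rw [dotProduct_comm]
        exact hu ρ hρ
      obtain ⟨D, hD, m, hm⟩ := exists_int_mul u
      have hDq : (D : ℚ) ≠ 0 := by exact_mod_cast hD.ne'
      have hmG : toQ m ∈ vs (M.face τ) := by rw [hm]; exact Submodule.smul_mem _ _ hmem
      obtain ⟨r, hr, hr1, hr2⟩ := exists_rel M.hP (M.mkFace hn (j := j + 1) hj τ hτ (by omega)) m hmG
      have h3 := M.rel_formula hn hk hkn hj1 hj hy0 hy hτ hτc hmG (r := r) hr1 hr2
      have h4 : f = (y τ * (D : ℚ)⁻¹) • (ψ : (FaceOfDim P j →₀ ℚ) →ₗ[ℚ] (C.Gen (nw n k) (d - j) → ℚ)) r := by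
        funext G
        rw [Pi.smul_apply, LinearEquiv.coe_coe, hψ, h3 G, hf G, hm, smul_eq_mul]
        have h5 := hy0 τ hτ
        split_ifs
        · rw [smul_dotProduct, smul_eq_mul]
          field_simp
          rfl
        · simp
      rw [h4]
      apply Submodule.smul_mem
      exact Submodule.mem_map_of_mem (Submodule.subset_span hr)
  exact LinearEquiv.finrank_eq (Submodule.Quotient.equiv _ _ ψ hmap)

end HypModel

/-- the top Chow group -/
theorem chow_top {P : Set (Fin d → ℚ)} (hdim : affineSpan ℚ P = ⊤) (hne : P.Nonempty) :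
    chowBetti P d = 1 := by
  have hvs : vs P = ⊤ := AffineSubspace.vectorSpan_eq_top_of_affineSpan_eq_top ℚ _ _ hdim
  have hPd : finrank ℚ (vs P) = d := by rw [hvs, finrank_top, Module.finrank_fin_fun]
  have hF : ∀ F : FaceOfDim P d, F.1 = P := by
    intro F
    by_contra hcon
    have h1 := fdim_lt F.2.1 (isFace_self P) F.2.2.1 F.2.1.subset hcon
    have h2 : finrank ℚ (vs F.1) = d := F.2.2.2
    omega
  let F₀ : FaceOfDim P d := ⟨P, isFace_self P, hne, hPd⟩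
  have : Unique (FaceOfDim P d) := ⟨⟨F₀⟩, fun F => Subtype.ext (hF F)⟩
  have hrel : relations P d = ∅ := by
    apply Set.eq_empty_of_forall_notMem
    rintro r ⟨G, m, -, -⟩
    have h1 : finrank ℚ (vs G.1) = d + 1 := G.2.2.2
    have h2 := Submodule.finrank_le (vs G.1)
    rw [h1, Module.finrank_fin_fun] at h2
    omega
  unfold chowBetti
  rw [hrel, Submodule.span_empty]
  rw [LinearEquiv.finrank_eq (Submodule.quotEquivOfEqBot (⊥ : Submodule ℚ (FaceOfDim P d →₀ ℚ)) rfl)]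
  rw [Module.finrank_finsupp_self]
  exact Fintype.card_unique

theorem chow_big {P : Set (Fin d → ℚ)} {j : ℕ} (hj : d < j) : chowBetti P j = 0 := by
  have : IsEmpty (FaceOfDim P j) := ⟨fun F => by
    have h1 : finrank ℚ (vs F.1) = j := F.2.2.2
    have h2 := Submodule.finrank_le (vs F.1)
    rw [h1, Module.finrank_fin_fun] at h2
    omega⟩
  unfold chowBetti
  exact Module.finrank_zero_of_subsingleton

end Pool.Agent.Helper40.CB
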