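import Pool.Agent.Helper40.CB.Geo2

set_option autoImplicit false

namespace Pool.Agent.Helper40.CB

open Matrix Finset

/-- potentials on simplicial complexes -/
theorem exists_potential {V : Type} [Fintype V] [DecidableEq V] (K : Finset V → Prop)
    (hK : ∀ T T', T ⊆ T' → K T' → K T) (h : Finset V → V → ℚ)
    (hdia : ∀ T t t', t ∉ T → t' ∉ T → t ≠ t' → K (insert t (insert t' T)) →
      h T t * h (insert t T) t' = h T t' * h (insert t' T) t) :
    ∃ y : Finset V → ℚ, y ∅ = 1 ∧ ∀ T t, t ∉ T → K (insert t T) → y (insert t T) = y T * h T t := by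
  classical
  have key : ∀ N : ℕ, ∃ y : Finset V → ℚ, y ∅ = 1 ∧ ∀ T t, t ∉ T → K (insert t T) →
      (insert t T).card ≤ N → y (insert t T) = y T * h T t := by
    intro N
    induction N with
    | zero =>
      refine ⟨fun _ => 1, rfl, fun T t ht _ hc => ?_⟩
      rw [Finset.card_insert_of_notMem ht] at hc
      omega
    | succ N ih =>
      obtain ⟨y, hy0, hy⟩ := ih
      let ch : Finset V → V → Prop := fun T s => s ∈ T
      refine ⟨fun T => if T.card ≤ N then y T else
        if hT : T.Nonempty then y (T.erase hT.choose) * h (T.erase hT.choose) hT.choose else 1, ?_, ?_⟩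
      · show (if (∅ : Finset V).card ≤ N then y ∅ else _) = 1
        rw [if_pos (by simp), hy0]
      · intro T t ht hKt hc
        have hcard : (insert t T).card = T.card + 1 := Finset.card_insert_of_notMem ht
        rcases Nat.lt_or_ge (insert t T).card (N + 1) with hlt | hge
        · show (if (insert t T).card ≤ N then y (insert t T) else _) = (if T.card ≤ N then y T else _) * h T t
          rw [if_pos (by omega), if_pos (by omega)]
          exact hy T t ht hKt (by omega)
        · show (if (insert t T).card ≤ N then y (insert t T) else _) = (if T.card ≤ N then y T else _) * h T t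
          rw [if_neg (by omega), if_pos (by omega)]
          have hne : (insert t T).Nonempty := ⟨t, Finset.mem_insert_self _ _⟩
          rw [dif_pos hne]
          set s := hne.choose with hs
          have hsmem : s ∈ insert t T := hne.choose_spec
          by_cases hst : s = t
          · rw [hst, Finset.erase_insert ht]
          · have hsT : s ∈ T := (Finset.mem_insert.1 hsmem).resolve_left hst
            set W := T.erase s with hW
            have hsW : s ∉ W := Finset.notMem_erase _ _
            have htW : t ∉ W := fun h' => ht (Finset.mem_of_mem_erase h')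
            have hT : T = insert s W := (Finset.insert_erase hsT).symm
            have hU : (insert t T).erase s = insert t W := by
              rw [Finset.erase_insert_of_ne (Ne.symm hst)]
            have hKW : K (insert t W) := hK _ _ (Finset.insert_subset_insert _ (Finset.erase_subset _ _)) hKt
            have hKW' : K (insert s W) := hK _ _ (by rw [← hT]; exact Finset.subset_insert _ _) hKt
            have hcW : W.card + 1 = T.card := by
              rw [hW, Finset.card_erase_of_mem hsT]
              have : 0 < T.card := Finset.card_pos.2 ⟨s, hsT⟩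
              omega
            have h1 := hy W t htW hKW (by rw [Finset.card_insert_of_notMem htW]; omega)
            have h2 := hy W s hsW hKW' (by rw [Finset.card_insert_of_notMem hsW]; omega)
            have h3 := hdia W t s htW hsW (Ne.symm hst) (by rw [← hT]; exact hKt)
            rw [hU, h1, hT, h2]
            calc y W * h W t * h (insert t W) s = y W * (h W t * h (insert t W) s) := by ring
              _ = y W * (h W s * h (insert s W) t) := by rw [h3]
              _ = y W * h W s * h (insert s W) t := by ring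
  obtain ⟨y, hy0, hy⟩ := key (Fintype.card V)
  exact ⟨y, hy0, fun T t ht hKt => hy T t ht hKt (Finset.card_le_univ _)⟩

theorem potential_ne {V : Type} [DecidableEq V] {K : Finset V → Prop}
    (hK : ∀ T T', T ⊆ T' → K T' → K T) {h : Finset V → V → ℚ}
    (hne : ∀ T t, t ∉ T → K (insert t T) → h T t ≠ 0) {y : Finset V → ℚ} (hy0 : y ∅ = 1)
    (hy : ∀ T t, t ∉ T → K (insert t T) → y (insert t T) = y T * h T t) :
    ∀ T, K T → y T ≠ 0 := by
  intro T
  induction T using Finset.induction_on with
  | empty => intro _; rw [hy0]; exact one_ne_zero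
  | insert t T ht ih =>
    intro hKt
    rw [hy T t ht hKt]
    exact mul_ne_zero (ih (hK _ _ (Finset.subset_insert _ _) hKt)) (hne T t ht hKt)

variable {d : ℕ}

/-- directions of a face are spanned by differences of vertices -/
theorem vs_vertices {P G : Set (Fin d → ℚ)} (hP : IsPolytope P) (hG : IsFace P G)
    {m : Fin d → ℚ} (hm : m ∈ vs G) :
    m ∈ Submodule.span ℚ {z | ∃ a b, a ∈ G ∧ b ∈ G ∧ IsFace P {a} ∧ IsFace P {b} ∧ z = a - b} := by
  apply mem_of_perp
  intro u hu
  by_cases hne : G.Nonempty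
  · obtain ⟨a, ha, hav, hmax⟩ := exists_vertex hP hG hne u
    obtain ⟨b, hb, hbv, hmin⟩ := exists_vertex hP hG hne (-u)
    have h1 := hu (a - b) (Submodule.subset_span ⟨a, b, ha, hb, hav, hbv, rfl⟩)
    rw [dotProduct_sub] at h1
    apply perp_vs _ hm
    intro x hx y hy
    have h2 := hmax x hx
    have h3 := hmin x hx
    have h4 := hmax y hy
    have h5 := hmin y hy
    rw [neg_dotProduct, neg_dotProduct] at h3 h5
    linarith
  · rw [Set.not_nonempty_iff_eq_empty.1 hne] at hm
    have : vs (∅ : Set (Fin d → ℚ)) = ⊥ := vectorSpan_empty ℚ _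
    rw [this] at hm
    rw [(Submodule.mem_bot ℚ).1 hm, dotProduct_zero]

/-- The `j`- and `(j+1)`-dimensional faces are simplices. -/
structure SimpModel (P : Set (Fin d → ℚ)) (V : Type) [Fintype V] [DecidableEq V] (j : ℕ) where
  hP : IsPolytope P
  q : V → (Fin d → ℚ)
  K : Finset V → Prop
  down : ∀ T T', T ⊆ T' → K T' → K T
  face : Finset V → Set (Fin d → ℚ)
  isFace : ∀ T, K T → T.Nonempty → IsFace P (face T)
  mem : ∀ T, K T → T.Nonempty → ∀ x, (x ∈ face T ∧ IsFace P {x}) ↔ ∃ t ∈ T, x = q t
  inj : Function.Injective q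
  dim : ∀ T, K T → T.Nonempty → Module.finrank ℚ (vs (face T)) + 1 = T.card
  all_j : ∀ F : FaceOfDim P j, ∃ T, K T ∧ T.card = j + 1 ∧ F.1 = face T
  all_j1 : ∀ G : FaceOfDim P (j + 1), ∃ T, K T ∧ T.card = j + 2 ∧ G.1 = face T
  conn : ∀ val : Finset V → ℚ, (∀ H, K H → H.card = j + 2 → ∀ G G', G ⊆ H → G' ⊆ H →
    G.card = j + 1 → G'.card = j + 1 → val G = val G') →
    ∀ G G', K G → K G' → G.card = j + 1 → G'.card = j + 1 → val G = val G'
  ex : ∃ T, K T ∧ T.card = j + 1

namespace SimpModel

variable {P : Set (Fin d → ℚ)} {V : Type} [Fintype V] [DecidableEq V] {j : ℕ} (M : SimpModel P V j)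

theorem q_mem {T : Finset V} (hT : M.K T) {t : V} (ht : t ∈ T) : M.q t ∈ M.face T :=
  ((M.mem T hT ⟨t, ht⟩ _).2 ⟨t, ht, rfl⟩).1

theorem q_mem_iff {T : Finset V} (hT : M.K T) (hne : T.Nonempty) {t : V} :
    M.q t ∈ M.face T ∧ IsFace P {M.q t} ↔ t ∈ T := by
  rw [M.mem T hT hne]
  constructor
  · rintro ⟨s, hs, h⟩
    rw [M.inj h]; exact hs
  · intro h; exact ⟨t, h, rfl⟩

theorem q_notMem {T : Finset V} {t : V} (hT : M.K (insert t T)) (hne : T.Nonempty) (ht : t ∉ T) :
    M.q t ∉ M.face T := by
  intro h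
  have hT' : M.K T := M.down _ _ (Finset.subset_insert _ _) hT
  have h1 := ((M.mem _ hT ⟨t, Finset.mem_insert_self _ _⟩ _).2 ⟨t, Finset.mem_insert_self _ _, rfl⟩).2
  exact ht ((M.q_mem_iff hT' hne).1 ⟨h, h1⟩)

theorem face_mono {T T' : Finset V} (hT' : M.K T') (hne : T.Nonempty) (h : T ⊆ T') :
    M.face T ⊆ M.face T' := by
  have hT := M.down _ _ h hT'
  apply face_subset M.hP (M.isFace T hT hne) (M.isFace T' hT' (hne.mono h))
  intro p hp hpv
  obtain ⟨t, ht, rfl⟩ := (M.mem T hT hne p).1 ⟨hp, hpv⟩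
  exact M.q_mem hT' (h ht)

theorem nonempty_face {T : Finset V} (hT : M.K T) (hne : T.Nonempty) : (M.face T).Nonempty := by
  obtain ⟨t, ht⟩ := hne
  exact ⟨_, M.q_mem hT ht⟩

theorem cov {T : Finset V} {t : V} (hT : M.K (insert t T)) (hne : T.Nonempty) (ht : t ∉ T) :
    Cov P (M.face T) (M.face (insert t T)) where
  hP := M.hP
  hF := M.isFace T (M.down _ _ (Finset.subset_insert _ _) hT) hne
  hG := M.isFace _ hT ⟨t, Finset.mem_insert_self _ _⟩
  ne := M.nonempty_face (M.down _ _ (Finset.subset_insert _ _) hT) hne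
  sub := M.face_mono hT hne (Finset.subset_insert _ _)
  dim := by
    have h1 := M.dim T (M.down _ _ (Finset.subset_insert _ _) hT) hne
    have h2 := M.dim _ hT ⟨t, Finset.mem_insert_self _ _⟩
    rw [Finset.card_insert_of_notMem ht] at h2
    omega

/-- heights -/
noncomputable def ht (T : Finset V) (t : V) : ℚ :=
  open Classical in if hT : T.Nonempty then
    - (toQ (nv P (M.face T) (M.face (insert t T))) ⬝ᵥ (M.q t - M.q hT.choose)) else 1

theorem ht_eq {T : Finset V} {t : V} (hT : M.K (insert t T)) (htT : t ∉ T) {s : V} (hs : s ∈ T) :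
    M.ht T t = - (toQ (nv P (M.face T) (M.face (insert t T))) ⬝ᵥ (M.q t - M.q s)) := by
  have hne : T.Nonempty := ⟨s, hs⟩
  have hc := M.cov hT hne htT
  rw [ht, dif_pos hne]
  have hK' := M.down _ _ (Finset.subset_insert t T) hT
  have h1 := normalCone_perp hc.hF ((hc.gen_iff _).1 hc.nv_spec).1
    (sub_mem_vs (M.q_mem hK' hs) (M.q_mem hK' hne.choose_spec))
  rw [dotProduct_sub] at h1 ⊢
  rw [dotProduct_sub]
  linarith

theorem ht_pos {T : Finset V} {t : V} (hT : M.K (insert t T)) (htT : t ∉ T) : 0 < M.ht T t := by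
  by_cases hne : T.Nonempty
  · obtain ⟨s, hs⟩ := hne
    rw [M.ht_eq hT htT hs]
    have hc := M.cov hT ⟨s, hs⟩ htT
    have := hc.gen_neg hc.nv_spec (M.q_mem (M.down _ _ (Finset.subset_insert t T) hT) hs)
      (M.q_mem hT (Finset.mem_insert_self _ _)) (M.q_notMem hT ⟨s, hs⟩ htT)
    linarith
  · rw [ht, dif_neg hne]; exact one_pos

/-- the lattice length of an edge does not depend on the end point -/
theorem edge_symm {t t' : V} (hne : t ≠ t') (hT : M.K {t, t'}) : M.ht {t} t' = M.ht {t'} t := by
  have hT1 : M.K (insert t' {t}) := by rw [Finset.pair_comm] at hT; exact hT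
  have hT2 : M.K (insert t {t'}) := hT
  have h1 : t' ∉ ({t} : Finset V) := by simpa using hne.symm
  have h2 : t ∉ ({t'} : Finset V) := by simpa using hne
  have hs1 : t ∈ ({t} : Finset V) := Finset.mem_singleton_self _
  have hs2 : t' ∈ ({t'} : Finset V) := Finset.mem_singleton_self _
  have c1 := M.cov hT1 ⟨t, hs1⟩ h1
  have c2 := M.cov hT2 ⟨t', hs2⟩ h2
  have e1 := M.ht_eq hT1 h1 hs1
  have e2 := M.ht_eq hT2 h2 hs2
  have p1 := M.ht_pos hT1 h1
  have p2 := M.ht_pos hT2 h2
  have hG : M.face (insert t' {t}) = M.face (insert t {t'}) := by rw [Finset.pair_comm]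
  -- vertices have trivial direction space
  have d1 : ∀ m ∈ vs (M.face {t}), ∀ z : Fin d → ℚ, z ⬝ᵥ m = 0 := by
    intro m hm z
    have := M.dim {t} (M.down _ _ (by simp) hT) ⟨t, hs1⟩
    rw [Finset.card_singleton] at this
    have h3 : vs (M.face {t}) = ⊥ := Submodule.finrank_eq_zero.1 (by omega)
    rw [h3] at hm
    rw [(Submodule.mem_bot ℚ).1 hm, dotProduct_zero]
  have d2 : ∀ m ∈ vs (M.face {t'}), ∀ z : Fin d → ℚ, z ⬝ᵥ m = 0 := by
    intro m hm z
    have := M.dim {t'} (M.down _ _ (by simp) hT) ⟨t', hs2⟩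
    rw [Finset.card_singleton] at this
    have h3 : vs (M.face {t'}) = ⊥ := Submodule.finrank_eq_zero.1 (by omega)
    rw [h3] at hm
    rw [(Submodule.mem_bot ℚ).1 hm, dotProduct_zero]
  have hmem : M.q t' - M.q t ∈ vs (M.face (insert t' {t})) :=
    sub_mem_vs (M.q_mem hT1 (by simp)) (M.q_mem hT1 (by simp))
  have hmem' : M.q t' - M.q t ∈ vs (M.face (insert t {t'})) := by rw [← hG]; exact hmem
  obtain ⟨a, ha⟩ := ((c1.gen_iff _).1 c1.nv_spec).2 (nv P (M.face {t'}) (M.face (insert t {t'})))
    (fun m hm => d1 m hm _)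
  obtain ⟨b, hb⟩ := ((c2.gen_iff _).1 c2.nv_spec).2 (nv P (M.face {t}) (M.face (insert t' {t})))
    (fun m hm => d2 m hm _)
  have ea := ha _ hmem
  have eb := hb _ hmem'
  set X := toQ (nv P (M.face {t}) (M.face (insert t' {t}))) ⬝ᵥ (M.q t' - M.q t) with hX
  set Y := toQ (nv P (M.face {t'}) (M.face (insert t {t'}))) ⬝ᵥ (M.q t' - M.q t) with hY
  have e2' : M.ht {t'} t = Y := by
    rw [e2, hY, dotProduct_sub, dotProduct_sub]; ring
  rw [e1] at p1
  rw [e2'] at p2
  rw [e1, e2']
  have hab : ((a : ℚ) * b - 1) * Y = 0 := by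
    have : Y = a * (b * Y) := by rw [← eb]; exact ea
    linarith
  have hab1 : ((a * b : ℤ) : ℚ) = 1 := by
    have := (mul_eq_zero.1 hab).resolve_right p2.ne'
    push_cast; linarith
  have hab2 : a * b = 1 := by exact_mod_cast hab1
  rcases Int.mul_eq_one_iff_eq_one_or_neg_one.1 hab2 with h | h
  · rw [h.1] at ea
    push_cast at ea
    linarith
  · rw [h.1] at ea
    push_cast at ea
    linarith

theorem ht_diamond (T : Finset V) (t t' : V) (ht : t ∉ T) (ht' : t' ∉ T) (hne : t ≠ t')
    (hK : M.K (insert t (insert t' T))) :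
    M.ht T t * M.ht (insert t T) t' = M.ht T t' * M.ht (insert t' T) t := by
  have hcomm : insert t (insert t' T) = insert t' (insert t T) := Finset.insert_comm _ _ _
  have hK' : M.K (insert t' (insert t T)) := by rw [← hcomm]; exact hK
  by_cases hT : T.Nonempty
  · obtain ⟨s, hs⟩ := hT
    have ht1 : t' ∉ insert t T := by
      rw [Finset.mem_insert]; rintro (h | h)
      · exact hne h.symm
      · exact ht' h
    have ht2 : t ∉ insert t' T := by
      rw [Finset.mem_insert]; rintro (h | h)
      · exact hne h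
      · exact ht h
    have hKt : M.K (insert t T) := M.down _ _ (Finset.subset_insert _ _) hK'
    have hKt' : M.K (insert t' T) := M.down _ _ (Finset.subset_insert _ _) hK
    have c1 := M.cov hKt ⟨s, hs⟩ ht
    have c1' := M.cov hKt' ⟨s, hs⟩ ht'
    have c2 := M.cov hK' ⟨t, Finset.mem_insert_self _ _⟩ ht1
    have c2' := M.cov hK ⟨t', Finset.mem_insert_self _ _⟩ ht2
    rw [hcomm] at c2'
    have hm1 : M.q t - M.q s ∈ vs (M.face (insert t' (insert t T))) :=
      sub_mem_vs (M.q_mem hK' (by simp)) (M.q_mem hK' (by simp [hs]))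
    have hm2 : M.q t' - M.q s ∈ vs (M.face (insert t' (insert t T))) :=
      sub_mem_vs (M.q_mem hK' (by simp)) (M.q_mem hK' (by simp [hs]))
    have hD := diamond c1 c2 c1' c2' hm1 hm2
    -- evaluate
    have z1 : toQ (nv P (M.face (insert t T)) (M.face (insert t' (insert t T)))) ⬝ᵥ (M.q t - M.q s) = 0 :=
      normalCone_perp c2.hF ((c2.gen_iff _).1 c2.nv_spec).1
        (sub_mem_vs (M.q_mem hKt (by simp)) (M.q_mem hKt (by simp [hs])))
    have z2 : toQ (nv P (M.face (insert t' T)) (M.face (insert t' (insert t T)))) ⬝ᵥ (M.q t' - M.q s) = 0 :=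
      normalCone_perp c2'.hF ((c2'.gen_iff _).1 c2'.nv_spec).1
        (sub_mem_vs (M.q_mem hKt' (by simp)) (M.q_mem hKt' (by simp [hs])))
    have a1 := M.ht_eq hKt ht hs
    have a1' := M.ht_eq hKt' ht' hs
    have a2 := M.ht_eq hK' ht1 (s := s) (by simp [hs])
    have a2' := M.ht_eq hK ht2 (s := s) (by simp [hs])
    rw [hcomm] at a2'
    rw [z1, z2, zero_mul, zero_mul, zero_sub, sub_zero, abs_neg] at hD
    have p1 := M.ht_pos hKt ht
    have p1' := M.ht_pos hKt' ht'
    have p2 := M.ht_pos hK' ht1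
    have p2' := M.ht_pos hK ht2
    have b1 : toQ (nv P (M.face T) (M.face (insert t T))) ⬝ᵥ (M.q t - M.q s) = - M.ht T t := by
      rw [a1]; ring
    have b1' : toQ (nv P (M.face T) (M.face (insert t' T))) ⬝ᵥ (M.q t' - M.q s) = - M.ht T t' := by
      rw [a1']; ring
    have b2 : toQ (nv P (M.face (insert t T)) (M.face (insert t' (insert t T)))) ⬝ᵥ (M.q t' - M.q s) =
      - M.ht (insert t T) t' := by rw [a2]; ring
    have b2' : toQ (nv P (M.face (insert t' T)) (M.face (insert t' (insert t T)))) ⬝ᵥ (M.q t - M.q s) =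
      - M.ht (insert t' T) t := by rw [a2']; ring
    rw [b1, b1', b2, b2', neg_mul_neg, neg_mul_neg, abs_of_pos (mul_pos p2 p1),
      abs_of_pos (mul_pos p2' p1')] at hD
    linarith
  · rw [Finset.not_nonempty_iff_eq_empty] at hT
    subst hT
    have e0 : ∀ t : V, M.ht ∅ t = 1 := by
      intro t; rw [SimpModel.ht, dif_neg (by simp)]
    rw [e0, e0, one_mul, one_mul]
    exact M.edge_symm hne hK

end SimpModel

end Pool.Agent.Helper40.CB
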