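import Pool.Agent.Helper40.CB.Cfg
import Pool.Agent.Helper40.CB.LB

set_option autoImplicit false

namespace Pool.Agent.Helper40.CB

open Finset Matrix Module

namespace Cfg

variable {n k d : ℕ} (C : Cfg n k d)

/-- `k`-subsets -/
abbrev KS (n k : ℕ) : Type := {A : Finset (Fin n) // A.card = k}

/-- monomials in the circuits -/
noncomputable def kap (b : Multiset (Fin n × Bool)) : KS n k → ℚ := fun A => (b.map (C.κ A.1)).prod

theorem kap_cons (ρ : Fin n × Bool) (b : Multiset (Fin n × Bool)) :
    C.kap (ρ ::ₘ b) = fun A => C.κ A.1 ρ * C.kap b A := by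
  funext A; simp [kap]

/-- monomials in the plus coordinates -/
noncomputable def mp (e : Multiset (Fin n)) : KS n k → ℚ := fun A => (e.map (fun i => C.κ A.1 (i, true))).prod

theorem mp_cons (i : Fin n) (e : Multiset (Fin n)) :
    C.mp (i ::ₘ e) = fun A => C.κ A.1 (i, true) * C.mp e A := by
  funext A; simp [mp]

/-- the span of degree `j` monomials -/
def PP (j : ℕ) : Submodule ℚ (KS n k → ℚ) :=
  Submodule.span ℚ {f | ∃ b : Multiset (Fin n × Bool), b.card = j ∧ f = C.kap b}

theorem κ_b {A : Finset (Fin n)} (hA : A.card = k) : ∑ ρ, C.κ A ρ * C.b ρ = 0 :=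
  C.b_sum hA (fun _ h => C.κ_off hA h) (C.κ_sum hA)

/-- the space of affine dependencies -/
noncomputable def Kmap : (Fin n × Bool → ℚ) →ₗ[ℚ] (Fin d → ℚ) × ℚ :=
  (Fintype.linearCombination ℚ C.w).prod (Fintype.linearCombination ℚ C.b)

theorem mem_Kmap {x : Fin n × Bool → ℚ} :
    x ∈ LinearMap.ker C.Kmap ↔ ∑ ρ, x ρ • C.w ρ = 0 ∧ ∑ ρ, x ρ * C.b ρ = 0 := by
  rw [LinearMap.mem_ker, Kmap]
  show (Fintype.linearCombination ℚ C.w x, Fintype.linearCombination ℚ C.b x) = 0 ↔ _
  rw [Prod.mk_eq_zero, Fintype.linearCombination_apply, Fintype.linearCombination_apply]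
  simp only [smul_eq_mul]

/-- the plus coordinates -/
def plus : (Fin n × Bool → ℚ) →ₗ[ℚ] (Fin n → ℚ) where
  toFun x i := x (i, true)
  map_add' _ _ := rfl
  map_smul' _ _ := rfl

theorem exists_σ : ∃ σ : (Fin n → ℚ) →ₗ[ℚ] (Fin n × Bool → ℚ),
    (∀ y, σ y ∈ LinearMap.ker C.Kmap) ∧ (∀ y i, σ y (i, true) = y i) ∧
    ∀ x ∈ LinearMap.ker C.Kmap, σ (fun i => x (i, true)) = x := by
  let L : LinearMap.ker C.Kmap →ₗ[ℚ] (Fin n → ℚ) := plus.comp (LinearMap.ker C.Kmap).subtype
  have hinj : Function.Injective L := by
    rw [← LinearMap.ker_eq_bot, LinearMap.ker_eq_bot']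
    rintro ⟨x, hx⟩ h
    have h1 := C.mem_Kmap.1 hx
    apply Subtype.ext
    apply C.small_indep (B := ∅) (by have := C.hk; rw [Finset.card_empty]; omega) ?_ h1.1 h1.2
    rintro ⟨i, t⟩ hi
    cases t
    · exact absurd (by rw [mem_sgn_false]; exact Finset.notMem_empty _) hi
    · exact congrFun h i
  have hfin : finrank ℚ (Fin n → ℚ) ≤ finrank ℚ (LinearMap.ker C.Kmap) := by
    have h1 := LinearMap.finrank_range_add_finrank_ker C.Kmap
    have h2 : finrank ℚ (LinearMap.range C.Kmap) ≤ finrank ℚ ((Fin d → ℚ) × ℚ) := Submodule.finrank_le _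
    rw [finrank_prod, finrank_fintype_fun_eq_card, Fintype.card_fin, finrank_self] at h2
    rw [finrank_fintype_fun_eq_card, Fintype.card_prod, Fintype.card_fin, Fintype.card_bool] at h1
    rw [finrank_fintype_fun_eq_card, Fintype.card_fin]
    have := C.hn
    omega
  have heq : finrank ℚ (LinearMap.ker C.Kmap) = finrank ℚ (Fin n → ℚ) :=
    le_antisymm (LinearMap.finrank_le_finrank_of_injective hinj) hfin
  let E := LinearEquiv.ofInjectiveOfFinrankEq L hinj heq
  refine ⟨(LinearMap.ker C.Kmap).subtype.comp E.symm.toLinearMap, ?_, ?_, ?_⟩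
  · intro y; exact (E.symm y).2
  · intro y i
    have : L (E.symm y) = y := E.apply_symm_apply y
    exact congrFun this i
  · intro x hx
    have : E ⟨x, hx⟩ = fun i => x (i, true) := rfl
    rw [← this]
    simp

theorem exists_coeff : ∃ c : Fin n → Fin n → ℚ,
    (∀ A : KS n k, ∀ i, C.κ A.1 (i, false) = ∑ l, c i l * C.κ A.1 (l, true)) ∧
    (∀ S : Finset (Fin n), S.card < k → ∀ y : Fin n → ℚ, (∀ i, i ∉ S → y i = 0) →
      (∀ i ∈ S, ∑ l, c i l * y l = 0) → y = 0) := by
  obtain ⟨σ, h1, h2, h3⟩ := C.exists_σ
  have hexp : ∀ (y : Fin n → ℚ) i, σ y (i, false) = ∑ l, σ (Pi.single l 1) (i, false) * y l := by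
    intro y i
    have : y = ∑ l, y l • Pi.single l (1 : ℚ) := by
      funext j
      simp [Finset.sum_apply, Pi.single_apply]
    conv_lhs => rw [this]
    rw [map_sum, Finset.sum_apply]
    refine Finset.sum_congr rfl fun l _ => ?_
    rw [map_smul, Pi.smul_apply, smul_eq_mul, mul_comm]
  refine ⟨fun i l => σ (Pi.single l 1) (i, false), ?_, ?_⟩
  · intro A i
    have h4 := h3 (C.κ A.1) (C.mem_Kmap.2 ⟨C.κ_sum A.2, C.κ_b A.2⟩)
    rw [← hexp (fun l => C.κ A.1 (l, true)) i, h4]
  · intro S hS y hy hz
    have h4 := C.mem_Kmap.1 (h1 y)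
    have h5 : σ y = 0 := by
      apply C.small_indep hS ?_ h4.1 h4.2
      rintro ⟨i, t⟩ hi
      cases t
      · rw [mem_sgn_false, not_not] at hi
        rw [hexp]; exact hz i hi
      · rw [mem_sgn_true] at hi
        rw [h2]; exact hy i hi
    funext i
    rw [← h2 y i, h5]; rfl

/-- left inverses on principal submatrices -/
theorem exists_left {c : Fin n → Fin n → ℚ} (S : Finset (Fin n))
    (h : ∀ y : Fin n → ℚ, (∀ i, i ∉ S → y i = 0) → (∀ i ∈ S, ∑ l, c i l * y l = 0) → y = 0)
    (l₀ : Fin n) (hl₀ : l₀ ∈ S) :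
    ∃ α : Fin n → ℚ, ∀ l ∈ S, ∑ i ∈ S, α i * c i l = if l = l₀ then 1 else 0 := by
  classical
  let M : Matrix S S ℚ := Matrix.of fun i l => c i.1 l.1
  have hinj : Function.Injective M.mulVec := by
    intro y y' hyy
    have h1 : M.mulVec (y - y') = 0 := by rw [Matrix.mulVec_sub, hyy, sub_self]
    have h2 := h (fun i => if hi : i ∈ S then (y - y') ⟨i, hi⟩ else 0) (fun i hi => dif_neg hi) (by
      intro i hi
      have h3 := congrFun h1 ⟨i, hi⟩
      rw [← Finset.sum_subset (Finset.subset_univ S)]
      · rw [← Finset.sum_coe_sort S]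
        simp only [Matrix.mulVec, dotProduct, M, Matrix.of_apply, Pi.zero_apply] at h3
        rw [← h3]
        refine Finset.sum_congr rfl fun l _ => ?_
        rw [dif_pos l.2]
      · intro l _ hl
        rw [dif_neg hl, mul_zero])
    funext i
    have h4 := congrFun h2 i.1
    simp only [i.2, dif_pos, Pi.sub_apply, Pi.zero_apply] at h4
    exact sub_eq_zero.1 h4
  have hu : IsUnit M := Matrix.mulVec_injective_iff_isUnit.1 hinj
  have hs : Function.Surjective M.vecMul := Matrix.vecMul_surjective_iff_isUnit.2 hu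
  obtain ⟨α, hα⟩ := hs (fun l => if l.1 = l₀ then 1 else 0)
  refine ⟨fun i => if hi : i ∈ S then α ⟨i, hi⟩ else 0, ?_⟩
  intro l hl
  have h1 := congrFun hα ⟨l, hl⟩
  simp only at h1
  rw [← h1, ← Finset.sum_coe_sort S]
  simp only [Matrix.vecMul, dotProduct, M, Matrix.of_apply]
  refine Finset.sum_congr rfl fun i _ => ?_
  rw [dif_pos i.2]

theorem κ_mul {A : Finset (Fin n)} (hA : A.card = k) (i : Fin n) :
    C.κ A (i, true) * C.κ A (i, false) = 0 := by
  by_cases h : i ∈ A
  · rw [C.κ_off hA (ρ := (i, false)) (by rw [mem_sgn_false, not_not]; exact h), mul_zero]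
  · rw [C.κ_off hA (ρ := (i, true)) (by rw [mem_sgn_true]; exact h), zero_mul]

/-- squarefree span -/
noncomputable def Sq (j : ℕ) : Submodule ℚ (KS n k → ℚ) :=
  Submodule.span ℚ (((powersetCard j (univ : Finset (Fin n))).image (fun S => C.mp S.val) : Finset _) : Set _)

theorem mp_mem_Sq (j : ℕ) (hj : j ≤ k) : ∀ e : Multiset (Fin n), e.card = j → C.mp e ∈ C.Sq j := by
  classical
  obtain ⟨c, hc1, hc2⟩ := C.exists_coeff
  have key : ∀ m : ℕ, ∀ e : Multiset (Fin n), e.card = j → j - e.toFinset.card ≤ m → C.mp e ∈ C.Sq j := by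
    intro m
    induction m with
    | zero =>
      intro e he hm
      have h1 : e.toFinset.card ≤ e.card := Multiset.toFinset_card_le e
      have h2 : e.toFinset.card = e.card := by omega
      have h3 : e.Nodup := Multiset.toFinset_card_eq_card_iff_nodup.1 h2
      refine Submodule.subset_span ?_
      rw [Finset.coe_image]
      refine ⟨e.toFinset, ?_, ?_⟩
      · rw [Finset.mem_coe, Finset.mem_powersetCard]
        exact ⟨Finset.subset_univ _, by omega⟩
      · show C.mp e.toFinset.val = C.mp e
        rw [Multiset.toFinset_val, h3.dedup]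
    | succ m ih =>
      intro e he hm
      by_cases hnd : e.Nodup
      · refine Submodule.subset_span ?_
        rw [Finset.coe_image]
        refine ⟨e.toFinset, ?_, ?_⟩
        · rw [Finset.mem_coe, Finset.mem_powersetCard]
          have := Multiset.toFinset_card_eq_card_iff_nodup.2 hnd
          exact ⟨Finset.subset_univ _, by omega⟩
        · show C.mp e.toFinset.val = C.mp e
          rw [Multiset.toFinset_val, hnd.dedup]
      · -- a repeated element
        obtain ⟨l₀, hl₀⟩ : ∃ l₀, 1 < e.count l₀ := by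
          by_contra hcon
          push Not at hcon
          exact hnd (Multiset.nodup_iff_count_le_one.2 hcon)
        have hmem : l₀ ∈ e := Multiset.count_pos.1 (by omega)
        obtain ⟨e', rfl⟩ := Multiset.exists_cons_of_mem hmem
        have hl₀' : l₀ ∈ e' := by
          rw [Multiset.count_cons_self] at hl₀
          exact Multiset.count_pos.1 (by omega)
        set S := e'.toFinset with hS
        have hScard : S.card < k := by
          have h1 : S.card ≤ e'.card := Multiset.toFinset_card_le e'
          rw [Multiset.card_cons] at he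
          omega
        obtain ⟨α, hα⟩ := exists_left S (hc2 S hScard) l₀ (Multiset.mem_toFinset.2 hl₀')
        -- relations
        have hrel : ∀ i ∈ S, ∑ l, c i l • C.mp (l ::ₘ e') = 0 := by
          intro i hi
          obtain ⟨e'', he''⟩ := Multiset.exists_cons_of_mem (Multiset.mem_toFinset.1 hi)
          funext A
          rw [Finset.sum_apply]
          have h1 : ∀ l, (c i l • C.mp (l ::ₘ e')) A = c i l * C.κ A.1 (l, true) * C.mp e' A := by
            intro l
            rw [Pi.smul_apply, smul_eq_mul, C.mp_cons, mul_assoc]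
          simp only [h1]
          rw [← Finset.sum_mul, ← hc1 A i, he'', C.mp_cons]
          have := C.κ_mul A.2 i
          calc C.κ A.1 (i, false) * (C.κ A.1 (i, true) * C.mp e'' A)
              = (C.κ A.1 (i, true) * C.κ A.1 (i, false)) * C.mp e'' A := by ring
            _ = 0 := by rw [this, zero_mul]
        have hcomb : ∑ l, (∑ i ∈ S, α i * c i l) • C.mp (l ::ₘ e') = 0 := by
          have : ∑ l, (∑ i ∈ S, α i * c i l) • C.mp (l ::ₘ e') =
              ∑ i ∈ S, α i • ∑ l, c i l • C.mp (l ::ₘ e') := by
            simp only [Finset.sum_smul, Finset.smul_sum, smul_smul]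
            rw [Finset.sum_comm]
          rw [this]
          exact Finset.sum_eq_zero fun i hi => by rw [hrel i hi, smul_zero]
        rw [← Finset.sum_sdiff (Finset.subset_univ S)] at hcomb
        have h2 : ∑ l ∈ S, (∑ i ∈ S, α i * c i l) • C.mp (l ::ₘ e') = C.mp (l₀ ::ₘ e') := by
          rw [Finset.sum_eq_single l₀]
          · rw [hα l₀ (Multiset.mem_toFinset.2 hl₀'), if_pos rfl, one_smul]
          · intro l hl hne
            rw [hα l hl, if_neg hne, zero_smul]
          · intro h; exact absurd (Multiset.mem_toFinset.2 hl₀') h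
        rw [h2] at hcomb
        rw [eq_neg_of_add_eq_zero_right hcomb]
        refine Submodule.neg_mem _ (Submodule.sum_mem _ fun l hl => Submodule.smul_mem _ _ ?_)
        have hlS : l ∉ S := (Finset.mem_sdiff.1 hl).2
        apply ih
        · rw [Multiset.card_cons] at he ⊢; exact he
        · have h3 : (l ::ₘ e').toFinset.card = S.card + 1 := by
            rw [Multiset.toFinset_cons, Finset.card_insert_of_notMem hlS]
          have h4 : (l₀ ::ₘ e').toFinset.card = S.card := by
            rw [Multiset.toFinset_cons, Finset.insert_eq_of_mem (Multiset.mem_toFinset.2 hl₀')]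
          have h5 : S.card ≤ e'.card := Multiset.toFinset_card_le e'
          rw [Multiset.card_cons] at he
          omega
  intro e he
  exact key _ e he le_rfl

theorem kap_mem (b : Multiset (Fin n × Bool)) :
    C.kap b ∈ Submodule.span ℚ {f | ∃ e : Multiset (Fin n), e.card = b.card ∧ f = C.mp e} := by
  obtain ⟨c, hc1, -⟩ := C.exists_coeff
  induction b using Multiset.induction_on with
  | empty => exact Submodule.subset_span ⟨0, rfl, by funext A; simp [kap, mp]⟩
  | cons ρ b ih =>
    -- multiplication by a coordinate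
    have hmul : ∀ (g : KS n k → ℚ), g ∈ Submodule.span ℚ {f | ∃ e : Multiset (Fin n), e.card = b.card ∧ f = C.mp e} →
        ∀ i : Fin n, (fun A => C.κ A.1 (i, true) * g A) ∈
          Submodule.span ℚ {f | ∃ e : Multiset (Fin n), e.card = (ρ ::ₘ b).card ∧ f = C.mp e} := by
      intro g hg i
      induction hg using Submodule.span_induction with
      | mem g hg =>
        obtain ⟨e, he, rfl⟩ := hg
        refine Submodule.subset_span ⟨i ::ₘ e, by rw [Multiset.card_cons, Multiset.card_cons, he], ?_⟩
        rw [C.mp_cons]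
      | zero =>
        have : (fun A : KS n k => C.κ A.1 (i, true) * (0 : KS n k → ℚ) A) = 0 := by
          funext A; simp
        rw [this]; exact Submodule.zero_mem _
      | add x y _ _ hx hy =>
        have : (fun A : KS n k => C.κ A.1 (i, true) * (x + y) A) =
          (fun A => C.κ A.1 (i, true) * x A) + (fun A => C.κ A.1 (i, true) * y A) := by
          funext A; simp [mul_add]
        rw [this]; exact Submodule.add_mem _ hx hy
      | smul r x _ hx =>
        have : (fun A : KS n k => C.κ A.1 (i, true) * (r • x) A) =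
          r • (fun A => C.κ A.1 (i, true) * x A) := by
          funext A; simp; ring
        rw [this]; exact Submodule.smul_mem _ _ hx
    obtain ⟨i, t⟩ := ρ
    rw [C.kap_cons]
    cases t
    · have : (fun A : KS n k => C.κ A.1 (i, false) * C.kap b A) =
          ∑ l, c i l • (fun A : KS n k => C.κ A.1 (l, true) * C.kap b A) := by
        funext A
        rw [Finset.sum_apply, hc1 A i, Finset.sum_mul]
        refine Finset.sum_congr rfl fun l _ => ?_
        rw [Pi.smul_apply, smul_eq_mul, mul_assoc]
      rw [this]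
      exact Submodule.sum_mem _ fun l _ => Submodule.smul_mem _ _ (hmul _ ih l)
    · exact hmul _ ih i

theorem finrank_PP (j : ℕ) (hj : j ≤ k) : finrank ℚ (C.PP j) = n.choose j := by
  classical
  apply le_antisymm
  · have h1 : C.PP j ≤ C.Sq j := by
      refine Submodule.span_le.2 ?_
      rintro f ⟨b, hb, rfl⟩
      have h2 := C.kap_mem b
      have h3 : Submodule.span ℚ {f | ∃ e : Multiset (Fin n), e.card = b.card ∧ f = C.mp e} ≤ C.Sq j := by
        refine Submodule.span_le.2 ?_
        rintro f ⟨e, he, rfl⟩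
        exact C.mp_mem_Sq j hj e (by rw [he, hb])
      exact h3 h2
    refine (Submodule.finrank_mono h1).trans ?_
    refine (finrank_span_finset_le_card _).trans ?_
    refine Finset.card_image_le.trans ?_
    rw [Finset.card_powersetCard, Finset.card_univ, Fintype.card_fin]
  · obtain ⟨m, hm1, hm2⟩ := lower_family (univ : Finset (Fin n)) k j (fun ρ A => C.κ A ρ)
      (fun A _ hA i _ => ⟨by rw [C.κ_ne_iff hA, mem_sgn_true], by rw [C.κ_ne_iff hA, mem_sgn_false]⟩)
      hj (by rw [Finset.card_univ, Fintype.card_fin]; have := C.hkn; omega)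
    -- linearly independent family
    let v : {S : Finset (Fin n) // S ∈ powersetCard j (univ : Finset (Fin n))} → C.PP j :=
      fun S => ⟨C.kap (m S.1), Submodule.subset_span ⟨m S.1, hm1 _ (Finset.mem_powersetCard.1 S.2).2, rfl⟩⟩
    have hv : LinearIndependent ℚ v := by
      rw [Fintype.linearIndependent_iff]
      intro g hg S
      let a : Finset (Fin n) → ℚ := fun T => if h : T ∈ powersetCard j (univ : Finset (Fin n)) then g ⟨T, h⟩ else 0
      have h1 := hm2 a (by
        intro A _ hA
        rw [← Finset.sum_coe_sort (powersetCard j (univ : Finset (Fin n)))]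
        have h2 := congrArg (fun q : C.PP j => (q : KS n k → ℚ) ⟨A, hA⟩) hg
        simp only [Submodule.coe_sum, Submodule.coe_smul, Finset.sum_apply, Pi.smul_apply,
          smul_eq_mul, ZeroMemClass.coe_zero, Pi.zero_apply, v] at h2
        rw [← h2]
        refine Finset.sum_congr rfl fun T _ => ?_
        simp only [a]
        rw [dif_pos T.2]
        rfl) S.1 S.2
      simp only [a] at h1
      rw [dif_pos S.2] at h1
      exact h1
    have h2 := hv.fintype_card_le_finrank
    rw [Fintype.card_coe, Finset.card_powersetCard, Finset.card_univ, Fintype.card_fin] at h2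
    exact h2

end Cfg

end Pool.Agent.Helper40.CB
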