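import Mathlib

set_option autoImplicit false

namespace Pool.Agent.Helper40.CB

open Finset Matrix

/-- A shellable simplicial complex with facets `Φ i`, restriction sets `Rr i`, and vectors `w ρ`
in `ℚ^d` which form a basis on each facet. -/
structure Sh (ι R : Type) [Fintype ι] [Fintype R] [DecidableEq R] (d : ℕ) where
  Φ : ι → Finset R
  Rr : ι → Finset R
  ht : ι → ℤ
  w : R → (Fin d → ℚ)
  card_Φ : ∀ i, (Φ i).card = d
  indep : ∀ i, ∀ x : R → ℚ, (∀ ρ, ρ ∉ Φ i → x ρ = 0) → ∑ ρ, x ρ • w ρ = 0 → x = 0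
  sub : ∀ i, Rr i ⊆ Φ i
  mono : ∀ i i', Rr i ⊆ Φ i' → i ≠ i' → ht i < ht i'
  bot : ∀ i G, G ⊆ Φ i → ∃ j, Rr j ⊆ G ∧ G ⊆ Φ j

namespace Sh

variable {ι R : Type} [Fintype ι] [Fintype R] [DecidableEq R] {d : ℕ} (S : Sh ι R d)

/-- the vectors of a facet, as a linear map -/
noncomputable def lc (i : ι) : ((S.Φ i) → ℚ) →ₗ[ℚ] (Fin d → ℚ) :=
  Fintype.linearCombination ℚ (fun ρ : S.Φ i => S.w ρ)

theorem sum_ext (i : ι) (y : (S.Φ i) → ℚ) :
    ∑ ρ, (if h : ρ ∈ S.Φ i then y ⟨ρ, h⟩ else 0) • S.w ρ = S.lc i y := by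
  rw [lc, Fintype.linearCombination_apply]
  rw [← Finset.sum_subset (Finset.subset_univ (S.Φ i))]
  · rw [← Finset.sum_coe_sort (S.Φ i)]
    refine Finset.sum_congr rfl fun ρ _ => ?_
    rw [dif_pos ρ.2]
  · intro ρ _ h
    rw [dif_neg h, zero_smul]

theorem lc_inj (i : ι) : Function.Injective (S.lc i) := by
  rw [← LinearMap.ker_eq_bot, LinearMap.ker_eq_bot']
  intro y hy
  have := S.indep i (fun ρ => if h : ρ ∈ S.Φ i then y ⟨ρ, h⟩ else 0) (fun ρ h => dif_neg h)
    (by rw [S.sum_ext, hy])
  funext ρ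
  have h2 := congrFun this ρ.1
  simpa [ρ.2] using h2

theorem lc_surj (i : ι) : Function.Surjective (S.lc i) := by
  have h := S.lc_inj i
  have hf : Module.finrank ℚ ((S.Φ i) → ℚ) = Module.finrank ℚ (Fin d → ℚ) := by
    rw [Module.finrank_fintype_fun_eq_card, Module.finrank_fintype_fun_eq_card, Fintype.card_coe,
      S.card_Φ, Fintype.card_fin]
  exact (LinearMap.injective_iff_surjective_of_finrank_eq_finrank hf).1 h

/-- coordinates in a facet -/
theorem exists_coord (i : ι) (p : Fin d → ℚ) :
    ∃ x : R → ℚ, (∀ ρ, ρ ∉ S.Φ i → x ρ = 0) ∧ ∑ ρ, x ρ • S.w ρ = p := by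
  obtain ⟨y, hy⟩ := S.lc_surj i p
  exact ⟨fun ρ => if h : ρ ∈ S.Φ i then y ⟨ρ, h⟩ else 0, fun ρ h => dif_neg h,
    by rw [S.sum_ext, hy]⟩

theorem coord_unique (i : ι) {x y : R → ℚ} (hx : ∀ ρ, ρ ∉ S.Φ i → x ρ = 0)
    (hy : ∀ ρ, ρ ∉ S.Φ i → y ρ = 0) (h : ∑ ρ, x ρ • S.w ρ = ∑ ρ, y ρ • S.w ρ) : x = y := by
  have := S.indep i (x - y) (fun ρ h => by simp [hx ρ h, hy ρ h]) (by
    simp only [Pi.sub_apply, sub_smul, Finset.sum_sub_distrib, h, sub_self])
  exact sub_eq_zero.1 this

/-- dual vectors -/
theorem exists_dual (i : ι) (f : R → ℚ) :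
    ∃ u : Fin d → ℚ, ∀ ρ ∈ S.Φ i, u ⬝ᵥ S.w ρ = f ρ := by
  -- the transpose of `lc` is surjective
  let T : (Fin d → ℚ) →ₗ[ℚ] ((S.Φ i) → ℚ) :=
    { toFun := fun u ρ => u ⬝ᵥ S.w ρ
      map_add' := fun a b => by funext ρ; simp [add_dotProduct]
      map_smul' := fun a b => by funext ρ; simp [smul_dotProduct] }
  have hinj : Function.Injective T := by
    rw [← LinearMap.ker_eq_bot, LinearMap.ker_eq_bot']
    intro u hu
    obtain ⟨y, hy⟩ := S.lc_surj i u
    have h0 : u ⬝ᵥ u = 0 := by
      have h1 : u ⬝ᵥ S.lc i y = 0 := by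
        rw [lc, Fintype.linearCombination_apply, dotProduct_sum]
        refine Finset.sum_eq_zero fun ρ _ => ?_
        rw [dotProduct_smul]
        have := congrFun hu ρ
        simp only [T, LinearMap.coe_mk, AddHom.coe_mk, Pi.zero_apply] at this
        rw [this, smul_zero]
      rwa [hy] at h1
    exact dotProduct_self_eq_zero.1 h0
  have hf : Module.finrank ℚ (Fin d → ℚ) = Module.finrank ℚ ((S.Φ i) → ℚ) := by
    rw [Module.finrank_fintype_fun_eq_card, Module.finrank_fintype_fun_eq_card, Fintype.card_coe,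
      S.card_Φ, Fintype.card_fin]
  have hs : Function.Surjective T :=
    (LinearMap.injective_iff_surjective_of_finrank_eq_finrank hf).1 hinj
  obtain ⟨u, hu⟩ := hs (fun ρ => f ρ)
  exact ⟨u, fun ρ hρ => congrFun hu ⟨ρ, hρ⟩⟩

/-- generic points exist -/
theorem exists_generic :
    ∃ p : Fin d → ℚ, ∀ i, ∀ x : R → ℚ, (∀ ρ, ρ ∉ S.Φ i → x ρ = 0) →
      ∑ ρ, x ρ • S.w ρ = p → ∀ ρ ∈ S.Φ i, x ρ ≠ 0 := by
  classical
  let H : ι × R → Submodule ℚ (Fin d → ℚ) := fun q =>
    Submodule.span ℚ (S.w '' {ρ | ρ ∈ S.Φ q.1 ∧ ρ ≠ q.2})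
  let s : Finset (Submodule ℚ (Fin d → ℚ)) :=
    (Finset.univ.filter (fun q : ι × R => q.2 ∈ S.Φ q.1)).image H
  have hs : (⊤ : Submodule ℚ (Fin d → ℚ)) ∉ s := by
    intro htop
    simp only [s, Finset.mem_image, Finset.mem_filter, Finset.mem_univ, true_and] at htop
    obtain ⟨⟨i, ρ₀⟩, hρ₀, hH⟩ := htop
    obtain ⟨u, hu⟩ := S.exists_dual i (fun ρ => if ρ = ρ₀ then 1 else 0)
    have hmem : S.w ρ₀ ∈ H (i, ρ₀) := by rw [hH]; trivial
    have hz : ∀ v ∈ H (i, ρ₀), u ⬝ᵥ v = 0 := by
      intro v hv
      induction hv using Submodule.span_induction with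
      | mem v hv =>
        obtain ⟨ρ, ⟨h1, h2⟩, rfl⟩ := hv
        rw [hu ρ h1, if_neg h2]
      | zero => simp
      | add a b _ _ ha hb => rw [dotProduct_add, ha, hb, add_zero]
      | smul c a _ ha => rw [dotProduct_smul, ha, smul_zero]
    have h1 := hz _ hmem
    rw [hu ρ₀ hρ₀, if_pos rfl] at h1
    exact one_ne_zero h1
  have hcov := Subspace.biUnion_ne_univ_of_top_notMem hs
  obtain ⟨p, hp⟩ : ∃ p, p ∉ ⋃ q ∈ s, (q : Set (Fin d → ℚ)) := by
    by_contra hcon
    push Not at hcon
    exact hcov (Set.eq_univ_of_forall hcon)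
  refine ⟨p, fun i x hx hsum ρ₀ hρ₀ h0 => hp ?_⟩
  simp only [Set.mem_iUnion]
  refine ⟨H (i, ρ₀), ?_, ?_⟩
  · simp only [s, Finset.mem_image, Finset.mem_filter, Finset.mem_univ, true_and]
    exact ⟨(i, ρ₀), hρ₀, rfl⟩
  · rw [← hsum]
    refine Submodule.sum_mem _ fun ρ _ => ?_
    by_cases h : ρ ∈ S.Φ i ∧ ρ ≠ ρ₀
    · exact Submodule.smul_mem _ _ (Submodule.subset_span ⟨ρ, h, rfl⟩)
    · have : x ρ = 0 := by
        by_cases h1 : ρ ∈ S.Φ i
        · have h2 : ρ = ρ₀ := by
            by_contra h2
            exact h ⟨h1, h2⟩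
          rw [h2, h0]
        · exact hx ρ h1
      rw [this, zero_smul]
      exact Submodule.zero_mem _

/-- the chosen generic point -/
noncomputable def p₀ : Fin d → ℚ := S.exists_generic.choose

/-- coordinates of the generic point in the facet `i` -/
noncomputable def x (i : ι) : R → ℚ := (S.exists_coord i S.p₀).choose

theorem x_off (i : ι) {ρ : R} (h : ρ ∉ S.Φ i) : S.x i ρ = 0 :=
  (S.exists_coord i S.p₀).choose_spec.1 ρ h

theorem x_sum (i : ι) : ∑ ρ, S.x i ρ • S.w ρ = S.p₀ :=
  (S.exists_coord i S.p₀).choose_spec.2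

theorem x_ne (i : ι) {ρ : R} (h : ρ ∈ S.Φ i) : S.x i ρ ≠ 0 :=
  S.exists_generic.choose_spec i (S.x i) (fun _ h => S.x_off i h) (S.x_sum i) ρ h

theorem x_ne_iff (i : ι) (ρ : R) : S.x i ρ ≠ 0 ↔ ρ ∈ S.Φ i :=
  ⟨fun h => by by_contra h2; exact h (S.x_off i h2), S.x_ne i⟩

theorem lin_rel (u : Fin d → ℚ) (i : ι) : ∑ ρ, (u ⬝ᵥ S.w ρ) * S.x i ρ = u ⬝ᵥ S.p₀ := by
  conv_rhs => rw [← S.x_sum i]
  rw [dotProduct_sum]
  refine Finset.sum_congr rfl fun ρ _ => ?_
  rw [dotProduct_smul, smul_eq_mul, mul_comm]

/-- monomials as functions on the set of facets -/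
noncomputable def mon (b : Multiset R) : ι → ℚ := fun i => (b.map (S.x i)).prod

theorem mon_zero : S.mon 0 = 1 := by
  funext i; simp [mon]

theorem mon_cons (ρ : R) (b : Multiset R) : S.mon (ρ ::ₘ b) = fun i => S.x i ρ * S.mon b i := by
  funext i; simp [mon]

theorem mon_add (b c : Multiset R) : S.mon (b + c) = S.mon b * S.mon c := by
  funext i; simp [mon]

theorem mon_ne_iff (b : Multiset R) (i : ι) : S.mon b i ≠ 0 ↔ ∀ ρ ∈ b, ρ ∈ S.Φ i := by
  simp only [mon, ne_eq, Multiset.prod_eq_zero_iff, Multiset.mem_map, not_exists, not_and]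
  refine forall₂_congr fun ρ _ => ?_
  exact S.x_ne_iff i ρ

/-- functions of degree at most `e` -/
def F (e : ℕ) : Submodule ℚ (ι → ℚ) := Submodule.span ℚ {f | ∃ b : Multiset R, b.card ≤ e ∧ f = S.mon b}

theorem mon_mem_F {b : Multiset R} {e : ℕ} (h : b.card ≤ e) : S.mon b ∈ S.F e :=
  Submodule.subset_span ⟨b, h, rfl⟩

theorem F_mono {e e' : ℕ} (h : e ≤ e') : S.F e ≤ S.F e' := by
  refine Submodule.span_mono ?_
  rintro f ⟨b, hb, rfl⟩
  exact ⟨b, hb.trans h, rfl⟩

theorem mul_mem_F {a b : ℕ} {f g : ι → ℚ} (hf : f ∈ S.F a) (hg : g ∈ S.F b) : f * g ∈ S.F (a + b) := by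
  induction hf using Submodule.span_induction with
  | mem f hf =>
    obtain ⟨m, hm, rfl⟩ := hf
    induction hg using Submodule.span_induction with
    | mem g hg =>
      obtain ⟨m', hm', rfl⟩ := hg
      rw [← S.mon_add]
      exact S.mon_mem_F (by rw [Multiset.card_add]; omega)
    | zero => simp
    | add x y _ _ hx hy => rw [mul_add]; exact Submodule.add_mem _ hx hy
    | smul c x _ hx => rw [mul_smul_comm]; exact Submodule.smul_mem _ _ hx
  | zero => simp
  | add x y _ _ hx hy => rw [add_mul]; exact Submodule.add_mem _ hx hy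
  | smul c x _ hx => rw [smul_mul_assoc]; exact Submodule.smul_mem _ _ hx

/-- the span of the basis monomials of degree at most `e` -/
def B (e : ℕ) : Submodule ℚ (ι → ℚ) :=
  Submodule.span ℚ {f | ∃ i, (S.Rr i).card ≤ e ∧ f = S.mon (S.Rr i).val}

theorem B_mono {e e' : ℕ} (h : e ≤ e') : S.B e ≤ S.B e' := by
  refine Submodule.span_mono ?_
  rintro f ⟨b, hb, rfl⟩
  exact ⟨b, hb.trans h, rfl⟩

/-- the main rewriting -/
theorem rewrite (e : ℕ) : ∀ b : Multiset R, b.card ≤ e → S.mon b ∈ S.B e := by
  classical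
  induction e with
  | zero =>
    intro b hb
    have hb0 : b = 0 := by
      rw [← Multiset.card_eq_zero]; omega
    subst hb0
    by_cases hι : Nonempty ι
    · obtain ⟨i⟩ := hι
      obtain ⟨j, hj, _⟩ := S.bot i ∅ (Finset.empty_subset _)
      have hj0 : S.Rr j = ∅ := Finset.subset_empty.1 hj
      refine Submodule.subset_span ⟨j, by rw [hj0]; simp, ?_⟩
      rw [hj0]; rfl
    · have : S.mon 0 = 0 := by
        funext i; exact (hι ⟨i⟩).elim
      rw [this]; exact Submodule.zero_mem _
  | succ e ih =>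
    -- main claim
    have key : ∀ m : ℕ, ∀ i, (Finset.univ.filter (fun j => S.ht i < S.ht j)).card ≤ m →
        ∀ b : Multiset R, b.card = e + 1 → S.Rr i ⊆ b.toFinset → b.toFinset ⊆ S.Φ i →
        S.mon b ∈ S.B (e + 1) := by
      intro m
      induction m with
      | zero =>
        intro i hi b hb h1 h2
        -- no higher facets
        by_cases hbR : b = (S.Rr i).val
        · subst hbR
          exact Submodule.subset_span ⟨i, by simpa using hb.le, rfl⟩
        · obtain ⟨ρ, b', hb', h1'⟩ : ∃ ρ b', b = ρ ::ₘ b' ∧ S.Rr i ⊆ b'.toFinset := by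
            by_cases hne : (S.Rr i).val ≤ b
            · obtain ⟨c, hc⟩ := Multiset.le_iff_exists_add.1 hne
              have hc0 : c ≠ 0 := by
                rintro rfl
                exact hbR (by simpa using hc)
              obtain ⟨ρ, hρ⟩ := Multiset.exists_mem_of_ne_zero hc0
              obtain ⟨c', rfl⟩ := Multiset.exists_cons_of_mem hρ
              refine ⟨ρ, (S.Rr i).val + c', by rw [hc, Multiset.add_cons], ?_⟩
              intro τ hτ
              rw [Multiset.mem_toFinset, Multiset.mem_add]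
              exact Or.inl hτ
            · exfalso
              apply hne
              rw [Multiset.le_iff_subset (S.Rr i).nodup]
              intro τ hτ
              exact Multiset.mem_toFinset.1 (h1 hτ)
          subst hb'
          have hρ : ρ ∈ S.Φ i := h2 (by simp)
          obtain ⟨u, hu⟩ := S.exists_dual i (fun τ => if τ = ρ then 1 else 0)
          have hrel : S.mon (ρ ::ₘ b') = (u ⬝ᵥ S.p₀) • S.mon b' -
              ∑ τ ∈ (Finset.univ \ S.Φ i), (u ⬝ᵥ S.w τ) • S.mon (τ ::ₘ b') := by
            funext i'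
            have hl := S.lin_rel u i'
            rw [← Finset.sum_sdiff (Finset.subset_univ (S.Φ i))] at hl
            have hl2 : ∑ τ ∈ S.Φ i, (u ⬝ᵥ S.w τ) * S.x i' τ = S.x i' ρ := by
              rw [Finset.sum_eq_single ρ]
              · rw [hu ρ hρ, if_pos rfl, one_mul]
              · intro τ hτ hne; rw [hu τ hτ, if_neg hne, zero_mul]
              · intro h; exact absurd hρ h
            rw [hl2] at hl
            simp only [S.mon_cons, Pi.sub_apply, Pi.smul_apply, smul_eq_mul, Finset.sum_apply]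
            rw [← hl, add_mul, Finset.sum_mul]
            have : ∀ τ, (u ⬝ᵥ S.w τ) * S.x i' τ * S.mon b' i' =
              (u ⬝ᵥ S.w τ) * (S.x i' τ * S.mon b' i') := fun τ => mul_assoc _ _ _
            simp only [this]
            ring
          rw [hrel]
          have hcard : b'.card ≤ e := by
            rw [Multiset.card_cons] at hb; omega
          refine Submodule.sub_mem _ (Submodule.smul_mem _ _ (S.B_mono (Nat.le_succ e) (ih b' hcard)))
            (Submodule.sum_mem _ fun τ hτ => Submodule.smul_mem _ _ ?_)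
          -- the term is zero
          have hz : S.mon (τ ::ₘ b') = 0 := by
            funext i'
            by_contra hne
            have hall := (S.mon_ne_iff _ i').1 hne
            have hsub : (τ ::ₘ b').toFinset ⊆ S.Φ i' := by
              intro σ hσ; exact hall σ (Multiset.mem_toFinset.1 hσ)
            have hR : S.Rr i ⊆ S.Φ i' := fun σ hσ => hsub (by
              rw [Multiset.toFinset_cons]; exact Finset.mem_insert_of_mem (h1' hσ))
            have hii : i ≠ i' := by
              rintro rfl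
              exact (Finset.mem_sdiff.1 hτ).2 (hsub (by simp))
            have hlt := S.mono i i' hR hii
            have : i' ∈ (Finset.univ.filter (fun j => S.ht i < S.ht j)) := by simp [hlt]
            have h0 : (Finset.univ.filter (fun j => S.ht i < S.ht j)) = ∅ :=
              Finset.card_eq_zero.1 (Nat.le_zero.1 hi)
            rw [h0] at this
            exact absurd this (Finset.notMem_empty _)
          rw [hz]; exact Submodule.zero_mem _
      | succ m ihm =>
        intro i hi b hb h1 h2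
        by_cases hbR : b = (S.Rr i).val
        · subst hbR
          exact Submodule.subset_span ⟨i, by simpa using hb.le, rfl⟩
        · obtain ⟨ρ, b', hb', h1'⟩ : ∃ ρ b', b = ρ ::ₘ b' ∧ S.Rr i ⊆ b'.toFinset := by
            by_cases hne : (S.Rr i).val ≤ b
            · obtain ⟨c, hc⟩ := Multiset.le_iff_exists_add.1 hne
              have hc0 : c ≠ 0 := by
                rintro rfl
                exact hbR (by simpa using hc)
              obtain ⟨ρ, hρ⟩ := Multiset.exists_mem_of_ne_zero hc0
              obtain ⟨c', rfl⟩ := Multiset.exists_cons_of_mem hρ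
              refine ⟨ρ, (S.Rr i).val + c', by rw [hc, Multiset.add_cons], ?_⟩
              intro τ hτ
              rw [Multiset.mem_toFinset, Multiset.mem_add]
              exact Or.inl hτ
            · exfalso
              apply hne
              rw [Multiset.le_iff_subset (S.Rr i).nodup]
              intro τ hτ
              exact Multiset.mem_toFinset.1 (h1 hτ)
          subst hb'
          have hρ : ρ ∈ S.Φ i := h2 (by simp)
          obtain ⟨u, hu⟩ := S.exists_dual i (fun τ => if τ = ρ then 1 else 0)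
          have hrel : S.mon (ρ ::ₘ b') = (u ⬝ᵥ S.p₀) • S.mon b' -
              ∑ τ ∈ (Finset.univ \ S.Φ i), (u ⬝ᵥ S.w τ) • S.mon (τ ::ₘ b') := by
            funext i'
            have hl := S.lin_rel u i'
            rw [← Finset.sum_sdiff (Finset.subset_univ (S.Φ i))] at hl
            have hl2 : ∑ τ ∈ S.Φ i, (u ⬝ᵥ S.w τ) * S.x i' τ = S.x i' ρ := by
              rw [Finset.sum_eq_single ρ]
              · rw [hu ρ hρ, if_pos rfl, one_mul]
              · intro τ hτ hne; rw [hu τ hτ, if_neg hne, zero_mul]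
              · intro h; exact absurd hρ h
            rw [hl2] at hl
            simp only [S.mon_cons, Pi.sub_apply, Pi.smul_apply, smul_eq_mul, Finset.sum_apply]
            rw [← hl, add_mul, Finset.sum_mul]
            have : ∀ τ, (u ⬝ᵥ S.w τ) * S.x i' τ * S.mon b' i' =
              (u ⬝ᵥ S.w τ) * (S.x i' τ * S.mon b' i') := fun τ => mul_assoc _ _ _
            simp only [this]
            ring
          rw [hrel]
          have hcard : b'.card ≤ e := by
            rw [Multiset.card_cons] at hb; omega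
          refine Submodule.sub_mem _ (Submodule.smul_mem _ _ (S.B_mono (Nat.le_succ e) (ih b' hcard)))
            (Submodule.sum_mem _ fun τ hτ => Submodule.smul_mem _ _ ?_)
          by_cases hz : S.mon (τ ::ₘ b') = 0
          · rw [hz]; exact Submodule.zero_mem _
          · obtain ⟨i', hne⟩ : ∃ i', S.mon (τ ::ₘ b') i' ≠ 0 := by
              by_contra hcon
              push Not at hcon
              exact hz (funext hcon)
            have hall := (S.mon_ne_iff _ i').1 hne
            have hsub : (τ ::ₘ b').toFinset ⊆ S.Φ i' := by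
              intro σ hσ; exact hall σ (Multiset.mem_toFinset.1 hσ)
            obtain ⟨j, hj1, hj2⟩ := S.bot i' _ hsub
            have hR : S.Rr i ⊆ S.Φ j := fun σ hσ => hj2 (by
              rw [Multiset.toFinset_cons]; exact Finset.mem_insert_of_mem (h1' hσ))
            have hii : i ≠ j := by
              rintro rfl
              exact (Finset.mem_sdiff.1 hτ).2 (hj2 (by simp))
            have hlt := S.mono i j hR hii
            refine ihm j ?_ (τ ::ₘ b') (by rw [Multiset.card_cons] at hb ⊢; omega) hj1 hj2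
            have hss : (Finset.univ.filter (fun l => S.ht j < S.ht l)) ⊂
                (Finset.univ.filter (fun l => S.ht i < S.ht l)) := by
              rw [Finset.ssubset_iff_of_subset]
              · exact ⟨j, by simp [hlt], by simp⟩
              · intro l hl
                simp only [Finset.mem_filter, Finset.mem_univ, true_and] at hl ⊢
                exact hlt.trans hl
            have := Finset.card_lt_card hss
            omega
    intro b hb
    rcases Nat.lt_or_ge b.card (e + 1) with h | h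
    · exact S.B_mono (Nat.le_succ e) (ih b (by omega))
    · have hbe : b.card = e + 1 := by omega
      by_cases hz : S.mon b = 0
      · rw [hz]; exact Submodule.zero_mem _
      · obtain ⟨i', hne⟩ : ∃ i', S.mon b i' ≠ 0 := by
          by_contra hcon
          push Not at hcon
          exact hz (funext hcon)
        have hall := (S.mon_ne_iff _ i').1 hne
        have hsub : b.toFinset ⊆ S.Φ i' := by
          intro σ hσ; exact hall σ (Multiset.mem_toFinset.1 hσ)
        obtain ⟨j, hj1, hj2⟩ := S.bot i' _ hsub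
        exact key _ j le_rfl b hbe hj1 hj2

theorem F_eq_B (e : ℕ) : S.F e = S.B e := by
  apply le_antisymm
  · refine Submodule.span_le.2 ?_
    rintro f ⟨b, hb, rfl⟩
    exact S.rewrite e b hb
  · refine Submodule.span_le.2 ?_
    rintro f ⟨i, hi, rfl⟩
    exact S.mon_mem_F (by simpa using hi)

end Sh

end Pool.Agent.Helper40.CB
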