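import Pool.Agent.Helper40.CB.Shell

set_option autoImplicit false

namespace Pool.Agent.Helper40.CB

open Finset Matrix Module

namespace Sh

variable {ι R : Type} [Fintype ι] [Fintype R] [DecidableEq R] {d : ℕ} (S : Sh ι R d)

theorem Φ_inj {i i' : ι} (h : S.Φ i ⊆ S.Φ i') : i = i' := by
  by_contra hne
  have heq : S.Φ i = S.Φ i' :=
    Finset.eq_of_subset_of_card_le h (by rw [S.card_Φ, S.card_Φ])
  have h1 := S.mono i i' ((S.sub i).trans h) hne
  have h2 := S.mono i' i (by rw [heq]; exact S.sub i') (Ne.symm hne)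
  exact absurd h1 (not_lt.2 h2.le)

theorem Rr_inj {i i' : ι} (h : S.Rr i = S.Rr i') : i = i' := by
  by_contra hne
  have h1 := S.mono i i' (by rw [h]; exact S.sub i') hne
  have h2 := S.mono i' i (by rw [← h]; exact S.sub i) (Ne.symm hne)
  exact absurd h1 (not_lt.2 h2.le)

theorem mon_Φ [DecidableEq ι] (i : ι) : S.mon (S.Φ i).val = (S.mon (S.Φ i).val i) • Pi.single i (1 : ℚ) := by
  funext i'
  by_cases h : i' = i
  · subst h; simp
  · have : S.mon (S.Φ i).val i' = 0 := by
      by_contra hne
      exact h (S.Φ_inj ((S.mon_ne_iff _ i').1 hne)).symm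
    rw [this]; simp [Pi.single_eq_of_ne h]

theorem F_d : S.F d = ⊤ := by
  classical
  rw [eq_top_iff]
  intro f _
  have : f = ∑ i, f i • Pi.single i (1 : ℚ) := by
    funext j
    simp [Finset.sum_apply, Pi.single_apply]
  rw [this]
  refine Submodule.sum_mem _ fun i _ => Submodule.smul_mem _ _ ?_
  have h1 : S.mon (S.Φ i).val ∈ S.F d := S.mon_mem_F (by
    have := S.card_Φ i
    rw [Finset.card_val]; exact this.le)
  rw [S.mon_Φ i] at h1
  have hne : S.mon (S.Φ i).val i ≠ 0 := (S.mon_ne_iff _ i).2 (fun ρ h => h)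
  have := Submodule.smul_mem _ (S.mon (S.Φ i).val i)⁻¹ h1
  rwa [smul_smul, inv_mul_cancel₀ hne, one_smul] at this

theorem Rr_card_le (i : ι) : (S.Rr i).card ≤ d := by
  exact (Finset.card_le_card (S.sub i)).trans (S.card_Φ i).le

/-- the basis functions -/
noncomputable def e (i : ι) : ι → ℚ := S.mon (S.Rr i).val

theorem li : LinearIndependent ℚ S.e := by
  apply linearIndependent_of_top_le_span_of_card_eq_finrank
  · rw [← S.F_d, S.F_eq_B]
    refine Submodule.span_mono ?_
    rintro f ⟨i, _, rfl⟩
    exact ⟨i, rfl⟩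
  · rw [finrank_fintype_fun_eq_card]

theorem finrank_F (a : ℕ) :
    finrank ℚ (S.F a) = (Finset.univ.filter (fun i => (S.Rr i).card ≤ a)).card := by
  have h0 : {f | ∃ i, (S.Rr i).card ≤ a ∧ f = S.mon (S.Rr i).val} =
      Set.range (S.e ∘ (Subtype.val : {i // (S.Rr i).card ≤ a} → ι)) := by
    ext f
    constructor
    · rintro ⟨i, hi, rfl⟩; exact ⟨⟨i, hi⟩, rfl⟩
    · rintro ⟨⟨i, hi⟩, rfl⟩; exact ⟨i, hi, rfl⟩
  have h1 : S.F a = Submodule.span ℚ (Set.range (S.e ∘ (Subtype.val : {i // (S.Rr i).card ≤ a} → ι))) := by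
    rw [S.F_eq_B, ← h0]; rfl
  rw [h1, finrank_span_eq_card (S.li.comp _ Subtype.val_injective), Fintype.card_subtype]

/-- numbers of restriction sets of size at most `a` -/
def H (a : ℕ) : ℕ := (Finset.univ.filter (fun i => (S.Rr i).card ≤ a)).card

theorem finrank_F' (a : ℕ) : finrank ℚ (S.F a) = S.H a := S.finrank_F a

theorem H_zero [Nonempty ι] : S.H 0 = 1 := by
  obtain ⟨i⟩ := ‹Nonempty ι›
  obtain ⟨j, hj, _⟩ := S.bot i ∅ (Finset.empty_subset _)
  have hj0 : S.Rr j = ∅ := Finset.subset_empty.1 hj
  rw [H, Finset.card_eq_one]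
  refine ⟨j, ?_⟩
  ext l
  simp only [Finset.mem_filter, Finset.mem_univ, true_and, Finset.mem_singleton, Nat.le_zero,
    Finset.card_eq_zero]
  constructor
  · intro h; exact S.Rr_inj (by rw [h, hj0])
  · rintro rfl; exact hj0

/-- Dehn-Sommerville and adjacency data -/
structure Good : Prop where
  sym : ∀ a b, a + b + 1 = d → S.H a + S.H b = Fintype.card ι
  adj : ∀ i, S.Rr i ≠ ∅ → ∃ i', S.ht i' < S.ht i ∧ ∃ τ : Finset R, τ.card + 1 = d ∧
    ∀ l, τ ⊆ S.Φ l ↔ (l = i ∨ l = i')

variable {S}

theorem Good.exists_I (hG : S.Good) [Nonempty ι] (hd : 1 ≤ d) :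
    ∃ c : ι → ℚ, (∀ i, c i ≠ 0) ∧ ∀ f ∈ S.F (d - 1), ∑ i, c i * f i = 0 := by
  classical
  have hsym := hG.sym (d - 1) 0 (by omega)
  rw [S.H_zero, ← S.finrank_F'] at hsym
  have hlt : S.F (d - 1) < ⊤ := by
    rw [lt_top_iff_ne_top]
    intro h
    rw [h, finrank_top, finrank_fintype_fun_eq_card] at hsym
    omega
  obtain ⟨I, hI0, hI⟩ := Submodule.exists_le_ker_of_lt_top _ hlt
  refine ⟨fun i => I (Pi.single i 1), ?_, ?_⟩
  · -- nonvanishing
    have hIf : ∀ f : ι → ℚ, I f = ∑ i, f i * I (Pi.single i 1) := by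
      intro f
      have : f = ∑ i, f i • Pi.single i (1 : ℚ) := by
        funext j
        simp [Finset.sum_apply, Pi.single_apply]
      conv_lhs => rw [this]
      simp [map_sum]
    have step : ∀ i, S.Rr i ≠ ∅ → ∃ i', S.ht i' < S.ht i ∧
        (I (Pi.single i 1) = 0 ↔ I (Pi.single i' 1) = 0) := by
      intro i hi
      obtain ⟨i', hlt', τ, hτ, hl⟩ := hG.adj i hi
      refine ⟨i', hlt', ?_⟩
      have hne : i ≠ i' := by rintro rfl; exact absurd hlt' (lt_irrefl _)
      have hmem : S.mon τ.val ∈ S.F (d - 1) := S.mon_mem_F (by rw [Finset.card_val]; omega)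
      have h0 : I (S.mon τ.val) = 0 := hI hmem
      rw [hIf] at h0
      have hsub : ∑ l, S.mon τ.val l * I (Pi.single l 1) =
          ∑ l ∈ ({i, i'} : Finset ι), S.mon τ.val l * I (Pi.single l 1) := by
        symm
        apply Finset.sum_subset (Finset.subset_univ _)
        intro l _ hl'
        have : S.mon τ.val l = 0 := by
          by_contra hne'
          have := (hl l).1 ((S.mon_ne_iff _ l).1 hne')
          exact hl' (by simpa using this)
        rw [this, zero_mul]
      rw [hsub, Finset.sum_pair hne] at h0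
      have n1 : S.mon τ.val i ≠ 0 := (S.mon_ne_iff _ i).2 (fun ρ h => (hl i).2 (Or.inl rfl) h)
      have n2 : S.mon τ.val i' ≠ 0 := (S.mon_ne_iff _ i').2 (fun ρ h => (hl i').2 (Or.inr rfl) h)
      constructor
      · intro h
        rw [h, mul_zero, zero_add] at h0
        exact (mul_eq_zero.1 h0).resolve_left n2
      · intro h
        rw [h, mul_zero, add_zero] at h0
        exact (mul_eq_zero.1 h0).resolve_left n1
    -- all are equivalent to the bottom one
    obtain ⟨i₁⟩ := ‹Nonempty ι›
    obtain ⟨j, hj, _⟩ := S.bot i₁ ∅ (Finset.empty_subset _)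
    have hj0 : S.Rr j = ∅ := Finset.subset_empty.1 hj
    have all : ∀ m : ℕ, ∀ i, (Finset.univ.filter (fun l => S.ht l < S.ht i)).card ≤ m →
        (I (Pi.single i 1) = 0 ↔ I (Pi.single j 1) = 0) := by
      intro m
      induction m with
      | zero =>
        intro i hi
        by_cases h : S.Rr i = ∅
        · rw [S.Rr_inj (h.trans hj0.symm)]
        · exfalso
          obtain ⟨i', h1, _⟩ := step i h
          have : i' ∈ (Finset.univ.filter (fun l => S.ht l < S.ht i)) := by simp [h1]
          rw [Finset.card_eq_zero.1 (Nat.le_zero.1 hi)] at this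
          exact absurd this (Finset.notMem_empty _)
      | succ m ih =>
        intro i hi
        by_cases h : S.Rr i = ∅
        · rw [S.Rr_inj (h.trans hj0.symm)]
        · obtain ⟨i', h1, h2⟩ := step i h
          rw [h2]
          apply ih
          have hss : (Finset.univ.filter (fun l => S.ht l < S.ht i')) ⊂
              (Finset.univ.filter (fun l => S.ht l < S.ht i)) := by
            rw [Finset.ssubset_iff_of_subset]
            · exact ⟨i', by simp [h1], by simp⟩
            · intro l hl
              simp only [Finset.mem_filter, Finset.mem_univ, true_and] at hl ⊢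
              exact hl.trans h1
          have := Finset.card_lt_card hss
          omega
    intro i hi
    apply hI0
    have hj' := (all _ i le_rfl).1 hi
    refine LinearMap.ext fun f => ?_
    rw [hIf]
    refine Finset.sum_eq_zero fun l _ => ?_
    rw [(all _ l le_rfl).2 hj', mul_zero]
  · intro f hf
    have h0 : I f = 0 := hI hf
    have : f = ∑ i, f i • Pi.single i (1 : ℚ) := by
      funext j
      simp [Finset.sum_apply, Pi.single_apply]
    rw [this] at h0
    simp only [map_sum, map_smul, smul_eq_mul] at h0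
    rw [← h0]
    exact Finset.sum_congr rfl fun i _ => mul_comm _ _

end Sh

section Form

variable {ι : Type} [Fintype ι]

/-- the bilinear form with weights `c` -/
noncomputable def wform (c : ι → ℚ) : LinearMap.BilinForm ℚ (ι → ℚ) :=
  LinearMap.mk₂ ℚ (fun f g => ∑ i, c i * (f i * g i))
    (fun f f' g => by simp only [Pi.add_apply]; rw [← Finset.sum_add_distrib]; exact Finset.sum_congr rfl fun i _ => by ring)
    (fun a f g => by simp only [Pi.smul_apply, smul_eq_mul, Finset.mul_sum]; exact Finset.sum_congr rfl fun i _ => by ring)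
    (fun f g g' => by simp only [Pi.add_apply]; rw [← Finset.sum_add_distrib]; exact Finset.sum_congr rfl fun i _ => by ring)
    (fun a f g => by simp only [Pi.smul_apply, smul_eq_mul, Finset.mul_sum]; exact Finset.sum_congr rfl fun i _ => by ring)

theorem wform_apply (c f g : ι → ℚ) : wform c f g = ∑ i, c i * (f i * g i) := rfl

theorem wform_symm (c f g : ι → ℚ) : wform c f g = wform c g f := by
  simp only [wform_apply]
  exact Finset.sum_congr rfl fun i _ => by ring

theorem wform_isRefl (c : ι → ℚ) : (wform c).IsRefl := by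
  intro f g h; rw [wform_symm]; exact h

theorem wform_nondeg {c : ι → ℚ} (hc : ∀ i, c i ≠ 0) : (wform c).Nondegenerate := by
  classical
  have key : ∀ f, (∀ g, wform c f g = 0) → f = 0 := by
    intro f hf
    funext i
    have := hf (Pi.single i 1)
    rw [wform_apply, Finset.sum_eq_single i] at this
    · simp only [Pi.single_eq_same, mul_one] at this
      exact (mul_eq_zero.1 this).resolve_left (hc i)
    · intro j _ hj; simp [Pi.single_eq_of_ne hj]
    · intro h; exact absurd (Finset.mem_univ i) h
  refine ⟨fun f hf => key f hf, fun f hf => key f (fun g => ?_)⟩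
  rw [wform_symm]; exact hf g

end Form

namespace Sh

variable {ι R : Type} [Fintype ι] [Fintype R] [DecidableEq R] {d : ℕ} {S : Sh ι R d}

/-- Poincare duality -/
theorem Good.orth (hG : S.Good) {c : ι → ℚ} (hc : ∀ i, c i ≠ 0)
    (hI : ∀ f ∈ S.F (d - 1), ∑ i, c i * f i = 0) {a b : ℕ} (hab : a + b + 1 = d) :
    (wform c).orthogonal (S.F a) = S.F b := by
  symm
  apply Submodule.eq_of_le_of_finrank_eq
  · intro g hg
    rw [LinearMap.BilinForm.mem_orthogonal_iff]
    intro f hf
    show wform c f g = 0
    rw [wform_apply]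
    have := hI (f * g) (by
      have h := S.mul_mem_F hf hg
      have : d - 1 = a + b := by omega
      rw [this]; exact h)
    simpa using this
  · rw [LinearMap.BilinForm.finrank_orthogonal (wform_nondeg hc), finrank_fintype_fun_eq_card,
      S.finrank_F', S.finrank_F']
    have := hG.sym a b hab
    omega

end Sh

end Pool.Agent.Helper40.CB
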