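import Pool.Agent.Helper40.CB.Shell2

set_option autoImplicit false

namespace Pool.Agent.Helper40.CB

open Finset Matrix Module

theorem finrank_map_mkQ {V : Type} [AddCommGroup V] [Module ℚ V] [FiniteDimensional ℚ V]
    {A B : Submodule ℚ V} (h : A ≤ B) :
    finrank ℚ (B.map A.mkQ) + finrank ℚ A = finrank ℚ B := by
  have h1 := LinearMap.finrank_range_add_finrank_ker (A.mkQ.comp B.subtype)
  have h2 : LinearMap.range (A.mkQ.comp B.subtype) = B.map A.mkQ := by
    rw [LinearMap.range_comp, Submodule.range_subtype]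
  have h3 : LinearMap.ker (A.mkQ.comp B.subtype) = A.comap B.subtype := by
    rw [LinearMap.ker_comp, Submodule.ker_mkQ]
  have h4 : finrank ℚ (A.comap B.subtype) = finrank ℚ A :=
    (Submodule.comapSubtypeEquivOfLe h).finrank_eq
  rw [h2, h3, h4] at h1
  exact h1

namespace Sh

variable {ι R : Type} [Fintype ι] [Fintype R] [DecidableEq R] {d : ℕ} (S : Sh ι R d)

theorem sq_rewrite {W : Type} [AddCommGroup W] [Module ℚ W] (T : Submodule ℚ W)
    (g : Finset R → W) (e : ℕ)
    (h0 : ∀ G, G.card = e → (¬ ∃ i, G ⊆ S.Φ i) → g G = 0)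
    (hrel : ∀ (τ : Finset R) (u : Fin d → ℚ), (∃ i, τ ⊆ S.Φ i) → τ.card + 1 = e →
      (∀ ρ ∈ τ, u ⬝ᵥ S.w ρ = 0) → ∑ ρ ∈ univ \ τ, (u ⬝ᵥ S.w ρ) • g (insert ρ τ) = 0)
    (hR : ∀ i, (S.Rr i).card = e → g (S.Rr i) ∈ T) :
    ∀ G, G.card = e → g G ∈ T := by
  classical
  have key : ∀ m : ℕ, ∀ i, (Finset.univ.filter (fun j => S.ht i < S.ht j)).card ≤ m →
      ∀ G : Finset R, G.card = e → S.Rr i ⊆ G → G ⊆ S.Φ i → g G ∈ T := by
    intro m
    induction m using Nat.strong_induction_on with
    | _ m ihm =>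
      intro i hi G hG h1 h2
      by_cases hGR : G = S.Rr i
      · rw [hGR]; exact hR i (by rw [← hGR]; exact hG)
      · obtain ⟨ρ, hρG, hρR⟩ : ∃ ρ ∈ G, ρ ∉ S.Rr i := by
          by_contra hcon
          push Not at hcon
          exact hGR (Finset.Subset.antisymm hcon h1)
        obtain ⟨u, hu⟩ := S.exists_dual i (fun τ => if τ = ρ then 1 else 0)
        have hτ : (G.erase ρ).card + 1 = e := by
          rw [Finset.card_erase_of_mem hρG, hG]
          have : 0 < G.card := Finset.card_pos.2 ⟨ρ, hρG⟩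
          omega
        have hr := hrel (G.erase ρ) u ⟨i, (Finset.erase_subset _ _).trans h2⟩ hτ (by
          intro σ hσ
          rw [hu σ (h2 (Finset.mem_of_mem_erase hσ)), if_neg (Finset.ne_of_mem_erase hσ)])
        have hmem : ρ ∈ univ \ G.erase ρ := by simp
        rw [← Finset.add_sum_erase _ _ hmem, hu ρ (h2 hρG), if_pos rfl, one_smul,
          Finset.insert_erase hρG] at hr
        rw [eq_neg_of_add_eq_zero_left hr]
        refine Submodule.neg_mem _ (Submodule.sum_mem _ fun σ hσ => ?_)
        simp only [Finset.mem_erase, Finset.mem_sdiff, Finset.mem_univ, true_and] at hσ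
        obtain ⟨hσρ, hσG⟩ := hσ
        by_cases hσΦ : σ ∈ S.Φ i
        · rw [hu σ hσΦ, if_neg hσρ, zero_smul]; exact Submodule.zero_mem _
        · refine Submodule.smul_mem _ _ ?_
          have hσG' : σ ∉ G.erase ρ := fun h => hσΦ (h2 (Finset.mem_of_mem_erase h))
          have hc : (insert σ (G.erase ρ)).card = e := by
            rw [Finset.card_insert_of_notMem hσG', hτ]
          by_cases hf : ∃ i', insert σ (G.erase ρ) ⊆ S.Φ i'
          · obtain ⟨i', hi'⟩ := hf
            obtain ⟨j, hj1, hj2⟩ := S.bot i' _ hi'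
            have hsub : S.Rr i ⊆ insert σ (G.erase ρ) := by
              intro κ hκ
              refine Finset.mem_insert_of_mem (Finset.mem_erase.2 ⟨?_, h1 hκ⟩)
              rintro rfl; exact hρR hκ
            have hij : i ≠ j := by
              rintro rfl
              exact hσΦ (hj2 (Finset.mem_insert_self _ _))
            have hlt := S.mono i j (hsub.trans hj2) hij
            have hss : (Finset.univ.filter (fun l => S.ht j < S.ht l)) ⊂
                (Finset.univ.filter (fun l => S.ht i < S.ht l)) := by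
              rw [Finset.ssubset_iff_of_subset]
              · exact ⟨j, by simp [hlt], by simp⟩
              · intro l hl
                simp only [Finset.mem_filter, Finset.mem_univ, true_and] at hl ⊢
                exact hlt.trans hl
            have hcl := Finset.card_lt_card hss
            exact ihm _ (lt_of_lt_of_le hcl hi) j le_rfl _ hc hj1 hj2
          · rw [h0 _ hc hf]; exact Submodule.zero_mem _
  intro G hG
  by_cases hf : ∃ i, G ⊆ S.Φ i
  · obtain ⟨i, hi⟩ := hf
    obtain ⟨j, hj1, hj2⟩ := S.bot i G hi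
    exact key _ j le_rfl G hG hj1 hj2
  · rw [h0 G hG hf]; exact Submodule.zero_mem _

/-- generators: faces of size `e` which are not new -/
abbrev Gen (nw : Finset R → Prop) (e : ℕ) : Type :=
  {G : Finset R // (∃ i, G ⊆ S.Φ i) ∧ ¬ nw G ∧ G.card = e}

/-- the relation vectors -/
def relSet (nw : Finset R → Prop) (e : ℕ) : Set (S.Gen nw e → ℚ) :=
  {r | ∃ τ : Finset R, (∃ i, τ ⊆ S.Φ i) ∧ ¬ nw τ ∧ τ.card + 1 = e ∧
    ∃ u : Fin d → ℚ, (∀ ρ ∈ τ, u ⬝ᵥ S.w ρ = 0) ∧
    ∀ G : S.Gen nw e, r G = if τ ⊆ G.1 then u ⬝ᵥ (∑ ρ ∈ G.1, S.w ρ) else 0}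

variable {S}

theorem exists_insert {τ G : Finset R} {e : ℕ} (hτ : τ.card + 1 = e) (hG : G.card = e)
    (h : τ ⊆ G) : ∃ σ, σ ∉ τ ∧ G = insert σ τ := by
  have h1 : (G \ τ).card = 1 := by rw [Finset.card_sdiff_of_subset h]; omega
  obtain ⟨σ, hσ⟩ := Finset.card_eq_one.1 h1
  refine ⟨σ, ?_, ?_⟩
  · have : σ ∈ G \ τ := by rw [hσ]; simp
    exact (Finset.mem_sdiff.1 this).2
  · rw [Finset.insert_eq, ← hσ, Finset.sdiff_union_of_subset h]

theorem dot_sum_insert {τ : Finset R} {σ : R} (hσ : σ ∉ τ) {u : Fin d → ℚ}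
    (hu : ∀ ρ ∈ τ, u ⬝ᵥ S.w ρ = 0) :
    u ⬝ᵥ (∑ ρ ∈ insert σ τ, S.w ρ) = u ⬝ᵥ S.w σ := by
  rw [Finset.sum_insert hσ, dotProduct_add, dotProduct_sum, Finset.sum_eq_zero hu, add_zero]

/-- the key inhomogeneous relation for monomials -/
theorem mon_rel (τ : Finset R) (u : Fin d → ℚ) (hu : ∀ ρ ∈ τ, u ⬝ᵥ S.w ρ = 0) :
    ∑ ρ ∈ univ \ τ, (u ⬝ᵥ S.w ρ) • S.mon (insert ρ τ).val = (u ⬝ᵥ S.p₀) • S.mon τ.val := by
  funext i
  rw [Finset.sum_apply, Pi.smul_apply, smul_eq_mul, ← S.lin_rel u i, Finset.sum_mul]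
  rw [← Finset.sum_sdiff (Finset.subset_univ τ)]
  rw [Finset.sum_eq_zero (s := τ) (fun ρ hρ => by rw [hu ρ hρ]; simp), add_zero]
  refine Finset.sum_congr rfl fun ρ hρ => ?_
  have hρ' : ρ ∉ τ := (Finset.mem_sdiff.1 hρ).2
  rw [Pi.smul_apply, smul_eq_mul, Finset.insert_val_of_notMem hρ', S.mon_cons, mul_assoc]

/-- image of a vector of coefficients -/
noncomputable def toFun (nw : Finset R → Prop) (e : ℕ) : (S.Gen nw e → ℚ) →ₗ[ℚ] (ι → ℚ) :=
  haveI : Fintype (S.Gen nw e) := Fintype.ofFinite _
  Fintype.linearCombination ℚ (fun G : S.Gen nw e => S.mon G.1.val)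

theorem toFun_apply (nw : Finset R → Prop) (e : ℕ) [Fintype (S.Gen nw e)] (z : S.Gen nw e → ℚ) :
    toFun nw e z = ∑ G, z G • S.mon G.1.val := by
  rw [toFun, Fintype.linearCombination_apply]
  exact Finset.sum_congr (by ext; simp) (fun _ _ => rfl)

theorem rel_sum {nw : Finset R → Prop} {e : ℕ} [Fintype (S.Gen nw e)]
    {W : Type} [AddCommGroup W] [Module ℚ W] (g : Finset R → W)
    {τ : Finset R} (hτ : τ.card + 1 = e) {u : Fin d → ℚ} (hu : ∀ ρ ∈ τ, u ⬝ᵥ S.w ρ = 0)
    {r : S.Gen nw e → ℚ}
    (hr : ∀ G : S.Gen nw e, r G = if τ ⊆ G.1 then u ⬝ᵥ (∑ ρ ∈ G.1, S.w ρ) else 0)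
    (hg : ∀ G, G.card = e → ¬ ((∃ i, G ⊆ S.Φ i) ∧ ¬ nw G ∧ G.card = e) → g G = 0) :
    ∑ G, r G • g G.1 = ∑ ρ ∈ univ \ τ, (u ⬝ᵥ S.w ρ) • g (insert ρ τ) := by
  classical
  symm
  -- compare sums over the faces containing τ
  have h1 : ∑ G : S.Gen nw e, r G • g G.1 =
      ∑ G ∈ Finset.univ.filter (fun G : S.Gen nw e => τ ⊆ G.1), r G • g G.1 := by
    symm
    apply Finset.sum_subset (Finset.filter_subset _ _)
    intro G _ hG
    have : ¬ τ ⊆ G.1 := fun h => hG (by simp [h])
    rw [hr G, if_neg this, zero_smul]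
  rw [h1]
  have h2 : ∑ ρ ∈ univ \ τ, (u ⬝ᵥ S.w ρ) • g (insert ρ τ) =
      ∑ ρ ∈ (univ \ τ).filter (fun ρ => (∃ i, insert ρ τ ⊆ S.Φ i) ∧ ¬ nw (insert ρ τ)),
        (u ⬝ᵥ S.w ρ) • g (insert ρ τ) := by
    symm
    apply Finset.sum_subset (Finset.filter_subset _ _)
    intro ρ hρ hn
    have hρτ : ρ ∉ τ := (Finset.mem_sdiff.1 hρ).2
    have hc : (insert ρ τ).card = e := by rw [Finset.card_insert_of_notMem hρτ, hτ]
    rw [hg _ hc, smul_zero]
    rintro ⟨ha, hb, _⟩
    exact hn (Finset.mem_filter.2 ⟨hρ, ha, hb⟩)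
  rw [h2]
  refine Finset.sum_bij (fun ρ hρ => (⟨insert ρ τ, ?_⟩ : S.Gen nw e)) ?_ ?_ ?_ ?_
  · obtain ⟨h1, h2, h3⟩ := Finset.mem_filter.1 hρ
    have hρτ : ρ ∉ τ := (Finset.mem_sdiff.1 h1).2
    exact ⟨h2, h3, by rw [Finset.card_insert_of_notMem hρτ, hτ]⟩
  · intro ρ hρ
    simp
  · intro ρ hρ ρ' hρ' h
    have h1 : insert ρ τ = insert ρ' τ := congrArg Subtype.val h
    have hρτ : ρ ∉ τ := (Finset.mem_sdiff.1 (Finset.mem_filter.1 hρ).1).2
    have : ρ ∈ insert ρ' τ := by rw [← h1]; exact Finset.mem_insert_self _ _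
    rcases Finset.mem_insert.1 this with h | h
    · exact h
    · exact absurd h hρτ
  · intro G hG
    have hGτ : τ ⊆ G.1 := (Finset.mem_filter.1 hG).2
    obtain ⟨σ, hσ, hGe⟩ := exists_insert hτ G.2.2.2 hGτ
    refine ⟨σ, ?_, Subtype.ext hGe.symm⟩
    rw [Finset.mem_filter]
    refine ⟨by simp [hσ], ?_, ?_⟩
    · rw [← hGe]; exact G.2.1
    · rw [← hGe]; exact G.2.2.1
  · intro ρ hρ
    have hρτ : ρ ∉ τ := (Finset.mem_sdiff.1 (Finset.mem_filter.1 hρ).1).2
    rw [hr, if_pos (Finset.subset_insert _ _), dot_sum_insert hρτ hu]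

/-- with no new faces: the kernel is spanned by the relations -/
theorem ker_full (e : ℕ) (he : 1 ≤ e) (z : S.Gen (fun _ => False) e → ℚ)
    (hz : toFun (fun _ => False) e z ∈ S.F (e - 1)) :
    z ∈ Submodule.span ℚ (S.relSet (fun _ => False) e) := by
  classical
  haveI : Fintype (S.Gen (fun _ => False) e) := Fintype.ofFinite _
  set Rl := Submodule.span ℚ (S.relSet (fun _ => False) e) with hRl
  let Ψ : (S.Gen (fun _ => False) e → ℚ) →ₗ[ℚ] ((ι → ℚ) ⧸ S.F (e - 1)) :=
    (S.F (e - 1)).mkQ ∘ₗ toFun (fun _ => False) e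
  have hle : Rl ≤ LinearMap.ker Ψ := by
    rw [hRl, Submodule.span_le]
    rintro r ⟨τ, hτf, -, hτ, u, hu, hr⟩
    show Ψ r = 0
    simp only [Ψ, LinearMap.comp_apply, Submodule.mkQ_apply, Submodule.Quotient.mk_eq_zero]
    rw [toFun_apply, rel_sum (fun G => S.mon G.val) hτ hu hr, mon_rel τ u hu]
    · exact Submodule.smul_mem _ _ (S.mon_mem_F (by rw [Finset.card_val]; omega))
    · intro G hG hn
      by_contra hne
      obtain ⟨i, hi⟩ : ∃ i, S.mon G.val i ≠ 0 := by
        by_contra hcon
        push Not at hcon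
        exact hne (funext hcon)
      exact hn ⟨⟨i, (S.mon_ne_iff _ i).1 hi⟩, not_false, hG⟩
  -- number of restriction sets of size e
  set he' := (Finset.univ.filter (fun i => (S.Rr i).card = e)).card with hhe
  have hHe : S.H e = S.H (e - 1) + he' := by
    rw [H, H, hhe, ← Finset.card_union_of_disjoint]
    · congr 1
      ext i
      simp only [Finset.mem_filter, Finset.mem_univ, true_and, Finset.mem_union]
      omega
    · rw [Finset.disjoint_filter]
      intro i _ h1 h2
      omega
  -- the quotient has dimension at most he'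
  have hq : finrank ℚ ((S.Gen (fun _ => False) e → ℚ) ⧸ Rl) ≤ he' := by
    let g : Finset R → ((S.Gen (fun _ => False) e → ℚ) ⧸ Rl) := fun G =>
      if h : (∃ i, G ⊆ S.Φ i) ∧ ¬ False ∧ G.card = e then
        Submodule.Quotient.mk (Pi.single (⟨G, h⟩ : S.Gen (fun _ => False) e) 1) else 0
    let T : Submodule ℚ ((S.Gen (fun _ => False) e → ℚ) ⧸ Rl) :=
      Submodule.span ℚ ((Finset.univ.filter (fun i => (S.Rr i).card = e)).image (fun i => g (S.Rr i)) : Finset _)
    have hrw := S.sq_rewrite T g e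
      (fun G _ hf => by
        simp only [g]
        rw [dif_neg]
        rintro ⟨h, _⟩
        exact hf h)
      (fun τ u hτf hτ hu => by
        let r : S.Gen (fun _ => False) e → ℚ := fun G => if τ ⊆ G.1 then u ⬝ᵥ (∑ ρ ∈ G.1, S.w ρ) else 0
        have hr : r ∈ Rl := Submodule.subset_span ⟨τ, hτf, not_false, hτ, u, hu, fun G => rfl⟩
        rw [← rel_sum (nw := fun _ => False) g hτ hu (r := r) (fun G => rfl)]
        · have : ∑ G : S.Gen (fun _ => False) e, r G • g G.1 = Submodule.Quotient.mk r := by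
            have h1 : r = ∑ G : S.Gen (fun _ => False) e, r G • Pi.single G (1 : ℚ) := by
              funext G
              simp [Finset.sum_apply, Pi.single_apply]
            conv_rhs => rw [h1]
            rw [← Submodule.mkQ_apply, map_sum]
            refine Finset.sum_congr rfl fun G _ => ?_
            rw [map_smul, Submodule.mkQ_apply]
            congr 1
            simp only [g]
            rw [dif_pos G.2]
          rw [this, Submodule.Quotient.mk_eq_zero]
          exact hr
        · intro G _ hn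
          simp only [g]
          rw [dif_neg hn])
      (fun i hi => Submodule.subset_span (by
        rw [Finset.coe_image]
        exact ⟨i, by simp [hi], rfl⟩))
    have hT : T = ⊤ := by
      rw [eq_top_iff]
      rintro q -
      obtain ⟨z, rfl⟩ := Submodule.mkQ_surjective _ q
      have h1 : z = ∑ G : S.Gen (fun _ => False) e, z G • Pi.single G (1 : ℚ) := by
        funext G
        simp [Finset.sum_apply, Pi.single_apply]
      rw [h1, map_sum]
      refine Submodule.sum_mem _ fun G _ => ?_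
      rw [map_smul]
      refine Submodule.smul_mem _ _ ?_
      have := hrw G.1 G.2.2.2
      simp only [g] at this
      rw [dif_pos G.2] at this
      exact this
    rw [← finrank_top, ← hT]
    refine (finrank_span_finset_le_card _).trans ?_
    exact Finset.card_image_le
  -- the range has dimension he'
  have hrange : LinearMap.range Ψ = (S.F e).map (S.F (e - 1)).mkQ := by
    apply le_antisymm
    · rintro _ ⟨z, rfl⟩
      refine ⟨toFun _ e z, ?_, rfl⟩
      rw [toFun_apply]
      refine Submodule.sum_mem _ fun G _ => Submodule.smul_mem _ _ (S.mon_mem_F ?_)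
      rw [Finset.card_val]; exact G.2.2.2.le
    · rw [S.F_eq_B e, Submodule.map_le_iff_le_comap, B, Submodule.span_le]
      rintro f ⟨i, hi, rfl⟩
      simp only [Submodule.comap_coe, Set.mem_preimage, SetLike.mem_coe]
      rcases Nat.lt_or_ge (S.Rr i).card e with h | h
      · have : (S.F (e - 1)).mkQ (S.mon (S.Rr i).val) = 0 := by
          rw [Submodule.mkQ_apply, Submodule.Quotient.mk_eq_zero]
          exact S.mon_mem_F (by rw [Finset.card_val]; omega)
        rw [this]; exact Submodule.zero_mem _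
      · have hce : (S.Rr i).card = e := le_antisymm hi h
        refine ⟨Pi.single ⟨S.Rr i, ⟨i, S.sub i⟩, not_false, hce⟩ 1, ?_⟩
        simp only [Ψ, LinearMap.comp_apply]
        congr 1
        rw [toFun_apply, Finset.sum_eq_single (⟨S.Rr i, ⟨i, S.sub i⟩, not_false, hce⟩ : S.Gen (fun _ => False) e)]
        · simp
        · intro G _ hG; simp [Pi.single_eq_of_ne hG]
        · intro h; exact absurd (Finset.mem_univ _) h
  have hrk : finrank ℚ (LinearMap.range Ψ) = he' := by
    rw [hrange]
    have h1 := finrank_map_mkQ (S.F_mono (Nat.sub_le e 1))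
    rw [S.finrank_F', S.finrank_F'] at h1
    omega
  -- conclude
  have hk := LinearMap.finrank_range_add_finrank_ker Ψ
  have hQ := Submodule.finrank_quotient_add_finrank Rl
  have heq : Rl = LinearMap.ker Ψ := by
    apply Submodule.eq_of_le_of_finrank_le hle
    omega
  rw [heq, LinearMap.mem_ker]
  simp only [Ψ, LinearMap.comp_apply, Submodule.mkQ_apply, Submodule.Quotient.mk_eq_zero]
  exact hz

/-- the span of the new monomials of degree `e` -/
def U (S : Sh ι R d) (nw : Finset R → Prop) (e : ℕ) : Submodule ℚ (ι → ℚ) :=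
  Submodule.span ℚ {f | ∃ G : Finset R, (∃ i, G ⊆ S.Φ i) ∧ nw G ∧ G.card = e ∧ f = S.mon G.val}

/-- dimension of the quotient by the relations, with new faces killed -/
theorem finrank_quot (nw : Finset R → Prop) (hnw : ∀ G G', G ⊆ G' → nw G → nw G')
    (e : ℕ) (he : 1 ≤ e) :
    finrank ℚ ((S.Gen nw e → ℚ) ⧸ Submodule.span ℚ (S.relSet nw e)) +
      finrank ℚ (S.F (e - 1) ⊔ S.U nw e : Submodule ℚ (ι → ℚ)) = S.H e := by
  classical
  haveI : Fintype (S.Gen nw e) := Fintype.ofFinite _
  haveI : Fintype (S.Gen (fun _ => False) e) := Fintype.ofFinite _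
  set A := (S.F (e - 1) ⊔ S.U nw e : Submodule ℚ (ι → ℚ)) with hA
  have hAle : A ≤ S.F e := by
    refine sup_le (S.F_mono (Nat.sub_le _ _)) (Submodule.span_le.2 ?_)
    rintro f ⟨G, -, -, hG, rfl⟩
    exact S.mon_mem_F (by rw [Finset.card_val]; exact hG.le)
  let Ψ : (S.Gen nw e → ℚ) →ₗ[ℚ] ((ι → ℚ) ⧸ A) := A.mkQ ∘ₗ toFun nw e
  have hker : LinearMap.ker Ψ = Submodule.span ℚ (S.relSet nw e) := by
    apply le_antisymm
    · intro z hz
      rw [LinearMap.mem_ker] at hz
      simp only [Ψ, LinearMap.comp_apply, Submodule.mkQ_apply, Submodule.Quotient.mk_eq_zero] at hz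
      obtain ⟨f, hf, v, hv, hfv⟩ := Submodule.mem_sup.1 hz
      -- v is a combination of new monomials
      have hv' : ∃ y : S.Gen (fun _ => False) e → ℚ, (∀ G, ¬ nw G.1 → y G = 0) ∧
          toFun (fun _ => False) e y = v := by
        clear hfv hz
        induction hv using Submodule.span_induction with
        | mem v hv =>
          obtain ⟨G, h1, h2, h3, rfl⟩ := hv
          refine ⟨Pi.single ⟨G, h1, not_false, h3⟩ 1, ?_, ?_⟩
          · intro G' hG'
            rw [Pi.single_eq_of_ne]
            rintro rfl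
            exact hG' h2
          · rw [toFun_apply, Finset.sum_eq_single (⟨G, h1, not_false, h3⟩ : S.Gen (fun _ => False) e)]
            · simp
            · intro G' _ hG'; simp [Pi.single_eq_of_ne hG']
            · intro h; exact absurd (Finset.mem_univ _) h
        | zero => exact ⟨0, fun _ _ => rfl, map_zero _⟩
        | add a b _ _ ha hb =>
          obtain ⟨y, hy, hy'⟩ := ha
          obtain ⟨y2, hy2, hy2'⟩ := hb
          exact ⟨y + y2, fun G hG => by rw [Pi.add_apply, hy G hG, hy2 G hG, add_zero],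
            by rw [map_add, hy', hy2']⟩
        | smul c a _ ha =>
          obtain ⟨y, hy, hy'⟩ := ha
          exact ⟨c • y, fun G hG => by rw [Pi.smul_apply, hy G hG, smul_zero],
            by rw [map_smul, hy']⟩
      obtain ⟨y, hy, hyv⟩ := hv'
      -- extend z by zero
      let z' : S.Gen (fun _ => False) e → ℚ := fun G =>
        if h : nw G.1 then 0 else z ⟨G.1, G.2.1, h, G.2.2.2⟩
      have hz' : toFun (fun _ => False) e z' = toFun nw e z := by
        rw [toFun_apply, toFun_apply]
        symm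
        have h1 : ∑ G : S.Gen (fun _ => False) e, z' G • S.mon G.1.val =
            ∑ G ∈ Finset.univ.filter (fun G : S.Gen (fun _ => False) e => ¬ nw G.1),
              z' G • S.mon G.1.val := by
          symm
          apply Finset.sum_subset (Finset.filter_subset _ _)
          intro G _ hG
          have hn : nw G.1 := by
            by_contra hn
            exact hG (by simp [hn])
          simp only [z']
          rw [dif_pos hn, zero_smul]
        rw [h1]
        refine Finset.sum_bij (fun G _ => (⟨G.1, G.2.1, not_false, G.2.2.2⟩ : S.Gen (fun _ => False) e)) ?_ ?_ ?_ ?_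
        · intro G _
          simpa using G.2.2.1
        · intro G _ G' _ h
          exact Subtype.ext (congrArg (fun q : S.Gen (fun _ => False) e => q.1) h)
        · intro G hG
          have hn : ¬ nw G.1 := (Finset.mem_filter.1 hG).2
          exact ⟨⟨G.1, G.2.1, hn, G.2.2.2⟩, Finset.mem_univ _, rfl⟩
        · intro G _
          simp only [z']
          rw [dif_neg G.2.2.1]
      have hmem : z' - y ∈ Submodule.span ℚ (S.relSet (fun _ => False) e) := by
        apply ker_full e he
        rw [map_sub, hz', hyv, ← hfv, add_sub_cancel_right]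
        exact hf
      -- project back
      let π : (S.Gen (fun _ => False) e → ℚ) →ₗ[ℚ] (S.Gen nw e → ℚ) :=
        { toFun := fun q G => q ⟨G.1, G.2.1, not_false, G.2.2.2⟩
          map_add' := fun _ _ => rfl
          map_smul' := fun _ _ => rfl }
      have hπ : z = π (z' - y) := by
        funext G
        simp only [π, LinearMap.coe_mk, AddHom.coe_mk, Pi.sub_apply, z']
        rw [dif_neg G.2.2.1, hy _ G.2.2.1, sub_zero]
      rw [hπ]
      have hle : (Submodule.span ℚ (S.relSet (fun _ => False) e)).map π ≤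
          Submodule.span ℚ (S.relSet nw e) := by
        rw [Submodule.map_span_le]
        rintro r ⟨τ, hτf, -, hτ, u, hu, hr⟩
        by_cases hn : nw τ
        · have : π r = 0 := by
            funext G
            simp only [π, LinearMap.coe_mk, AddHom.coe_mk, Pi.zero_apply]
            rw [hr, if_neg]
            intro h
            exact G.2.2.1 (hnw _ _ h hn)
          rw [this]; exact Submodule.zero_mem _
        · exact Submodule.subset_span ⟨τ, hτf, hn, hτ, u, hu, fun G => hr _⟩
      exact hle ⟨_, hmem, rfl⟩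
    · rw [Submodule.span_le]
      rintro r ⟨τ, hτf, hn, hτ, u, hu, hr⟩
      show Ψ r = 0
      simp only [Ψ, LinearMap.comp_apply, Submodule.mkQ_apply, Submodule.Quotient.mk_eq_zero]
      rw [toFun_apply]
      -- split the full relation
      let g : Finset R → ((ι → ℚ) ⧸ S.U nw e) := fun G =>
        if nw G then 0 else (S.U nw e).mkQ (S.mon G.val)
      have h1 := rel_sum (nw := nw) (e := e) g hτ hu hr (by
        intro G hG hne
        simp only [g]
        by_cases hnG : nw G
        · rw [if_pos hnG]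
        · rw [if_neg hnG]
          have : S.mon G.val = 0 := by
            by_contra hne'
            obtain ⟨i, hi⟩ : ∃ i, S.mon G.val i ≠ 0 := by
              by_contra hcon
              push Not at hcon
              exact hne' (funext hcon)
            exact hne ⟨⟨i, (S.mon_ne_iff _ i).1 hi⟩, hnG, hG⟩
          rw [this, map_zero])
      have h2 : ∑ G : S.Gen nw e, r G • g G.1 = (S.U nw e).mkQ (∑ G : S.Gen nw e, r G • S.mon G.1.val) := by
        rw [map_sum]
        refine Finset.sum_congr rfl fun G _ => ?_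
        rw [map_smul]
        simp only [g]
        rw [if_neg G.2.2.1]
      have h3 : ∑ ρ ∈ univ \ τ, (u ⬝ᵥ S.w ρ) • g (insert ρ τ) =
          (S.U nw e).mkQ (∑ ρ ∈ univ \ τ, (u ⬝ᵥ S.w ρ) • S.mon (insert ρ τ).val) := by
        rw [map_sum]
        refine Finset.sum_congr rfl fun ρ hρ => ?_
        rw [map_smul]
        simp only [g]
        by_cases hnG : nw (insert ρ τ)
        · rw [if_pos hnG]
          have : (S.U nw e).mkQ (S.mon (insert ρ τ).val) = 0 := by
            rw [Submodule.mkQ_apply, Submodule.Quotient.mk_eq_zero]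
            have hρτ : ρ ∉ τ := (Finset.mem_sdiff.1 hρ).2
            by_cases hf : ∃ i, insert ρ τ ⊆ S.Φ i
            · exact Submodule.subset_span ⟨_, hf, hnG, by rw [Finset.card_insert_of_notMem hρτ, hτ], rfl⟩
            · have : S.mon (insert ρ τ).val = 0 := by
                by_contra hne'
                obtain ⟨i, hi⟩ : ∃ i, S.mon (insert ρ τ).val i ≠ 0 := by
                  by_contra hcon
                  push Not at hcon
                  exact hne' (funext hcon)
                exact hf ⟨i, (S.mon_ne_iff _ i).1 hi⟩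
              rw [this]; exact Submodule.zero_mem _
          rw [this]
        · rw [if_neg hnG]
      rw [h2, h3, mon_rel τ u hu] at h1
      have h4 : ∑ G : S.Gen nw e, r G • S.mon G.1.val - (u ⬝ᵥ S.p₀) • S.mon τ.val ∈ S.U nw e := by
        rw [← Submodule.Quotient.mk_eq_zero, ← Submodule.mkQ_apply, map_sub, h1, sub_self]
      have h5 := Submodule.add_mem _ (Submodule.mem_sup_right (S := S.F (e - 1)) h4)
        (Submodule.mem_sup_left (T := S.U nw e) (Submodule.smul_mem _ (u ⬝ᵥ S.p₀)
          (S.mon_mem_F (b := τ.val) (e := e - 1) (by rw [Finset.card_val]; omega))))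
      rwa [sub_add_cancel] at h5
  have hrange : LinearMap.range Ψ = (S.F e).map A.mkQ := by
    apply le_antisymm
    · rintro _ ⟨z, rfl⟩
      refine ⟨toFun nw e z, ?_, rfl⟩
      rw [toFun_apply]
      refine Submodule.sum_mem _ fun G _ => Submodule.smul_mem _ _ (S.mon_mem_F ?_)
      rw [Finset.card_val]; exact G.2.2.2.le
    · rw [S.F_eq_B e, Submodule.map_le_iff_le_comap, B, Submodule.span_le]
      rintro f ⟨i, hi, rfl⟩
      simp only [Submodule.comap_coe, Set.mem_preimage, SetLike.mem_coe]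
      by_cases hz : S.mon (S.Rr i).val ∈ A
      · have : A.mkQ (S.mon (S.Rr i).val) = 0 := by
          rw [Submodule.mkQ_apply, Submodule.Quotient.mk_eq_zero]; exact hz
        rw [this]; exact Submodule.zero_mem _
      · have hce : (S.Rr i).card = e := by
          apply le_antisymm hi
          by_contra hlt
          exact hz (Submodule.mem_sup_left (S.mon_mem_F (by rw [Finset.card_val]; omega)))
        have hn : ¬ nw (S.Rr i) := fun hn =>
          hz (Submodule.mem_sup_right (Submodule.subset_span ⟨_, ⟨i, S.sub i⟩, hn, hce, rfl⟩))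
        refine ⟨Pi.single ⟨S.Rr i, ⟨i, S.sub i⟩, hn, hce⟩ 1, ?_⟩
        simp only [Ψ, LinearMap.comp_apply]
        congr 1
        rw [toFun_apply, Finset.sum_eq_single (⟨S.Rr i, ⟨i, S.sub i⟩, hn, hce⟩ : S.Gen nw e)]
        · simp
        · intro G _ hG; simp [Pi.single_eq_of_ne hG]
        · intro h; exact absurd (Finset.mem_univ _) h
  have h1 := finrank_map_mkQ hAle
  have h2 : finrank ℚ ((S.Gen nw e → ℚ) ⧸ LinearMap.ker Ψ) = finrank ℚ (LinearMap.range Ψ) :=
    (LinearMap.quotKerEquivRange Ψ).finrank_eq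
  rw [← hker, h2, hrange, h1, S.finrank_F']

end Sh

end Pool.Agent.Helper40.CB
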